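import Pool.Agent.Lib.MP_0a5b83_al_B.Shift

/-!
Axes of isometries with large minimal displacement.
-/

set_option autoImplicit false

namespace Pool.Agent.Lib.MP_0a5b83_al_B

variable {G X : Type} [Group G] [MulAction G X] {d : X → X → ℕ} {D : ℕ}

/-- The minimal displacement of `g`. -/
noncomputable def mind (d : X → X → ℕ) (g : G) : ℕ := sInf (Set.range fun z : X => d z (g • z))

theorem mind_le (d : X → X → ℕ) (g : G) (z : X) : mind d g ≤ d z (g • z) :=
  Nat.sInf_le ⟨z, rfl⟩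

theorem exists_mind [Nonempty X] (d : X → X → ℕ) (g : G) : ∃ z : X, d z (g • z) = mind d g :=
  Nat.sInf_mem (Set.range_nonempty fun z : X => d z (g • z))

/-- The set of points with almost minimal displacement. -/
def Ax (d : X → X → ℕ) (D : ℕ) (g : G) : Set X := {z | d z (g • z) ≤ mind d g + (3 * D + 1)}

theorem disp_pow_le (hd : Hyp d D) (hi : Inv G d) (g : G) (z : X) (n : ℕ) :
    d z (g ^ n • z) ≤ n * d z (g • z) := by
  induction n with
  | zero => simp [hd.self z]
  | succ n ih =>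
    have e1 : d (g ^ n • z) (g ^ (n + 1) • z) = d z (g • z) := by
      rw [pow_succ g n, mul_smul]; exact hi _ _ _
    have t := hd.tri z (g ^ n • z) (g ^ (n + 1) • z)
    rw [Nat.succ_mul]
    omega

theorem two_step_aux (hd : Hyp d D) (hi : Inv G d) {g : G} (hT : 2 * D + 2 ≤ mind d g) (z : X) :
    d z (g • z) + mind d g ≤ d z (g ^ 2 • z) + (2 * D + 1) ∧
    ∃ u, 2 * d (g • z) u + d z (g ^ 2 • z) ≤ 2 * d z (g • z) ∧
      d u (g • u) + d z (g • z) ≤ d z (g ^ 2 • z) + 2 * D + 1 := by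
  have t0 := hd.tri z (g • z) (g ^ 2 • z)
  have e0 : d (g • z) (g ^ 2 • z) = d z (g • z) := by rw [pow_two, mul_smul]; exact hi g _ _
  have e0' : d (g ^ 2 • z) (g • z) = d z (g • z) := by rw [hd.symm, e0]
  set a := d z (g • z) with ha
  set b := d z (g ^ 2 • z) with hb
  obtain ⟨ρ, hρ⟩ : ∃ ρ, ρ = min ((2 * a - b) / 2) (a / 2) := ⟨_, rfl⟩
  obtain ⟨u, h1, h2⟩ := hd.geo z (g • z) (a - ρ) (Nat.sub_le _ _)
  have hT' := mind_le d g u
  have k1 : d (g • z) (g • u) = a - ρ := by rw [hi g z u]; exact h1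
  have k2 : d (g • u) (g ^ 2 • z) = d u (g • z) := by rw [pow_two, mul_smul]; exact hi g _ _
  have s1 := hd.symm (g • u) (g ^ 2 • z)
  have s2 := hd.symm (g • u) (g • z)
  have s3 := hd.symm u (g • z)
  have s4 := hd.symm u z
  have f1 := hd.four u (g ^ 2 • z) z (g • z)
  have f2 := hd.four u (g • u) (g • z) (g ^ 2 • z)
  have s5 := hd.symm z u
  have s6 := hd.symm (g ^ 2 • z) z
  have s7 := hd.symm (g ^ 2 • z) (g • u)
  refine ⟨by omega, u, by omega, by omega⟩

theorem two_step (hd : Hyp d D) (hi : Inv G d) {g : G} (hT : 2 * D + 2 ≤ mind d g) (z : X) :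
    d z (g • z) + mind d g ≤ d z (g ^ 2 • z) + (2 * D + 1) :=
  (two_step_aux hd hi hT z).1

theorem two_step_le (hd : Hyp d D) (hi : Inv G d) [Nonempty X] (g : G) (z : X) :
    d z (g ^ 2 • z) ≤ d z (g • z) + mind d g + D := by
  by_contra hcon
  push Not at hcon
  obtain ⟨w, hw⟩ := exists_mind (X := X) d g
  obtain ⟨e, he⟩ : ∃ e, e = d z (g ^ 2 • z) - d z (g • z) - D := ⟨_, rfl⟩
  have h := growth_linear hd hi (e := e) (z := z) (g := g) (by omega) (by omega)
    (2 * d z w + 1)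
  have hle := disp_pow_le hd hi g w (2 * d z w + 1)
  have t1 := hd.tri z w (g ^ (2 * d z w + 1) • z)
  have t2 := hd.tri w (g ^ (2 * d z w + 1) • w) (g ^ (2 * d z w + 1) • z)
  have e1 : d (g ^ (2 * d z w + 1) • w) (g ^ (2 * d z w + 1) • z) = d w z := hi _ _ _
  have s1 := hd.symm w z
  rw [hw] at hle
  have he' : mind d g + 1 ≤ e := by omega
  have hmul : (mind d g + 1) * (2 * d z w + 1) ≤ e * (2 * d z w + 1) :=
    Nat.mul_le_mul_right _ he'
  rw [Nat.add_mul, Nat.mul_comm (mind d g) _] at hmul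
  omega

/-- Every point is close to a point of almost minimal displacement. -/
theorem descent (hd : Hyp d D) (hi : Inv G d) [Nonempty X] {g : G} (hT : 2 * D + 2 ≤ mind d g)
    (z : X) : ∃ u ∈ Ax d D g, 2 * d z u + mind d g ≤ d z (g • z) + 2 * D + 1 := by
  obtain ⟨h1, u, h2, h3⟩ := two_step_aux hd hi hT z
  have h4 := two_step_le hd hi g z
  refine ⟨g⁻¹ • u, ?_, ?_⟩
  · show d (g⁻¹ • u) (g • g⁻¹ • u) ≤ _
    have : d (g⁻¹ • u) (g • g⁻¹ • u) = d u (g • u) := by
      rw [smul_inv_smul, hi.left, inv_inv]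
    rw [this]
    omega
  · rw [← hi.left]
    omega

theorem growth_mind (hd : Hyp d D) (hi : Inv G d) {g : G} (hT : 3 * D + 2 ≤ mind d g) (z : X)
    (n : ℕ) : d z (g ^ n • z) + mind d g ≤ d z (g ^ (n + 1) • z) + (3 * D + 1) := by
  have h := two_step hd hi (g := g) (by omega) z
  have := growth hd hi (e := mind d g - (3 * D + 1)) (z := z) (g := g) (by omega) (by omega) n
  omega

theorem growth_linear_mind (hd : Hyp d D) (hi : Inv G d) {g : G} (hT : 3 * D + 2 ≤ mind d g)
    (z : X) (n : ℕ) : n * mind d g ≤ d z (g ^ n • z) + n * (3 * D + 1) := by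
  induction n with
  | zero => simp
  | succ n ih =>
    have := growth_mind hd hi hT z n
    rw [Nat.succ_mul, Nat.succ_mul]
    omega

/-- The axis is quasiconvex. -/
theorem ax_conv (hd : Hyp d D) (hi : Inv G d) [Nonempty X] {g : G} (hT : 2 * D + 2 ≤ mind d g)
    {p q u : X} (hp : p ∈ Ax d D g) (hq : q ∈ Ax d D g) (hu : On d 0 p q u) :
    ∃ u' ∈ Ax d D g, 2 * d u u' ≤ 7 * D + 2 := by
  obtain ⟨u', h1, h2⟩ := descent hd hi hT u
  refine ⟨u', h1, ?_⟩
  have h3 := conv hd hu (hi g p u) (hi g u q) (hi g p q)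
  have hp' : d p (g • p) ≤ mind d g + (3 * D + 1) := hp
  have hq' : d q (g • q) ≤ mind d g + (3 * D + 1) := hq
  omega

/-- On the axis one can move one step towards a given point. -/
theorem ax_step (hd : Hyp d D) (hi : Inv G d) {g : G} (hT : 2 * D + 2 ≤ mind d g)
    {p q : X} (hp : p ∈ Ax d D g) (hq : q ∈ Ax d D g) :
    ∃ h : G, (h = g ∨ h = g⁻¹) ∧ (d p (h • q) + mind d g ≤ d p q + (10 * D + 3) ∨
      d p (h • q) + d p q ≤ mind d g + (10 * D + 3)) := by
  have hp' : d p (g • p) ≤ mind d g + (3 * D + 1) := hp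
  have hq' : d q (g • q) ≤ mind d g + (3 * D + 1) := hq
  have h2 := two_step hd hi hT q
  have e1 : d (g • q) (g⁻¹ • q) = d q (g ^ 2 • q) := by
    rw [hi.right, inv_inv, hd.symm, smul_smul, pow_two]
  have e2 : d q (g⁻¹ • q) = d q (g • q) := Inv.disp_inv hd hi g q
  have e3 : d q (g • p) = d p (g⁻¹ • q) := by rw [hi.right, hd.symm]
  have e4 : d (g • q) (g • p) = d q p := hi g q p
  have f1 := hd.four p q (g • q) (g⁻¹ • q)
  have f2 := hd.four p (g • q) q (g • p)
  have s1 := hd.symm (g • q) q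
  have s2 := hd.symm q p
  have s3 := hd.symm (g⁻¹ • q) q
  have s4 := hd.symm (g • q) (g • p)
  have m1 := mind_le d g q
  by_cases hc : d p (g • q) ≤ d p (g⁻¹ • q)
  · exact ⟨g, Or.inl rfl, by omega⟩
  · exact ⟨g⁻¹, Or.inr rfl, by omega⟩

/-- Orbits of isometries with growing displacement are quasigeodesic. -/
theorem orbit_add (hd : Hyp d D) (hi : Inv G d) {e c : ℕ} {z : X} {g : G} (he : 1 ≤ e)
    (h2 : D < 2 * e) (h : d z (g • z) + D + e ≤ d z (g ^ 2 • z)) (hc : d z (g • z) ≤ e + c)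
    (j k : ℕ) : d z (g ^ j • z) + d z (g ^ k • z) ≤ d z (g ^ (j + k) • z) + c + D := by
  rcases k with _ | k
  · simp [hd.self]
    omega
  have f := hd.four z (g ^ (j + 1) • z) (g ^ j • z) (g ^ (j + (k + 1)) • z)
  have e1 : d (g ^ j • z) (g ^ (j + (k + 1)) • z) = d z (g ^ (k + 1) • z) := by
    rw [pow_add g j, mul_smul]; exact hi _ _ _
  have e2 : d (g ^ (j + 1) • z) (g ^ (j + (k + 1)) • z) = d z (g ^ k • z) := by
    rw [show j + (k + 1) = (j + 1) + k by ring, pow_add g (j + 1), mul_smul]; exact hi _ _ _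
  have e3 : d (g ^ (j + 1) • z) (g ^ j • z) = d z (g • z) := by
    rw [hd.symm, pow_succ g j, mul_smul]; exact hi _ _ _
  have g1 := growth hd hi he h j
  have g2 := growth hd hi he h k
  omega

/-- Orbits of isometries with growing displacement are quasigeodesic, integer version. -/
theorem orbit_on (hd : Hyp d D) (hi : Inv G d) {e c : ℕ} {z : X} {g : G} (he : 1 ≤ e)
    (h2 : D < 2 * e) (h : d z (g • z) + D + e ≤ d z (g ^ 2 • z)) (hc : d z (g • z) ≤ e + c)
    {i j k : ℤ} (hij : i ≤ j) (hjk : j ≤ k) :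
    On d (c + D) (g ^ i • z) (g ^ k • z) (g ^ j • z) := by
  have key : ∀ {i j : ℤ}, i ≤ j → d (g ^ i • z) (g ^ j • z) = d z (g ^ (j - i).toNat • z) := by
    intro i j hij
    have e1 : g ^ j = g ^ i * g ^ (j - i).toNat := by
      rw [← zpow_natCast g (j - i).toNat, Int.toNat_of_nonneg (by omega), ← zpow_add]
      congr 1; ring
    rw [e1, mul_smul]
    exact hi _ _ _
  unfold On
  rw [key hij, key hjk, key (hij.trans hjk)]
  have := orbit_add hd hi he h2 h hc (j - i).toNat (k - j).toNat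
  rw [show (j - i).toNat + (k - j).toNat = (k - i).toNat by omega] at this
  omega

theorem ax_orbit_on (hd : Hyp d D) (hi : Inv G d) {g : G} (hT : 5 * D + 3 ≤ mind d g) {z : X}
    {c : ℕ} (hz : d z (g • z) ≤ mind d g + c) {i j k : ℤ} (hij : i ≤ j) (hjk : j ≤ k) :
    On d (c + 4 * D + 1) (g ^ i • z) (g ^ k • z) (g ^ j • z) := by
  have h := two_step hd hi (g := g) (by omega) z
  have := orbit_on hd hi (e := mind d g - (3 * D + 1)) (c := c + 3 * D + 1) (z := z) (g := g)
    (by omega) (by omega) (by omega) (by omega) hij hjk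
  exact this.mono (by omega)

theorem dist_zpow_neg (hi : Inv G d) (g : G) (z : X) (n : ℕ) :
    d (g ^ (-(n : ℤ)) • z) z = d z (g ^ n • z) := by
  rw [hi.left, zpow_neg, inv_inv, zpow_natCast]

/-- A point of almost minimal displacement is on `(g ^ (-N) z₀, g ^ N z₀)` for all large `N`. -/
theorem ax_near_orbit (hd : Hyp d D) (hi : Inv G d) {g : G} (hT : 5 * D + 3 ≤ mind d g) {y : X}
    {c : ℕ} (hy : d y (g • y) ≤ mind d g + c) (z : X) {N : ℕ} (hN : d y z + 3 * D + c + 1 ≤ N) :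
    On d (c + 6 * D + 1) (g ^ (-(N : ℤ)) • z) (g ^ (N : ℤ) • z) y := by
  have h0 := ax_orbit_on hd hi hT hy (i := -(N : ℤ)) (j := 0) (k := N) (by omega) (by omega)
  rw [zpow_zero, one_smul] at h0
  have h1 := growth_linear_mind hd hi (g := g) (by omega) y N
  have h1' : N ≤ d y (g ^ N • y) := by
    have : N * (3 * D + 2) ≤ N * mind d g := Nat.mul_le_mul_left _ (by omega)
    rw [show 3 * D + 2 = (3 * D + 1) + 1 from rfl, Nat.mul_add, Nat.mul_one] at this
    omega
  have e1 : d (g ^ (-(N : ℤ)) • y) y = d y (g ^ N • y) := dist_zpow_neg hi g y N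
  have e2 : d y (g ^ (N : ℤ) • y) = d y (g ^ N • y) := by rw [zpow_natCast]
  have e3 : d (g ^ (-(N : ℤ)) • y) (g ^ (-(N : ℤ)) • z) = d y z := hi _ _ _
  have e4 : d (g ^ (N : ℤ) • y) (g ^ (N : ℤ) • z) = d y z := hi _ _ _
  have k1 := move_left hd h0 e3.le (by omega)
  have k2 := move_right hd k1 e4.le (by omega)
  exact k2.mono (by omega)

/-- An element commuting with `g` moves the points of the axis of `g` by at most its minimal
displacement plus a constant. -/
theorem ax_comm_disp (hd : Hyp d D) (hi : Inv G d) {g : G} (hT : 5 * D + 3 ≤ mind d g) {y : X}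
    {c : ℕ} (hy : d y (g • y) ≤ mind d g + c) {f : G} (hf : Commute f g) (z : X) :
    d y (f • y) ≤ d z (f • z) + c + 8 * D + 1 := by
  obtain ⟨N, hN⟩ : ∃ N, N = d y z + 3 * D + c + 1 := ⟨_, rfl⟩
  have h := ax_near_orbit hd hi hT hy z hN.ge
  have k := conv hd h (hi f _ _) (hi f _ _) (hi f _ _)
  have key : ∀ n : ℤ, d (g ^ n • z) (f • g ^ n • z) = d z (f • z) := by
    intro n
    have : f • g ^ n • z = g ^ n • f • z := by
      rw [smul_smul, smul_smul, (hf.zpow_right n).eq]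
    rw [this]
    exact hi _ _ _
  rw [key, key] at k
  omega

end Pool.Agent.Lib.MP_0a5b83_al_B
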