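import Pool.Agent.Lib.MP_0a5b83_al_B.ConeAdd

/-! JOB BGI : a cone-off geodesic between points with a large projection to `Y i` jumps in `Y i`. -/

set_option autoImplicit false

namespace Pool.Agent.Lib.MP_0a5b83_al_B

/-- The angle at the domain `i`. -/
noncomputable def del {X I : Type} (d : X → X → ℕ) (D : ℕ) (Y : I → Set X) (i : I) (x y : X) : ℕ :=
  tau d (Y i) x y + 2 * (21 * D + 6)

section BGIaux

variable {X I : Type} {d : X → X → ℕ} {D t θ : ℕ} {Y : I → Set X}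

theorem bgi_self (hd : Hyp d D) (i : I) (x : X) : del d D Y i x x = 2 * (21 * D + 6) := by
  unfold del
  have h1 := tau_le (d := d) (Y i) x x
  have h2 := hd.self x
  omega

theorem bgi_tri (hd : Hyp d D) (hne : ∀ i, (Y i).Nonempty) (hq : ∀ i, QC d (4 * D + 1) (Y i))
    (i : I) (x y z : X) : del d D Y i x z ≤ del d D Y i x y + del d D Y i y z := by
  unfold del
  have := tau_tri hd (hne i) (hq i) x y z
  omega

theorem bgi_step (hθ : 5 * (21 * D + 6) + 1 ≤ θ)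
    (hdom : ∀ i j, i ≠ j → ∀ y ∈ Y j, ∀ y' ∈ Y j, del d D Y i y y' ≤ θ) {p q : X}
    (h : CStep d Y p q) (i : I) (hj : ¬ (p ∈ Y i ∧ q ∈ Y i)) : del d D Y i p q ≤ θ := by
  rcases h with h | ⟨j, h1, h2⟩
  · unfold del
    have := tau_le (d := d) (Y i) p q
    omega
  · by_cases hij : i = j
    · subst hij
      exact absurd ⟨h1, h2⟩ hj
    · exact hdom i j hij p h1 q h2

theorem bgi_chain (hd : Hyp d D) (hne : ∀ i, (Y i).Nonempty) (hq : ∀ i, QC d (4 * D + 1) (Y i))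
    {P : ℕ → X} {i : I} (u : X) (a k : ℕ)
    (h : ∀ s, a ≤ s → s < a + k → del d D Y i (P s) (P (s + 1)) ≤ θ) :
    del d D Y i u (P (a + k)) ≤ del d D Y i u (P a) + k * θ := by
  induction k with
  | zero => simp
  | succ k ih =>
    have h1 := ih fun s hs hs2 => h s hs (by omega)
    have h2 := h (a + k) (by omega) (by omega)
    have h3 := bgi_tri hd hne hq i u (P (a + k)) (P (a + k + 1))
    have h4 : (k + 1) * θ = k * θ + θ := by ring
    rw [h4]
    show del d D Y i u (P (a + k + 1)) ≤ _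
    omega

theorem bgi_mid (hd : Hyp d D) (hs : Sep d) (hne : ∀ i, (Y i).Nonempty)
    (hq : ∀ i, QC d (4 * D + 1) (Y i))
    (ht : ∀ x y z, On d 0 x y z → On (dh d Y) t x y z) (hθ : 5 * (21 * D + 6) + 1 ≤ θ)
    {x y p : X} {i : I} (hxy : dh d Y x p + dh d Y p y = dh d Y x y)
    (h1 : θ < del d D Y i x p) (h2 : θ < del d D Y i p y) :
    ∃ q ∈ Y i, dh d Y p q ≤ t + 2 * (22 * D + 6) := by
  obtain ⟨q, hq1, hq2⟩ := exists_dS (d := d) (hne i) p
  obtain ⟨qx, hx1, hx2⟩ := exists_dS (d := d) (hne i) x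
  obtain ⟨qy, hy1, hy2⟩ := exists_dS (d := d) (hne i) y
  refine ⟨q, hq1, ?_⟩
  unfold del at h1 h2
  have a1 := tau_le_proj hd hx2 hq2
  have a2 := tau_le_proj hd hq2 hy2
  have b1 := proj_far hd (hq i) hx1 hq1 hx2 hq2 (by omega)
  have b2 := proj_far hd (hq i) hq1 hy1 hq2 hy2 (by omega)
  have t1 := hd.tri x qx q
  have t2 := hd.tri q qy y
  have s1 := hd.symm q p
  have c1 : On d (21 * D + 6) x p q := by unfold On; omega
  have c2 : On d (21 * D + 6) p y q := by unfold On; omega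
  have e1 := cone_add' hd hs ht c1
  have e2 := cone_add' hd hs ht c2
  unfold On at e1 e2
  have t3 := dh_tri (Y := Y) hd hs x q y
  have s2 := dh_symm (Y := Y) hd hs q p
  omega

end BGIaux

theorem bgi {X I : Type} {d : X → X → ℕ} {D t θ : ℕ} {Y : I → Set X} (hd : Hyp d D)
    (hs : Sep d) (hne : ∀ i, (Y i).Nonempty) (hq : ∀ i, QC d (4 * D + 1) (Y i))
    (ht : ∀ x y z, On d 0 x y z → On (dh d Y) t x y z) (hθ : 5 * (21 * D + 6) + 1 ≤ θ)
    (hdom : ∀ i j, i ≠ j → ∀ y ∈ Y j, ∀ y' ∈ Y j, del d D Y i y y' ≤ θ)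
    {x y : X} {N : ℕ} {P : ℕ → X} (hP : GPath d Y x y N P) {i : I}
    (hB : (2 * (t + 2 * (22 * D + 6)) + 5) * θ < del d D Y i x y) :
    ∃ s < N, P s ∈ Y i ∧ P (s + 1) ∈ Y i ∧
      del d D Y i x y ≤ del d D Y i (P s) (P (s + 1)) + (2 * (t + 2 * (22 * D + 6)) + 5) * θ := by
  classical
  set Cq := t + 2 * (22 * D + 6) with hCq
  have hθB : θ ≤ (2 * Cq + 5) * θ := Nat.le_mul_of_pos_left _ (by omega)
  -- the last point close to `x`
  obtain ⟨s1, hs1N, hs1, hs1m⟩ : ∃ s1 ≤ N, del d D Y i x (P s1) ≤ θ ∧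
      ∀ s, s1 < s → s ≤ N → θ < del d D Y i x (P s) := by
    refine ⟨Nat.findGreatest (fun s => del d D Y i x (P s) ≤ θ) N, Nat.findGreatest_le _, ?_, ?_⟩
    · exact Nat.findGreatest_spec (P := fun s => del d D Y i x (P s) ≤ θ) (Nat.zero_le N)
        (by rw [hP.zero, bgi_self hd]; omega)
    · intro s h1 h2
      exact not_le.1 (Nat.findGreatest_is_greatest (P := fun s => del d D Y i x (P s) ≤ θ) h1 h2)
  have hs1lt : s1 < N := by
    rcases Nat.lt_or_ge s1 N with h | h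
    · exact h
    · exfalso
      have : s1 = N := le_antisymm hs1N h
      rw [this, hP.last] at hs1
      omega
  have hex : ∃ s, s1 < s ∧ s ≤ N ∧ del d D Y i (P s) y ≤ θ :=
    ⟨N, hs1lt, le_rfl, by rw [hP.last, bgi_self hd]; omega⟩
  obtain ⟨s2, ⟨hs12, hs2N, hs2⟩, hs2m⟩ : ∃ s2, (s1 < s2 ∧ s2 ≤ N ∧ del d D Y i (P s2) y ≤ θ) ∧
      ∀ s, s1 < s → s < s2 → θ < del d D Y i (P s) y := by
    refine ⟨Nat.find hex, Nat.find_spec hex, ?_⟩
    intro s h1 h2
    have := Nat.find_min hex h2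
    by_contra h3
    exact this ⟨h1, h2.le.trans (Nat.find_spec hex).2.1, not_lt.1 h3⟩
  have hsum : ∀ s ≤ N, dh d Y x (P s) + dh d Y (P s) y = dh d Y x y := by
    intro s hs'
    have h1 := hP.dist hd hs (Nat.zero_le s) hs'
    have h2 := hP.dist hd hs hs' le_rfl
    have h3 := hP.len
    rw [hP.zero] at h1
    rw [hP.last] at h2
    omega
  have hmid : ∀ s, s1 < s → s < s2 → ∃ q ∈ Y i, dh d Y (P s) q ≤ Cq := by
    intro s h1 h2
    exact bgi_mid hd hs hne hq ht hθ (hsum s (by omega)) (hs1m s h1 (by omega)) (hs2m s h1 h2)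
  have hlen : s2 - s1 ≤ 2 * Cq + 3 := by
    rcases Nat.lt_or_ge s2 (s1 + 3) with h | h
    · omega
    · obtain ⟨q, hq1, hq2⟩ := hmid (s1 + 1) (by omega) (by omega)
      obtain ⟨q', hq1', hq2'⟩ := hmid (s2 - 1) (by omega) (by omega)
      have h1 := hP.dist hd hs (a := s1 + 1) (b := s2 - 1) (by omega) (by omega)
      have h2 := dh_le_one (d := d) hq1 hq1'
      have h3 := dh_tri (Y := Y) hd hs (P (s1 + 1)) q (P (s2 - 1))
      have h4 := dh_tri (Y := Y) hd hs q q' (P (s2 - 1))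
      have h5 := dh_symm (Y := Y) hd hs q' (P (s2 - 1))
      omega
  have htri := bgi_tri hd hne hq i x (P s2) y
  by_cases hj : ∃ s, s1 ≤ s ∧ s < s2 ∧ P s ∈ Y i ∧ P (s + 1) ∈ Y i
  · obtain ⟨s, h1, h2, h3, h4⟩ := hj
    refine ⟨s, by omega, h3, h4, ?_⟩
    have hother : ∀ s', s' < N → s' ≠ s → del d D Y i (P s') (P (s' + 1)) ≤ θ := by
      intro s' h5 h6
      apply bgi_step hθ hdom (hP.step s' h5)
      rintro ⟨h7, h8⟩
      rcases le_total s s' with h9 | h9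
      · exact h6 (hP.jump_unique hd hs h5 h3 h8 h9).symm
      · exact h6 (hP.jump_unique hd hs (by omega) h7 h4 h9)
    obtain ⟨k, rfl⟩ := Nat.exists_eq_add_of_le h1
    obtain ⟨l, rfl⟩ := Nat.exists_eq_add_of_le (show s1 + k + 1 ≤ s2 by omega)
    have c1 := bgi_chain hd hne hq x s1 k (P := P) (i := i) (θ := θ)
      (fun s' a1 a2 => hother s' (by omega) (by omega))
    have c2 := bgi_tri hd hne hq i x (P (s1 + k)) (P (s1 + k + 1))
    have c3 := bgi_chain hd hne hq x (s1 + k + 1) l (P := P) (i := i) (θ := θ)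
      (fun s' a1 a2 => hother s' (by omega) (by omega))
    have c4 : (k + l + 2) * θ ≤ (2 * Cq + 5) * θ := Nat.mul_le_mul_right _ (by omega)
    have c5 : (k + l + 2) * θ = k * θ + l * θ + 2 * θ := by ring
    omega
  · exfalso
    obtain ⟨k, rfl⟩ := Nat.exists_eq_add_of_le hs12.le
    have c1 := bgi_chain hd hne hq x s1 k (P := P) (i := i) (θ := θ)
      (fun s' a1 a2 => bgi_step hθ hdom (hP.step s' (by omega)) i
        (fun h => hj ⟨s', a1, a2, h.1, h.2⟩))
    have c4 : (k + 2) * θ ≤ (2 * Cq + 5) * θ := Nat.mul_le_mul_right _ (by omega)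
    have c5 : (k + 2) * θ = k * θ + 2 * θ := by ring
    omega

end Pool.Agent.Lib.MP_0a5b83_al_B
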