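import Pool.Agent.Lib.MP_0a5b83_al_B.Axis

/-! JOB CEN : centralizers of loxodromic elements are infinite cyclic. -/

set_option autoImplicit false

namespace Pool.Agent.Lib.MP_0a5b83_al_B

/-- A torsion-free group with a central cyclic subgroup of finite index is cyclic. -/
theorem isCyclic_of_central {Z : Type} [Group Z] (w : Z) (hw : ∀ z : Z, z * w = w * z)
    (hfin : (Subgroup.zpowers w).FiniteIndex) (htf : ∀ (z : Z) (n : ℕ), 1 ≤ n → z ^ n = 1 → z = 1) :
    IsCyclic Z := by
  have hle : Subgroup.zpowers w ≤ Subgroup.center Z := by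
    rw [Subgroup.zpowers_le, Subgroup.mem_center_iff]
    exact hw
  have : (Subgroup.center Z).FiniteIndex := Subgroup.finiteIndex_of_le hle
  have hcomm : ∀ a b : Z, a * b = b * a := by
    intro a b
    have hinj : Function.Injective (MonoidHom.transferCenterPow Z) := by
      rw [injective_iff_map_eq_one]
      intro z hz
      have h1 : ((MonoidHom.transferCenterPow Z z : Subgroup.center Z) : Z) = 1 := by
        rw [hz]; rfl
      rw [MonoidHom.transferCenterPow_apply] at h1
      exact htf z _ (Nat.one_le_iff_ne_zero.mpr Subgroup.FiniteIndex.index_ne_zero) h1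
    apply hinj
    rw [map_mul, map_mul]
    apply Subtype.ext
    exact (Subgroup.mem_center_iff.mp (MonoidHom.transferCenterPow Z b).2 _)
  have hk : (Subgroup.zpowers w).index ≠ 0 := Subgroup.FiniteIndex.index_ne_zero
  have : (Subgroup.zpowers w).Normal :=
    ⟨fun n hn g => by rw [hcomm g n, mul_assoc, mul_inv_cancel, mul_one]; exact hn⟩
  let φ : Z →* Subgroup.zpowers w :=
    { toFun := fun z => ⟨z ^ (Subgroup.zpowers w).index, Subgroup.pow_index_mem _ z⟩
      map_one' := by
        apply Subtype.ext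
        simp
      map_mul' := fun a b => by
        apply Subtype.ext
        exact Commute.mul_pow (hcomm a b) _ }
  have hφ : Function.Injective φ := by
    rw [injective_iff_map_eq_one]
    intro z hz
    have h1 : z ^ (Subgroup.zpowers w).index = 1 := congrArg Subtype.val hz
    exact htf z _ (Nat.one_le_iff_ne_zero.mpr hk) h1
  exact isCyclic_of_injective φ hφ

variable {G X : Type} [Group G] [MulAction G X] {d : X → X → ℕ} {D : ℕ}

/-- A loxodromic element has infinite order. -/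
theorem Lox.pow_ne (hd : Hyp d D) [Nonempty X] {Q : ℕ} {g : G} (hg : Lox d Q g) {n : ℕ}
    (hn : 1 ≤ n) : g ^ n ≠ 1 := by
  intro h
  obtain ⟨x⟩ := ‹Nonempty X›
  have := hg x n
  rw [h, one_smul, hd.self, Nat.mul_zero] at this
  omega

/-- A loxodromic element has only finitely many powers moving a given point by a bounded
amount. -/
theorem Lox.finite_pow (hd : Hyp d D) (hi : Inv G d) {Q : ℕ} {g : G} (hg : Lox d Q g) (x : X)
    (M : ℕ) : {f : G | f ∈ Subgroup.zpowers g ∧ d x (f • x) ≤ M}.Finite := by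
  apply ((Set.finite_Icc (-((Q * M : ℕ) : ℤ)) ((Q * M : ℕ) : ℤ)).image (fun k : ℤ => g ^ k)).subset
  rintro f ⟨hf, hM⟩
  obtain ⟨k, rfl⟩ := Subgroup.mem_zpowers_iff.mp hf
  refine ⟨k, ?_, rfl⟩
  have h1 : d x (g ^ k.natAbs • x) ≤ M := by
    rcases Int.natAbs_eq k with hk | hk
    · rw [hk, zpow_natCast] at hM
      exact hM
    · rw [hk, zpow_neg, zpow_natCast, Inv.disp_inv hd hi] at hM
      exact hM
  have h2 := hg x k.natAbs
  have h3 : Q * d x (g ^ k.natAbs • x) ≤ Q * M := Nat.mul_le_mul_left _ h1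
  rw [Set.mem_Icc]
  omega

theorem cen (hd : Hyp d D) (hi : Inv G d) [Nonempty X] {m Q M₀ : ℕ} (hm : 1 ≤ m)
    (hM : 7 * D + 1 ≤ M₀) (dich : ∀ g : G, g ^ m = 1 ∨ Lox d Q g)
    (nc : ∀ f u : G, f ^ m = 1 → Lox d Q u → Commute f u → f = 1)
    (fin : ∃ A, ∀ x y, A ≤ d x y →
      ({f : G | d x (f • x) ≤ M₀ ∧ d y (f • y) ≤ M₀}.Finite ∨
        ∃ h : G, ∀ f : G, d x (f • x) ≤ M₀ → d y (f • y) ≤ M₀ → f ∈ Subgroup.zpowers h))
    {u : G} (hu : Lox d Q u) :
    ∃ h : G, Lox d Q h ∧ Subgroup.centralizer {u} = Subgroup.zpowers h := by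
  have hQ : 1 ≤ Q := by
    obtain ⟨x⟩ := ‹Nonempty X›
    by_contra hcon
    have h0 : Q = 0 := by omega
    have := hu x 1
    rw [h0, Nat.zero_mul] at this
    omega
  obtain ⟨N, hN⟩ : ∃ N, N = Q * (10 * D + 5) + 1 := ⟨_, rfl⟩
  obtain ⟨w, hw⟩ : ∃ w, w = u ^ N := ⟨_, rfl⟩
  have hN1 : 1 ≤ N := by omega
  -- `w` is loxodromic
  have hwL : Lox d Q w := by
    intro x n
    have h1 := hu x (N * n)
    rw [pow_mul, ← hw] at h1
    have h2 : 1 * n ≤ N * n := Nat.mul_le_mul_right _ hN1
    omega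
  have hdisp : ∀ x : X, 10 * D + 5 ≤ d x (w • x) := by
    intro x
    by_contra hcon
    have h1 := hu x N
    rw [← hw] at h1
    have h2 : Q * d x (w • x) ≤ Q * (10 * D + 5) := Nat.mul_le_mul_left _ (by omega)
    omega
  obtain ⟨x, hx⟩ := exists_mind (X := X) d w
  obtain ⟨T, hTdef⟩ : ∃ T, T = mind d w := ⟨_, rfl⟩
  have hT : 10 * D + 5 ≤ T := by rw [hTdef, ← hx]; exact hdisp x
  rw [← hTdef] at hx
  -- facts about elements commuting with `w`
  have hcw : ∀ {f : G}, Commute f w → d (f • x) (w • f • x) = T := by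
    intro f hf
    rw [smul_smul, ← hf.eq, mul_smul, hi, hx]
  have hcj : ∀ {f : G}, Commute f w → ∀ j : ℕ, d (w ^ j • x) (f • w ^ j • x) = d x (f • x) := by
    intro f hf j
    rw [smul_smul, (hf.pow_right j).eq, mul_smul, hi]
  -- step 1
  have step1 : {f : G | Commute f w ∧ d x (f • x) ≤ M₀}.Finite := by
    obtain ⟨A, hA⟩ := fin
    have hj : A ≤ d x (w ^ (Q * A) • x) := by
      have h1 := hwL x (Q * A)
      exact Nat.le_of_mul_le_mul_left h1 (by omega)
    rcases hA x (w ^ (Q * A) • x) hj with hA | ⟨h, hh⟩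
    · apply hA.subset
      rintro f ⟨h1, h2⟩
      refine ⟨h2, ?_⟩
      rw [hcj h1]
      exact h2
    · have hsub : {f : G | Commute f w ∧ d x (f • x) ≤ M₀} ⊆
          {f : G | f ∈ Subgroup.zpowers h ∧ d x (f • x) ≤ M₀} := by
        rintro f ⟨h1, h2⟩
        refine ⟨hh f h2 ?_, h2⟩
        rw [hcj h1]
        exact h2
      refine Set.Finite.subset ?_ hsub
      rcases dich h with hh1 | hh1
      · have : (Subgroup.zpowers h : Set G).Finite := by
          have : IsOfFinOrder h := isOfFinOrder_iff_pow_eq_one.mpr ⟨m, by omega, hh1⟩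
          exact this.finite_zpowers
        exact this.subset (fun f hf => hf.1)
      · exact hh1.finite_pow hd hi x M₀
  -- step 2
  have step2 : ∀ M : ℕ, {f : G | Commute f w ∧ d x (f • x) ≤ M}.Finite := by
    intro M
    obtain ⟨n, hn⟩ : ∃ n, n = M + 3 * D + 1 := ⟨_, rfl⟩
    have hOn : ∀ f : G, Commute f w → d x (f • x) ≤ M →
        On d (6 * D + 1) (w ^ (-(n : ℤ)) • x) (w ^ (n : ℤ) • x) (f • x) := by
      intro f h1 h2
      have s := hd.symm x (f • x)
      have := ax_near_orbit hd hi (g := w) (c := 0) (y := f • x) (by omega)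
        (by rw [hcw h1, ← hTdef]; omega) x (N := n) (by omega)
      simpa using this
    refine Set.Finite.of_finite_fibers (fun f : G => d (w ^ (-(n : ℤ)) • x) (f • x)) ?_ ?_
    · apply (Set.finite_Iic (d (w ^ (-(n : ℤ)) • x) x + M)).subset
      rintro _ ⟨f, ⟨h1, h2⟩, rfl⟩
      have := hd.tri (w ^ (-(n : ℤ)) • x) x (f • x)
      simp only [Set.mem_Iic]
      omega
    · rintro _ ⟨f, ⟨h1, h2⟩, rfl⟩
      apply (step1.image (fun g => f * g)).subset
      rintro g ⟨⟨h3, h4⟩, h5⟩
      refine ⟨f⁻¹ * g, ⟨h1.inv_left.mul_left h3, ?_⟩, by simp⟩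
      have h6 : d (w ^ (-(n : ℤ)) • x) (g • x) = d (w ^ (-(n : ℤ)) • x) (f • x) := h5
      have h7 := close hd (hOn f h1 h2) (hOn g h3 h4)
      rw [mul_smul, ← hi.left]
      omega
  -- step 3
  have step3 : ∀ f : G, Commute f w → ∃ k : ℤ, d x (w ^ k • f • x) ≤ T := by
    intro f hf
    obtain ⟨k, hk⟩ : ∃ k : ℤ, ∀ l : ℤ, d x (w ^ k • f • x) ≤ d x (w ^ l • f • x) := by
      have hne : (Set.range fun k : ℤ => d x (w ^ k • f • x)).Nonempty := Set.range_nonempty _
      obtain ⟨k, hk⟩ := Nat.sInf_mem hne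
      refine ⟨k, fun l => ?_⟩
      have hk' : d x (w ^ k • f • x) = sInf (Set.range fun k : ℤ => d x (w ^ k • f • x)) := hk
      rw [hk']
      exact Nat.sInf_le ⟨l, rfl⟩
    refine ⟨k, ?_⟩
    have hq : d (w ^ k • f • x) (w • w ^ k • f • x) = T := by
      have hc : Commute (w ^ k * f) w := ((Commute.refl w).zpow_left k).mul_left hf
      have := hcw hc
      simpa only [mul_smul] using this
    obtain ⟨h, hh, hor⟩ := ax_step hd hi (g := w) (p := x) (q := w ^ k • f • x) (by omega)
      (show d x (w • x) ≤ mind d w + (3 * D + 1) by omega)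
      (show d (w ^ k • f • x) (w • w ^ k • f • x) ≤ mind d w + (3 * D + 1) by omega)
    have hle : d x (w ^ k • f • x) ≤ d x (h • w ^ k • f • x) := by
      rcases hh with rfl | rfl
      · have := hk (1 + k)
        rwa [zpow_add, zpow_one, mul_smul] at this
      · have := hk (-1 + k)
        rwa [zpow_add, zpow_neg_one, mul_smul] at this
    omega
  -- step 4
  have step4 : ∀ f : G, Commute f w → ∀ j : ℕ, 1 ≤ j → f ^ j = 1 → f = 1 := by
    intro f hf j hj hfj
    rcases dich f with h | h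
    · exact nc f w h hwL hf
    · exact absurd hfj (h.pow_ne hd hj)
  -- the centralizer
  obtain ⟨Z, hZ⟩ : ∃ Z : Subgroup G, Z = Subgroup.centralizer {w} := ⟨_, rfl⟩
  have memZ : ∀ f : G, f ∈ Z ↔ Commute f w := by
    intro f
    rw [hZ, Subgroup.mem_centralizer_singleton_iff]
    exact ⟨fun h => h, fun h => h⟩
  have hwZ : w ∈ Z := (memZ w).mpr (Commute.refl w)
  have hcyc : IsCyclic Z := by
    refine isCyclic_of_central (Z := Z) ⟨w, hwZ⟩ ?_ ?_ ?_
    · rintro ⟨z, hz⟩
      exact Subtype.ext ((memZ z).mp hz).eq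
    · have hF : {f : Z | d x ((f : G) • x) ≤ T}.Finite := by
        have := (step2 T).preimage (f := fun f : Z => (f : G)) Subtype.val_injective.injOn
        apply this.subset
        intro f hf
        exact ⟨(memZ _).mp f.2, hf⟩
      have hfinq : Finite (Z ⧸ Subgroup.zpowers (⟨w, hwZ⟩ : Z)) := by
        rw [← Set.finite_univ_iff]
        apply (hF.image (fun f : Z => (f : Z ⧸ Subgroup.zpowers (⟨w, hwZ⟩ : Z)))).subset
        intro q _
        obtain ⟨f, rfl⟩ := QuotientGroup.mk_surjective q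
        obtain ⟨k, hk⟩ := step3 f ((memZ _).mp f.2)
        refine ⟨f * ⟨w, hwZ⟩ ^ k, ?_, ?_⟩
        · show d x (((f * ⟨w, hwZ⟩ ^ k : Z) : G) • x) ≤ T
          have : ((f * ⟨w, hwZ⟩ ^ k : Z) : G) = w ^ k * f := by
            have h1 : Commute (f : G) w := (memZ _).mp f.2
            have h2 := (h1.zpow_right k).eq
            simpa using h2
          rw [this, mul_smul]
          exact hk
        · show ((f * ⟨w, hwZ⟩ ^ k : Z) : Z ⧸ Subgroup.zpowers (⟨w, hwZ⟩ : Z)) = f
          rw [QuotientGroup.eq]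
          simp only [mul_inv_rev, inv_mul_cancel_right]
          exact Subgroup.inv_mem _ (Subgroup.zpow_mem _ (Subgroup.mem_zpowers _) k)
      exact Subgroup.finiteIndex_of_finite_quotient
    · rintro ⟨z, hz⟩ n hn hzn
      have h1 : z ^ n = 1 := congrArg Subtype.val hzn
      exact Subtype.ext (step4 z ((memZ z).mp hz) n hn h1)
  obtain ⟨⟨h, hhZ⟩, hgen⟩ := hcyc.exists_generator
  have hgen' : ∀ f : G, f ∈ Z → ∃ k : ℤ, h ^ k = f := by
    intro f hf
    obtain ⟨k, hk⟩ := Subgroup.mem_zpowers_iff.mp (hgen ⟨f, hf⟩)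
    exact ⟨k, congrArg Subtype.val hk⟩
  refine ⟨h, ?_, ?_⟩
  · rcases dich h with h1 | h1
    · exfalso
      obtain ⟨k, hk⟩ := hgen' w hwZ
      have : w ^ m = 1 := by
        rw [← hk, ← zpow_natCast, ← zpow_mul, mul_comm, zpow_mul, zpow_natCast, h1, one_zpow]
      exact hwL.pow_ne hd hm this
    · exact h1
  · have huZ : u ∈ Z := by
      rw [memZ, hw]
      exact (Commute.refl u).pow_right N
    ext f
    rw [Subgroup.mem_centralizer_singleton_iff, Subgroup.mem_zpowers_iff]
    constructor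
    · intro hf
      apply hgen'
      rw [memZ, hw]
      exact (show Commute f u from hf).pow_right N
    · rintro ⟨k, rfl⟩
      obtain ⟨l, hl⟩ := hgen' u huZ
      rw [← hl, ← zpow_add, ← zpow_add, add_comm]

end Pool.Agent.Lib.MP_0a5b83_al_B
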