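import Pool.Agent.Lib.MP_0a5b83_al_B.Proj

/-!
The cone-off: distances inside the sets `Y i` are made at most one.
-/

set_option autoImplicit false

namespace Pool.Agent.Lib.MP_0a5b83_al_B

variable {X I : Type} {d : X → X → ℕ} {D : ℕ} {Y : I → Set X}

/-- `d` separates points. -/
def Sep {X : Type} (d : X → X → ℕ) : Prop := ∀ x y, d x y = 0 → x = y

/-- One step in the cone-off. -/
def CStep (d : X → X → ℕ) (Y : I → Set X) (x y : X) : Prop := d x y ≤ 1 ∨ ∃ i, x ∈ Y i ∧ y ∈ Y i

/-- `n` steps in the cone-off. -/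
def Reach (d : X → X → ℕ) (Y : I → Set X) : ℕ → X → X → Prop
  | 0, x, y => x = y
  | n + 1, x, y => ∃ z, Reach d Y n x z ∧ CStep d Y z y

/-- The cone-off metric. -/
noncomputable def dh (d : X → X → ℕ) (Y : I → Set X) (x y : X) : ℕ := sInf {n | Reach d Y n x y}

theorem CStep.symm (hd : Hyp d D) {x y : X} (h : CStep d Y x y) : CStep d Y y x := by
  rcases h with h | ⟨i, h1, h2⟩
  · left; rw [hd.symm]; exact h
  · exact Or.inr ⟨i, h2, h1⟩

theorem Reach.trans {m n : ℕ} {x y z : X} (h1 : Reach d Y m x y) (h2 : Reach d Y n y z) :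
    Reach d Y (m + n) x z := by
  induction n generalizing z with
  | zero => rw [show y = z from h2] at h1; exact h1
  | succ n ih =>
    obtain ⟨w, h3, h4⟩ := h2
    exact ⟨w, ih h3, h4⟩

theorem Reach.one {x y : X} (h : CStep d Y x y) : Reach d Y 1 x y := ⟨x, rfl, h⟩

theorem Reach.symm (hd : Hyp d D) {n : ℕ} {x y : X} (h : Reach d Y n x y) : Reach d Y n y x := by
  induction n generalizing y with
  | zero => exact (show x = y from h).symm
  | succ n ih =>
    obtain ⟨w, h3, h4⟩ := h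
    have := (Reach.one (h4.symm hd)).trans (ih h3)
    rwa [Nat.add_comm] at this

theorem reach_of_dist (hd : Hyp d D) (hs : Sep d) (Y : I → Set X) {n : ℕ} {x y : X}
    (h : d x y = n) : Reach d Y n x y := by
  induction n generalizing y with
  | zero => exact hs _ _ h
  | succ n ih =>
    obtain ⟨z, h1, h2⟩ := hd.geo x y n (by omega)
    exact ⟨z, ih h1, Or.inl (by omega)⟩

theorem reach_dh (hd : Hyp d D) (hs : Sep d) (Y : I → Set X) (x y : X) :
    Reach d Y (dh d Y x y) x y := by
  have hne : {n | Reach d Y n x y}.Nonempty := ⟨d x y, reach_of_dist hd hs Y rfl⟩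
  exact Nat.sInf_mem hne

theorem dh_le_of_reach {n : ℕ} {x y : X} (h : Reach d Y n x y) : dh d Y x y ≤ n := Nat.sInf_le h

theorem dh_le (hd : Hyp d D) (hs : Sep d) (Y : I → Set X) (x y : X) : dh d Y x y ≤ d x y :=
  dh_le_of_reach (reach_of_dist hd hs Y rfl)

theorem dh_le_one {i : I} {x y : X} (hx : x ∈ Y i) (hy : y ∈ Y i) : dh d Y x y ≤ 1 :=
  dh_le_of_reach (Reach.one (Or.inr ⟨i, hx, hy⟩))

theorem dh_self (x : X) : dh d Y x x = 0 :=
  Nat.le_zero.1 (dh_le_of_reach (n := 0) (show x = x from rfl))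

theorem dh_symm (hd : Hyp d D) (hs : Sep d) (x y : X) : dh d Y x y = dh d Y y x :=
  le_antisymm (dh_le_of_reach ((reach_dh hd hs Y y x).symm hd))
    (dh_le_of_reach ((reach_dh hd hs Y x y).symm hd))

theorem dh_tri (hd : Hyp d D) (hs : Sep d) (x y z : X) :
    dh d Y x z ≤ dh d Y x y + dh d Y y z :=
  dh_le_of_reach ((reach_dh hd hs Y x y).trans (reach_dh hd hs Y y z))

theorem dh_sep (hd : Hyp d D) (hs : Sep d) : Sep (dh d Y) := by
  intro x y h
  have := reach_dh hd hs Y x y
  rw [h] at this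
  exact this

/-- Paths in the cone-off. -/
theorem reach_path {n : ℕ} {x y : X} (h : Reach d Y n x y) :
    ∃ P : ℕ → X, P 0 = x ∧ P n = y ∧ ∀ s < n, CStep d Y (P s) (P (s + 1)) := by
  induction n generalizing y with
  | zero => exact ⟨fun _ => x, rfl, h, by simp⟩
  | succ n ih =>
    obtain ⟨w, h3, h4⟩ := h
    obtain ⟨P, p1, p2, p3⟩ := ih h3
    refine ⟨fun s => if s ≤ n then P s else y, by simp [p1], by simp, ?_⟩
    intro s hs
    rcases Nat.lt_or_ge s n with h5 | h5
    · simp only [h5.le, if_true, Nat.succ_le_iff.2 h5]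
      exact p3 s h5
    · have : s = n := by omega
      subst this
      simp only [le_refl, if_true]
      rw [if_neg (by omega), p2]
      exact h4

theorem path_dh_le {P : ℕ → X} {n : ℕ} (h : ∀ s < n, CStep d Y (P s) (P (s + 1))) {a b : ℕ}
    (hab : a ≤ b) (hb : b ≤ n) : dh d Y (P a) (P b) ≤ b - a := by
  apply dh_le_of_reach
  obtain ⟨k, rfl⟩ := Nat.exists_eq_add_of_le hab
  rw [Nat.add_sub_cancel_left]
  clear hab
  induction k with
  | zero => exact rfl
  | succ k ih => exact ⟨P (a + k), ih (by omega), h (a + k) (by omega)⟩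

/-- Geodesic paths in the cone-off. -/
structure GPath (d : X → X → ℕ) (Y : I → Set X) (x y : X) (N : ℕ) (P : ℕ → X) : Prop where
  zero : P 0 = x
  last : P N = y
  step : ∀ s < N, CStep d Y (P s) (P (s + 1))
  len : dh d Y x y = N

theorem exists_gpath (hd : Hyp d D) (hs : Sep d) (Y : I → Set X) (x y : X) :
    ∃ P : ℕ → X, GPath d Y x y (dh d Y x y) P := by
  obtain ⟨P, h1, h2, h3⟩ := reach_path (reach_dh hd hs Y x y)
  exact ⟨P, h1, h2, h3, rfl⟩

theorem GPath.dist (hd : Hyp d D) (hs : Sep d) {x y : X} {N : ℕ} {P : ℕ → X}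
    (h : GPath d Y x y N P) {a b : ℕ} (hab : a ≤ b) (hb : b ≤ N) :
    dh d Y (P a) (P b) = b - a := by
  have h1 := path_dh_le h.step hab hb
  have h2 := path_dh_le h.step (Nat.zero_le a) (hab.trans hb)
  have h3 := path_dh_le h.step hb le_rfl
  have h4 := h.len
  rw [← h.zero, ← h.last] at h4
  have t1 := dh_tri (Y := Y) hd hs (P 0) (P a) (P N)
  have t2 := dh_tri (Y := Y) hd hs (P a) (P b) (P N)
  omega

theorem dh_pmet (hd : Hyp d D) (hs : Sep d) : PMet (dh d Y) where
  self := dh_self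
  symm := dh_symm hd hs
  tri := dh_tri hd hs
  geo := by
    intro x y n hn
    obtain ⟨P, hP⟩ := exists_gpath hd hs Y x y
    refine ⟨P n, ?_, ?_⟩
    · have := hP.dist hd hs (Nat.zero_le n) hn
      rw [hP.zero] at this
      simpa using this
    · have := hP.dist hd hs hn le_rfl
      rwa [hP.last] at this

/-- Jumps of geodesic paths in one domain are unique. -/
theorem GPath.jump_unique (hd : Hyp d D) (hs : Sep d) {x y : X} {N : ℕ} {P : ℕ → X}
    (h : GPath d Y x y N P) {i : I} {s s' : ℕ} (h2 : s' < N) (a1 : P s ∈ Y i)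
    (a2 : P (s' + 1) ∈ Y i) (hss : s ≤ s') : s = s' := by
  have h3 := h.dist hd hs (a := s) (b := s' + 1) (by omega) (by omega)
  have h4 := dh_le_one (d := d) a1 a2
  omega

section action

variable {G : Type} [Group G] [MulAction G X] [MulAction G I]

theorem CStep.smul (hi : Inv G d) (hY : ∀ (g : G) i y, y ∈ Y i → g • y ∈ Y (g • i)) (g : G)
    {x y : X} (h : CStep d Y x y) : CStep d Y (g • x) (g • y) := by
  rcases h with h | ⟨i, h1, h2⟩
  · left; rw [hi g x y]; exact h
  · exact Or.inr ⟨g • i, hY g i x h1, hY g i y h2⟩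

theorem Reach.smul (hi : Inv G d) (hY : ∀ (g : G) i y, y ∈ Y i → g • y ∈ Y (g • i)) (g : G)
    {n : ℕ} {x y : X} (h : Reach d Y n x y) : Reach d Y n (g • x) (g • y) := by
  induction n generalizing y with
  | zero => exact congrArg (g • ·) h
  | succ n ih =>
    obtain ⟨w, h3, h4⟩ := h
    exact ⟨g • w, ih h3, h4.smul hi hY g⟩

theorem dh_inv (hd : Hyp d D) (hs : Sep d) (hi : Inv G d)
    (hY : ∀ (g : G) i y, y ∈ Y i → g • y ∈ Y (g • i)) : Inv G (dh d Y) := by
  intro g x y
  apply le_antisymm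
  · exact dh_le_of_reach ((reach_dh hd hs Y x y).smul hi hY g)
  · have := (reach_dh hd hs Y (g • x) (g • y)).smul hi hY g⁻¹
    rw [inv_smul_smul, inv_smul_smul] at this
    exact dh_le_of_reach this

end action

end Pool.Agent.Lib.MP_0a5b83_al_B
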