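import Pool.Agent.Lib.MP_0a5b83_al_B.Cone

/-! JOB CONEA : geodesics are quasigeodesics of the cone-off. -/

set_option autoImplicit false

namespace Pool.Agent.Lib.MP_0a5b83_al_B

/-- A point on a geodesic is logarithmically close to every cone-off path. -/
theorem cone_log {X I : Type} {d : X → X → ℕ} {D κ : ℕ} {Y : I → Set X} (hd : Hyp d D)
    (hs : Sep d) (hq : ∀ i, QC d κ (Y i)) (k : ℕ) {x y z : X} {P : ℕ → X} (h0 : P 0 = x)
    (h1 : P (2 ^ k) = y) (hP : ∀ s < 2 ^ k, P s = P (s + 1) ∨ CStep d Y (P s) (P (s + 1)))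
    (hz : On d 0 x y z) : ∃ s ≤ 2 ^ k, dh d Y z (P s) ≤ 2 * D * k + κ + 1 := by
  induction k generalizing x y z P with
  | zero =>
    rw [pow_zero] at h1
    have hst := hP 0 (by simp)
    rw [zero_add, h0, h1] at hst
    refine ⟨0, Nat.zero_le _, ?_⟩
    rw [h0]
    rcases hst with h | h | ⟨i, hx, hy⟩
    · subst h
      unfold On at hz
      have h2 := hd.self x
      have h3 := dh_le hd hs Y z x
      omega
    · unfold On at hz
      have h2 := hd.symm x z
      have h3 := dh_le hd hs Y z x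
      omega
    · obtain ⟨y', hy', h2⟩ := hq i x hx y hy z hz
      have h3 := dh_le hd hs Y z y'
      have h4 := dh_le_one (d := d) hy' hx
      have h5 := dh_tri (Y := Y) hd hs z y' x
      omega
  | succ k ih =>
    have hpow : 2 ^ (k + 1) = 2 ^ k + 2 ^ k := by ring
    have hmul : 2 * D * (k + 1) = 2 * D * k + 2 * D := by ring
    rcases thin hd hz (P (2 ^ k)) with ⟨z', hz', hzz⟩ | ⟨z', hz', hzz⟩
    · obtain ⟨s, hs1, hs2⟩ := ih h0 rfl (fun s hs' => hP s (by omega)) hz'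
      refine ⟨s, by omega, ?_⟩
      have h3 := dh_le hd hs Y z z'
      have h5 := dh_tri (Y := Y) hd hs z z' (P s)
      omega
    · obtain ⟨s, hs1, hs2⟩ := ih (P := fun s => P (2 ^ k + s)) (x := P (2 ^ k)) (y := y) rfl
        (by rw [← hpow]; exact h1) (fun s hs' => hP (2 ^ k + s) (by omega)) hz'
      refine ⟨2 ^ k + s, by omega, ?_⟩
      have h3 := dh_le hd hs Y z z'
      have h5 := dh_tri (Y := Y) hd hs z z' (P (2 ^ k + s))
      omega

/-- Paths of length `n` all of whose points satisfy `Q`. -/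
private def RQ {X I : Type} (d : X → X → ℕ) (Y : I → Set X) (Q : X → Prop) (n : ℕ) (x y : X) :
    Prop :=
  ∃ P : ℕ → X, P 0 = x ∧ P n = y ∧ (∀ s < n, P s = P (s + 1) ∨ CStep d Y (P s) (P (s + 1))) ∧
    ∀ s ≤ n, Q (P s)

private theorem RQ.trans {X I : Type} {d : X → X → ℕ} {Y : I → Set X} {Q : X → Prop} {m n : ℕ}
    {x y z : X} (h : RQ d Y Q m x y) (h' : RQ d Y Q n y z) : RQ d Y Q (m + n) x z := by
  obtain ⟨P, p0, p1, p2, p3⟩ := h
  obtain ⟨P', q0, q1, q2, q3⟩ := h'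
  refine ⟨fun s => if s ≤ m then P s else P' (s - m), by simp [p0], ?_, ?_, ?_⟩
  · by_cases hn : n = 0
    · subst hn
      simp only [add_zero, le_refl, if_true]
      rw [p1, ← q0, q1]
    · show (if m + n ≤ m then P (m + n) else P' (m + n - m)) = z
      rw [if_neg (by omega), Nat.add_sub_cancel_left, q1]
  · intro s hs
    show (if s ≤ m then P s else P' (s - m)) = (if s + 1 ≤ m then P (s + 1) else P' (s + 1 - m)) ∨
      CStep d Y (if s ≤ m then P s else P' (s - m))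
        (if s + 1 ≤ m then P (s + 1) else P' (s + 1 - m))
    rcases Nat.lt_trichotomy s m with h1 | h1 | h1
    · rw [if_pos h1.le, if_pos (by omega)]
      exact p2 s h1
    · rw [if_pos h1.le, if_neg (by omega), h1, p1, Nat.add_sub_cancel_left, ← q0]
      exact q2 0 (by omega)
    · rw [if_neg (by omega), if_neg (by omega)]
      have h2 : s + 1 - m = s - m + 1 := by omega
      rw [h2]
      exact q2 (s - m) (by omega)
  · intro s hs
    show Q (if s ≤ m then P s else P' (s - m))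
    split_ifs with h1
    · exact p3 s h1
    · exact q3 (s - m) (by omega)

private theorem RQ.refl {X I : Type} {d : X → X → ℕ} {Y : I → Set X} {Q : X → Prop} (n : ℕ)
    {x : X} (h : Q x) : RQ d Y Q n x x :=
  ⟨fun _ => x, rfl, rfl, fun _ _ => Or.inl rfl, fun _ _ => h⟩

private theorem RQ.pad {X I : Type} {d : X → X → ℕ} {Y : I → Set X} {Q : X → Prop} {m n : ℕ}
    {x y : X} (h : RQ d Y Q m x y) (hmn : m ≤ n) : RQ d Y Q n x y := by
  have hy : Q y := by
    obtain ⟨P, p0, p1, p2, p3⟩ := h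
    rw [← p1]
    exact p3 m le_rfl
  have := h.trans (RQ.refl (d := d) (Y := Y) (n - m) hy)
  rwa [Nat.add_sub_cancel' hmn] at this

private theorem RQ.symm {X I : Type} {d : X → X → ℕ} {D : ℕ} (hd : Hyp d D) {Y : I → Set X}
    {Q : X → Prop} {n : ℕ} {x y : X} (h : RQ d Y Q n x y) : RQ d Y Q n y x := by
  obtain ⟨P, p0, p1, p2, p3⟩ := h
  refine ⟨fun s => P (n - s), by simpa using p1, by simpa using p0, ?_, ?_⟩
  · intro s hs
    have h1 : n - s = n - (s + 1) + 1 := by omega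
    show P (n - s) = P (n - (s + 1)) ∨ CStep d Y (P (n - s)) (P (n - (s + 1)))
    rw [h1]
    rcases p2 (n - (s + 1)) (by omega) with h2 | h2
    · exact Or.inl h2.symm
    · exact Or.inr (h2.symm hd)
  · intro s _
    exact p3 (n - s) (Nat.sub_le _ _)

/-- Pieces of cone-off geodesics. -/
private theorem RQ.of_path {X I : Type} {d : X → X → ℕ} {Y : I → Set X} {Q : X → Prop} {N : ℕ}
    {P : ℕ → X} (h : ∀ s < N, CStep d Y (P s) (P (s + 1))) {a b : ℕ} (hab : a ≤ b) (hb : b ≤ N)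
    (hQ : ∀ s ≤ N, Q (P s)) : RQ d Y Q (b - a) (P a) (P b) := by
  refine ⟨fun s => P (a + s), rfl, ?_, ?_, ?_⟩
  · show P (a + (b - a)) = P b
    rw [Nat.add_sub_cancel' hab]
  · intro s hs
    exact Or.inr (h (a + s) (by omega))
  · intro s hs
    exact hQ (a + s) (by omega)

private theorem ca_walk {X I : Type} {d : X → X → ℕ} {D : ℕ} {Y : I → Set X} (hd : Hyp d D)
    (hs : Sep d) {z x : X} (n : ℕ) (m : ℕ) :
    ∀ x', d z x' = m → On d 0 z x x' → n ≤ dh d Y z x' →
      ∃ a, On d 0 z x a ∧ dh d Y z a = n := by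
  induction m with
  | zero =>
    intro x' h1 h2 h3
    have h4 := dh_le hd hs Y z x'
    exact ⟨x', h2, by omega⟩
  | succ m ih =>
    intro x' h1 h2 h3
    rcases h3.eq_or_lt with h4 | h4
    · exact ⟨x', h2, h4.symm⟩
    · obtain ⟨w, hw1, hw2⟩ := hd.geo z x' m (by omega)
      refine ih w hw1 ?_ ?_
      · have t1 := hd.tri w x' x
        unfold On at *
        omega
      · have t2 := dh_tri (Y := Y) hd hs z w x'
        have t3 := dh_le hd hs Y w x'
        omega

private theorem ca_exp (A B : ℕ) : ∃ J, ∀ j, J ≤ j → A * j + B < 2 ^ j := by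
  refine ⟨4 * (A + B + 1), fun j hj => ?_⟩
  have h1 : j / 2 + 1 ≤ 2 ^ (j / 2) := Nat.lt_two_pow_self
  have h2 : 2 ^ (j / 2) * 2 ^ (j / 2) ≤ 2 ^ j := by
    rw [← pow_add]
    exact Nat.pow_le_pow_right (by norm_num) (by omega)
  have h3 : (j / 2 + 1) * (j / 2 + 1) ≤ 2 ^ (j / 2) * 2 ^ (j / 2) := Nat.mul_le_mul h1 h1
  have h4 : 2 * (A + B + 1) ≤ j / 2 + 1 := by omega
  have h5 : 2 * (A + B + 1) * (j / 2 + 1) ≤ (j / 2 + 1) * (j / 2 + 1) :=
    Nat.mul_le_mul_right _ h4
  have h6 : j + 1 ≤ 2 * (j / 2 + 1) := by omega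
  have h7 : (A + B + 1) * (j + 1) ≤ (A + B + 1) * (2 * (j / 2 + 1)) := Nat.mul_le_mul_left _ h6
  nlinarith

private theorem ca_const (D κ : ℕ) : ∃ t₀ : ℕ, ∀ m, t₀ < m →
    ∃ k, 8 * m + 2 ≤ 2 ^ k ∧ 2 * D * k + κ + 1 < m := by
  obtain ⟨J, hJ⟩ := ca_exp (16 * D) (16 * D + 8 * κ + 10)
  refine ⟨2 * D * J + κ + 1, fun m hm => ⟨Nat.log 2 (8 * m + 2) + 1, ?_, ?_⟩⟩
  · exact (Nat.lt_pow_succ_log_self (by norm_num) _).le
  · have h1 : 2 ^ Nat.log 2 (8 * m + 2) ≤ 8 * m + 2 := Nat.pow_log_le_self 2 (by omega)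
    set j := Nat.log 2 (8 * m + 2)
    rcases Nat.lt_or_ge j J with h2 | h2
    · have h3 : 2 * D * (j + 1) ≤ 2 * D * J := Nat.mul_le_mul_left _ h2
      omega
    · have h3 := hJ j h2
      have h4 : 16 * D * j + 16 * D = 8 * (2 * D * (j + 1)) := by ring
      omega

/-- A point on a geodesic is close to a cone-off geodesic. -/
private theorem ca_close {X I : Type} {d : X → X → ℕ} {D κ : ℕ} {Y : I → Set X} (hd : Hyp d D)
    (hs : Sep d) (hq : ∀ i, QC d κ (Y i)) {t₀ : ℕ}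
    (ht : ∀ m, t₀ < m → ∃ k, 8 * m + 2 ≤ 2 ^ k ∧ 2 * D * k + κ + 1 < m) {x y : X} {N : ℕ}
    {P : ℕ → X} (hP : GPath d Y x y N P) (z₀ : X) (hz₀ : On d 0 x y z₀) :
    ∃ s ≤ N, dh d Y z₀ (P s) ≤ t₀ := by
  classical
  -- the maximal distance
  set A : Set ℕ := {m | ∃ z, On d 0 x y z ∧ ∀ s ≤ N, m ≤ dh d Y z (P s)} with hA
  have hA0 : (0 : ℕ) ∈ A := ⟨z₀, hz₀, fun _ _ => Nat.zero_le _⟩
  have hAb : BddAbove A := by
    refine ⟨d x y, ?_⟩
    rintro m ⟨z, hz, h1⟩
    have h2 := h1 0 (Nat.zero_le _)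
    rw [hP.zero] at h2
    have h3 := dh_le hd hs Y z x
    have h4 := hd.symm x z
    unfold On at hz
    omega
  set m := sSup A with hm
  have hmA : m ∈ A := Nat.sSup_mem ⟨0, hA0⟩ hAb
  have hmax : ∀ z, On d 0 x y z → ∃ s ≤ N, dh d Y z (P s) ≤ m := by
    intro z hz
    by_contra hcon
    push Not at hcon
    have h1 : m + 1 ∈ A := ⟨z, hz, fun s hs' => hcon s hs'⟩
    have h2 : m + 1 ≤ m := le_csSup hAb h1
    omega
  rcases Nat.lt_or_ge t₀ m with hlt | hge
  swap
  · obtain ⟨s, h1, h2⟩ := hmax z₀ hz₀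
    exact ⟨s, h1, by omega⟩
  exfalso
  obtain ⟨k, hk1, hk2⟩ := ht m hlt
  obtain ⟨z, hz, hzm⟩ := hmA
  -- the two ends
  have side : ∀ e : X, (∃ se ≤ N, P se = e) →
      (∀ a, On d 0 z e a → On d 0 x y a) →
      ∃ a, On d 0 z e a ∧ dh d Y z a ≤ 2 * m + 1 ∧ ∃ sa ≤ N, dh d Y a (P sa) ≤ m ∧
        RQ d Y (fun p => m ≤ dh d Y z p) m a (P sa) := by
    intro e he hon
    rcases Nat.lt_or_ge (dh d Y z e) (2 * m + 1) with h1 | h1
    · obtain ⟨se, hse, hPe⟩ := he
      refine ⟨e, ?_, h1.le, se, hse, ?_, ?_⟩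
      · have := hd.self e
        unfold On
        omega
      · rw [hPe, dh_self]
        exact Nat.zero_le _
      · rw [hPe]
        refine RQ.refl m ?_
        have := hzm se hse
        rwa [hPe] at this
    · have hee : On d 0 z e e := by
        have := hd.self e
        unfold On
        omega
      obtain ⟨a, ha1, ha2⟩ := ca_walk (Y := Y) hd hs (2 * m + 1) (d z e) e rfl hee h1
      obtain ⟨sa, hsa, hda⟩ := hmax a (hon a ha1)
      refine ⟨a, ha1, ha2.le, sa, hsa, hda, ?_⟩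
      obtain ⟨P', hP'⟩ := exists_gpath hd hs Y a (P sa)
      have h2 : RQ d Y (fun p => m ≤ dh d Y z p) (dh d Y a (P sa) - 0) (P' 0)
          (P' (dh d Y a (P sa))) := by
        refine RQ.of_path hP'.step (Nat.zero_le _) le_rfl fun s hs' => ?_
        have h3 := hP'.dist hd hs (Nat.zero_le s) hs'
        rw [hP'.zero] at h3
        have h4 := dh_tri (Y := Y) hd hs z (P' s) a
        have h5 := dh_symm (Y := Y) hd hs a (P' s)
        show m ≤ dh d Y z (P' s)
        omega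
      rw [hP'.zero, hP'.last, Nat.sub_zero] at h2
      exact h2.pad hda
  obtain ⟨a, ha, hza, sa, hsa, hda, ra⟩ := side x ⟨0, Nat.zero_le _, hP.zero⟩ (by
    intro a ha
    have s1 := hd.symm x z
    have s2 := hd.symm x a
    have s3 := hd.symm z a
    have t1 := hd.tri a z y
    unfold On at *
    omega)
  obtain ⟨b, hb, hzb, sb, hsb, hdb, rb⟩ := side y ⟨N, le_rfl, hP.last⟩ (by
    intro b hb
    have t1 := hd.tri x z b
    unfold On at *
    omega)
  have hzab : On d 0 a b z := by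
    have s1 := hd.symm x z
    have s2 := hd.symm x a
    have s3 := hd.symm z a
    have t1 := hd.tri x a b
    have t2 := hd.tri x b y
    unfold On at *
    omega
  -- the middle part
  have hmid : RQ d Y (fun p => m ≤ dh d Y z p) (6 * m + 2) (P sa) (P sb) := by
    have t1 := dh_tri (Y := Y) hd hs (P sa) a (P sb)
    have t2 := dh_tri (Y := Y) hd hs a z (P sb)
    have t3 := dh_tri (Y := Y) hd hs z b (P sb)
    have s1 := dh_symm (Y := Y) hd hs (P sa) a
    have s2 := dh_symm (Y := Y) hd hs a z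
    have hdist : dh d Y (P sa) (P sb) ≤ 6 * m + 2 := by omega
    rcases le_total sa sb with hab | hab
    · have h1 := hP.dist hd hs hab hsb
      exact (RQ.of_path hP.step hab hsb hzm).pad (by omega)
    · have h1 := hP.dist hd hs hab hsa
      have s3 := dh_symm (Y := Y) hd hs (P sa) (P sb)
      exact ((RQ.of_path hP.step hab hsa hzm).symm hd).pad (by omega)
  have htot : RQ d Y (fun p => m ≤ dh d Y z p) (2 ^ k) a b :=
    ((ra.trans hmid).trans (rb.symm hd)).pad (by omega)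
  obtain ⟨P', p0, p1, p2, p3⟩ := htot
  obtain ⟨s, h1, h2⟩ := cone_log hd hs hq k p0 p1 p2 hzab
  have h3 := p3 s h1
  omega

theorem cone_add (D κ : ℕ) : ∃ t : ℕ, ∀ (X I : Type) (d : X → X → ℕ) (Y : I → Set X), Hyp d D →
    Sep d → (∀ i, QC d κ (Y i)) → ∀ x y z, On d 0 x y z → On (dh d Y) t x y z := by
  obtain ⟨t₀, ht⟩ := ca_const D κ
  refine ⟨2 * t₀, fun X I d Y hd hs hq x y z hz => ?_⟩
  obtain ⟨P, hP⟩ := exists_gpath hd hs Y x y
  obtain ⟨s, h1, h2⟩ := ca_close hd hs hq ht hP z hz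
  have h3 := hP.dist hd hs (Nat.zero_le s) h1
  have h4 := hP.dist hd hs h1 le_rfl
  rw [hP.zero] at h3
  rw [hP.last] at h4
  have t1 := dh_tri (Y := Y) hd hs x (P s) z
  have t2 := dh_tri (Y := Y) hd hs z (P s) y
  have s1 := dh_symm (Y := Y) hd hs z (P s)
  unfold On
  omega

/-- Version for points which are almost on a geodesic. -/
theorem cone_add' {X I : Type} {d : X → X → ℕ} {D t : ℕ} {Y : I → Set X} (hd : Hyp d D)
    (hs : Sep d) (ht : ∀ x y z, On d 0 x y z → On (dh d Y) t x y z) {c : ℕ} {x y z : X}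
    (hz : On d c x y z) : On (dh d Y) (t + 2 * (c + D)) x y z := by
  obtain ⟨z', h1, h2, -⟩ := near0 hd hz
  have h3 := ht x y z' h1
  have h4 := dh_le hd hs Y z z'
  have h5 := dh_tri (Y := Y) hd hs x z' z
  have h6 := dh_tri (Y := Y) hd hs z z' y
  have h7 := dh_symm (Y := Y) hd hs z' z
  unfold On at *
  omega

end Pool.Agent.Lib.MP_0a5b83_al_B
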