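import Pool.Agent.Lib.MP_0a5b83_al_B.ConeAdd

/-! JOB CONEB : the cone-off is hyperbolic. -/

set_option autoImplicit false

namespace Pool.Agent.Lib.MP_0a5b83_al_B

/-- The centre of a quadrilateral. -/
theorem quad_centre {X : Type} {d : X → X → ℕ} {D : ℕ} (hd : Hyp d D) {x y z w : X}
    (h : d x w + d y z ≤ d x z + d y w) : ∃ p, On d 0 x z p ∧ On d (3 * D + 2) y w p := by
  have t1 := hd.tri x z y
  have s1 := hd.symm z y
  obtain ⟨p, h1, h2⟩ := hd.geo x z ((d x y + d x z - d y z) / 2) (by omega)
  refine ⟨p, by unfold On; omega, ?_⟩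
  have t2 := hd.tri x y z
  have t3 := hd.tri y x z
  have s2 := hd.symm y x
  have f1 := hd.four y p x z
  have f2 := hd.four p w x z
  have f3 := hd.four x y z w
  have s3 := hd.symm p x
  have s4 := hd.symm w z
  have s5 := hd.symm w x
  unfold On
  omega

theorem cone_hyp {X I : Type} {d : X → X → ℕ} {D t : ℕ} {Y : I → Set X} (hd : Hyp d D)
    (hs : Sep d) (ht : ∀ x y z, On d 0 x y z → On (dh d Y) t x y z) :
    Hyp (dh d Y) (2 * (t + 2 * (4 * D + 2))) := by
  refine { dh_pmet hd hs with four := ?_ }
  have key : ∀ x y z w, d x w + d y z ≤ d x z + d y w →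
      dh d Y x y + dh d Y z w ≤ dh d Y x z + dh d Y y w + 2 * (t + 2 * (4 * D + 2)) := by
    intro x y z w h
    obtain ⟨p, h1, h2⟩ := quad_centre hd h
    have k1 := ht x z p h1
    have k2 := cone_add' hd hs ht h2
    have t1 := dh_tri (Y := Y) hd hs x p y
    have t2 := dh_tri (Y := Y) hd hs z p w
    have s1 := dh_symm (Y := Y) hd hs p y
    have s2 := dh_symm (Y := Y) hd hs z p
    unfold On at k1 k2
    omega
  intro x y z w
  by_cases h : d x w + d y z ≤ d x z + d y w
  · have := key x y z w h
    omega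
  · have := key x y w z (by omega)
    have s := dh_symm (Y := Y) hd hs w z
    omega

/-- Distances in terms of the cone-off distance and the largest projection. -/
theorem dist_le_dh {X I : Type} {d : X → X → ℕ} {D κ O : ℕ} {Y : I → Set X} (hd : Hyp d D)
    (hs : Sep d) (hq : ∀ i, QC d κ (Y i)) {x y : X} (hO : ∀ i, tau d (Y i) x y ≤ O) :
    d x y ≤ dh d Y x y * (O + 3 * D + 2 * κ + 1) := by
  have key : ∀ p p', CStep d Y p p' →
      ((d x p' : ℤ) - d p' y) - ((d x p : ℤ) - d p y) ≤ 2 * ((O + 3 * D + 2 * κ + 1 : ℕ) : ℤ) := by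
    rintro p p' (h | ⟨i, hp, hp'⟩)
    · have t1 := hd.tri x p p'
      have t2 := hd.tri p p' y
      omega
    · by_cases hc : d x p' + d p y ≤ d x p + d p' y + D
      · omega
      have f1 := hd.four x p' p y
      have f2 := hd.four x y p p'
      have s1 := hd.symm p' p
      have s2 := hd.symm y p
      have s3 := hd.symm y p'
      have s4 := hd.symm x p
      have s5 := hd.symm x p'
      have t1 := hd.tri p p' x
      have t2 := hd.tri p' p y
      have t3 := hd.tri p' p x
      have t4 := hd.tri p p' y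
      obtain ⟨w, a1, a2⟩ := hd.geo p p' ((d p x + d p p' - d p' x) / 2) (by omega)
      obtain ⟨w', b1, b2⟩ := hd.geo p' p ((d p' y + d p' p - d p y) / 2) (by omega)
      obtain ⟨u, hu, c1⟩ := hq i p hp p' hp' w (by unfold On; omega)
      obtain ⟨u', hu', c2⟩ := hq i p' hp' p hp w' (by unfold On; omega)
      have g1 := hd.four x w p p'
      have g2 := hd.four y w' p' p
      have s6 := hd.symm w p
      have s7 := hd.symm w' p'
      have k1 := dS_le (d := d) hu x
      have k2 := dS_le (d := d) hu' y
      have t5 := hd.tri x w u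
      have t6 := hd.tri y w' u'
      have hO' := hO i
      unfold tau at hO'
      omega
  obtain ⟨P, hP⟩ := exists_gpath hd hs Y x y
  have hind : ∀ s ≤ dh d Y x y, ((d x (P s) : ℤ) - d (P s) y) ≤
      -(d x y : ℤ) + s * (2 * ((O + 3 * D + 2 * κ + 1 : ℕ) : ℤ)) := by
    intro s
    induction s with
    | zero =>
      intro _
      have := hd.self x
      rw [hP.zero]
      simp only [this]
      push_cast
      ring_nf
      omega
    | succ s ih =>
      intro hs'
      have h1 := ih (by omega)
      have h2 := key _ _ (hP.step s (by omega))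
      push_cast at h1 h2 ⊢
      rw [add_mul]
      omega
  have h := hind _ le_rfl
  rw [hP.last] at h
  have h0 := hd.self y
  rw [h0] at h
  have h' : (d x y : ℤ) ≤ ((dh d Y x y * (O + 3 * D + 2 * κ + 1) : ℕ) : ℤ) := by
    push_cast at h ⊢
    linarith
  exact_mod_cast h'

end Pool.Agent.Lib.MP_0a5b83_al_B
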