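import Pool.Agent.Lib.MP_0a5b83_al_B.Shift

/-! JOB GRP : roots of loxodromic elements. -/

set_option autoImplicit false

namespace Pool.Agent.Lib.MP_0a5b83_al_B

variable {G X : Type} [Group G] [MulAction G X] {d : X → X → ℕ} {D : ℕ}

/-- `h` is a loxodromic element which generates its centralizer. -/
def Root {G X : Type} [Group G] [MulAction G X] (d : X → X → ℕ) (Q : ℕ) (h : G) : Prop :=
  Lox d Q h ∧ Subgroup.centralizer {h} = Subgroup.zpowers h

theorem Lox.pow {Q : ℕ} {u : G} (hu : Lox d Q u) {n : ℕ} (hn : 1 ≤ n) : Lox d Q (u ^ n) := by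
  intro x k
  rw [← pow_mul]
  refine le_trans ?_ (hu x (n * k))
  exact Nat.le_mul_of_pos_left k hn

theorem Lox.inv (hd : Hyp d D) (hi : Inv G d) {Q : ℕ} {u : G} (hu : Lox d Q u) : Lox d Q u⁻¹ := by
  intro x k
  rw [inv_pow, Inv.disp_inv hd hi]
  exact hu x k

theorem Lox.zpow (hd : Hyp d D) (hi : Inv G d) {Q : ℕ} {u : G} (hu : Lox d Q u) {n : ℤ}
    (hn : n ≠ 0) : Lox d Q (u ^ n) := by
  rcases n with n | n
  · rw [Int.ofNat_eq_natCast, zpow_natCast]
    refine hu.pow (Nat.one_le_iff_ne_zero.2 ?_)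
    rintro rfl
    exact hn rfl
  · rw [zpow_negSucc]
    exact (hu.pow (Nat.le_add_left 1 n)).inv hd hi

theorem Lox.conj (hi : Inv G d) {Q : ℕ} {u : G} (hu : Lox d Q u) (g : G) :
    Lox d Q (g * u * g⁻¹) := by
  intro x k
  have h := hu (g⁻¹ • x) k
  rw [← hi.right g, smul_smul, smul_smul] at h
  rw [conj_pow]
  simpa [mul_assoc] using h

/-- Powers of loxodromic elements are nontrivial. -/
theorem Lox.zpow_ne_one (hd : Hyp d D) (hi : Inv G d) [Nonempty X] {Q : ℕ} {u : G}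
    (hu : Lox d Q u) {n : ℤ} (hn : n ≠ 0) : u ^ n ≠ 1 := by
  intro h
  obtain ⟨x⟩ := ‹Nonempty X›
  have := hu.zpow hd hi hn x 1
  rw [h, one_pow, one_smul, hd.self] at this
  omega

/-- The standing assumptions of this file. -/
structure Ell {G X : Type} [Group G] [MulAction G X] (d : X → X → ℕ) (D Q m : ℕ) : Prop where
  hyp : Hyp d D
  inv : Inv G d
  ne : Nonempty X
  prime : m.Prime
  odd : m ≠ 2
  dich : ∀ g : G, g ^ m = 1 ∨ Lox d Q g
  nc : ∀ f u : G, f ^ m = 1 → Lox d Q u → Commute f u → f = 1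
  cen : ∀ u : G, Lox d Q u → ∃ h : G, Lox d Q h ∧ Subgroup.centralizer {u} = Subgroup.zpowers h

variable {Q m : ℕ}

theorem Ell.cen_zpow (E : Ell (G := G) d D Q m) {u : G} (hu : Lox d Q u) {n : ℤ} (hn : n ≠ 0) :
    Subgroup.centralizer {u ^ n} = Subgroup.centralizer {u} := by
  obtain ⟨h, -, hc⟩ := E.cen (u ^ n) (hu.zpow E.hyp E.inv hn)
  have hu1 : u ∈ Subgroup.centralizer {u ^ n} := by
    rw [Subgroup.mem_centralizer_singleton_iff]
    exact (Commute.zpow_right (Commute.refl u) n).eq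
  apply le_antisymm
  · intro f hf
    rw [hc] at hf hu1
    obtain ⟨a, rfl⟩ := Subgroup.mem_zpowers_iff.1 hf
    obtain ⟨b, hb⟩ := Subgroup.mem_zpowers_iff.1 hu1
    rw [Subgroup.mem_centralizer_singleton_iff, ← hb]
    exact ((Commute.refl h).zpow_zpow a b).eq
  · intro f hf
    rw [Subgroup.mem_centralizer_singleton_iff] at hf ⊢
    exact (Commute.zpow_right (show Commute f u from hf) n).eq

theorem Ell.exists_root (E : Ell (G := G) d D Q m) {u : G} (hu : Lox d Q u) :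
    ∃ h : G, Root d Q h ∧ u ∈ Subgroup.zpowers h ∧
      Subgroup.centralizer {u} = Subgroup.zpowers h := by
  obtain ⟨h, hh, hc⟩ := E.cen u hu
  have hu1 : u ∈ Subgroup.zpowers h := by
    rw [← hc, Subgroup.mem_centralizer_singleton_iff]
  obtain ⟨a, ha⟩ := Subgroup.mem_zpowers_iff.1 hu1
  have ha0 : a ≠ 0 := by
    rintro rfl
    rw [zpow_zero] at ha
    have := E.ne
    exact hu.zpow_ne_one E.hyp E.inv one_ne_zero (by rw [zpow_one]; exact ha.symm)
  refine ⟨h, ⟨hh, ?_⟩, hu1, hc⟩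
  rw [← hc, ← ha, E.cen_zpow hh ha0]

theorem Ell.root_zpow (E : Ell (G := G) d D Q m) {h : G} (hh : Root d Q h) {n : ℤ} (hn : n ≠ 0) :
    Subgroup.centralizer {h ^ n} = Subgroup.zpowers h := by
  rw [E.cen_zpow hh.1 hn, hh.2]

theorem Ell.root_norm (E : Ell (G := G) d D Q m) {h f : G} (hh : Root d Q h)
    (h1 : f * h * f⁻¹ ∈ Subgroup.zpowers h) (h2 : f⁻¹ * h * f ∈ Subgroup.zpowers h) :
    f ∈ Subgroup.zpowers h := by
  have := E.ne
  obtain ⟨a, ha⟩ := Subgroup.mem_zpowers_iff.1 h1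
  obtain ⟨b, hb⟩ := Subgroup.mem_zpowers_iff.1 h2
  have hab : a * b = 1 := by
    have e1 : h = h ^ (a * b) := by
      rw [zpow_mul, ha, conj_zpow, hb]
      group
    by_contra hne
    have e2 : h ^ (a * b - 1) = 1 := by
      rw [zpow_sub, zpow_one, ← e1, mul_inv_cancel]
    exact hh.1.zpow_ne_one E.hyp E.inv (sub_ne_zero.2 hne) e2
  have hnc : ¬ (f * h * f⁻¹ = h⁻¹ ∧ Commute f h) := by
    rintro ⟨e1, e2⟩
    have e3 : h ^ (2 : ℤ) = 1 := by
      rw [e2.eq, mul_inv_cancel_right] at e1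
      rw [zpow_two]
      nth_rewrite 1 [e1]
      exact inv_mul_cancel h
    exact hh.1.zpow_ne_one E.hyp E.inv two_ne_zero e3
  rcases Int.eq_one_or_neg_one_of_mul_eq_one hab with rfl | rfl
  · rw [← hh.2, Subgroup.mem_centralizer_singleton_iff]
    rw [zpow_one] at ha
    exact (mul_inv_eq_iff_eq_mul.1 ha.symm)
  · exfalso
    rw [zpow_neg_one] at ha
    have hsq : Commute (f ^ 2) h := by
      have e1 : f * h * f⁻¹ = h⁻¹ := ha.symm
      have e2 : f * h = h⁻¹ * f := mul_inv_eq_iff_eq_mul.1 e1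
      have e3 : f * h⁻¹ = h * f := by
        have := congrArg (·⁻¹) e1
        simp only [mul_inv_rev, inv_inv] at this
        rw [← mul_assoc] at this
        exact mul_inv_eq_iff_eq_mul.1 this
      change f ^ 2 * h = h * f ^ 2
      rw [sq, mul_assoc, e2, ← mul_assoc, e3, mul_assoc]
    apply hnc
    refine ⟨ha.symm, ?_⟩
    rcases E.dich f with hf | hf
    · obtain ⟨k, hk⟩ := E.prime.odd_of_ne_two E.odd
      have e1 : f = (f ^ 2) ^ (-(k : ℤ)) := by
        rw [zpow_neg, zpow_natCast, ← pow_mul, eq_inv_iff_mul_eq_one, ← pow_succ', ← hk]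
        exact hf
      rw [e1]
      exact hsq.zpow_left _
    · have e1 : h ∈ Subgroup.centralizer {f ^ (2 : ℤ)} := by
        rw [Subgroup.mem_centralizer_singleton_iff]
        have e2 : f ^ (2 : ℤ) = f ^ (2 : ℕ) := zpow_natCast f 2
        rw [e2]
        exact hsq.symm.eq
      rw [E.cen_zpow hf two_ne_zero, Subgroup.mem_centralizer_singleton_iff] at e1
      exact e1.symm

theorem Ell.root_inter (E : Ell (G := G) d D Q m) {h h' z : G} (hh : Root d Q h)
    (hh' : Root d Q h') (hz : z ≠ 1) (hz1 : z ∈ Subgroup.zpowers h)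
    (hz2 : z ∈ Subgroup.zpowers h') : Subgroup.zpowers h = Subgroup.zpowers h' := by
  obtain ⟨a, ha⟩ := Subgroup.mem_zpowers_iff.1 hz1
  obtain ⟨b, hb⟩ := Subgroup.mem_zpowers_iff.1 hz2
  have ha0 : a ≠ 0 := by rintro rfl; exact hz (by rw [← ha, zpow_zero])
  have hb0 : b ≠ 0 := by rintro rfl; exact hz (by rw [← hb, zpow_zero])
  rw [← E.root_zpow hh ha0, ← E.root_zpow hh' hb0, ha, hb]

/-- A torsion element whose cyclic group is normalized by a loxodromic element is trivial. -/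
theorem Ell.tor_norm (E : Ell (G := G) d D Q m) {c u : G} (hc : c ^ m = 1) (hu : Lox d Q u)
    (h1 : u * c * u⁻¹ ∈ Subgroup.zpowers c) : c = 1 := by
  have hpow : ∀ i : ℕ, u ^ i * c * (u ^ i)⁻¹ ∈ Subgroup.zpowers c := by
    intro i
    induction i with
    | zero => simp
    | succ i ih =>
      obtain ⟨k, hk⟩ := Subgroup.mem_zpowers_iff.1 ih
      have e : u ^ (i + 1) * c * (u ^ (i + 1))⁻¹ = (u * c * u⁻¹) ^ k := by
        rw [conj_zpow, hk, pow_succ']
        group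
      rw [e]
      exact Subgroup.zpow_mem _ h1 k
  have hfo : IsOfFinOrder c := isOfFinOrder_iff_pow_eq_one.2 ⟨m, E.prime.pos, hc⟩
  have hfin : Finite (Subgroup.zpowers c) := finite_zpowers.2 hfo
  obtain ⟨i, j, hij, he⟩ := Finite.exists_ne_map_eq_of_infinite
    (fun i : ℕ => (⟨_, hpow i⟩ : Subgroup.zpowers c))
  have key : ∀ i j : ℕ, i < j → u ^ i * c * (u ^ i)⁻¹ = u ^ j * c * (u ^ j)⁻¹ → c = 1 := by
    intro i j hij he
    obtain ⟨n, hn, rfl⟩ : ∃ n, 1 ≤ n ∧ j = i + n := ⟨j - i, by omega, by omega⟩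
    refine E.nc c (u ^ n) hc (hu.pow hn) ?_
    have e1 : c = u ^ n * c * (u ^ n)⁻¹ := by
      rw [pow_add, mul_inv_rev] at he
      have e2 : u ^ i * c * (u ^ i)⁻¹ = u ^ i * (u ^ n * c * (u ^ n)⁻¹) * (u ^ i)⁻¹ := by
        rw [he]; group
      exact mul_left_cancel (mul_right_cancel e2)
    exact (eq_mul_inv_iff_mul_eq.1 e1)
  have he' := congrArg Subtype.val he
  rcases lt_or_gt_of_ne hij with h | h
  · exact key i j h he'
  · exact key j i h he'.symm

end Pool.Agent.Lib.MP_0a5b83_al_B
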