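import Pool.Agent.Lib.MP_0a5b83_al_B.WindDefs

/-! JOB WA : projections of a windmill to a domain outside are small. -/

set_option autoImplicit false

namespace Pool.Agent.Lib.MP_0a5b83_al_B

variable {G X I : Type} [Group G] [MulAction G X] [MulAction G I] {d : X → X → ℕ}
  {Y : I → Set X} {nu : X → I → ℕ} {del : I → X → X → ℕ} {H : I → Subgroup G} {T : I → ℕ}
  {θ : ℕ}

/-- Behrstock's inequality follows from `near`. -/
theorem Wind.behr (w : Wind d Y nu del H T θ) {i j : I} (hij : i ≠ j) {x y z : X} (hy : y ∈ Y j)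
    (hz : z ∈ Y i) (h : θ < del i x y) : del j x z ≤ θ := by
  by_contra hcon
  push Not at hcon
  have h1 := w.near i j hij x y hy h
  have h2 := w.near j i hij.symm x z hz hcon
  omega

omit [MulAction G I] in
/-- The rotations of `W` are in `KW H W`. -/
theorem mem_KW {W : Set I} {i : I} (hi : i ∈ W) {h : G} (hh : h ∈ H i) : h ∈ KW H W := by
  unfold KW
  exact Subgroup.mem_iSup_of_mem i (Subgroup.mem_iSup_of_mem hi hh)

/-- Transport of an angle: `del i (g x) y = del (g⁻¹ i) x (g⁻¹ y)`. -/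
theorem Wind.del_smul (w : Wind d Y nu del H T θ) (g : G) (i : I) (x y : X) :
    del i (g • x) y = del (g⁻¹ • i) x (g⁻¹ • y) := by
  have h := w.delinv g⁻¹ i (g • x) y
  rw [inv_smul_smul] at h
  exact h.symm

theorem Wind.mem_inv_smul (w : Wind d Y nu del H T θ) {i : I} {h : G} (hh : h ∈ H i) {y : X}
    (hy : y ∈ Y i) : h⁻¹ • y ∈ Y i := by
  have h1 := w.Yinv h⁻¹ i y hy
  rwa [w.Hfix i h⁻¹ ((H i).inv_mem hh)] at h1

/-- One side of the argument for `Mill.outside`. -/
theorem Mill.side (w : Wind d Y nu del H T θ) {x₀ : X} {W : Set I}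
    (hW : Mill Y del H T θ x₀ W) {i : I} (hi : i ∉ W) {k : G} (hk : k ∈ KW H W) {z : X}
    (hz : z ∈ Y i) :
    ∃ a ∈ KW H W, del i (k • x₀) (a • x₀) ≤ 2 * θ ∧
      ∀ D ∈ W, ¬ (T D ≤ del D (a • x₀) z + 15 * θ) := by
  classical
  have hθ := w.θpos
  by_cases hS : ∃ D, D ∈ W ∧ 10 * θ ≤ del D (k • x₀) z
  · -- choose the farthest element
    let p : ℕ → Prop := fun n => ∃ D, (D ∈ W ∧ 10 * θ ≤ del D (k • x₀) z) ∧ nu (k • x₀) D = n
    have hb : ∀ n, p n → n ≤ nu (k • x₀) i := by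
      rintro n ⟨D, ⟨hD, hD2⟩, rfl⟩
      have hne : D ≠ i := by rintro rfl; exact hi hD
      exact (w.near D i hne (k • x₀) z hz (by omega)).le
    obtain ⟨D0, hD0⟩ := hS
    have hp0 : p (nu (k • x₀) D0) := ⟨D0, hD0, rfl⟩
    have hpm := Nat.findGreatest_spec (P := p) (hb _ hp0) hp0
    obtain ⟨Da, ⟨hDa, hDa2⟩, hDa3⟩ := hpm
    have hmax : ∀ D, D ∈ W → 10 * θ ≤ del D (k • x₀) z → nu (k • x₀) D ≤ nu (k • x₀) Da := by
      intro D hD hD2
      rw [hDa3]
      exact Nat.le_findGreatest (hb _ ⟨D, ⟨hD, hD2⟩, rfl⟩) ⟨D, ⟨hD, hD2⟩, rfl⟩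
    have hDai : Da ≠ i := by rintro rfl; exact hi hDa
    obtain ⟨a0, ha0, hadj1, hadj2⟩ := hW.adj Da hDa
    obtain ⟨h, hh, hturn⟩ := w.turn Da z (a0 • x₀)
    have hhK : h ∈ KW H W := mem_KW hDa hh
    have hfix : h • Da = Da := w.Hfix Da h hh
    have P1 : ∀ j, j ∉ W → ∀ y ∈ Y Da, del j ((h * a0) • x₀) y ≤ θ := by
      intro j hj y hy
      rw [mul_smul, w.del_smul]
      refine hadj1 _ ?_ _ (w.mem_inv_smul hh hy)
      intro hcon
      have := hW.inv h hhK _ hcon
      rw [smul_inv_smul] at this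
      exact hj this
    have P2 : ∀ j, j ≠ Da → ∀ y ∈ Y Da, 100 * del j ((h * a0) • x₀) y ≤ 51 * T j := by
      intro j hj y hy
      rw [mul_smul, w.del_smul, ← w.Tinv h⁻¹ j]
      refine hadj2 _ ?_ _ (w.mem_inv_smul hh hy)
      intro hcon
      apply hj
      rw [← hfix, ← hcon, smul_inv_smul]
    have P3 : 100 * del Da z ((h * a0) • x₀) ≤ 51 * T Da := by
      rw [mul_smul]; exact hturn
    refine ⟨h * a0, mul_mem hhK ha0, ?_, ?_⟩
    · obtain ⟨y, hy⟩ := w.Yne Da
      have h1 := P1 i hi y hy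
      have h2 : del i (k • x₀) y ≤ θ := w.behr hDai hz hy (by omega)
      have h3 := w.dtri i (k • x₀) y ((h * a0) • x₀)
      have h4 := w.dsymm i y ((h * a0) • x₀)
      omega
    · intro D hD hcon
      by_cases hDD : D = Da
      · subst hDD
        have h1 := w.dsymm D z ((h * a0) • x₀)
        have h2 := w.Tbig D
        omega
      · obtain ⟨y, hy⟩ := w.Yne Da
        obtain ⟨y', hy'⟩ := w.Yne D
        have h1 := P2 D hDD y hy
        have h2 := w.dtri D ((h * a0) • x₀) y z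
        have h3 := w.Tbig D
        have h4 := w.dsymm D y z
        have h5 : del Da z y' ≤ θ := w.behr (x := z) hDD hy hy' (by omega)
        have h6 := w.dtri Da (k • x₀) y' z
        have h7 := w.dsymm Da y' z
        have h8 := w.near Da D (Ne.symm hDD) (k • x₀) y' hy' (by omega)
        have h9 : del D (k • x₀) y ≤ θ := w.behr (Ne.symm hDD) hy' hy (by omega)
        have h10 := w.dtri D y (k • x₀) z
        have h11 := w.dsymm D y (k • x₀)
        have h12 := hmax D hD (by omega)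
        omega
  · push Not at hS
    refine ⟨k, hk, ?_, ?_⟩
    · have := w.dself i (k • x₀)
      omega
    · intro D hD hcon
      have h1 := hS D hD
      have h2 := w.Tbig D
      omega

theorem Mill.outside (w : Wind d Y nu del H T θ) {x₀ : X} {W : Set I}
    (hW : Mill Y del H T θ x₀ W) {i : I} (hi : i ∉ W) {k k' : G} (hk : k ∈ KW H W)
    (hk' : k' ∈ KW H W) : del i (k • x₀) (k' • x₀) ≤ 6 * θ := by
  by_contra hcon
  push Not at hcon
  have hθ := w.θpos
  obtain ⟨z, hz⟩ := w.Yne i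
  obtain ⟨a, ha, ha1, ha2⟩ := Mill.side w hW hi hk hz
  obtain ⟨b, hb, hb1, hb2⟩ := Mill.side w hW hi hk' hz
  have h1 := w.dtri i (k • x₀) (a • x₀) (k' • x₀)
  have h2 := w.dtri i (a • x₀) (b • x₀) (k' • x₀)
  have h3 := w.dsymm i (b • x₀) (k' • x₀)
  have hab : 2 * θ < del i (a • x₀) (b • x₀) := by omega
  have hne : a⁻¹ * b ≠ 1 := by
    intro h
    have : a = b := by
      rw [inv_mul_eq_one] at h
      exact h
    subst this
    have := w.dself i (a • x₀)
    omega
  obtain ⟨D0, hD0, hD1⟩ := hW.big (a⁻¹ * b) (mul_mem (inv_mem ha) hb) hne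
  have hD := hW.inv a ha D0 hD0
  have hdel : del D0 x₀ ((a⁻¹ * b) • x₀) = del (a • D0) (a • x₀) (b • x₀) := by
    rw [← w.delinv a D0 x₀ ((a⁻¹ * b) • x₀), ← mul_smul, mul_inv_cancel_left]
  have hT := w.Tinv a D0
  rw [hdel, ← hT] at hD1
  set D := a • D0 with hDdef
  have hiD : i ≠ D := by rintro rfl; exact hi hD
  obtain ⟨y', hy'⟩ := w.Yne D
  have h4 := w.dtri i (a • x₀) y' (b • x₀)
  have h5 := w.dsymm i y' (b • x₀)
  by_cases hc : θ < del i (b • x₀) y'
  · have h6 : del D (b • x₀) z ≤ θ := w.behr hiD hy' hz hc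
    have h7 := w.dtri D (a • x₀) z (b • x₀)
    have h8 := w.dsymm D z (b • x₀)
    exact ha2 D hD (by omega)
  · have h6 : del D (a • x₀) z ≤ θ := w.behr hiD hy' hz (by omega)
    have h7 := w.dtri D (a • x₀) z (b • x₀)
    have h8 := w.dsymm D z (b • x₀)
    exact hb2 D hD (by omega)

end Pool.Agent.Lib.MP_0a5b83_al_B
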