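import Pool.Agent.Lib.MP_0a5b83_al_B.WindDefs
import Pool.Agent.Lib.MP_0a5b83_al_B.WindA

/-! JOB WB : extension of a windmill. -/

set_option autoImplicit false

namespace Pool.Agent.Lib.MP_0a5b83_al_B

variable {G X I : Type} [Group G] [MulAction G X] [MulAction G I] {d : X → X → ℕ}
  {Y : I → Set X} {nu : X → I → ℕ} {del : I → X → X → ℕ} {H : I → Subgroup G} {T : I → ℕ}
  {θ : ℕ}

/-- Normal forms `a₀ h₁ a₁ ⋯ hₙ aₙ` with an entry condition `E`. -/
inductive NF {G : Type} [Group G] (K Hj : Subgroup G) (E : G → Prop) : G → Prop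
  | base (g : G) (hg : g ∈ K) : NF K Hj E g
  | step (g h a : G) (hg : NF K Hj E g) (he : E g) (hh : h ∈ Hj) (hh1 : h ≠ 1) (ha : a ∈ K) :
      NF K Hj E (g * h * a)

theorem NF.mul_K {K Hj : Subgroup G} {E : G → Prop} {g : G} (hg : NF K Hj E g) {k : G}
    (hk : k ∈ K) : NF K Hj E (g * k) := by
  cases hg with
  | base g hg => exact NF.base _ (mul_mem hg hk)
  | step g h a hg he hh hh1 ha =>
    rw [mul_assoc]
    exact NF.step g h (a * k) hg he hh hh1 (mul_mem ha hk)

theorem NF.mem {K Hj : Subgroup G} {E : G → Prop} {g : G} (hg : NF K Hj E g) : g ∈ K ⊔ Hj := by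
  induction hg with
  | base g hg => exact (le_sup_left : K ≤ K ⊔ Hj) hg
  | step g h a hg he hh hh1 ha ih =>
    exact mul_mem (mul_mem ih ((le_sup_right : Hj ≤ K ⊔ Hj) hh)) ((le_sup_left : K ≤ K ⊔ Hj) ha)

/-- Every element of `K ⊔ Hj` is a normal form. -/
theorem NF.all {K Hj : Subgroup G} {E : G → Prop} (F : G → Prop)
    (E1 : ∀ g ∈ K, E g)
    (E2 : ∀ g h a, E g → h ∈ Hj → h ≠ 1 → a ∈ K → ¬ F a → E (g * h * a))
    (hF : ∀ a ∈ K, F a → ∀ h ∈ Hj, a * h * a⁻¹ ∈ Hj) {k : G} (hk : k ∈ K ⊔ Hj) :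
    NF K Hj E k := by
  have hH : ∀ g, NF K Hj E g → ∀ h' ∈ Hj, NF K Hj E (g * h') := by
    intro g hg h' hh'
    by_cases h1 : h' = 1
    · subst h1; rwa [mul_one]
    · cases hg with
      | base g hg =>
        have := NF.step (Hj := Hj) (E := E) g h' 1 (NF.base g hg) (E1 g hg) hh' h1 K.one_mem
        rwa [mul_one] at this
      | step g h a hg he hh hh1 ha =>
        by_cases hFa : F a
        · have hc := hF a ha hFa h' hh'
          have hc2 : h * (a * h' * a⁻¹) ∈ Hj := mul_mem hh hc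
          have heq : g * h * a * h' = g * (h * (a * h' * a⁻¹)) * a := by group
          rw [heq]
          by_cases h2 : h * (a * h' * a⁻¹) = 1
          · rw [h2, mul_one]
            exact hg.mul_K ha
          · exact NF.step g _ a hg he hc2 h2 ha
        · have := NF.step (g * h * a) h' 1 (NF.step g h a hg he hh hh1 ha)
            (E2 g h a he hh hh1 ha hFa) hh' h1 K.one_mem
          rwa [mul_one] at this
  have key : ∀ x ∈ Subgroup.closure ((K : Set G) ∪ (Hj : Set G)),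
      (∀ g, NF K Hj E g → NF K Hj E (g * x)) ∧ (∀ g, NF K Hj E g → NF K Hj E (g * x⁻¹)) := by
    intro x hx
    induction hx using Subgroup.closure_induction with
    | mem x hx =>
      rcases hx with hx | hx
      · exact ⟨fun g hg => hg.mul_K hx, fun g hg => hg.mul_K (inv_mem hx)⟩
      · exact ⟨fun g hg => hH g hg x hx, fun g hg => hH g hg x⁻¹ (inv_mem hx)⟩
    | one => simp
    | mul x y hx hy ihx ihy =>
      refine ⟨fun g hg => ?_, fun g hg => ?_⟩
      · rw [← mul_assoc]; exact ihy.1 _ (ihx.1 _ hg)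
      · rw [mul_inv_rev, ← mul_assoc]; exact ihx.2 _ (ihy.2 _ hg)
    | inv x hx ih =>
      refine ⟨ih.2, fun g hg => ?_⟩
      rw [inv_inv]; exact ih.1 g hg
  have hk' : k ∈ Subgroup.closure ((K : Set G) ∪ (Hj : Set G)) := by
    rwa [Subgroup.closure_union, Subgroup.closure_eq, Subgroup.closure_eq]
  have := (key k hk').1 1 (NF.base 1 K.one_mem)
  rwa [one_mul] at this

theorem Mill.extend (w : Wind d Y nu del H T θ) {x₀ : X} {W : Set I}
    (hW : Mill Y del H T θ x₀ W) (hne : W ≠ Set.univ) :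
    ∃ W', W ⊂ W' ∧ Mill Y del H T θ x₀ W' := by
  classical
  have hθ := w.θpos
  -- the nearest domain outside
  have hex : ∃ n, ∃ j, j ∉ W ∧ nu x₀ j = n := by
    obtain ⟨j, hj⟩ := (Set.ne_univ_iff_exists_notMem W).1 hne
    exact ⟨_, j, hj, rfl⟩
  obtain ⟨j, hj, hjn⟩ := Nat.find_spec hex
  have hmin : ∀ i, i ∉ W → nu x₀ j ≤ nu x₀ i := by
    intro i hi
    rw [hjn]
    exact Nat.find_min' hex ⟨i, hi, rfl⟩
  have hinv' : ∀ a ∈ KW H W, ∀ i, i ∉ W → a • i ∉ W := by
    intro a ha i hi hcon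
    have := hW.inv a⁻¹ (inv_mem ha) _ hcon
    rw [inv_smul_smul] at this
    exact hi this
  have h1 : ∀ i, i ∉ W → i ≠ j → ∀ y ∈ Y j, del i x₀ y ≤ θ := by
    intro i hi hij y hy
    by_contra hcon
    push Not at hcon
    have := w.near i j hij x₀ y hy hcon
    have := hmin i hi
    omega
  have h2 : ∀ D ∈ W, ∀ y ∈ Y j, 100 * del D x₀ y ≤ 51 * T D := by
    intro D hD y hy
    by_contra hcon
    push Not at hcon
    have hDj : D ≠ j := by rintro rfl; exact hj hD
    obtain ⟨h, hh, hlt⟩ := w.turnY D j hDj x₀ y hy hcon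
    have := hmin (h • j) (hinv' h (mem_KW hD hh) j hj)
    omega
  have h3 : ∀ a ∈ KW H W, a • j ≠ j → ∀ y ∈ Y j, del j x₀ (a • y) ≤ 7 * θ := by
    intro a ha haj y hy
    have e1 := Mill.outside w hW hj (one_mem (KW H W)) ha
    rw [one_smul] at e1
    have e2 : del j (a • x₀) (a • y) = del (a⁻¹ • j) x₀ y := by
      rw [w.del_smul, inv_smul_smul]
    have e3 : del (a⁻¹ • j) x₀ y ≤ θ := by
      refine h1 _ (hinv' _ (inv_mem ha) j hj) ?_ y hy
      intro hcon
      apply haj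
      rw [inv_smul_eq_iff] at hcon
      exact hcon.symm
    have e4 := w.dtri j x₀ (a • x₀) (a • y)
    omega
  -- the new group and the new windmill
  set K : Subgroup G := KW H W with hK
  set K' : Subgroup G := K ⊔ H j with hK'
  have hKK' : K ≤ K' := le_sup_left
  have hHK' : H j ≤ K' := le_sup_right
  let W' : Set I := {l | ∃ k ∈ K', ∃ i, (i ∈ W ∨ i = j) ∧ k • i = l}
  have hWW' : W ⊆ W' := fun i hi => ⟨1, one_mem _, i, Or.inl hi, one_smul _ _⟩
  have hjW' : j ∈ W' := ⟨1, one_mem _, j, Or.inr rfl, one_smul _ _⟩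
  have hinvW' : ∀ k ∈ K', ∀ i ∈ W', k • i ∈ W' := by
    rintro k hk l ⟨k1, hk1, i, hi, rfl⟩
    exact ⟨k * k1, mul_mem hk hk1, i, hi, mul_smul _ _ _⟩
  have hHi : ∀ i, (i ∈ W ∨ i = j) → H i ≤ K' := by
    rintro i (hi | rfl)
    · exact fun h hh => hKK' (mem_KW hi hh)
    · exact hHK'
  have hKW' : KW H W' = K' := by
    apply le_antisymm
    · unfold KW
      refine iSup_le fun l => iSup_le fun hl => ?_
      obtain ⟨k, hk, i, hi, rfl⟩ := hl
      intro h hh
      have e := w.Hinv k⁻¹ (k • i) h hh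
      rw [inv_smul_smul] at e
      have e2 := hHi i hi e
      have e3 := mul_mem (mul_mem hk e2) (inv_mem hk)
      have e4 : k * (k⁻¹ * h * k⁻¹⁻¹) * k⁻¹ = h := by group
      rwa [e4] at e3
    · refine sup_le ?_ ?_
      · rw [hK]
        unfold KW
        refine iSup_le fun l => iSup_le fun hl => ?_
        exact fun h hh => mem_KW (hWW' hl) hh
      · exact fun h hh => mem_KW hjW' hh
  -- entry condition
  let E : G → Prop := fun g => del (g • j) x₀ (g • x₀) ≤ 8 * θ
  have E1 : ∀ g ∈ K, E g := by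
    intro g hg
    have e1 := Mill.outside w hW hj (inv_mem hg) (one_mem (KW H W))
    rw [one_smul, ← w.delinv g, smul_inv_smul] at e1
    show del (g • j) x₀ (g • x₀) ≤ 8 * θ
    omega
  have spin' : ∀ g h, h ∈ H j → h ≠ 1 →
      T j ≤ del (g • j) (g • x₀) ((g * h) • x₀) := by
    intro g h hh hh1
    have e := w.spin j h hh hh1 x₀
    rw [mul_smul, w.delinv]
    exact e
  have fixj : ∀ g h, h ∈ H j → (g * h) • j = g • j := by
    intro g h hh
    rw [mul_smul, w.Hfix j h hh]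
  have E2 : ∀ g h a, E g → h ∈ H j → h ≠ 1 → a ∈ K → ¬ (a • j = j) → E (g * h * a) := by
    intro g h a hg hh hh1 ha haj
    obtain ⟨y1, hy1⟩ := w.Yne j
    have hj' : g • j ≠ (g * h * a) • j := by
      intro hcon
      rw [mul_smul, ← fixj g h hh] at hcon
      exact haj ((MulAction.injective (g * h)) hcon).symm
    have e1 := spin' g h hh hh1
    have e2 : del (g • j) ((g * h) • x₀) ((g * h * a) • y1) ≤ 7 * θ := by
      rw [← fixj g h hh, mul_smul (g * h) a y1, w.delinv]
      exact h3 a ha haj y1 hy1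
    have e3 : del (g • j) x₀ (g • x₀) ≤ 8 * θ := hg
    have e4 := w.dtri (g • j) (g • x₀) x₀ ((g * h) • x₀)
    have e5 := w.dtri (g • j) x₀ ((g * h * a) • y1) ((g * h) • x₀)
    have e6 := w.dsymm (g • j) (g • x₀) x₀
    have e7 := w.dsymm (g • j) ((g * h * a) • y1) ((g * h) • x₀)
    have e8 := w.Tbig j
    have m1 : (g * h * a) • y1 ∈ Y ((g * h * a) • j) := w.Yinv _ _ _ hy1
    have m2 : (g * h) • y1 ∈ Y (g • j) := by
      have := w.Yinv (g * h) j y1 hy1
      rwa [fixj g h hh] at this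
    have e9 : del ((g * h * a) • j) x₀ ((g * h) • y1) ≤ θ := w.behr hj' m1 m2 (by omega)
    have e10 : del ((g * h * a) • j) ((g * h) • y1) ((g * h * a) • x₀) ≤ 7 * θ := by
      have haj' : a⁻¹ • j ≠ j := by
        intro hcon
        rw [inv_smul_eq_iff] at hcon
        exact haj hcon.symm
      have f1 := h3 a⁻¹ (inv_mem ha) haj' y1 hy1
      have f2 : del ((g * h * a) • j) ((g * h) • y1) ((g * h * a) • x₀)
          = del j (a⁻¹ • y1) x₀ := by
        have f3 : (g * h) • y1 = (g * h * a) • (a⁻¹ • y1) := by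
          rw [← mul_smul, mul_inv_cancel_right]
        rw [f3, w.delinv]
      rw [f2, w.dsymm]
      exact f1
    have e11 := w.dtri ((g * h * a) • j) x₀ ((g * h) • y1) ((g * h * a) • x₀)
    show del ((g * h * a) • j) x₀ ((g * h * a) • x₀) ≤ 8 * θ
    omega
  have hall : ∀ k ∈ K', NF K (H j) E k := by
    intro k hk
    refine NF.all (fun a => a • j = j) E1 E2 ?_ hk
    intro a ha haj h hh
    have := w.Hinv a j h hh
    rwa [haj] at this
  have hbig : ∀ k ∈ K', k ≠ 1 → ∃ i ∈ W', T i ≤ del i x₀ (k • x₀) + 14 * θ := by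
    intro k hk hk1
    have hn := hall k hk
    cases hn with
    | base k hk0 =>
      obtain ⟨i, hi, hi2⟩ := hW.big k hk0 hk1
      exact ⟨i, hWW' hi, hi2⟩
    | step g h a hg he hh hh1 ha =>
      refine ⟨g • j, hinvW' g hg.mem j hjW', ?_⟩
      have e1 := spin' g h hh hh1
      have e2 : del (g • j) x₀ (g • x₀) ≤ 8 * θ := he
      have e3 : del (g • j) ((g * h * a) • x₀) ((g * h) • x₀) ≤ 6 * θ := by
        rw [← fixj g h hh, mul_smul (g * h) a x₀, w.delinv]
        have := Mill.outside w hW hj ha (one_mem (KW H W))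
        rwa [one_smul] at this
      have e4 := w.dtri (g • j) (g • x₀) x₀ ((g * h) • x₀)
      have e5 := w.dtri (g • j) x₀ ((g * h * a) • x₀) ((g * h) • x₀)
      have e6 := w.dsymm (g • j) (g • x₀) x₀
      have e7 := w.Tinv g j
      omega
  have hadj0 : ∀ l, (l ∈ W ∨ l = j) → ∃ k ∈ K', (∀ i, i ∉ W' → ∀ y ∈ Y l,
      del i (k • x₀) y ≤ θ) ∧ ∀ i, i ≠ l → ∀ y ∈ Y l, 100 * del i (k • x₀) y ≤ 51 * T i := by
    rintro l (hl | rfl)
    · obtain ⟨k, hk, a1, a2⟩ := hW.adj l hl
      exact ⟨k, hKK' hk, fun i hi => a1 i (fun hcon => hi (hWW' hcon)), a2⟩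
    · refine ⟨1, one_mem _, ?_, ?_⟩
      · intro i hi y hy
        rw [one_smul]
        refine h1 i (fun hcon => hi (hWW' hcon)) ?_ y hy
        rintro rfl
        exact hi hjW'
      · intro i hi y hy
        rw [one_smul]
        by_cases hiW : i ∈ W
        · exact h2 i hiW y hy
        · have f1 := h1 i hiW hi y hy
          have f2 := w.Tbig i
          omega
  refine ⟨W', ⟨hWW', fun hcon => hj (hcon hjW')⟩, ?_, ?_, ?_⟩
  · rw [hKW']; exact hinvW'
  · rw [hKW']; exact hbig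
  · rw [hKW']
    rintro l ⟨k', hk', l0, hl0, rfl⟩
    obtain ⟨k, hk, a1, a2⟩ := hadj0 l0 hl0
    have hy' : ∀ y ∈ Y (k' • l0), k'⁻¹ • y ∈ Y l0 := by
      intro y hy
      have := w.Yinv k'⁻¹ _ y hy
      rwa [inv_smul_smul] at this
    refine ⟨k' * k, mul_mem hk' hk, ?_, ?_⟩
    · intro i hi y hy
      rw [mul_smul, w.del_smul]
      refine a1 _ ?_ _ (hy' y hy)
      intro hcon
      have := hinvW' k' hk' _ hcon
      rw [smul_inv_smul] at this
      exact hi this
    · intro i hi y hy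
      rw [mul_smul, w.del_smul, ← w.Tinv k'⁻¹ i]
      refine a2 _ ?_ _ (hy' y hy)
      intro hcon
      apply hi
      rw [← hcon, smul_inv_smul]

end Pool.Agent.Lib.MP_0a5b83_al_B
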