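import Pool.Agent.Lib.MP_0a5b83_al_B.WindDefs
import Pool.Agent.Lib.MP_0a5b83_al_B.WindB

/-! JOB WC : Zorn's lemma and Greendlinger's lemma. -/

set_option autoImplicit false

namespace Pool.Agent.Lib.MP_0a5b83_al_B

variable {G X I : Type} [Group G] [MulAction G X] [MulAction G I] {d : X → X → ℕ}
  {Y : I → Set X} {nu : X → I → ℕ} {del : I → X → X → ℕ} {H : I → Subgroup G} {T : I → ℕ}
  {θ : ℕ}

omit [MulAction G X] [MulAction G I] in
theorem KW_mono {W W' : Set I} (h : W ⊆ W') : KW H W ≤ KW H W' :=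
  iSup₂_le fun i hi => le_iSup₂ (f := fun (i : I) (_ : i ∈ W') => H i) i (h hi)

omit [MulAction G X] [MulAction G I] in
theorem mem_KW_sUnion {c : Set (Set I)} (hc : IsChain (· ⊆ ·) c) (hne : c.Nonempty) {k : G}
    (hk : k ∈ KW H (⋃₀ c)) : ∃ W ∈ c, k ∈ KW H W := by
  have h1 : KW H (⋃₀ c) ≤ ⨆ W : c, KW H W.1 := by
    refine iSup₂_le fun i hi => ?_
    obtain ⟨W, hW, hiW⟩ := hi
    exact (le_iSup₂ (f := fun (i : I) (_ : i ∈ W) => H i) i hiW).trans
      (le_iSup (fun W : c => KW H W.1) ⟨W, hW⟩)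
  have hd : Directed (· ≤ ·) fun W : c => KW H W.1 := by
    intro W W'
    rcases hc.total W.2 W'.2 with h | h
    · exact ⟨W', KW_mono h, le_rfl⟩
    · exact ⟨W, le_rfl, KW_mono h⟩
  haveI : Nonempty c := hne.to_subtype
  obtain ⟨W, hW⟩ := (Subgroup.mem_iSup_of_directed hd).1 (h1 hk)
  exact ⟨W.1, W.2, hW⟩

theorem Mill.empty (x₀ : X) : Mill Y del H T θ x₀ (∅ : Set I) where
  inv := fun k _ i hi => absurd hi (Set.notMem_empty i)
  big := by
    intro k hk hk1
    have h1 : KW H (∅ : Set I) = ⊥ := by simp [KW]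
    rw [h1, Subgroup.mem_bot] at hk
    exact absurd hk hk1
  adj := fun l hl => absurd hl (Set.notMem_empty l)

theorem Mill.sUnion {x₀ : X} {c : Set (Set I)} (hc : IsChain (· ⊆ ·) c) (hne : c.Nonempty)
    (h : ∀ W ∈ c, Mill Y del H T θ x₀ W) : Mill Y del H T θ x₀ (⋃₀ c) where
  inv := by
    intro k hk i hi
    obtain ⟨W, hW, hkW⟩ := mem_KW_sUnion hc hne hk
    obtain ⟨W', hW', hiW'⟩ := hi
    rcases hc.total hW hW' with h1 | h1
    · exact ⟨W', hW', (h W' hW').inv k (KW_mono h1 hkW) i hiW'⟩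
    · exact ⟨W, hW, (h W hW).inv k hkW i (h1 hiW')⟩
  big := by
    intro k hk hk1
    obtain ⟨W, hW, hkW⟩ := mem_KW_sUnion hc hne hk
    obtain ⟨i, hi, hT⟩ := (h W hW).big k hkW hk1
    exact ⟨i, ⟨W, hW, hi⟩, hT⟩
  adj := by
    intro l hl
    obtain ⟨W, hW, hlW⟩ := hl
    obtain ⟨k, hk, h1, h2⟩ := (h W hW).adj l hlW
    have hsub : W ⊆ ⋃₀ c := Set.subset_sUnion_of_mem hW
    exact ⟨k, KW_mono hsub hk, fun i hi y hy => h1 i (fun h' => hi (hsub h')) y hy, h2⟩

/-- Greendlinger's lemma: nontrivial elements of the group generated by all rotations make a large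
angle somewhere. -/
theorem greendlinger (w : Wind d Y nu del H T θ) {k : G} (hk : k ∈ ⨆ i, H i) (hk1 : k ≠ 1)
    (x : X) : ∃ i, T i ≤ del i x (k • x) + 14 * θ := by
  obtain ⟨W, hW⟩ := zorn_subset {W : Set I | Mill Y del H T θ x W} (by
    intro c hcS hc
    by_cases hne : c.Nonempty
    · exact ⟨⋃₀ c, Mill.sUnion hc hne fun W hW => hcS hW,
        fun s hs => Set.subset_sUnion_of_mem hs⟩
    · rw [Set.not_nonempty_iff_eq_empty] at hne
      exact ⟨∅, Mill.empty x, fun s hs => by rw [hne] at hs; exact absurd hs (Set.notMem_empty s)⟩)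
  have huniv : W = Set.univ := by
    by_contra hne
    obtain ⟨W', hlt, hW'⟩ := Mill.extend w hW.prop hne
    exact absurd (hW.le_of_ge hW' hlt.subset) hlt.not_subset
  have hk' : k ∈ KW H W := by
    rw [huniv]
    have : KW H (Set.univ : Set I) = ⨆ i, H i := by simp [KW]
    rw [this]
    exact hk
  obtain ⟨i, -, hT⟩ := (show Mill Y del H T θ x W from hW.prop).big k hk' hk1
  exact ⟨i, hT⟩

end Pool.Agent.Lib.MP_0a5b83_al_B
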