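import Pool.Agent.Lib.MP_0a5b83_al_B.BGI
import Pool.Agent.Lib.MP_0a5b83_al_B.ConeHyp
import Pool.Agent.Lib.MP_0a5b83_al_B.WindC
import Pool.Agent.Lib.MP_0a5b83_al_B.Grp
import Pool.Agent.Lib.MP_0a5b83_al_B.Axis

/-!
The context of one step of the construction; the quotient metric; polygon lifting.
-/

set_option autoImplicit false

namespace Pool.Agent.Lib.MP_0a5b83_al_B

/-- The group generated by all rotations. -/
def KK {G I : Type} [Group G] (H : I → Subgroup G) : Subgroup G := ⨆ i, H i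

/-- The threshold for bounded geodesic image. -/
def BB (D t θ : ℕ) : ℕ := (2 * (t + 2 * (22 * D + 6)) + 5) * θ

structure Ctx {G X I : Type} [Group G] [MulAction G X] [MulAction G I] (d : X → X → ℕ)
    (D Q m Δ θ t : ℕ) (Y : I → Set X) (H : I → Subgroup G) (T : I → ℕ) : Prop where
  E : Ell (G := G) d D Q m
  sep : Sep d
  qc : ∀ i, QC d (4 * D + 1) (Y i)
  add : ∀ x y z, On d 0 x y z → On (dh d Y) t x y z
  w : Wind d Y (fun x i => dS d (Y i) x) (del d D Y) H T θ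
  θbig : 5 * (21 * D + 6) + 1 ≤ θ
  Tbig : ∀ i, 100 * BB D t θ ≤ T i
  ov : ∀ i j, i ≠ j → ∀ p ∈ Y i, ∀ p' ∈ Y i, dS d (Y j) p ≤ 200 * D + 100 →
    dS d (Y j) p' ≤ 200 * D + 100 → d p p' ≤ Δ
  Δθ : Δ ≤ θ
  sm : ∀ (g : G) (i : I), g • i = i → g ^ m ∈ KK H
  big : ∀ g : G, Lox d Q g → (∀ i : I, g • i ≠ i) → ∀ x n, n * (mind d g + 1) ≤ 2 * d x (g ^ n • x)
  rot : ∀ (g : G) (i : I), g • i = i → g ∉ H i → ∃ j : ℤ, ∃ h ∈ H i,
    (∀ x, 10 * T i ≤ 100 * del d D Y i x ((h * g ^ j) • x)) ∧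
    ∀ x ∈ Y i, 100 * del d D Y i x ((h * g ^ j) • x) ≤ 35 * T i
  ei : ∀ (g : G) (i j : I), i ≠ j → g • i = i → g • j = j → g = 1

variable {G X I : Type} [Group G] [MulAction G X] [MulAction G I] {d : X → X → ℕ}
  {D Q m Δ θ t : ℕ} {Y : I → Set X} {H : I → Subgroup G} {T : I → ℕ}

/-- The quotient metric (as a pseudometric on `X`). -/
noncomputable def db (d : X → X → ℕ) (Y : I → Set X) (H : I → Subgroup G) (x y : X) : ℕ :=
  sInf {n | ∃ k ∈ KK H, dh d Y x (k • y) = n}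

omit [MulAction G I] in
theorem mem_KK {i : I} {h : G} (hh : h ∈ H i) : h ∈ KK H := (le_iSup H i) hh

theorem Ctx.hd (C : Ctx d D Q m Δ θ t Y H T) : Hyp d D := C.E.hyp

theorem Ctx.hi (C : Ctx d D Q m Δ θ t Y H T) : Inv G d := C.E.inv

theorem Ctx.normal (C : Ctx d D Q m Δ θ t Y H T) : (KK H).Normal := by
  constructor
  intro n hn g
  have key : ∀ g : G, KK H ≤ (KK H).comap (MulAut.conj g).toMonoidHom := by
    intro g
    apply iSup_le
    intro i h hh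
    show (MulAut.conj g) h ∈ KK H
    rw [MulAut.conj_apply]
    exact mem_KK (C.w.Hinv g i h hh)
  have := key g hn
  simpa using this

theorem Ctx.conj_mem (C : Ctx d D Q m Δ θ t Y H T) {k : G} (hk : k ∈ KK H) (g : G) :
    g * k * g⁻¹ ∈ KK H := C.normal.conj_mem k hk g

theorem Ctx.hinv (C : Ctx d D Q m Δ θ t Y H T) : Inv G (dh d Y) :=
  dh_inv C.hd C.sep C.hi C.w.Yinv

theorem Ctx.hsymm (C : Ctx d D Q m Δ θ t Y H T) (x y : X) : dh d Y x y = dh d Y y x :=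
  dh_symm C.hd C.sep x y

theorem Ctx.htri (C : Ctx d D Q m Δ θ t Y H T) (x y z : X) :
    dh d Y x z ≤ dh d Y x y + dh d Y y z := dh_tri C.hd C.sep x y z

theorem Ctx.exists_db (C : Ctx d D Q m Δ θ t Y H T) (x y : X) :
    ∃ k ∈ KK H, dh d Y x (k • y) = db d Y H x y := by
  have hne : {n | ∃ k ∈ KK H, dh d Y x (k • y) = n}.Nonempty := ⟨_, 1, one_mem _, rfl⟩
  exact Nat.sInf_mem hne

theorem Ctx.db_le (_C : Ctx d D Q m Δ θ t Y H T) {x y : X} {k : G} (hk : k ∈ KK H) :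
    db d Y H x y ≤ dh d Y x (k • y) := Nat.sInf_le ⟨k, hk, rfl⟩

theorem Ctx.db_le_dh (C : Ctx d D Q m Δ θ t Y H T) (x y : X) : db d Y H x y ≤ dh d Y x y := by
  have := C.db_le (x := x) (y := y) (one_mem (KK H))
  rwa [one_smul] at this

theorem Ctx.db_le' (C : Ctx d D Q m Δ θ t Y H T) {x y : X} {k k' : G} (hk : k ∈ KK H)
    (hk' : k' ∈ KK H) : db d Y H x y ≤ dh d Y (k • x) (k' • y) := by
  have h := C.hinv k⁻¹ (k • x) (k' • y)
  rw [inv_smul_smul, smul_smul] at h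
  rw [← h]
  exact C.db_le ((KK H).mul_mem ((KK H).inv_mem hk) hk')

theorem Ctx.db_self (C : Ctx d D Q m Δ θ t Y H T) (x : X) : db d Y H x x = 0 := by
  have := C.db_le_dh x x
  rw [dh_self] at this
  omega

theorem Ctx.db_K (C : Ctx d D Q m Δ θ t Y H T) {x y : X} {k : G} (hk : k ∈ KK H) :
    db d Y H x (k • y) = db d Y H x y := by
  apply le_antisymm
  · obtain ⟨k1, h1, h2⟩ := C.exists_db x y
    rw [← h2]
    have := C.db_le (x := x) (y := k • y) ((KK H).mul_mem h1 ((KK H).inv_mem hk))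
    rwa [mul_smul, inv_smul_smul] at this
  · obtain ⟨k1, h1, h2⟩ := C.exists_db x (k • y)
    rw [← h2, smul_smul]
    exact C.db_le ((KK H).mul_mem h1 hk)

theorem Ctx.db_symm (C : Ctx d D Q m Δ θ t Y H T) (x y : X) : db d Y H x y = db d Y H y x := by
  have key : ∀ x y : X, db d Y H x y ≤ db d Y H y x := by
    intro x y
    obtain ⟨k1, h1, h2⟩ := C.exists_db y x
    rw [← h2, C.hsymm]
    have := C.db_le' (x := x) (y := y) h1 (one_mem (KK H))
    rwa [one_smul] at this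
  exact le_antisymm (key x y) (key y x)

theorem Ctx.db_K' (C : Ctx d D Q m Δ θ t Y H T) {x y : X} {k : G} (hk : k ∈ KK H) :
    db d Y H (k • x) y = db d Y H x y := by
  rw [C.db_symm, C.db_K hk, C.db_symm]

theorem Ctx.db_tri (C : Ctx d D Q m Δ θ t Y H T) (x y z : X) :
    db d Y H x z ≤ db d Y H x y + db d Y H y z := by
  obtain ⟨k1, h1, h2⟩ := C.exists_db x y
  obtain ⟨k2, h3, h4⟩ := C.exists_db y z
  have h5 := C.htri x (k1 • y) (k1 • k2 • z)
  have h6 := C.hinv k1 y (k2 • z)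
  have h7 := C.db_le (x := x) (y := z) ((KK H).mul_mem h1 h3)
  rw [mul_smul] at h7
  omega

theorem Ctx.db_inv (C : Ctx d D Q m Δ θ t Y H T) : Inv G (db d Y H) := by
  have key : ∀ (g : G) (x y : X), db d Y H (g • x) (g • y) ≤ db d Y H x y := by
    intro g x y
    obtain ⟨k1, h1, h2⟩ := C.exists_db x y
    rw [← h2, ← C.hinv g x (k1 • y)]
    have := C.db_le (x := g • x) (y := g • y) (C.conj_mem h1 g)
    rwa [smul_smul, inv_mul_cancel_right, mul_smul] at this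
  intro g x y
  apply le_antisymm (key g x y)
  have := key g⁻¹ (g • x) (g • y)
  rwa [inv_smul_smul, inv_smul_smul] at this

theorem Ctx.db_pmet (C : Ctx d D Q m Δ θ t Y H T) : PMet (db d Y H) where
  self := C.db_self
  symm := C.db_symm
  tri := C.db_tri
  geo := by
    intro x y n hn
    obtain ⟨k, hk, h⟩ := C.exists_db x y
    obtain ⟨z, h1, h2⟩ := (dh_pmet (Y := Y) C.hd C.sep).geo x (k • y) n (by omega)
    have h3 := C.db_le_dh x z
    have h4 := C.db_le_dh z (k • y)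
    rw [C.db_K hk] at h4
    have h5 := C.db_tri x z y
    exact ⟨z, by omega, by omega⟩

/-- Relations between points which are invariant under rotations of the endpoint. -/
def Bend {G X I : Type} [Group G] [MulAction G X] (d : X → X → ℕ) (D : ℕ) (Y : I → Set X)
    (H : I → Subgroup G) (T : I → ℕ) (α : ℕ) (S : X → X → Prop) : Prop :=
  (∀ k ∈ KK H, ∀ a b, S a b → S (k • a) (k • b)) ∧
  ∀ i a b, S a b → α * T i < 100 * del d D Y i a b → ∀ h ∈ H i, S a (h • b)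

theorem Ctx.bend_comp (C : Ctx d D Q m Δ θ t Y H T) {α β : ℕ} {S S' : X → X → Prop}
    (h1 : Bend d D Y H T α S) (h2 : Bend d D Y H T β S') :
    Bend d D Y H T (α + β) (fun a c => ∃ b, S a b ∧ S' b c) := by
  constructor
  · rintro k hk a c ⟨b, h3, h4⟩
    exact ⟨k • b, h1.1 k hk a b h3, h2.1 k hk b c h4⟩
  · rintro i a c ⟨b, h3, h4⟩ h5 h hh
    have h6 := C.w.dtri i a b c
    rw [Nat.add_mul] at h5
    by_cases h7 : α * T i < 100 * del d D Y i a b
    · exact ⟨h • b, h1.2 i a b h3 h7 h hh, h2.1 h (mem_KK hh) b c h4⟩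
    · exact ⟨b, h3, h2.2 i b c h4 (by omega) h hh⟩

theorem Ctx.bend_close (C : Ctx d D Q m Δ θ t Y H T) {α : ℕ} {S : X → X → Prop}
    (h : Bend d D Y H T α S) (hα : α ≤ 98) (n : ℕ) : ∀ {a : X} {k : G}, k ∈ KK H →
    d a (k • a) ≤ n → S a (k • a) → S a a := by
  induction n using Nat.strong_induction_on with
  | _ n ih =>
    intro a k hk hn hS
    by_cases hk1 : k = 1
    · rw [hk1, one_smul] at hS; exact hS
    obtain ⟨i, hi⟩ := greendlinger C.w hk hk1 a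
    have hb := C.w.Tbig i
    have hp := C.w.θpos
    have hα' : α * T i ≤ 98 * T i := Nat.mul_le_mul_right _ hα
    obtain ⟨g, hg, hlt⟩ := C.w.turnX i a (k • a) (by omega)
    have h2 := h.2 i a (k • a) hS (by omega) g hg
    rw [smul_smul] at h2 hlt
    exact ih (d a ((g * k) • a)) (by omega) ((KK H).mul_mem (mem_KK hg) hk) le_rfl h2

theorem Ctx.bend_close' (C : Ctx d D Q m Δ θ t Y H T) {α : ℕ} {S : X → X → Prop}
    (h : Bend d D Y H T α S) (hα : α ≤ 98) {a : X} {k : G} (hk : k ∈ KK H)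
    (hS : S a (k • a)) : S a a := C.bend_close h hα _ hk le_rfl hS

/-- Rotating the endpoint of a cone-off geodesic with a large angle does not change its length. -/
theorem Ctx.rot_dh (C : Ctx d D Q m Δ θ t Y H T) {i : I} {a b : X}
    (h1 : T i < 100 * del d D Y i a b) {h : G} (hh : h ∈ H i) :
    dh d Y a (h • b) ≤ dh d Y a b := by
  obtain ⟨P, hP⟩ := exists_gpath C.hd C.sep Y a b
  have hB : BB D t θ < del d D Y i a b := by
    have := C.Tbig i
    omega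
  obtain ⟨s, hs, h2, h3, -⟩ := bgi C.hd C.sep C.w.Yne C.qc C.add C.θbig C.w.dom hP hB
  have h4 := hP.dist C.hd C.sep (Nat.zero_le s) hs.le
  have h5 := hP.dist C.hd C.sep (a := s + 1) (b := dh d Y a b) (by omega) le_rfl
  rw [hP.zero] at h4
  rw [hP.last] at h5
  have h6 : h • P (s + 1) ∈ Y i := by
    have := C.w.Yinv h i _ h3
    rwa [C.w.Hfix i h hh] at this
  have h7 := dh_le_one (d := d) h2 h6
  have h8 := C.hinv h (P (s + 1)) b
  have t1 := C.htri a (P s) (h • b)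
  have t2 := C.htri (P s) (h • P (s + 1)) (h • b)
  omega

/-- The relation: `a ∈ K x`, `b ∈ K y`, cone-off distance at most `n`; it can be bent. -/
theorem Ctx.bend_flex (C : Ctx d D Q m Δ θ t Y H T) (x y : X) (n : ℕ) :
    Bend d D Y H T 1 (fun a b => (∃ k ∈ KK H, a = k • x) ∧ (∃ k ∈ KK H, b = k • y) ∧
      dh d Y a b ≤ n) := by
  constructor
  · rintro g hg a b ⟨⟨k1, h1, rfl⟩, ⟨k2, h2, rfl⟩, h3⟩
    refine ⟨⟨g * k1, (KK H).mul_mem hg h1, by rw [mul_smul]⟩,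
      ⟨g * k2, (KK H).mul_mem hg h2, by rw [mul_smul]⟩, ?_⟩
    rw [C.hinv]; exact h3
  · rintro i a b ⟨h1, ⟨k2, h2, rfl⟩, h3⟩ h4 g hg
    refine ⟨h1, ⟨g * k2, (KK H).mul_mem (mem_KK hg) h2, by rw [mul_smul]⟩, ?_⟩
    exact (C.rot_dh (by omega) hg).trans h3

/-- Rigid sides. -/
theorem Ctx.bend_rigid (C : Ctx d D Q m Δ θ t Y H T) {x y : X} {α : ℕ}
    (h : ∀ i, 100 * del d D Y i x y ≤ α * T i) :
    Bend d D Y H T α (fun a b => ∃ g ∈ KK H, a = g • x ∧ b = g • y) := by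
  constructor
  · rintro k hk a b ⟨g, hg, rfl, rfl⟩
    exact ⟨k * g, (KK H).mul_mem hk hg, by rw [mul_smul], by rw [mul_smul]⟩
  · rintro i a b ⟨g, hg, rfl, rfl⟩ h4
    exfalso
    have h5 := h (g⁻¹ • i)
    have h6 := C.w.delinv g (g⁻¹ • i) x y
    have h7 := C.w.Tinv g⁻¹ i
    rw [smul_inv_smul] at h6
    rw [h6, ← h7] at h4
    omega

/-- Sides inside a domain. -/
theorem Ctx.bend_dom (C : Ctx d D Q m Δ θ t Y H T) {i : I} {u v : X} (hu : u ∈ Y i)
    (hv : v ∈ Y i) : Bend d D Y H T 1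
      (fun a b => ∃ g ∈ KK H, ∃ h ∈ H i, a = g • u ∧ b = g • h • v) := by
  constructor
  · rintro k hk a b ⟨g, hg, h, hh, rfl, rfl⟩
    exact ⟨k * g, (KK H).mul_mem hk hg, h, hh, by rw [mul_smul], by rw [mul_smul]⟩
  · rintro j a b ⟨g, hg, h, hh, rfl, rfl⟩ h4 f hf
    have hv' : h • v ∈ Y i := by
      have := C.w.Yinv h i _ hv
      rwa [C.w.Hfix i h hh] at this
    by_cases hj : j = g • i
    · subst hj
      refine ⟨g, hg, g⁻¹ * f * g * h, (H i).mul_mem ?_ hh, rfl, ?_⟩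
      · have := C.w.Hinv g⁻¹ (g • i) f hf
        rwa [inv_smul_smul, inv_inv] at this
      · simp only [mul_smul, smul_inv_smul]
    · exfalso
      have h5 := C.w.dom j (g • i) hj _ (C.w.Yinv g i _ hu) _ (C.w.Yinv g i _ hv')
      have h6 := C.w.Tbig j
      have h7 := C.w.θpos
      omega

/-- If all angles are at most `0.9` of the full angle then the cone-off distance is the quotient
distance. -/
theorem Ctx.db_eq (C : Ctx d D Q m Δ θ t Y H T) {x y : X}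
    (h : ∀ i, 100 * del d D Y i x y ≤ 90 * T i) : db d Y H x y = dh d Y x y := by
  apply le_antisymm (C.db_le_dh x y)
  have h1 := C.bend_comp (C.bend_rigid h) (C.bend_flex y x (db d Y H x y))
  obtain ⟨k, hk, h2⟩ := C.exists_db y x
  rw [C.db_symm] at h2
  obtain ⟨b, ⟨g, hg, hgx, rfl⟩, -, -, h4⟩ := C.bend_close' h1 (by omega) hk
    ⟨y, ⟨1, one_mem _, by rw [one_smul], by rw [one_smul]⟩, ⟨1, one_mem _, by rw [one_smul]⟩,
      ⟨k, hk, rfl⟩, h2.le⟩
  have h5 := C.hinv g y x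
  rw [← hgx, C.hsymm y x] at h5
  omega

/-- Reduced representatives. -/
theorem Ctx.exists_red (C : Ctx d D Q m Δ θ t Y H T) (x y : X) :
    ∃ k ∈ KK H, dh d Y x (k • y) = db d Y H x y ∧
      ∀ i, 100 * del d D Y i x (k • y) ≤ 51 * T i := by
  have hne : {n | ∃ k ∈ KK H, dh d Y x (k • y) = db d Y H x y ∧ d x (k • y) = n}.Nonempty := by
    obtain ⟨k, hk, h⟩ := C.exists_db x y
    exact ⟨_, k, hk, h, rfl⟩
  obtain ⟨k, hk, h1, h2⟩ := Nat.sInf_mem hne
  refine ⟨k, hk, h1, ?_⟩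
  intro i
  by_contra hcon
  push Not at hcon
  obtain ⟨h, hh, hlt⟩ := C.w.turnX i x (k • y) hcon
  have h3 := C.rot_dh (i := i) (a := x) (b := k • y) (by omega) hh
  have h4 : d x ((h * k) • y) ∈
      {n | ∃ k ∈ KK H, dh d Y x (k • y) = db d Y H x y ∧ d x (k • y) = n} := by
    refine ⟨h * k, (KK H).mul_mem (mem_KK hh) hk, ?_, rfl⟩
    apply le_antisymm
    · rw [mul_smul]; omega
    · exact C.db_le ((KK H).mul_mem (mem_KK hh) hk)
  have h5 := Nat.sInf_le h4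
  rw [mul_smul] at h5
  omega

/-- The quotient metric is hyperbolic with the constant of the cone-off. -/
theorem Ctx.db_hyp (C : Ctx d D Q m Δ θ t Y H T) :
    Hyp (db d Y H) (2 * (t + 2 * (4 * D + 2))) := by
  refine ⟨C.db_pmet, ?_⟩
  intro x y z w
  have hh := cone_hyp C.hd C.sep C.add
  obtain ⟨k1, m1, e1⟩ := C.exists_db x z
  obtain ⟨k2, m2, e2⟩ := C.exists_db z y
  obtain ⟨k3, m3, e3⟩ := C.exists_db y w
  obtain ⟨k4, m4, e4⟩ := C.exists_db w x
  have f := C.bend_comp (C.bend_comp (C.bend_comp (C.bend_flex x z (db d Y H x z))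
    (C.bend_flex z y (db d Y H z y))) (C.bend_flex y w (db d Y H y w)))
    (C.bend_flex w x (db d Y H w x))
  have hk : k1 * (k2 * (k3 * k4)) ∈ KK H :=
    (KK H).mul_mem m1 ((KK H).mul_mem m2 ((KK H).mul_mem m3 m4))
  obtain ⟨c, ⟨b, ⟨a, ⟨-, ⟨g1, n1, rfl⟩, l1⟩, -, ⟨g2, n2, rfl⟩, l2⟩, -, ⟨g3, n3, rfl⟩, l3⟩, -, -, l4⟩ :=
    C.bend_close' f (by omega) (a := x) hk
    ⟨(k1 * (k2 * k3)) • w, ⟨(k1 * k2) • y, ⟨k1 • z,
      ⟨⟨1, one_mem _, by rw [one_smul]⟩, ⟨k1, m1, rfl⟩, e1.le⟩,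
      ⟨k1, m1, rfl⟩, ⟨k1 * k2, (KK H).mul_mem m1 m2, rfl⟩, by
        rw [mul_smul, C.hinv]; exact e2.le⟩,
      ⟨k1 * k2, (KK H).mul_mem m1 m2, rfl⟩,
      ⟨k1 * (k2 * k3), (KK H).mul_mem m1 ((KK H).mul_mem m2 m3), rfl⟩, by
        rw [← mul_assoc k1, mul_smul (k1 * k2) k3, C.hinv]; exact e3.le⟩,
      ⟨k1 * (k2 * k3), (KK H).mul_mem m1 ((KK H).mul_mem m2 m3), rfl⟩, ⟨_, hk, rfl⟩, by
        rw [show k1 * (k2 * (k3 * k4)) = (k1 * (k2 * k3)) * k4 by simp only [mul_assoc],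
          mul_smul (k1 * (k2 * k3)) k4, C.hinv]; exact e4.le⟩
  have f4 := hh.four x (g2 • y) (g1 • z) (g3 • w)
  have i1 := C.db_le (x := x) (y := y) n2
  have i2 := C.db_le' (x := z) (y := w) n1 n3
  have s1 := C.hsymm (g2 • y) (g1 • z)
  have s2 := C.hsymm (g3 • w) x
  have s3 := C.db_symm z y
  have s4 := C.db_symm w x
  omega

end Pool.Agent.Lib.MP_0a5b83_al_B
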