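import Pool.Agent.Lib.MP_0a5b83_al_B.I2A

/-! JOB I2B : elements of the quotient are torsion or loxodromic. -/

set_option autoImplicit false

namespace Pool.Agent.Lib.MP_0a5b83_al_B

variable {G X I : Type} [Group G] [MulAction G X] [MulAction G I] {d : X → X → ℕ}
  {D Q m Δ θ t : ℕ} {Y : I → Set X} {H : I → Subgroup G} {T : I → ℕ}

theorem Ctx.pow_coset (C : Ctx d D Q m Δ θ t Y H T) {k : G} (hk : k ∈ KK H) (g : G) (n : ℕ) :
    ∃ k' ∈ KK H, (k * g) ^ n = k' * g ^ n := by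
  induction n with
  | zero => exact ⟨1, one_mem _, by simp⟩
  | succ n ih =>
    obtain ⟨k', h1, h2⟩ := ih
    refine ⟨k' * (g ^ n * k * (g ^ n)⁻¹), (KK H).mul_mem h1 (C.conj_mem hk _), ?_⟩
    rw [pow_succ, h2, pow_succ]
    group

theorem Ctx.i2 (C : Ctx d D Q m Δ θ t Y H T) (g : G) :
    g ^ m ∈ KK H ∨ ∀ (x : X) (n : ℕ), n ≤ 2 * (Δ + 211 * D + 103) * db d Y H x (g ^ n • x) := by
  have := C.E.ne
  have hd := C.hd
  have hi := C.hi
  obtain ⟨x₀⟩ := C.E.ne
  have hne : {n | ∃ k ∈ KK H, ∃ w : X, d w ((k * g) • w) = n}.Nonempty :=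
    ⟨_, 1, one_mem _, x₀, rfl⟩
  obtain ⟨k, hk, z, hz⟩ := Nat.sInf_mem hne
  have hmin0 : ∀ k' ∈ KK H, ∀ w : X, d z ((k * g) • z) ≤ d w ((k' * g) • w) := by
    intro k' hk' w
    rw [hz]
    exact Nat.sInf_le ⟨k', hk', w, rfl⟩
  obtain ⟨g', hg'⟩ : ∃ g', g' = k * g := ⟨_, rfl⟩
  rw [← hg'] at hmin0
  have hmin : ∀ k' ∈ KK H, ∀ w : X, d z (g' • z) ≤ d w ((k' * g') • w) := by
    intro k' hk' w
    have := hmin0 (k' * k) ((KK H).mul_mem hk' hk) w
    rwa [mul_assoc, ← hg'] at this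
  have htor : g' ^ m ∈ KK H → g ^ m ∈ KK H := by
    intro h
    obtain ⟨k', h1, h2⟩ := C.pow_coset hk g m
    rw [hg', h2] at h
    have := (KK H).mul_mem ((KK H).inv_mem h1) h
    rwa [inv_mul_cancel_left] at this
  rcases C.E.dich g' with h | hlox
  · left
    apply htor
    rw [h]
    exact one_mem _
  by_cases hfix : ∃ i : I, g' • i = i
  · left
    obtain ⟨i, hi'⟩ := hfix
    exact htor (C.sm g' i hi')
  push Not at hfix
  right
  obtain ⟨l, hl⟩ : ∃ l, l = d z (g' • z) := ⟨_, rfl⟩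
  have hmind : mind d g' = l := by
    apply le_antisymm
    · rw [hl]; exact mind_le d g' z
    · obtain ⟨w, hw⟩ := exists_mind (X := X) d g'
      have := hmin 1 (one_mem _) w
      rw [one_mul, hw, ← hl] at this
      exact this
  have estep : ∀ n : ℕ, d (g' ^ n • z) (g' ^ (n + 1) • z) = l := by
    intro n
    rw [pow_succ, mul_smul, hi, ← hl]
  have grow : ∀ n : ℕ, d z (g' ^ n • z) + l ≤ d z (g' ^ (n + 1) • z) + (6 * D + 4) := by
    intro n
    by_cases hc : 3 * D + 2 ≤ l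
    · have := growth_mind hd hi (g := g') (by rw [hmind]; exact hc) z n
      rw [hmind] at this
      omega
    · have t1 := hd.tri z (g' ^ (n + 1) • z) (g' ^ n • z)
      have s1 := hd.symm (g' ^ (n + 1) • z) (g' ^ n • z)
      have e1 := estep n
      omega
  have h1 : ∀ n : ℕ, On d (6 * D + 4) z (g' ^ (n + 1) • z) (g' • z) := by
    intro n
    have e1 : d (g' • z) (g' ^ (n + 1) • z) = d z (g' ^ n • z) := by
      rw [pow_succ', mul_smul, hi]
    unfold On
    rw [e1, ← hl]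
    have := grow n
    omega
  have h2 : ∀ n : ℕ, On d (6 * D + 4) z (g' ^ (n + 1) • z) (g' ^ n • z) := by
    intro n
    unfold On
    rw [estep n]
    exact grow n
  obtain ⟨E, hE⟩ : ∃ E, E = Δ + 211 * D + 103 := ⟨_, rfl⟩
  have key1 : ∀ n : ℕ, n ≤ 2 * E * db d Y H z (g' ^ n • z) := by
    intro n
    have a1 := C.db_eq (C.orbit_red hfix h1 h2 hmin n)
    have a2 := dist_le_dh (O := l + Δ + 200 * D + 100) hd C.sep C.qc (x := z)
      (y := g' ^ n • z) (fun i => by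
        have := C.overlap (hfix i) h1 h2 n
        omega)
    have a3 := C.big g' hlox hfix z n
    rw [hmind] at a3
    rw [a1]
    obtain ⟨D', hD'⟩ : ∃ D', D' = dh d Y z (g' ^ n • z) := ⟨_, rfl⟩
    rw [← hD'] at a2 ⊢
    have a4 : l + Δ + 200 * D + 100 + 3 * D + 2 * (4 * D + 1) + 1 ≤ (l + 1) * E := by
      rw [hE]
      nlinarith [Nat.zero_le (l * (Δ + 211 * D + 102))]
    have a5 : D' * (l + Δ + 200 * D + 100 + 3 * D + 2 * (4 * D + 1) + 1) ≤ D' * ((l + 1) * E) :=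
      Nat.mul_le_mul_left _ a4
    have a6 : (l + 1) * n ≤ (l + 1) * (2 * E * D') := by
      calc (l + 1) * n = n * (l + 1) := Nat.mul_comm _ _
        _ ≤ 2 * d z (g' ^ n • z) := a3
        _ ≤ 2 * (D' * ((l + 1) * E)) := by omega
        _ = (l + 1) * (2 * E * D') := by ring
    exact Nat.le_of_mul_le_mul_left a6 (Nat.succ_pos l)
  have key2 : ∀ n : ℕ, n ≤ 2 * E * db d Y H z (g ^ n • z) := by
    intro n
    obtain ⟨k', b1, b2⟩ := C.pow_coset hk g n
    have := key1 n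
    rw [hg', b2, mul_smul, C.db_K b1] at this
    exact this
  intro x n
  rw [← hE]
  obtain ⟨c, hc⟩ : ∃ c, c = db d Y H x z := ⟨_, rfl⟩
  obtain ⟨N, hN⟩ : ∃ N, N = 2 * (2 * E) * c + 1 := ⟨_, rfl⟩
  have b1 := key2 (n * N)
  have b2 := C.db_tri z x (g ^ (n * N) • z)
  have b3 := C.db_tri x (g ^ (n * N) • x) (g ^ (n * N) • z)
  have b4 := C.db_inv (g ^ (n * N)) x z
  have b5 := C.db_symm z x
  have b6 := disp_pow_le C.db_hyp C.db_inv (g ^ n) x N
  rw [← pow_mul] at b6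
  have b7 : db d Y H z (g ^ (n * N) • z) ≤ N * db d Y H x (g ^ n • x) + 2 * c := by omega
  have b8 : n * N ≤ 2 * E * (N * db d Y H x (g ^ n • x) + 2 * c) :=
    b1.trans (Nat.mul_le_mul_left _ b7)
  by_contra hcon
  push Not at hcon
  have b9 : (2 * E * db d Y H x (g ^ n • x) + 1) * N ≤ n * N := Nat.mul_le_mul_right _ hcon
  have b10 : 2 * E * (N * db d Y H x (g ^ n • x) + 2 * c) =
      2 * E * db d Y H x (g ^ n • x) * N + 2 * (2 * E) * c := by ring
  have b11 : (2 * E * db d Y H x (g ^ n • x) + 1) * N =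
      2 * E * db d Y H x (g ^ n • x) * N + N := by ring
  omega

end Pool.Agent.Lib.MP_0a5b83_al_B
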