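import Pool.Agent.Lib.MP_0a5b83_al_B.PigA

/-! JOB PIGB : consequences of the pigeonhole lemma. -/

set_option autoImplicit false

namespace Pool.Agent.Lib.MP_0a5b83_al_B

variable {G X I : Type} [Group G] [MulAction G X] [MulAction G I] {d : X → X → ℕ}
  {D Q m Δ θ t : ℕ} {Y : I → Set X} {H : I → Subgroup G} {T : I → ℕ}

private theorem mem_of_pow_pow {K : Subgroup G} (hK : K.Normal) {f : G} {n m : ℕ}
    (hc : Nat.gcd n m = 1) (h1 : f ^ n ∈ K) (h2 : f ^ m ∈ K) : f ∈ K := by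
  have := hK
  have e1 : ((f : G ⧸ K)) ^ n = 1 := by
    rw [← QuotientGroup.mk_pow]; exact (QuotientGroup.eq_one_iff _).2 h1
  have e2 : ((f : G ⧸ K)) ^ m = 1 := by
    rw [← QuotientGroup.mk_pow]; exact (QuotientGroup.eq_one_iff _).2 h2
  have e3 := pow_gcd_eq_one.2 ⟨e1, e2⟩
  rw [hc, pow_one] at e3
  exact (QuotientGroup.eq_one_iff _).1 e3

private theorem Ctx.disp_pow (C : Ctx d D Q m Δ θ t Y H T) {x : X} {f : G} {R J a : ℕ}
    (fx : db d Y H x (f • x) ≤ R) (ha : a ≤ J) : db d Y H x (f ^ a • x) ≤ J * R :=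
  (disp_pow_le C.db_hyp C.db_inv f x a).trans (Nat.mul_le_mul ha fx)

private theorem Ctx.disp_mul (C : Ctx d D Q m Δ θ t Y H T) {x : X} {f g : G} {a b : ℕ}
    (fx : db d Y H x (f • x) ≤ a) (gx : db d Y H x (g • x) ≤ b) :
    db d Y H x ((f * g) • x) ≤ a + b := by
  have h1 := C.db_tri x (f • x) ((f * g) • x)
  have h2 := C.db_inv f x (g • x)
  rw [smul_smul] at h2
  omega

private theorem Ctx.disp_inv (C : Ctx d D Q m Δ θ t Y H T) {x : X} {f : G} {a : ℕ}
    (fx : db d Y H x (f • x) ≤ a) : db d Y H x (f⁻¹ • x) ≤ a := by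
  rw [Inv.disp_inv C.db_hyp C.db_inv]; exact fx

/-- Torsion elements almost fixing a pair with two big domains are trivial in the quotient. -/
theorem Ctx.tor2 (C : Ctx d D Q m Δ θ t Y H T) {J : ℕ}
    (hJ : (54 * DD D t + 3) * (54 * DD D t + 3) < J) (hm : J ≤ m) {x y : X} {i j : I} {r R : ℕ}
    (h2 : Type2 d D Y H T x y i j r) (hr : (4 * J + 8) * R + 8 * DD D t + 10 ≤ r) {f : G}
    (hf : f ^ m ∈ KK H) (fx : db d Y H x (f • x) ≤ R) (fy : db d Y H y (f • y) ≤ R) :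
    f ∈ KK H := by
  have hh : Hyp (db d Y H) (DD D t) := C.db_hyp
  have er : (4 * J + 8) * R = 4 * (J * R) + 8 * R := by ring
  rw [er] at hr
  have eW : 2 * (27 * DD D t) + 3 = 54 * DD D t + 3 := by ring
  obtain ⟨a, b, hab, hb, hmem⟩ := C.pig h2 (R := J * R) (W := 27 * DD D t) (J := J) (by omega)
    (by rw [eW]; exact hJ) (fun a => f ^ a) (fun a ha => C.disp_pow fx ha.le)
    (fun a ha => C.disp_pow fy ha.le) (by
      intro a ha w hw h3 h4
      rcases tor_small hh C.db_inv hw (C.disp_pow fx ha.le) (C.disp_pow fy ha.le) h3 h4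
        (by omega) with h5 | h5
      · show db d Y H w (f ^ a • w) ≤ _
        omega
      · exfalso
        have h6 := growth_linear hh C.db_inv (e := 1) le_rfl h5 m
        have h7 : (f ^ a) ^ m ∈ KK H := by
          rw [← pow_mul, mul_comm, pow_mul]
          exact (KK H).pow_mem hf a
        rw [C.db_K h7, C.db_self] at h6
        omega)
  have hmem' : f ^ (b - a) ∈ KK H := by
    have e : f ^ (b - a) = (f ^ a)⁻¹ * f ^ b := by
      obtain ⟨c, rfl⟩ := Nat.exists_eq_add_of_lt hab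
      rw [show a + c + 1 - a = c + 1 by omega, add_assoc, pow_add f a (c + 1), inv_mul_cancel_left]
    rw [e]; exact hmem
  refine mem_of_pow_pow C.normal (n := b - a) (m := m) ?_ hmem' hf
  have : Nat.Coprime m (b - a) := (Nat.Prime.coprime_iff_not_dvd C.E.prime).2 fun h =>
    absurd (Nat.le_of_dvd (by omega) h) (by omega)
  exact this.symm

theorem Ctx.comm2 (C : Ctx d D Q m Δ θ t Y H T) {J : ℕ}
    (hJ : (54 * DD D t + 3) * (54 * DD D t + 3) < J) {x y : X} {i j : I} {r R : ℕ}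
    (h2 : Type2 d D Y H T x y i j r) (hr : (4 * J + 8) * R + 8 * DD D t + 10 ≤ r) {f g : G}
    (fx : db d Y H x (f • x) ≤ R) (fy : db d Y H y (f • y) ≤ R)
    (gx : db d Y H x (g • x) ≤ R) (gy : db d Y H y (g • y) ≤ R) :
    ∃ a, 1 ≤ a ∧ a ≤ J ∧ f ^ a * g * (f ^ a)⁻¹ * g⁻¹ ∈ KK H := by
  have hh : Hyp (db d Y H) (DD D t) := C.db_hyp
  have er : (4 * J + 8) * R = 4 * (J * R) + 8 * R := by ring
  rw [er] at hr
  have eW : 2 * (27 * DD D t) + 3 = 54 * DD D t + 3 := by ring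
  have hRJ : R ≤ J * R := Nat.le_mul_of_pos_left _ (by omega)
  obtain ⟨a, b, hab, hb, hmem⟩ := C.pig h2 (R := J * R + R + J * R + R) (W := 27 * DD D t)
    (J := J) (by omega) (by rw [eW]; exact hJ) (fun a => f ^ a * g * (f ^ a)⁻¹ * g⁻¹)
    (fun a ha => C.disp_mul (C.disp_mul (C.disp_mul (C.disp_pow fx ha.le) gx)
      (C.disp_inv (C.disp_pow fx ha.le))) (C.disp_inv gx))
    (fun a ha => C.disp_mul (C.disp_mul (C.disp_mul (C.disp_pow fy ha.le) gy)
      (C.disp_inv (C.disp_pow fy ha.le))) (C.disp_inv gy)) (by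
      intro a ha w hw h3 h4
      exact comm_small hh C.db_inv hw (C.disp_pow fx ha.le) (C.disp_pow fy ha.le)
        (gx.trans hRJ) (gy.trans hRJ) h3 h4 (by omega))
  refine ⟨b - a, by omega, by omega, ?_⟩
  obtain ⟨c, rfl⟩ := Nat.exists_eq_add_of_lt hab
  rw [show a + c + 1 - a = c + 1 by omega]
  have e : f ^ (a + c + 1) = f ^ a * f ^ (c + 1) := by rw [add_assoc, pow_add]
  have hmem' : (f ^ a * g * (f ^ a)⁻¹ * g⁻¹)⁻¹ * (f ^ a * f ^ (c + 1) * g *
      (f ^ a * f ^ (c + 1))⁻¹ * g⁻¹) ∈ KK H := by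
    rw [← e]; exact hmem
  have h5 := C.conj_mem hmem' (g * (g * f ^ a)⁻¹)
  have e2 : g * (g * f ^ a)⁻¹ * ((f ^ a * g * (f ^ a)⁻¹ * g⁻¹)⁻¹ * (f ^ a * f ^ (c + 1) * g *
      (f ^ a * f ^ (c + 1))⁻¹ * g⁻¹)) * (g * (g * f ^ a)⁻¹)⁻¹ =
      f ^ (c + 1) * g * (f ^ (c + 1))⁻¹ * g⁻¹ := by
    generalize f ^ a = u
    generalize f ^ (c + 1) = v
    group
  rwa [e2] at h5

/-- Only finitely many elements of the quotient almost fix a pair with two big domains. -/
theorem Ctx.fin2 (C : Ctx d D Q m Δ θ t Y H T) {x y : X} {i j : I} {r R : ℕ}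
    (h2 : Type2 d D Y H T x y i j r) (hr : R < r) :
    ∃ S : Finset G, ∀ f : G, db d Y H x (f • x) ≤ R → db d Y H y (f • y) ≤ R →
      ∃ s ∈ S, s⁻¹ * f ∈ KK H := by
  classical
  have hh : Hyp (db d Y H) (DD D t) := C.db_hyp
  set A : Set (G ⧸ KK H) :=
    (fun f : G => (f : G ⧸ KK H)) '' {f : G | db d Y H x (f • x) ≤ R ∧ db d Y H y (f • y) ≤ R}
    with hA
  by_cases hfin : A.Finite
  · refine ⟨hfin.toFinset.image Quotient.out, fun f h3 h4 => ⟨((f : G ⧸ KK H)).out, ?_, ?_⟩⟩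
    · rw [Finset.mem_image]
      exact ⟨(f : G ⧸ KK H), (hfin.mem_toFinset).2 ⟨f, ⟨h3, h4⟩, rfl⟩, rfl⟩
    · rw [← QuotientGroup.eq, QuotientGroup.out_eq']
  · exfalso
    have hinf : A.Infinite := hfin
    have hex : ∀ n : ℕ, ∃ f : G, (db d Y H x (f • x) ≤ R ∧ db d Y H y (f • y) ≤ R) ∧
        (f : G ⧸ KK H) = (hinf.natEmbedding A n : G ⧸ KK H) := by
      intro n
      obtain ⟨f, hf, he⟩ := (hinf.natEmbedding A n).2
      exact ⟨f, hf, he⟩
    choose g hg he using hex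
    obtain ⟨a, b, hab, -, hmem⟩ := C.pig h2 (R := R) (W := R + 2 * DD D t)
      (J := (2 * (R + 2 * DD D t) + 3) * (2 * (R + 2 * DD D t) + 3) + 1) hr (Nat.lt_succ_self _) g
      (fun a _ => (hg a).1) (fun a _ => (hg a).2) (by
        intro a _ w hw _ _
        have h5 := conv hh hw (x' := g a • x) (y' := g a • y) (z' := g a • w)
          (C.db_inv (g a) x w) (C.db_inv (g a) w y) (C.db_inv (g a) x y)
        have h6 := (hg a).1
        have h7 := (hg a).2
        omega)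
    have h8 : (g a : G ⧸ KK H) = (g b : G ⧸ KK H) := QuotientGroup.eq.2 hmem
    rw [he, he] at h8
    have := (hinf.natEmbedding A).injective (Subtype.ext h8)
    omega

end Pool.Agent.Lib.MP_0a5b83_al_B
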