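import Pool.Agent.Lib.MP_0a5b83_al_B.Grp
import Pool.Agent.Lib.MP_0a5b83_al_B.Axis

/-! JOB GM : elements moving two far apart points by a bounded amount are in a cyclic group. -/

set_option autoImplicit false

namespace Pool.Agent.Lib.MP_0a5b83_al_B

variable {G X : Type} [Group G] [MulAction G X] {d : X → X → ℕ} {D Q m : ℕ}

/-- A nontrivial element of a cyclic group of prime exponent generates it. -/
private theorem gm_zpowers {c h : G} (hm : m.Prime) (hh : h ^ m = 1) (hc : c ≠ 1)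
    (hch : c ∈ Subgroup.zpowers h) : h ∈ Subgroup.zpowers c := by
  obtain ⟨k, rfl⟩ := Subgroup.mem_zpowers_iff.1 hch
  have hp : Prime (m : ℤ) := Nat.prime_iff_prime_int.1 hm
  have hnd : ¬ (m : ℤ) ∣ k := by
    rintro ⟨j, rfl⟩
    apply hc
    rw [zpow_mul, zpow_natCast, hh, one_zpow]
  obtain ⟨u, v, huv⟩ := hp.coprime_iff_not_dvd.2 hnd
  refine Subgroup.mem_zpowers_iff.2 ⟨v, ?_⟩
  have h1 : h ^ (u * (m : ℤ) + v * k) = h := by rw [huv, zpow_one]
  rw [zpow_add, mul_comm u, zpow_mul, zpow_natCast, hh, one_zpow, one_mul, mul_comm v,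
    zpow_mul] at h1
  exact h1

/-- An element which conjugates a nontrivial element of the cyclic group of a root into the same
cyclic group belongs to it. -/
private theorem gm_conj (E : Ell (G := G) d D Q m) {h c f : G} (hh : Root d Q h) (hc : c ≠ 1)
    (h1 : c ∈ Subgroup.zpowers h) (h2 : f * c * f⁻¹ ∈ Subgroup.zpowers h) :
    f ∈ Subgroup.zpowers h := by
  obtain ⟨a, ha⟩ := Subgroup.mem_zpowers_iff.1 h1
  obtain ⟨b, hb⟩ := Subgroup.mem_zpowers_iff.1 h2
  have ha0 : a ≠ 0 := by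
    rintro rfl
    apply hc
    rw [← ha, zpow_zero]
  have hb0 : b ≠ 0 := by
    rintro rfl
    apply hc
    rw [zpow_zero] at hb
    have : c = f⁻¹ * (f * c * f⁻¹) * f := by group
    rw [this, ← hb]; group
  have e1 : Subgroup.centralizer {c} = Subgroup.zpowers h := by
    rw [← ha]; exact E.root_zpow hh ha0
  have e2 : Subgroup.centralizer {f * c * f⁻¹} = Subgroup.zpowers h := by
    rw [← hb]; exact E.root_zpow hh hb0
  have hself : h ∈ Subgroup.zpowers h := Subgroup.mem_zpowers h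
  refine E.root_norm hh ?_ ?_
  · rw [← e2, Subgroup.mem_centralizer_singleton_iff]
    have h3 := hself
    rw [← e1, Subgroup.mem_centralizer_singleton_iff] at h3
    calc f * h * f⁻¹ * (f * c * f⁻¹) = f * (h * c) * f⁻¹ := by group
      _ = f * (c * h) * f⁻¹ := by rw [h3]
      _ = f * c * f⁻¹ * (f * h * f⁻¹) := by group
  · rw [← e1, Subgroup.mem_centralizer_singleton_iff]
    have h3 := hself
    rw [← e2, Subgroup.mem_centralizer_singleton_iff] at h3
    calc f⁻¹ * h * f * c = f⁻¹ * (h * (f * c * f⁻¹)) * f := by group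
      _ = f⁻¹ * (f * c * f⁻¹ * h) * f := by rw [h3]
      _ = c * (f⁻¹ * h * f) := by group

/-- Commutators and their conjugates have small displacement. -/
private theorem gm_conj_small (hd : Hyp d D) (hi : Inv G d) {M n : ℕ} {x y z : X} {f g k : G}
    (hz : On d 0 x y z) (hfx : d x (f • x) ≤ M) (hfy : d y (f • y) ≤ M) (hgx : d x (g • x) ≤ M)
    (hgy : d y (g • y) ≤ M) (hkx : d x (k • x) ≤ M) (hky : d y (k • y) ≤ M)
    (h1 : n ≤ d x z) (h2 : n ≤ d z y) (hm : 5 * M + 9 * D < n) :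
    d z ((k * (f * g * f⁻¹ * g⁻¹) * k⁻¹) • z) ≤ 45 * D := by
  have hkx' : d x (k⁻¹ • x) ≤ M := by rwa [Inv.disp_inv hd hi]
  have hky' : d y (k⁻¹ • y) ≤ M := by rwa [Inv.disp_inv hd hi]
  obtain ⟨a1, b1, c1, -, -⟩ := sh_step hd hi hz hkx' hky' h1 h2 (by omega)
  have h3 := comm_small hd hi a1 hfx hfy hgx hgy b1 c1 (by omega)
  have h4 : d z ((k * (f * g * f⁻¹ * g⁻¹) * k⁻¹) • z) =
      d (k⁻¹ • z) ((f * g * f⁻¹ * g⁻¹) • k⁻¹ • z) := by
    rw [show (k * (f * g * f⁻¹ * g⁻¹) * k⁻¹) • z = k • ((f * g * f⁻¹ * g⁻¹) • k⁻¹ • z) by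
      rw [mul_smul, mul_smul k], hi.right k]
  rw [h4]
  omega

theorem gm (E : Ell (G := G) d D Q m) {M₀ A : ℕ} (hM : 45 * D ≤ M₀)
    (acyl : ∀ x y : X, A ≤ d x y → ∃ h : G, ∀ f : G, d x (f • x) ≤ M₀ → d y (f • y) ≤ M₀ →
      f ∈ Subgroup.zpowers h)
    {M : ℕ} {x y : X} (hxy : A + 10 * M + 20 * D + 2 ≤ d x y) :
    ∃ h : G, ∀ f : G, d x (f • x) ≤ M → d y (f • y) ≤ M → f ∈ Subgroup.zpowers h := by
  have hd := E.hyp
  have hi := E.inv
  obtain ⟨p, hp1, hp2⟩ := hd.geo x y (5 * M + 9 * D + 1) (by omega)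
  obtain ⟨q, hq1, hq2⟩ := hd.geo x y (d x y - (5 * M + 9 * D + 1)) (by omega)
  have hpo : On d 0 x y p := by unfold On; omega
  have hqo : On d 0 x y q := by unfold On; omega
  have hpq : A ≤ d p q := by
    have := hd.tri x p q
    omega
  have mp1 : 5 * M + 9 * D + 1 ≤ d x p := by omega
  have mp2 : 5 * M + 9 * D + 1 ≤ d p y := by omega
  have mq1 : 5 * M + 9 * D + 1 ≤ d x q := by omega
  have mq2 : 5 * M + 9 * D + 1 ≤ d q y := by omega
  by_cases hall : ∀ f : G, d x (f • x) ≤ M → d y (f • y) ≤ M → f ^ m = 1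
  · -- all elements are torsion
    obtain ⟨h, hh⟩ := acyl p q hpq
    refine ⟨h, fun f hfx hfy => ?_⟩
    have hf := hall f hfx hfy
    have key : ∀ z : X, On d 0 x y z → 5 * M + 9 * D + 1 ≤ d x z → 5 * M + 9 * D + 1 ≤ d z y →
        d z (f • z) ≤ M₀ := by
      intro z hz hz1 hz2
      rcases tor_small hd hi hz hfx hfy hz1 hz2 (by omega) with h1 | h1
      · omega
      · have h2 := growth_linear hd hi (e := 1) le_rfl h1 m
        rw [hf, one_smul, hd.self] at h2
        have := E.prime.pos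
        omega
    exact hh f (key p hpo mp1 mp2) (key q hqo mq1 mq2)
  · push Not at hall
    obtain ⟨f₀, hf₀x, hf₀y, hf₀⟩ := hall
    have hlox : Lox d Q f₀ := (E.dich f₀).resolve_left hf₀
    obtain ⟨h, hh, -, hcen⟩ := E.exists_root hlox
    refine ⟨h, fun g hgx hgy => ?_⟩
    rw [← hcen, Subgroup.mem_centralizer_singleton_iff]
    -- the commutator is trivial
    obtain ⟨c, hc⟩ : ∃ c, c = f₀ * g * f₀⁻¹ * g⁻¹ := ⟨_, rfl⟩
    have hc1 : c = 1 := by
      by_contra hcne
      obtain ⟨h', hh'⟩ := acyl p q hpq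
      have key : ∀ k : G, d x (k • x) ≤ M → d y (k • y) ≤ M →
          k * c * k⁻¹ ∈ Subgroup.zpowers h' := by
        intro k hkx hky
        rw [hc]
        exact hh' _ ((gm_conj_small hd hi hpo hf₀x hf₀y hgx hgy hkx hky mp1 mp2
          (by omega)).trans hM) ((gm_conj_small hd hi hqo hf₀x hf₀y hgx hgy hkx hky mq1 mq2
          (by omega)).trans hM)
      have hc' : c ∈ Subgroup.zpowers h' := by
        have := key 1 (by rw [one_smul, hd.self]; exact Nat.zero_le _)
          (by rw [one_smul, hd.self]; exact Nat.zero_le _)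
        simpa using this
      have hf' := key f₀ hf₀x hf₀y
      have hg' := key g hgx hgy
      rcases E.dich h' with htor | hlox'
      · -- `h'` is torsion
        have h1 : h' ∈ Subgroup.zpowers c := gm_zpowers E.prime htor hcne hc'
        have h2 : Subgroup.zpowers h' ≤ Subgroup.zpowers c := Subgroup.zpowers_le_of_mem h1
        have h3 : c ^ m = 1 := by
          obtain ⟨k, hk⟩ := Subgroup.mem_zpowers_iff.1 hc'
          rw [← hk, ← zpow_natCast, ← zpow_mul, mul_comm, zpow_mul, zpow_natCast, htor, one_zpow]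
        exact hcne (E.tor_norm h3 hlox (h2 hf'))
      · -- `h'` is loxodromic
        obtain ⟨r, hr, hr', -⟩ := E.exists_root hlox'
        have h2 : Subgroup.zpowers h' ≤ Subgroup.zpowers r := Subgroup.zpowers_le_of_mem hr'
        have h3 := gm_conj E hr hcne (h2 hc') (h2 hf')
        have h4 := gm_conj E hr hcne (h2 hc') (h2 hg')
        apply hcne
        rw [hc]
        obtain ⟨a, rfl⟩ := Subgroup.mem_zpowers_iff.1 h3
        obtain ⟨b, rfl⟩ := Subgroup.mem_zpowers_iff.1 h4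
        rw [← zpow_add, add_comm, zpow_add]
        group
    rw [hc] at hc1
    have h5 : f₀ * g = g * f₀ := by
      have : f₀ * g = (f₀ * g * f₀⁻¹ * g⁻¹) * (g * f₀) := by group
      rw [this, hc1, one_mul]
    exact h5.symm

end Pool.Agent.Lib.MP_0a5b83_al_B
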