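import Pool.Agent.Lib.MP_0a5b83_al_B.T1A
import Pool.Agent.Lib.MP_0a5b83_al_B.GM

/-! JOB T1B : long segments without big domains. -/

set_option autoImplicit false

namespace Pool.Agent.Lib.MP_0a5b83_al_B

variable {G X I : Type} [Group G] [MulAction G X] [MulAction G I] {d : X → X → ℕ}
  {D Q m Δ θ t : ℕ} {Y : I → Set X} {H : I → Subgroup G} {T : I → ℕ}

/-- A maximum of the displacements. -/
private theorem t1b_max {F : G → Prop} {p' q' : X} (h1 : F 1) {N : ℕ}
    (hN : ∀ f, F f → d p' (f • p') ≤ N ∧ d q' (f • q') ≤ N) :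
    ∃ M, (∀ f, F f → d p' (f • p') ≤ M ∧ d q' (f • q') ≤ M) ∧
      ∃ f₀, F f₀ ∧ (M ≤ d p' (f₀ • p') ∨ M ≤ d q' (f₀ • q')) := by
  classical
  have hex : ∃ n, ∀ f, F f → d p' (f • p') ≤ n ∧ d q' (f • q') ≤ n := ⟨N, hN⟩
  refine ⟨Nat.find hex, Nat.find_spec hex, ?_⟩
  by_contra hcon
  push Not at hcon
  rcases Nat.eq_zero_or_pos (Nat.find hex) with h0 | h0
  · have := (hcon 1 h1).1
    omega
  · have h2 := Nat.find_min hex (m := Nat.find hex - 1) (by omega)
    apply h2
    intro f hf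
    have := hcon f hf
    omega

/-- Covering a geodesic by short steps. -/
private theorem t1b_cover (hd : Hyp d D) (hs : Sep d) {p' q' : X} {σ E : ℕ}
    (h : ∀ w w', On d 0 p' q' w → On d 0 p' q' w' → d p' w ≤ d p' w' → d p' w' ≤ d p' w + σ →
      dh d Y w w' ≤ E) (n : ℕ) :
    ∀ w, On d 0 p' q' w → d p' w ≤ n * σ → dh d Y p' w ≤ n * E := by
  induction n with
  | zero =>
    intro w _ hw2
    have := dh_le hd hs Y p' w
    omega
  | succ n ih =>
    intro w hw hw2
    rw [Nat.add_mul, one_mul] at hw2 ⊢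
    have hle : d p' w ≤ d p' q' := by
      unfold On at hw; omega
    obtain ⟨w1, e1, e2⟩ := hd.geo p' q' (d p' w - σ) (by omega)
    have ho : On d 0 p' q' w1 := by unfold On; omega
    have h1 := ih w1 ho (by omega)
    have h2 := h w1 w ho hw (by omega) (by omega)
    have h3 := dh_tri (Y := Y) hd hs p' w1 w
    omega

theorem Ctx.type1 (C : Ctx d D Q m Δ θ t Y H T) {M₀ A : ℕ} (hM : 45 * D ≤ M₀)
    (acyl : ∀ x y : X, A ≤ d x y → ∃ h : G, ∀ f : G, d x (f • x) ≤ M₀ → d y (f • y) ≤ M₀ →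
      f ∈ Subgroup.zpowers h) {p q : X} {R : ℕ}
    (hL : A + 12 * R + 24 * t + 20 * DD D t + 400 * D + 10 ≤ dh d Y p q) :
    ∃ h : G, ∀ f : G, dh d Y p (f • p) ≤ R → dh d Y q (f • q) ≤ R → f ∈ Subgroup.zpowers h := by
  have hd := C.hd
  have hs := C.sep
  have hi := C.hi
  obtain ⟨p', hp'o, hp'⟩ := exists_on_dh hd hs Y (p := p) (q := q) (r := R + 2 * t + 4 * D + 1)
    (by omega)
  have tpq := C.htri p p' q
  obtain ⟨q', hq'o, hq'⟩ := exists_on_dh hd hs Y (p := q) (q := p') (r := R + 2 * t + 4 * D + 1)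
    (by rw [C.hsymm]; omega)
  have hq'' := C.hsymm q q'
  have tpq' := C.htri p' q' q
  -- exact positions
  have f1 : d p p' + d p' q = d p q := by
    have := hd.tri p p' q
    unfold On at hp'o; omega
  have f2 : d p' q' + d q' q = d p' q := by
    have := hd.tri p' q' q
    have s1 := hd.symm q q'
    have s2 := hd.symm q' p'
    have s3 := hd.symm q p'
    unfold On at hq'o; omega
  have hpos : ∀ w, On d 0 p' q' w → d p w = d p p' + d p' w ∧ d w q = d w q' + d q' q ∧
      d p' w + d w q' = d p' q' := by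
    intro w hw
    have t1 := hd.tri p p' w
    have t2 := hd.tri w q' q
    have t3 := hd.tri p w q
    have t4 := hd.tri p' w q'
    unfold On at hw
    omega
  have hon : ∀ w, On d 0 p' q' w → On d 0 p q w := by
    intro w hw
    have := hpos w hw
    unfold On
    omega
  have hmarg : ∀ w, On d 0 p' q' w → R + t + 4 * D < dh d Y p w ∧ R + t + 4 * D < dh d Y w q := by
    intro w hw
    obtain ⟨w1, w2, w3⟩ := hpos w hw
    have a1 := C.add p w p' (by unfold On; omega)
    have a2 := C.add w q q' (by unfold On; omega)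
    unfold On at a1 a2
    omega
  have hshift : ∀ f : G, dh d Y p (f • p) ≤ R → dh d Y q (f • q) ≤ R → ∀ w, On d 0 p' q' w →
      On d (8 * D) p q (f • w) ∧
      (d (f⁻¹ • p) q : ℤ) - d p q ≤ (d p (f • w) : ℤ) - d p w ∧
      (d p (f • w) : ℤ) - d p w ≤ (d (f⁻¹ • p) q : ℤ) - d p q + 4 * D := by
    intro f hfp hfq w hw
    obtain ⟨m1, m2⟩ := hmarg w hw
    exact C.shift1 hfp hfq (hon w hw) m1 m2
  have hp'self : On d 0 p' q' p' := by
    unfold On; have := hd.self p'; omega
  have hq'self : On d 0 p' q' q' := by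
    unfold On; have := hd.self q'; omega
  obtain ⟨M, hMub, f₀, ⟨hf₀p, hf₀q⟩, hM0⟩ := t1b_max (d := d) (p' := p') (q' := q')
    (F := fun f : G => dh d Y p (f • p) ≤ R ∧ dh d Y q (f • q) ≤ R)
    ⟨by rw [one_smul, dh_self]; exact Nat.zero_le _,
      by rw [one_smul, dh_self]; exact Nat.zero_le _⟩ (N := 2 * d p q + 8 * D) (by
      rintro f ⟨hfp, hfq⟩
      have a1 := (hshift f hfp hfq p' hp'self).1
      have a2 := (hshift f hfp hfq q' hq'self).1
      have b1 := hon q' hq'self
      have t1 := hd.tri p' p (f • p')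
      have t2 := hd.tri q' p (f • q')
      have s1 := hd.symm p' p
      have s2 := hd.symm q' p
      unfold On at a1 a2 b1
      constructor <;> omega)
  by_cases hcase : A + 10 * M + 20 * D + 2 ≤ d p' q'
  · obtain ⟨h, hh⟩ := gm C.E hM acyl hcase
    exact ⟨h, fun f hfp hfq => hh f (hMub f ⟨hfp, hfq⟩).1 (hMub f ⟨hfp, hfq⟩).2⟩
  exfalso
  push Not at hcase
  have hsh := hshift f₀ hf₀p hf₀q
  -- the shift is at least `M - 5 D` in absolute value
  have hs0 : (M : ℤ) - 5 * D ≤ (d (f₀⁻¹ • p) q : ℤ) - d p q ∨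
      (d (f₀⁻¹ • p) q : ℤ) - d p q ≤ 9 * D - M := by
    have key : ∀ w, On d 0 p' q' w → M ≤ d w (f₀ • w) → (M : ℤ) - 5 * D ≤
        (d (f₀⁻¹ • p) q : ℤ) - d p q ∨ (d (f₀⁻¹ • p) q : ℤ) - d p q ≤ 9 * D - M := by
      intro w hw hMw
      obtain ⟨a1, a2, a3⟩ := hsh w hw
      have := close hd (hon w hw) a1
      omega
    rcases hM0 with h | h
    · exact key p' hp'self h
    · exact key q' hq'self h
  have hyp : Hyp (dh d Y) (DD D t) := cone_hyp hd hs C.add
  have hdisp : ∀ w, On d 0 p' q' w → dh d Y w (f₀ • w) ≤ R + 2 * DD D t + t := by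
    intro w hw
    have a1 := C.add p q w (hon w hw)
    have a2 := conv hyp a1 (x' := f₀ • p) (y' := f₀ • q) (z' := f₀ • w)
      (C.hinv _ _ _) (C.hinv _ _ _) (C.hinv _ _ _)
    omega
  have hstep : ∀ w w', On d 0 p' q' w → On d 0 p' q' w' → d p' w ≤ d p' w' →
      d p' w' ≤ d p' w + (M - 13 * D) → dh d Y w w' ≤ R + 2 * DD D t + 2 * t + 22 * D := by
    intro w w' hw hw' h1 h2
    obtain ⟨w1, w2, w3⟩ := hpos w hw
    obtain ⟨w4, w5, w6⟩ := hpos w' hw'
    have c1 := close hd (hon w hw) (hon w' hw')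
    have c2 := dh_le hd hs Y w w'
    by_cases hM13 : M ≤ 13 * D
    · omega
    rcases hs0 with hs0 | hs0
    · obtain ⟨a1, a2, a3⟩ := hsh w hw
      have c3 := close hd (hon w' hw') a1
      have t1 := hd.tri p w (f₀ • w)
      have o1 : On d (10 * D) w (f₀ • w) w' := by
        unfold On; omega
      have o2 := cone_add' (Y := Y) hd hs C.add o1
      have o3 := hdisp w hw
      unfold On at o2
      omega
    · obtain ⟨a1, a2, a3⟩ := hsh w' hw'
      have c3 := close hd (hon w hw) a1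
      have t1 := hd.tri p (f₀ • w') w'
      have s1 := hd.symm (f₀ • w') w'
      have s2 := hd.symm w w'
      have o1 : On d (10 * D) w' (f₀ • w') w := by
        unfold On; omega
      have o2 := cone_add' (Y := Y) hd hs C.add o1
      have o3 := hdisp w' hw'
      have s3 := C.hsymm w w'
      unfold On at o2
      omega
  obtain ⟨w, e1, e2⟩ := hd.geo p' q' (min (10 * (M - 13 * D)) (d p' q')) (min_le_right _ _)
  have ho : On d 0 p' q' w := by unfold On; omega
  have h1 := t1b_cover (Y := Y) hd hs hstep 10 w ho (by omega)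
  have h2 := dh_le hd hs Y w q'
  have h3 := C.htri p' w q'
  omega

end Pool.Agent.Lib.MP_0a5b83_al_B
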