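import Pool.Agent.Lib.MP_0a5b83_al_B.Split
import Pool.Agent.Lib.MP_0a5b83_al_B.T1B
import Pool.Agent.Lib.MP_0a5b83_al_B.PigB
import Pool.Agent.Lib.MP_0a5b83_al_B.I2B

/-! The main dichotomy for elements almost fixing two far apart points. -/

set_option autoImplicit false

namespace Pool.Agent.Lib.MP_0a5b83_al_B

variable {G X I : Type} [Group G] [MulAction G X] [MulAction G I] {d : X → X → ℕ}
  {D Q m Δ θ t : ℕ} {Y : I → Set X} {H : I → Subgroup G} {T : I → ℕ}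

/-- The length of segments needed in type 1. -/
def LL (D t A R : ℕ) : ℕ := A + 12 * (R + 2 * DD D t + t) + 24 * t + 20 * DD D t + 400 * D + 60

theorem Ctx.db_disp_K (C : Ctx d D Q m Δ θ t Y H T) {y : X} {k f : G} (hk : k ∈ KK H) :
    db d Y H (k • y) (f • k • y) = db d Y H y (f • y) := by
  have h1 : f • k • y = (f * k * f⁻¹) • f • y := by
    rw [smul_smul, smul_smul, inv_mul_cancel_right]
  rw [h1, C.db_K (C.conj_mem hk f), C.db_K' hk]

theorem Ctx.dicho (C : Ctx d D Q m Δ θ t Y H T) {M₀ A : ℕ} (hM : 45 * D ≤ M₀)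
    (acyl : ∀ x y : X, A ≤ d x y → ∃ h : G, ∀ f : G, d x (f • x) ≤ M₀ → d y (f • y) ≤ M₀ →
      f ∈ Subgroup.zpowers h) {x y : X} {R r : ℕ}
    (hlen : 2 * (r + t + 44 * D + 13) + 3 * LL D t A R ≤ db d Y H x y) :
    ∃ k₀ ∈ KK H,
      (∃ h : G, ∀ f : G, db d Y H x (f • x) ≤ R → db d Y H y (f • y) ≤ R →
        ∃ k ∈ KK H, k * f ∈ Subgroup.zpowers h) ∨
      ∃ i j, Type2 d D Y H T x (k₀ • y) i j r := by
  obtain ⟨k₀, hk₀, h1, red⟩ := C.exists_red x y
  refine ⟨k₀, hk₀, ?_⟩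
  have hL : 100 * D + 50 ≤ LL D t A R := by unfold LL; omega
  rcases C.split (r := r) red hL (by omega) with ⟨p, q, h2, h3, h4, h5⟩ | h2
  · left
    obtain ⟨h, hh⟩ := C.type1 hM acyl (p := p) (q := q) (R := R + 2 * DD D t + t)
      (by unfold LL at h3; omega)
    refine ⟨h, ?_⟩
    intro f fx fy
    have fy' : db d Y H (k₀ • y) (f • k₀ • y) ≤ R := by rw [C.db_disp_K hk₀]; exact fy
    have key : ∀ w, On (db d Y H) t x (k₀ • y) w → db d Y H w (f • w) ≤ R + 2 * DD D t + t := by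
      intro w hw
      have := conv C.db_hyp hw (C.db_inv f x w) (C.db_inv f w (k₀ • y)) (C.db_inv f x (k₀ • y))
      unfold DD
      omega
    obtain ⟨k, hk, h6, h7⟩ := C.lift1 h2 (key p h4) (key q h5)
    exact ⟨k, hk, hh _ h6 h7⟩
  · exact Or.inr h2

end Pool.Agent.Lib.MP_0a5b83_al_B
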