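import Pool.Agent.Lib.MP_0a5b83_al_B.T2Defs

/-! JOB EE : an element preserving two big domains is trivial in the quotient. -/

set_option autoImplicit false

namespace Pool.Agent.Lib.MP_0a5b83_al_B

variable {G X I : Type} [Group G] [MulAction G X] [MulAction G I] {d : X → X → ℕ}
  {D Q m Δ θ t : ℕ} {Y : I → Set X} {H : I → Subgroup G} {T : I → ℕ}

/-- Nearest points are on the geodesic if the projection is large. -/
private theorem ee_far (C : Ctx d D Q m Δ θ t Y H T) {i : I} {x y p q : X}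
    (hp : p ∈ Y i) (hq : q ∈ Y i) (hx : d x p = dS d (Y i) x) (hy : d y q = dS d (Y i) y)
    (hbig : 3 * (21 * D + 6) < del d D Y i x y) :
    d x p + d p q + d q y ≤ d x y + (21 * D + 6) := by
  have h1 := tau_le_proj C.hd hx hy
  unfold del at hbig
  have h2 := proj_far C.hd (C.qc i) hp hq hx hy (by omega)
  omega

/-- The angle between a point and its nearest point is small. -/
private theorem ee_near (C : Ctx d D Q m Δ θ t Y H T) {i : I} {x p : X}
    (hp : p ∈ Y i) (hx : d x p = dS d (Y i) x) : del d D Y i x p ≤ θ := by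
  have h1 := dS_eq_zero C.hd hp
  have h2 := C.θbig
  unfold del tau
  omega

/-- Basic estimates for the nearest points. -/
private theorem ee_E1 (C : Ctx d D Q m Δ θ t Y H T) {x y : X} {i j : I} {r : ℕ}
    (h2 : Type2 d D Y H T x y i j r) {w w' : X} (hw : w ∈ Y i) (hw' : w' ∈ Y j)
    (hy : d y w = dS d (Y i) y) : del d D Y i w w' ≤ 2 * θ := by
  have h1 := ee_near C hw hy
  have h3 : del d D Y i y w' ≤ θ := by
    by_contra hcon
    push Not at hcon
    have := C.w.near i j h2.ne y w' hw' hcon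
    have h4 := h2.oy
    omega
  have h5 := C.w.dtri i w y w'
  have h6 := C.w.dsymm i w y
  omega

private theorem ee_E2 (C : Ctx d D Q m Δ θ t Y H T) {x y : X} {i j : I} {r : ℕ}
    (h2 : Type2 d D Y H T x y i j r) {w w' : X} (hw : w ∈ Y i) (hw' : w' ∈ Y j)
    (hx : d x w' = dS d (Y j) x) : del d D Y j w w' ≤ 2 * θ := by
  have h1 := ee_near C hw' hx
  have h3 : del d D Y j x w ≤ θ := by
    by_contra hcon
    push Not at hcon
    have := C.w.near j i h2.ne.symm x w hw hcon
    have h4 := h2.ox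
    omega
  have h5 := C.w.dtri j w x w'
  have h6 := C.w.dsymm j w x
  omega

private theorem ee_E3 (C : Ctx d D Q m Δ θ t Y H T) {x y : X} {i j : I} {r : ℕ}
    (h2 : Type2 d D Y H T x y i j r) {w w' : X} (hw : w ∈ Y i) (hw' : w' ∈ Y j)
    (hwy : d y w = dS d (Y i) y) (hwx : d x w' = dS d (Y j) x) {u : I} (hui : u ≠ i)
    (huj : u ≠ j) : 100 * del d D Y u w w' ≤ 51 * T u + 300 * θ := by
  obtain ⟨w1, hw1, hw1x⟩ := exists_dS (d := d) (C.w.Yne i) x
  obtain ⟨w1', hw1', hw1y⟩ := exists_dS (d := d) (C.w.Yne j) y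
  have hbi : 3 * (21 * D + 6) < del d D Y i x y := by
    have h1 := h2.bi
    have h3 := C.w.Tbig i
    have h4 := C.θbig
    omega
  have hbj : 3 * (21 * D + 6) < del d D Y j x y := by
    have h1 := h2.bj
    have h3 := C.w.Tbig j
    have h4 := C.θbig
    omega
  have f1 := ee_far C hw1 hw hw1x hwy hbi
  have f2 := ee_far C hw' hw1' hwx hw1y hbj
  have o1 : On d (21 * D + 6) x y w1 := by
    unfold On
    have := C.hd.tri w1 w y
    omega
  have o2 : On d (21 * D + 6) x y w1' := by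
    unfold On
    have := C.hd.tri x w' w1'
    omega
  have c := close C.hd o1 o2
  have l1 := dS_le (d := d) hw1' x
  have l2 := h2.ox
  have m1 : d x w1 + d w1 w1' + d w1' y ≤ d x y + (3 * (21 * D + 6)) := by
    unfold On at o1 o2
    omega
  have m2 := tau_mono C.hd (C.w.Yne u) m1
  have m3 : del d D Y u w1 w1' ≤ del d D Y u x y + 3 * (21 * D + 6) := by
    unfold del
    omega
  have t1 := C.w.dtri u w w1 w'
  have t2 := C.w.dtri u w1 w1' w'
  have d1 := C.w.dom u i hui w hw w1 hw1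
  have d2 := C.w.dom u j huj w1' hw1' w' hw'
  have r1 := h2.red u
  have r2 := C.θbig
  omega

theorem Ctx.ee (C : Ctx d D Q m Δ θ t Y H T) {x y : X} {i j : I} {r : ℕ}
    (h2 : Type2 d D Y H T x y i j r) {g : G} (h3 : ∃ k ∈ KK H, (k * g) • i = i)
    (h4 : ∃ k ∈ KK H, (k * g) • j = j) : g ∈ KK H := by
  by_contra hg
  obtain ⟨k1, hk1, hk1i⟩ := h3
  obtain ⟨k2, hk2, hk2j⟩ := h4
  have he0 : k1 * g ∉ H i := by
    intro h
    apply hg
    have := (KK H).mul_mem ((KK H).inv_mem hk1) (mem_KK h)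
    rwa [inv_mul_cancel_left] at this
  obtain ⟨a, h, hh, hrot1, hrot2⟩ := C.rot (k1 * g) i hk1i he0
  obtain ⟨w, hw, hwy⟩ := exists_dS (d := d) (C.w.Yne i) y
  obtain ⟨w', hw', hwx⟩ := exists_dS (d := d) (C.w.Yne j) x
  obtain ⟨h', hh', hturn⟩ := C.w.turn j w' ((k2 * g) ^ a • w')
  -- the two elements
  obtain ⟨e, he⟩ : ∃ e, e = h * (k1 * g) ^ a := ⟨_, rfl⟩
  obtain ⟨e', he'⟩ : ∃ e', e' = h' * (k2 * g) ^ a := ⟨_, rfl⟩
  rw [← he] at hrot1 hrot2
  rw [← mul_smul, ← he'] at hturn
  have hzi : (k1 * g) ^ a • i = i := by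
    have : (k1 * g) ∈ MulAction.stabilizer G i := hk1i
    exact (MulAction.stabilizer G i).zpow_mem this a
  have hzj : (k2 * g) ^ a • j = j := by
    have : (k2 * g) ∈ MulAction.stabilizer G j := hk2j
    exact (MulAction.stabilizer G j).zpow_mem this a
  have hei : e • i = i := by rw [he, mul_smul, hzi, C.w.Hfix i h hh]
  have hej : e' • j = j := by rw [he', mul_smul, hzj, C.w.Hfix j h' hh']
  have hei' : e⁻¹ • i = i := by rw [inv_smul_eq_iff, hei]
  have hT := C.w.Tbig
  have hθ := C.w.θpos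
  have hk : e⁻¹ * e' ∈ KK H := by
    have := C.normal
    rw [← QuotientGroup.eq_one_iff]
    have q1 : ((k1 : G) : G ⧸ KK H) = 1 := (QuotientGroup.eq_one_iff k1).2 hk1
    have q2 : ((k2 : G) : G ⧸ KK H) = 1 := (QuotientGroup.eq_one_iff k2).2 hk2
    have q3 : ((h : G) : G ⧸ KK H) = 1 := (QuotientGroup.eq_one_iff h).2 (mem_KK hh)
    have q4 : ((h' : G) : G ⧸ KK H) = 1 := (QuotientGroup.eq_one_iff h').2 (mem_KK hh')
    rw [he, he']
    simp only [QuotientGroup.mk_mul, QuotientGroup.mk_inv, QuotientGroup.mk_zpow, q1, q2, q3, q4,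
      one_mul, inv_mul_cancel]
  by_cases hk1' : e⁻¹ * e' = 1
  · have hee : e = e' := by rwa [inv_mul_eq_one] at hk1'
    rw [← hee] at hej
    have he1 := C.ei e i j h2.ne hei hej
    have h5 := hrot1 x
    rw [he1, one_smul] at h5
    have h6 := C.w.dself i x
    have h7 := hT i
    omega
  obtain ⟨v, hv⟩ := greendlinger C.w hk hk1' w'
  have e1 := ee_E1 C h2 hw hw' hwy
  have e2 := ee_E2 C h2 hw hw' hwx
  have e3 := fun u (hui : u ≠ i) (huj : u ≠ j) => ee_E3 C h2 hw hw' hwy hwx hui huj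
  have hew : e⁻¹ • w ∈ Y i := by
    have := C.w.Yinv e⁻¹ i w hw
    rwa [hei'] at this
  have hew' : e' • w' ∈ Y j := by
    have := C.w.Yinv e' j w' hw'
    rwa [hej] at this
  -- the four angles
  have t1 := C.w.dtri v w' w ((e⁻¹ * e') • w')
  have t2 := C.w.dtri v w (e⁻¹ • w) ((e⁻¹ * e') • w')
  have t3 := C.w.dtri v (e⁻¹ • w) (e⁻¹ • w') ((e⁻¹ * e') • w')
  have i3 : del d D Y v (e⁻¹ • w) (e⁻¹ • w') = del d D Y (e • v) w w' := by
    have := C.w.delinv e v (e⁻¹ • w) (e⁻¹ • w')
    rw [smul_inv_smul, smul_inv_smul] at this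
    exact this.symm
  have i4 : del d D Y v (e⁻¹ • w') ((e⁻¹ * e') • w') = del d D Y (e • v) w' (e' • w') := by
    have := C.w.delinv e v (e⁻¹ • w') ((e⁻¹ * e') • w')
    rw [smul_inv_smul, smul_smul, mul_inv_cancel_left] at this
    exact this.symm
  rw [i3, i4] at t3
  have hTv := hT v
  have s1 := C.w.dsymm v w' w
  by_cases hvi : v = i
  · subst hvi
    have i2 : del d D Y v w (e⁻¹ • w) = del d D Y v w (e • w) := by
      have := C.w.delinv e v w (e⁻¹ • w)
      rw [smul_inv_smul, hei, C.w.dsymm] at this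
      exact this.symm
    have a2 := hrot2 w hw
    have a4 := C.w.dom v j h2.ne w' hw' _ hew'
    rw [hei] at t3
    omega
  have a2 := C.w.dom v i hvi w hw _ hew
  have hevi : e • v ≠ i := by
    intro h5
    apply hvi
    rw [← hei', ← h5, inv_smul_smul]
  have hTe := C.w.Tinv e v
  have F1 : θ < del d D Y v w' w → ∀ z ∈ Y v, del d D Y i w' z ≤ θ := fun h5 z hz =>
    C.w.behr hvi hw hz h5
  have F2 : θ < del d D Y (e • v) w w' → ∀ z ∈ Y (e • v), del d D Y i w' z ≤ θ := fun h5 z hz => by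
    rw [C.w.dsymm] at h5
    exact C.w.behr hevi hw hz h5
  by_cases hevj : e • v = j
  · have a3 := e2
    rw [hevj] at t3 hTe
    have a1 : del d D Y v w' w ≤ θ := by
      by_contra hcon
      push Not at hcon
      have hz : e⁻¹ • w' ∈ Y v := by
        have := C.w.Yinv e⁻¹ j w' hw'
        rwa [← hevj, inv_smul_smul] at this
      have h5 := F1 hcon _ hz
      have h6 := C.w.delinv e i w' (e⁻¹ • w')
      rw [smul_inv_smul, hei, C.w.dsymm] at h6
      have h7 := hrot1 w'
      have h8 := hT i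
      omega
    omega
  · have a4 := C.w.dom (e • v) j hevj w' hw' _ hew'
    have a3 := e3 (e • v) hevi hevj
    rw [hTe] at a3
    by_cases hvj : v = j
    · subst hvj
      omega
    · have a1 := e3 v hvi hvj
      by_cases hb1 : del d D Y v w' w ≤ θ
      · omega
      · by_cases hb3 : del d D Y (e • v) w w' ≤ θ
        · omega
        · exfalso
          push Not at hb1 hb3
          obtain ⟨z, hz⟩ := C.w.Yne v
          have g1 := F1 hb1 z hz
          have g2 := F2 hb3 (e • z) (C.w.Yinv e v z hz)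
          have g3 := C.w.dtri i z w' (e • z)
          have g4 := C.w.dsymm i z w'
          have g5 := hrot1 z
          have g6 := hT i
          omega

end Pool.Agent.Lib.MP_0a5b83_al_B
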