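import Pool.Agent.Lib.MP_0a5b83_al_B.FPDefs

/-! JOB FPA : the free product of two copies of a group with its syllable metric. -/

set_option autoImplicit false

namespace Pool.Agent.Lib.MP_0a5b83_al_B

open Classical in
/-- Distance of two lists of syllables. -/
private noncomputable def fpD {C : Type} : List (Σ _ : Bool, C) → List (Σ _ : Bool, C) → ℕ
  | [], l => l.length
  | _ :: l, [] => l.length + 1
  | a :: l, b :: l' => if a = b then fpD l l' else
      if a.1 = b.1 then l.length + l'.length + 1 else l.length + l'.length + 2

open Classical in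
/-- Twice the length of the common part of two lists of syllables. -/
private noncomputable def fpP {C : Type} : List (Σ _ : Bool, C) → List (Σ _ : Bool, C) → ℕ
  | [], _ => 0
  | _ :: _, [] => 0
  | a :: l, b :: l' => if a = b then 2 + fpP l l' else if a.1 = b.1 then 1 else 0

section lists
variable {C : Type}

private theorem fpD_add (l l' : List (Σ _ : Bool, C)) :
    fpD l l' + fpP l l' = l.length + l'.length := by
  induction l generalizing l' with
  | nil => simp [fpD, fpP]
  | cons a l ih =>
    cases l' with
    | nil => simp [fpD, fpP]
    | cons b l' =>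
      have := ih l'
      simp only [fpD, fpP, List.length_cons]
      split_ifs <;> omega

private theorem fpD_nil_left (l : List (Σ _ : Bool, C)) : fpD [] l = l.length := by
  simp [fpD]

private theorem fpD_nil_right (l : List (Σ _ : Bool, C)) : fpD l [] = l.length := by
  cases l <;> simp [fpD]

private theorem fpD_self (l : List (Σ _ : Bool, C)) : fpD l l = 0 := by
  induction l with
  | nil => simp [fpD]
  | cons a l ih => simp [fpD, ih]

private theorem fpD_symm (l l' : List (Σ _ : Bool, C)) : fpD l l' = fpD l' l := by
  induction l generalizing l' with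
  | nil => rw [fpD_nil_left, fpD_nil_right]
  | cons a l ih =>
    cases l' with
    | nil => rw [fpD_nil_left, fpD_nil_right]
    | cons b l' =>
      simp only [fpD]
      by_cases h : a = b
      · rw [if_pos h, if_pos h.symm, ih]
      · have h' : ¬ b = a := fun hh => h hh.symm
        rw [if_neg h, if_neg h']
        by_cases h1 : a.1 = b.1
        · rw [if_pos h1, if_pos h1.symm]; omega
        · have h1' : ¬ b.1 = a.1 := fun hh => h1 hh.symm
          rw [if_neg h1, if_neg h1']; omega

private theorem fpD_eq_zero (l l' : List (Σ _ : Bool, C)) (h : fpD l l' = 0) : l = l' := by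
  induction l generalizing l' with
  | nil =>
    rw [fpD_nil_left] at h
    exact (List.length_eq_zero_iff.1 h).symm
  | cons a l ih =>
    cases l' with
    | nil =>
      rw [fpD_nil_right] at h
      exact List.length_eq_zero_iff.1 h
    | cons b l' =>
      simp only [fpD] at h
      split_ifs at h with h1 h2
      rw [h1, ih l' h]

private theorem fpP_ultra (x y z : List (Σ _ : Bool, C)) :
    min (fpP x z) (fpP z y) ≤ fpP x y := by
  induction x generalizing y z with
  | nil => simp [fpP]
  | cons a l ih =>
    cases z with
    | nil => simp [fpP]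
    | cons c l'' =>
      cases y with
      | nil => simp [fpP]
      | cons b l' =>
        have := ih l' l''
        simp only [fpP]
        by_cases hac : a = c
        · subst hac
          by_cases hab : a = b
          · subst hab
            simp only [if_true]
            omega
          · simp only [if_true, if_neg hab]
            omega
        · by_cases hcb : c = b
          · subst hcb
            simp only [if_true, if_neg hac]
            omega
          · simp only [if_neg hac, if_neg hcb]
            by_cases h1 : a.1 = c.1
            · by_cases h2 : c.1 = b.1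
              · have h3 : a.1 = b.1 := h1.trans h2
                rw [if_pos h1, if_pos h2, if_pos h3]
                split_ifs <;> omega
              · rw [if_neg h2]
                omega
            · rw [if_neg h1]
              omega

private theorem fpP_comm (x y : List (Σ _ : Bool, C)) : fpP x y = fpP y x := by
  have h1 := fpD_add x y
  have h2 := fpD_add y x
  have h3 := fpD_symm x y
  omega

/-- four point condition with one point the empty list -/
private theorem fpD_four (x y z : List (Σ _ : Bool, C)) :
    fpD x y + fpD z [] ≤ max (fpD x z + fpD y []) (fpD x [] + fpD y z) := by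
  have h1 := fpD_add x y
  have h2 := fpD_add x z
  have h3 := fpD_add y z
  have h4 := fpP_ultra x y z
  have h5 := fpP_comm y z
  simp only [fpD_nil_right]
  omega

private theorem fpD_take (l : List (Σ _ : Bool, C)) (n : ℕ) (hn : n ≤ l.length) :
    fpD (l.take n) l = l.length - n := by
  induction l generalizing n with
  | nil => simp [fpD]
  | cons a l ih =>
    cases n with
    | zero => simp [fpD]
    | succ n =>
      simp only [List.length_cons] at hn
      simp only [List.take_succ_cons, fpD, if_true, List.length_cons]
      rw [ih n (by omega)]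
      omega

end lists

section words

open Monoid.CoprodI

variable {C : Type} [Group C]

/-- the underlying list of the reduced word of an element -/
private noncomputable def fpL (w : Word (fun _ : Bool => C)) : List (Σ _ : Bool, C) := w.toList

open Classical in
private theorem fpD_rcons {i : Bool} (p p' : Word.Pair (fun _ : Bool => C) i) :
    fpD (fpL (Word.rcons p)) (fpL (Word.rcons p')) =
      if p.head = p'.head then fpD (fpL p.tail) (fpL p'.tail)
      else (fpL p.tail).length + (fpL p'.tail).length + 1 := by
  have key : ∀ (q q' : Word.Pair (fun _ : Bool => C) i), q.head = 1 → q'.head ≠ 1 →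
      fpD (fpL (Word.rcons q)) (fpL (Word.rcons q')) =
        (fpL q.tail).length + (fpL q'.tail).length + 1 := by
    intro q q' hq hq'
    have h1 : fpL (Word.rcons q) = fpL q.tail := by
      unfold Word.rcons; rw [dif_pos hq]
    have h2 : fpL (Word.rcons q') = ⟨i, q'.head⟩ :: fpL q'.tail := by
      unfold Word.rcons; rw [dif_neg hq']; rfl
    rw [h1, h2]
    have h3 := q.fstIdx_ne
    rw [Word.fstIdx_ne_iff] at h3
    rcases h : fpL q.tail with _ | ⟨a, l⟩
    · rw [fpD_nil_left]; simp
    · have h4 : i ≠ a.1 := by
        apply h3 a
        have : q.tail.toList = a :: l := h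
        rw [this]; simp
      simp only [fpD, List.length_cons]
      rw [if_neg, if_neg]
      · omega
      · exact fun hh => h4 hh.symm
      · intro hh
        apply h4
        rw [hh]
  by_cases h1 : p.head = 1
  · by_cases h2 : p'.head = 1
    · rw [if_pos (h1.trans h2.symm)]
      have e1 : fpL (Word.rcons p) = fpL p.tail := by
        unfold Word.rcons; rw [dif_pos h1]
      have e2 : fpL (Word.rcons p') = fpL p'.tail := by
        unfold Word.rcons; rw [dif_pos h2]
      rw [e1, e2]
    · rw [if_neg (fun hh => h2 (hh.symm.trans h1)), key p p' h1 h2]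
  · by_cases h2 : p'.head = 1
    · rw [if_neg (fun hh => h1 (hh.trans h2)), fpD_symm, key p' p h2 h1]
      omega
    · have e1 : fpL (Word.rcons p) = ⟨i, p.head⟩ :: fpL p.tail := by
        unfold Word.rcons; rw [dif_neg h1]; rfl
      have e2 : fpL (Word.rcons p') = ⟨i, p'.head⟩ :: fpL p'.tail := by
        unfold Word.rcons; rw [dif_neg h2]; rfl
      rw [e1, e2]
      simp only [fpD]
      by_cases h3 : p.head = p'.head
      · rw [if_pos h3, if_pos (by rw [h3])]
      · rw [if_neg h3, if_neg]
        · simp
        · intro hh
          apply h3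
          simpa using hh

open Classical in
private theorem fpD_of_smul {i : Bool} (c : C) (w w' : Word (fun _ : Bool => C)) :
    fpD (fpL (of (M := fun _ : Bool => C) (i := i) c • w)) (fpL (of (M := fun _ : Bool => C) (i := i) c • w')) =
      fpD (fpL w) (fpL w') := by
  rw [Word.of_smul_def, Word.of_smul_def, fpD_rcons]
  conv_rhs => rw [← (Word.equivPair i).symm_apply_apply w, ← (Word.equivPair i).symm_apply_apply w',
    Word.equivPair_symm, Word.equivPair_symm, fpD_rcons]
  simp only [mul_right_inj]

open Classical in
private theorem fpD_smul (f : Monoid.CoprodI (fun _ : Bool => C)) (w w' : Word (fun _ : Bool => C)) :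
    fpD (fpL (f • w)) (fpL (f • w')) = fpD (fpL w) (fpL w') := by
  induction f using Monoid.CoprodI.induction_left with
  | one => rw [one_smul, one_smul]
  | mul m x ih => rw [mul_smul, mul_smul, fpD_of_smul, ih]

open Classical in
/-- The syllable metric. -/
private noncomputable def fpd (g h : Monoid.CoprodI (fun _ : Bool => C)) : ℕ :=
  fpD (fpL (g • (Word.empty : Word (fun _ : Bool => C))))
    (fpL (h • (Word.empty : Word (fun _ : Bool => C))))

open Classical in
private theorem fpd_inv (f g h : Monoid.CoprodI (fun _ : Bool => C)) :
    fpd (f * g) (f * h) = fpd g h := by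
  unfold fpd
  rw [mul_smul, mul_smul, fpD_smul]

open Classical in
private theorem fpd_prod (w w' : Word (fun _ : Bool => C)) :
    fpd w.prod w'.prod = fpD (fpL w) (fpL w') := by
  unfold fpd
  have h : ∀ w : Word (fun _ : Bool => C), w.prod • Word.empty = w := fun w =>
    Word.equiv.right_inv w
  rw [h, h]

open Classical in
private theorem exists_word (g : Monoid.CoprodI (fun _ : Bool => C)) :
    ∃ w : Word (fun _ : Bool => C), w.prod = g := ⟨Word.equiv g, Word.equiv.left_inv g⟩

private theorem fpd_one (w : Word (fun _ : Bool => C)) :
    fpd 1 w.prod = (fpL w).length := by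
  have h := fpd_prod (Word.empty : Word (fun _ : Bool => C)) w
  rw [Word.prod_empty] at h
  rw [h]
  exact fpD_nil_left _

end words

theorem exists_fp (C : Type) [Group C] :
    ∃ (Γ : Type) (_ : Group Γ) (ι : Bool → C →* Γ) (d : Γ → Γ → ℕ), FP ι d := by
  classical
  have hsep : ∀ x y : Monoid.CoprodI (fun _ : Bool => C), fpd x y = 0 → x = y := by
    intro x y h
    obtain ⟨w, rfl⟩ := exists_word x
    obtain ⟨w', rfl⟩ := exists_word y
    rw [fpd_prod] at h
    have h1 := fpD_eq_zero _ _ h
    have h2 : w = w' := Monoid.CoprodI.Word.ext h1
    rw [h2]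
  have hsymm : ∀ x y : Monoid.CoprodI (fun _ : Bool => C), fpd x y = fpd y x := fun x y =>
    fpD_symm _ _
  have hself : ∀ x : Monoid.CoprodI (fun _ : Bool => C), fpd x x = 0 := fun x => fpD_self _
  have hfour1 : ∀ x y z : Monoid.CoprodI (fun _ : Bool => C),
      fpd x y + fpd z 1 ≤ max (fpd x z + fpd y 1) (fpd x 1 + fpd y z) := by
    intro x y z
    obtain ⟨a, rfl⟩ := exists_word x
    obtain ⟨b, rfl⟩ := exists_word y
    obtain ⟨c, rfl⟩ := exists_word z
    have h1 : (1 : Monoid.CoprodI (fun _ : Bool => C)) = Monoid.CoprodI.Word.empty.prod := by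
      rw [Monoid.CoprodI.Word.prod_empty]
    rw [h1]
    simp only [fpd_prod]
    exact fpD_four _ _ _
  have hfour : ∀ x y z w : Monoid.CoprodI (fun _ : Bool => C),
      fpd x y + fpd z w ≤ max (fpd x z + fpd y w) (fpd x w + fpd y z) := by
    intro x y z w
    have h := hfour1 (w⁻¹ * x) (w⁻¹ * y) (w⁻¹ * z)
    have h1 : ∀ g : Monoid.CoprodI (fun _ : Bool => C), fpd (w⁻¹ * g) 1 = fpd g w := by
      intro g
      rw [← fpd_inv w (w⁻¹ * g) 1]
      simp
    rw [h1, h1, h1, fpd_inv, fpd_inv, fpd_inv] at h
    exact h
  have hgeo1 : ∀ (g : Monoid.CoprodI (fun _ : Bool => C)) (n : ℕ), n ≤ fpd 1 g →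
      ∃ z, fpd 1 z = n ∧ fpd z g = fpd 1 g - n := by
    intro g n hn
    obtain ⟨w, rfl⟩ := exists_word g
    rw [fpd_one] at hn ⊢
    let w' : Monoid.CoprodI.Word (fun _ : Bool => C) :=
      ⟨w.toList.take n, fun l hl => w.ne_one l (List.mem_of_mem_take hl), w.chain_ne.take n⟩
    have hw' : fpL w' = (fpL w).take n := rfl
    refine ⟨w'.prod, ?_, ?_⟩
    · rw [fpd_one, hw', List.length_take]
      omega
    · rw [fpd_prod, hw']
      exact fpD_take _ _ hn
  refine ⟨Monoid.CoprodI (fun _ : Bool => C), inferInstance,
    fun b => Monoid.CoprodI.of (M := fun _ : Bool => C) (i := b), fpd, ?_⟩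
  refine { hyp := ?_, inv := ?_, sep := ?_, inj := ?_, of_le := ?_, le_one := ?_, two := ?_ }
  · refine { self := hself, symm := hsymm, tri := ?_, geo := ?_, four := ?_ }
    · intro x y z
      have h := hfour x z y y
      have h1 := hself y
      have h2 := hsymm y z
      omega
    · intro x y n hn
      have h1 : fpd x y = fpd 1 (x⁻¹ * y) := by
        rw [← fpd_inv x 1 (x⁻¹ * y)]
        simp
      rw [h1] at hn
      obtain ⟨z, hz1, hz2⟩ := hgeo1 _ n hn
      refine ⟨x * z, ?_, ?_⟩
      · have := fpd_inv x 1 z
        rw [mul_one] at this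
        rw [this, hz1]
      · have := fpd_inv x z (x⁻¹ * y)
        rw [mul_inv_cancel_left] at this
        rw [this, hz2, h1]
    · intro x y z w
      have := hfour x y z w
      omega
  · intro g x y
    exact fpd_inv g x y
  · exact hsep
  · intro b
    exact Monoid.CoprodI.of_injective b
  · intro b c
    by_cases hc : c = 1
    · rw [hc, map_one, hself]
      omega
    · let w : Monoid.CoprodI.Word (fun _ : Bool => C) :=
        ⟨[⟨b, c⟩], by simpa using hc, by simp⟩
      have hw : w.prod = Monoid.CoprodI.of (M := fun _ : Bool => C) (i := b) c := by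
        simp [w, Monoid.CoprodI.Word.prod]
      rw [← hw, fpd_one]
      exact le_refl _
  · intro g hg
    obtain ⟨w, rfl⟩ := exists_word g
    rw [fpd_one] at hg
    rcases h : w.toList with _ | ⟨a, l⟩
    · refine ⟨false, 1, ?_⟩
      rw [map_one]
      simp [Monoid.CoprodI.Word.prod, h]
    · have hl : l = [] := by
        have h2 : (fpL w).length = l.length + 1 := by
          unfold fpL; rw [h]; simp
        rw [h2] at hg
        exact List.length_eq_zero_iff.1 (by omega)
      subst hl
      refine ⟨a.1, a.2, ?_⟩
      simp [Monoid.CoprodI.Word.prod, h]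
  · intro b c c' hc hc'
    let w : Monoid.CoprodI.Word (fun _ : Bool => C) :=
      ⟨[⟨b, c⟩, ⟨!b, c'⟩], by simpa using ⟨hc, hc'⟩, by simp⟩
    have hw : w.prod = Monoid.CoprodI.of (M := fun _ : Bool => C) (i := b) c *
        Monoid.CoprodI.of (M := fun _ : Bool => C) (i := !b) c' := by
      simp [w, Monoid.CoprodI.Word.prod]
    rw [← hw, fpd_one]
    rfl

end Pool.Agent.Lib.MP_0a5b83_al_B
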