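import Pool.Agent.Lib.MP_0a5b83_al_B.Ctx

/-!
Families of roots of loxodromic elements, and the domains given by them.
-/

set_option autoImplicit false

namespace Pool.Agent.Lib.MP_0a5b83_al_B

variable {G X : Type} [Group G] [MulAction G X] {d : X → X → ℕ} {D : ℕ}

theorem mind_inv (hd : Hyp d D) (hi : Inv G d) (g : G) : mind d g⁻¹ = mind d g := by
  unfold mind
  congr 1
  ext n
  constructor
  · rintro ⟨z, rfl⟩; exact ⟨z, (Inv.disp_inv hd hi g z).symm⟩
  · rintro ⟨z, rfl⟩; exact ⟨z, Inv.disp_inv hd hi g z⟩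

theorem disp_conj (hi : Inv G d) (g x : G) (z : X) :
    d (g • z) ((g * x * g⁻¹) • g • z) = d z (x • z) := by
  rw [smul_smul, inv_mul_cancel_right, mul_smul]
  exact hi g _ _

theorem mind_conj (hi : Inv G d) (g x : G) : mind d (g * x * g⁻¹) = mind d x := by
  unfold mind
  congr 1
  ext n
  constructor
  · rintro ⟨z, rfl⟩
    refine ⟨g⁻¹ • z, ?_⟩
    have := disp_conj hi g x (g⁻¹ • z)
    rw [smul_inv_smul] at this
    exact this.symm
  · rintro ⟨z, rfl⟩
    exact ⟨g • z, disp_conj hi g x z⟩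

theorem Ax_inv (hd : Hyp d D) (hi : Inv G d) (g : G) : Ax d D g⁻¹ = Ax d D g := by
  unfold Ax
  ext z
  simp only [Set.mem_ofPred_eq, mind_inv hd hi, Inv.disp_inv hd hi]

theorem mem_Ax_conj (hi : Inv G d) (g x : G) (z : X) :
    g • z ∈ Ax d D (g * x * g⁻¹) ↔ z ∈ Ax d D x := by
  unfold Ax
  simp only [Set.mem_ofPred_eq, mind_conj hi, disp_conj hi]

/-- A set of elements closed under conjugation. -/
class ConjCl {G : Type} [Group G] (R : Set G) : Prop where
  conj : ∀ r ∈ R, ∀ g : G, g * r * g⁻¹ ∈ R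

/-- The index set of the domains of a family of roots: the cyclic groups generated by them. -/
def FIdx {G : Type} [Group G] (R : Set G) : Type :=
  {E : Subgroup G // ∃ r ∈ R, E = Subgroup.zpowers r}

instance {G : Type} [Group G] (R : Set G) [ConjCl R] : MulAction G (FIdx R) where
  smul g E := ⟨E.1.map (MulAut.conj g).toMonoidHom, by
    obtain ⟨r, hr, h⟩ := E.2
    refine ⟨g * r * g⁻¹, ConjCl.conj r hr g, ?_⟩
    rw [h, MonoidHom.map_zpowers]
    rfl⟩
  one_smul E := by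
    apply Subtype.ext
    show E.1.map (MulAut.conj (1 : G)).toMonoidHom = E.1
    rw [map_one]
    exact Subgroup.map_id E.1
  mul_smul a b E := by
    apply Subtype.ext
    show E.1.map (MulAut.conj (a * b)).toMonoidHom =
      (E.1.map (MulAut.conj b).toMonoidHom).map (MulAut.conj a).toMonoidHom
    rw [Subgroup.map_map, map_mul]
    rfl

/-- A chosen root of the domain. -/
noncomputable def rt {R : Set G} (i : FIdx R) : G := i.2.choose

theorem rt_mem {R : Set G} (i : FIdx R) : rt i ∈ R := i.2.choose_spec.1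

theorem rt_spec {R : Set G} (i : FIdx R) : i.1 = Subgroup.zpowers (rt i) := i.2.choose_spec.2

theorem FIdx.ext {R : Set G} {i j : FIdx R} (h : Subgroup.zpowers (rt i) = Subgroup.zpowers (rt j)) :
    i = j := by
  apply Subtype.ext
  rw [rt_spec i, rt_spec j, h]

/-- The domains. -/
noncomputable def fY (d : X → X → ℕ) (D q : ℕ) {R : Set G} (i : FIdx R) : Set X :=
  Ax d D (rt i ^ q)

/-- The rotation groups. -/
noncomputable def fH (q : ℕ) {R : Set G} (i : FIdx R) : Subgroup G := Subgroup.zpowers (rt i ^ q)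

/-- The full angles. -/
noncomputable def fT (d : X → X → ℕ) (q : ℕ) {R : Set G} (i : FIdx R) : ℕ := mind d (rt i ^ q)

/-- The hypotheses on a family of roots. -/
structure Fam {G X : Type} [Group G] [MulAction G X] (d : X → X → ℕ) (D m Q Δ T₀ q : ℕ)
    (R : Set G) : Prop where
  root : ∀ r ∈ R, Root d Q r
  hq : q = 1 ∨ q = m
  big : ∀ r ∈ R, T₀ ≤ mind d (r ^ q)
  ov : ∀ r ∈ R, ∀ r' ∈ R, Subgroup.zpowers r ≠ Subgroup.zpowers r' → ∀ p ∈ Ax d D (r ^ q),
    ∀ p' ∈ Ax d D (r ^ q), dS d (Ax d D (r' ^ q)) p ≤ 200 * D + 100 →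
    dS d (Ax d D (r' ^ q)) p' ≤ 200 * D + 100 → d p p' ≤ Δ
  unkilled : ∀ g : G, Lox d Q g → (∀ r ∈ R, g ∉ Subgroup.zpowers r) → ∀ x n,
    n * (mind d g + 1) ≤ 2 * d x (g ^ n • x)
  small : q = m → ∀ r ∈ R, ∀ y ∈ Ax d D (r ^ q), d y (r • y) ≤ Δ

end Pool.Agent.Lib.MP_0a5b83_al_B
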