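import Pool.Agent.Lib.MP_0a5b83_al_B.Cen
import Pool.Agent.Lib.MP_0a5b83_al_B.Grp
import Pool.Agent.Lib.MP_0a5b83_al_B.Cone

/-!
The invariants of a stage of the construction.
-/

set_option autoImplicit false

namespace Pool.Agent.Lib.MP_0a5b83_al_B

/-- The invariants of a stage: a group with an invariant hyperbolic metric on itself. -/
structure Good {G : Type} [Group G] (d : G → G → ℕ) (D Q m M₀ A : ℕ) : Prop where
  hyp : Hyp d D
  inv : Inv G d
  sep : Sep d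
  dich : ∀ g : G, g ^ m = 1 ∨ Lox d Q g
  nc : ∀ f u : G, f ^ m = 1 → Lox d Q u → Commute f u → f = 1
  acyl : ∀ x y : G, A ≤ d x y → ∃ h : G, ∀ f : G, d x (f • x) ≤ M₀ → d y (f • y) ≤ M₀ →
    f ∈ Subgroup.zpowers h

variable {G : Type} [Group G] {d : G → G → ℕ} {D Q m M₀ A : ℕ}

theorem Good.ell (h : Good d D Q m M₀ A) (hm : m.Prime) (ho : m ≠ 2) (hM : 7 * D + 1 ≤ M₀) :
    Ell (G := G) d D Q m where
  hyp := h.hyp
  inv := h.inv
  ne := ⟨1⟩
  prime := hm
  odd := ho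
  dich := h.dich
  nc := h.nc
  cen := fun _ hu => Pool.Agent.Lib.MP_0a5b83_al_B.cen h.hyp h.inv hm.one_le hM h.dich h.nc
    ⟨A, fun x y hxy => Or.inr (h.acyl x y hxy)⟩ hu

theorem Lox.mono {X : Type} [MulAction G X] {d : X → X → ℕ} {Q Q' : ℕ} {g : G} (hg : Lox d Q g)
    (h : Q ≤ Q') : Lox d Q' g := fun x n => (hg x n).trans (Nat.mul_le_mul_right _ h)

theorem Lox.not_pow_eq (hd : Hyp d D) {g : G} (hg : Lox d Q g) (hm : 1 ≤ m) : g ^ m ≠ 1 := by
  intro h
  have := hg 1 m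
  rw [h, one_smul, hd.self, Nat.mul_zero] at this
  omega

theorem Good.mono (h : Good d D Q m M₀ A) {D' Q' A' : ℕ} (hm : 1 ≤ m) (hD : D ≤ D') (hQ : Q ≤ Q')
    (hA : A ≤ A') : Good d D' Q' m M₀ A' where
  hyp := ⟨h.hyp.toPMet, fun x y z w => (h.hyp.four x y z w).trans (by omega)⟩
  inv := h.inv
  sep := h.sep
  dich := fun g => (h.dich g).imp id fun hg => hg.mono hQ
  nc := by
    intro f u hf hu hc
    rcases h.dich u with h1 | h1
    · exact absurd h1 (hu.not_pow_eq h.hyp hm)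
    · exact h.nc f u hf h1 hc
  acyl := fun x y hxy => h.acyl x y (hA.trans hxy)

end Pool.Agent.Lib.MP_0a5b83_al_B
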