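import Pool.Agent.Lib.MP_0a5b83_al_B.TreeA
import Pool.Agent.Lib.MP_0a5b83_al_B.Good

/-! JOB TREEB : a group with a tree-like metric on itself satisfies the invariants. -/

set_option autoImplicit false

namespace Pool.Agent.Lib.MP_0a5b83_al_B

variable {G : Type} [Group G] {d : G → G → ℕ}

theorem treeB_fix (hs : Sep d) {f z : G} (h : d z (f • z) ≤ 0) : f = 1 := by
  have h1 : z = f • z := hs _ _ (Nat.le_zero.1 h)
  rw [smul_eq_mul] at h1
  exact (mul_eq_right.1 h1.symm)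

theorem treeB_dich {m : ℕ} (hd : Hyp d 0) (hi : Inv G d)
    (hf : ∀ g x : G, d x (g • x) ≤ 1 → g ^ m = 1) (g : G) : g ^ m = 1 ∨ Lox d 1 g := by
  by_cases h : mind d g ≤ 1
  · left
    obtain ⟨z, hz⟩ := exists_mind (X := G) d g
    exact hf g z (by omega)
  · right
    intro x n
    have h1 := tree_growth hd hi (g := g) (by omega) x n
    have h2 : n * 1 ≤ n * mind d g := Nat.mul_le_mul_left _ (by omega)
    omega

/-- A torsion element moving both ends of a long segment by a bounded amount is trivial. -/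
theorem treeB_tor {m : ℕ} (hm : 1 ≤ m) (hd : Hyp d 0) (hi : Inv G d) (hs : Sep d) {M : ℕ}
    {x y f : G} (hxy : 10 * M + 10 ≤ d x y) (hx : d x (f • x) ≤ M) (hy : d y (f • y) ≤ M)
    (hfm : f ^ m = 1) : f = 1 := by
  obtain ⟨z, h1, h2⟩ := hd.geo x y (5 * M + 5) (by omega)
  have hz : On d 0 x y z := by unfold On; omega
  rcases tor_small hd hi hz hx hy (m := 5 * M + 5) (by omega) (by omega) (by omega) with h | h
  · exact treeB_fix hs (by omega)
  · exfalso
    have h3 := growth_linear hd hi (e := 1) le_rfl h m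
    rw [hfm, one_smul, hd.self] at h3
    omega

theorem treeB_cen {m : ℕ} (hm : 1 ≤ m) (hd : Hyp d 0) (hi : Inv G d) (hs : Sep d)
    (hf : ∀ g x : G, d x (g • x) ≤ 1 → g ^ m = 1)
    (nc : ∀ f u : G, f ^ m = 1 → Lox d 1 u → Commute f u → f = 1) {u : G} (hu : Lox d 1 u) :
    ∃ h : G, Lox d 1 h ∧ Subgroup.centralizer {u} = Subgroup.zpowers h := by
  refine cen (M₀ := 1) hd hi hm (by omega) (treeB_dich hd hi hf) nc ⟨10, ?_⟩ hu
  intro x y hxy
  left
  obtain ⟨z, h1, h2⟩ := hd.geo x y 5 (by omega)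
  have hz : On d 0 x y z := by unfold On; omega
  apply Set.Finite.of_finite_image (f := fun f : G => d x (f • z))
  · apply (Set.finite_Iic 6).subset
    rintro _ ⟨f, ⟨h3, -⟩, rfl⟩
    have h5 := hd.tri x (f • x) (f • z)
    have h6 := hi f x z
    simp only [Set.mem_Iic]
    omega
  · rintro f ⟨h3, h4⟩ g ⟨h5, h6⟩ h7
    obtain ⟨a1, -, -, -, -⟩ := sh_step hd hi (m := 5) hz h3 h4 (by omega) (by omega) (by omega)
    obtain ⟨a2, -, -, -, -⟩ := sh_step hd hi (m := 5) hz h5 h6 (by omega) (by omega) (by omega)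
    have h8 : f • z = g • z := tree_uniq hd hs a1 a2 h7
    rw [smul_eq_mul, smul_eq_mul] at h8
    exact mul_right_cancel h8

theorem good_tree {G : Type} [Group G] {d : G → G → ℕ} {m : ℕ} (hm : 1 ≤ m) (hd : Hyp d 0)
    (hi : Inv G d) (hs : Sep d) (hf : ∀ g x : G, d x (g • x) ≤ 1 → g ^ m = 1) {M₀ : ℕ}
    (hM : 1 ≤ M₀) : Good d 0 1 m M₀ (10 * M₀ + 10) := by
  have nc : ∀ f u : G, f ^ m = 1 → Lox d 1 u → Commute f u → f = 1 := by
    intro f u hfm hu hc
    obtain ⟨M, hMe⟩ : ∃ M, M = d 1 (f • (1 : G)) := ⟨_, rfl⟩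
    have h1 := hu 1 (10 * M + 10)
    refine treeB_tor hm hd hi hs (x := 1) (y := u ^ (10 * M + 10) • (1 : G)) (M := M)
      (by omega) hMe.ge ?_ hfm
    have h2 : f • (u ^ (10 * M + 10) • (1 : G)) = u ^ (10 * M + 10) • (f • (1 : G)) := by
      rw [smul_smul, smul_smul, (hc.pow_right _).eq]
    rw [h2, hi]
    omega
  refine ⟨hd, hi, hs, treeB_dich hd hi hf, nc, ?_⟩
  intro x y hxy
  by_cases hall : ∀ f : G, d x (f • x) ≤ M₀ → d y (f • y) ≤ M₀ → f = 1
  · exact ⟨1, fun f h1 h2 => by rw [hall f h1 h2]; exact Subgroup.one_mem _⟩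
  · push Not at hall
    obtain ⟨f₁, hx₁, hy₁, hne⟩ := hall
    have hL : Lox d 1 f₁ := by
      rcases treeB_dich hd hi hf f₁ with h | h
      · exact absurd (treeB_tor hm hd hi hs hxy hx₁ hy₁ h) hne
      · exact h
    obtain ⟨h, -, hc⟩ := treeB_cen hm hd hi hs hf nc hL
    refine ⟨h, fun f hx hy => ?_⟩
    rw [← hc, Subgroup.mem_centralizer_singleton_iff]
    obtain ⟨z, h1, h2⟩ := hd.geo x y (5 * M₀ + 5) (by omega)
    have hz : On d 0 x y z := by unfold On; omega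
    have h3 := comm_small hd hi (m := 5 * M₀ + 5) hz hx hy hx₁ hy₁ (by omega) (by omega) (by omega)
    have h4 : f * f₁ * f⁻¹ * f₁⁻¹ = 1 := treeB_fix hs (by omega)
    have h5 : f * f₁ * f⁻¹ = f₁ := mul_inv_eq_one.1 h4
    exact mul_inv_eq_iff_eq_mul.1 h5

end Pool.Agent.Lib.MP_0a5b83_al_B
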