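import Pool.Agent.Lib.MP_0a5b83_al_B.LineB
import Pool.Agent.Lib.MP_0a5b83_al_B.TreeB
import Pool.Agent.Lib.MP_0a5b83_al_B.FamDefs

/-! JOB SPEC : the special family of relators satisfies the hypotheses of the step. -/

set_option autoImplicit false

namespace Pool.Agent.Lib.MP_0a5b83_al_B

variable {Γ C J : Type} [Group Γ] [Group C] {ι : Bool → C →* Γ} {d : Γ → Γ → ℕ}
  {x : J → ℕ → C} {y : C} {L m : ℕ}

/-- The conjugates of the relators. -/
def specR (ι : Bool → C →* Γ) (x : J → ℕ → C) (y : C) (L : ℕ) : Set Γ :=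
  {r | ∃ (j : J) (g : Γ), r = g * rel ι x y L j * g⁻¹}

instance specR_conj : ConjCl (specR (Γ := Γ) (J := J) ι x y L) where
  conj := by
    rintro _ ⟨j, g, rfl⟩ g'
    exact ⟨j, g' * g, by group⟩

theorem Spec_pow (j : J) (n : ℕ) : pth ι x y L j (n * (2 * L)) = rel ι x y L j ^ n := by
  have h := pth_mul (ι := ι) (x := x) (y := y) (L := L) j n 0
  rw [Nat.zero_add] at h
  rw [h]
  show rel ι x y L j ^ n * 1 = _
  rw [mul_one]

theorem Spec_growth (F : FP ι d) (S : Syls x y L) (j : J) (z : Γ) (n : ℕ) :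
    n * (2 * L) ≤ d z (rel ι x y L j ^ n • z) := by
  refine growth_transfer F.hyp F.inv (z := 1) (c' := 0) ?_ z n
  intro n
  have h := pth_geo F S j 0 (n * (2 * L))
  rw [Nat.zero_add, Spec_pow] at h
  have h' : d 1 (rel ι x y L j ^ n) = n * (2 * L) := h
  rw [smul_eq_mul, mul_one, h']
  omega

theorem rel_mind (F : FP ι d) (S : Syls x y L) (j : J) : mind d (rel ι x y L j) = 2 * L := by
  apply le_antisymm
  · have h1 := mind_le d (rel ι x y L j) (1 : Γ)
    have h := pth_geo F S j 0 (2 * L)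
    rw [Nat.zero_add] at h
    have h' : d 1 (rel ι x y L j) = 2 * L := h
    rw [smul_eq_mul, mul_one, h'] at h1
    exact h1
  · obtain ⟨z, hz⟩ := exists_mind (X := Γ) d (rel ι x y L j)
    have h := Spec_growth F S j z 1
    rw [pow_one, hz, one_mul] at h
    exact h

theorem Spec_lox (F : FP ι d) (S : Syls x y L) (j : J) : Lox d 1 (rel ι x y L j) := by
  intro z n
  have h := Spec_growth F S j z n
  have hL := S.L_pos
  have h2 : n * 1 ≤ n * (2 * L) := Nat.mul_le_mul_left _ (by omega)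
  omega

theorem rel_root (F : FP ι d) (S : Syls x y L) (j : J) : Root d 1 (rel ι x y L j) := by
  refine ⟨Spec_lox F S j, ?_⟩
  apply le_antisymm
  · intro f hf
    rw [Subgroup.mem_centralizer_singleton_iff] at hf
    have hc : Commute f (rel ι x y L j) := hf
    obtain ⟨E, hE⟩ : ∃ E, E = d f 1 := ⟨_, rfl⟩
    have hL := S.L_pos
    have k1 : d (f * pth ι x y L j 0) (1 * pth ι x y L j 0) ≤ E := by
      show d (f * 1) (1 * 1) ≤ E
      rw [mul_one, mul_one, hE]
    have k2 : d (f * pth ι x y L j ((2 * E + 7) * (2 * L)))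
        (1 * pth ι x y L j ((2 * E + 7) * (2 * L))) ≤ E := by
      rw [Spec_pow, (hc.pow_right _).eq, one_mul]
      have h := F.inv (rel ι x y L j ^ (2 * E + 7)) f 1
      rw [smul_eq_mul, smul_eq_mul, mul_one] at h
      rw [h, hE]
    have k3 : 0 + 2 * E + 7 ≤ (2 * E + 7) * (2 * L) := by
      have : (2 * E + 7) * 1 ≤ (2 * E + 7) * (2 * L) := Nat.mul_le_mul_left _ (by omega)
      omega
    obtain ⟨-, c, hc'⟩ := pth_overlap F S k1 k2 k3
    rw [one_mul] at hc'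
    exact Subgroup.mem_zpowers_iff.2 ⟨c, hc'.symm⟩
  · intro f hf
    obtain ⟨c, rfl⟩ := Subgroup.mem_zpowers_iff.1 hf
    rw [Subgroup.mem_centralizer_singleton_iff]
    exact ((Commute.refl (rel ι x y L j)).zpow_left c).eq

/-- The overlap constant of the special family. -/
def DelS : ℕ := 3000

/-- Points of almost minimal displacement are close to the line. -/
theorem Spec_near (F : FP ι d) (S : Syls x y L) (hL : 2 ≤ L) (j : J) (g p : Γ)
    (hp : p ∈ Ax d 2 (g * rel ι x y L j * g⁻¹)) {N : ℕ} (hN : d p g + 8 ≤ N) :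
    ∃ k, d p (g * rel ι x y L j ^ (-(N : ℤ)) * pth ι x y L j k) ≤ 8 := by
  have hm : mind d (g * rel ι x y L j * g⁻¹) = 2 * L := by rw [mind_conj F.inv, rel_mind F S]
  have hp' : d p ((g * rel ι x y L j * g⁻¹) • p) ≤ mind d (g * rel ι x y L j * g⁻¹) + 7 := hp
  have h := ax_near_orbit F.hyp F.inv (g := g * rel ι x y L j * g⁻¹) (by omega) hp' g
    (N := N) (by omega)
  obtain ⟨w, hw⟩ : ∃ w, w = g * rel ι x y L j ^ (-(N : ℤ)) := ⟨_, rfl⟩
  have e1 : (g * rel ι x y L j * g⁻¹) ^ (-(N : ℤ)) • g = w * pth ι x y L j 0 := by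
    rw [conj_zpow, smul_eq_mul, inv_mul_cancel_right, hw]
    show _ = g * rel ι x y L j ^ (-(N : ℤ)) * 1
    rw [mul_one]
  have e2 : (g * rel ι x y L j * g⁻¹) ^ (N : ℤ) • g = w * pth ι x y L j ((2 * N) * (2 * L)) := by
    rw [conj_zpow, smul_eq_mul, inv_mul_cancel_right, hw, Spec_pow, mul_assoc]
    congr 1
    rw [← zpow_natCast (rel ι x y L j) (2 * N), ← zpow_add]
    congr 1
    push_cast
    ring
  have hgeo : ∀ a b : ℕ, d (w * pth ι x y L j a) (w * pth ι x y L j (a + b)) = b := by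
    intro a b
    have h := F.inv w (pth ι x y L j a) (pth ι x y L j (a + b))
    rw [smul_eq_mul, smul_eq_mul] at h
    rw [h, pth_geo F S]
  obtain ⟨M, hM⟩ : ∃ M, M = (2 * N) * (2 * L) := ⟨_, rfl⟩
  rw [e1, e2, ← hM] at h
  have hxy := hgeo 0 M
  rw [Nat.zero_add] at hxy
  obtain ⟨z', a1, a2, a3⟩ := near0 F.hyp h
  obtain ⟨k, hk⟩ : ∃ k, k = d (w * pth ι x y L j 0) z' := ⟨_, rfl⟩
  have hkM : k ≤ M := by
    rw [hk, a3, hxy]
    exact min_le_right _ _
  have b1 := hgeo 0 k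
  rw [Nat.zero_add] at b1
  have b2 := hgeo k (M - k)
  rw [Nat.add_sub_cancel' hkM] at b2
  have b3 : On d 0 (w * pth ι x y L j 0) (w * pth ι x y L j M) (w * pth ι x y L j k) := by
    unfold On
    omega
  have b4 := tree_uniq F.hyp F.sep a1 b3 (by omega)
  refine ⟨k, ?_⟩
  rw [← hw, ← b4]
  omega

theorem Spec_close (F : FP ι d) (S : Syls x y L) {j j' : J} {G G' : Γ} {k k' l l' : ℕ}
    (h1 : d (G * pth ι x y L j k) (G' * pth ι x y L j' l) ≤ 516)
    (h2 : d (G * pth ι x y L j k') (G' * pth ι x y L j' l') ≤ 516)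
    (h3 : 2900 ≤ d (G * pth ι x y L j k) (G * pth ι x y L j k')) :
    j = j' ∧ ∃ c : ℤ, G = G' * rel ι x y L j ^ c := by
  have hgeo : ∀ a b : ℕ, d (G * pth ι x y L j a) (G * pth ι x y L j (a + b)) = b := by
    intro a b
    have h := F.inv G (pth ι x y L j a) (pth ι x y L j (a + b))
    rw [smul_eq_mul, smul_eq_mul] at h
    rw [h, pth_geo F S]
  rcases le_total k k' with h | h
  · have g1 := hgeo k (k' - k)
    rw [Nat.add_sub_cancel' h] at g1
    exact pth_overlap F S h1 h2 (by omega)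
  · have g1 := hgeo k' (k - k')
    rw [Nat.add_sub_cancel' h, F.hyp.symm] at g1
    exact pth_overlap F S h2 h1 (by omega)

theorem spec_ov (F : FP ι d) (S : Syls x y L) (hL : 20 ≤ L) (r : Γ)
    (hr : r ∈ specR (J := J) ι x y L) (r' : Γ) (hr' : r' ∈ specR (J := J) ι x y L)
    (hne : Subgroup.zpowers r ≠ Subgroup.zpowers r') (p : Γ) (hp : p ∈ Ax d 2 r) (p' : Γ)
    (hp' : p' ∈ Ax d 2 r) (h1 : dS d (Ax d 2 r') p ≤ 500) (h2 : dS d (Ax d 2 r') p' ≤ 500) :
    d p p' ≤ DelS := by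
  unfold DelS
  obtain ⟨j, g, rfl⟩ := hr
  obtain ⟨j', g', rfl⟩ := hr'
  by_contra hcon
  have hne' : (Ax d 2 (g' * rel ι x y L j' * g'⁻¹)).Nonempty := by
    obtain ⟨z, hz⟩ := exists_mind (X := Γ) d (g' * rel ι x y L j' * g'⁻¹)
    refine ⟨z, ?_⟩
    show d z ((g' * rel ι x y L j' * g'⁻¹) • z) ≤ _
    rw [hz]
    omega
  obtain ⟨q, hq, hq1⟩ := exists_dS (d := d) hne' p
  obtain ⟨q', hq', hq1'⟩ := exists_dS (d := d) hne' p'
  obtain ⟨N, hN⟩ : ∃ N, N = d p g + d p' g + d q g' + d q' g' + 8 := ⟨_, rfl⟩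
  obtain ⟨k, hk⟩ := Spec_near F S (by omega) j g p hp (N := N) (by omega)
  obtain ⟨k', hk'⟩ := Spec_near F S (by omega) j g p' hp' (N := N) (by omega)
  obtain ⟨l, hl⟩ := Spec_near F S (by omega) j' g' q hq (N := N) (by omega)
  obtain ⟨l', hl'⟩ := Spec_near F S (by omega) j' g' q' hq' (N := N) (by omega)
  obtain ⟨G, hG⟩ : ∃ G, G = g * rel ι x y L j ^ (-(N : ℤ)) := ⟨_, rfl⟩
  obtain ⟨G', hG'⟩ : ∃ G', G' = g' * rel ι x y L j' ^ (-(N : ℤ)) := ⟨_, rfl⟩
  rw [← hG] at hk hk'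
  rw [← hG'] at hl hl'
  have t1 := F.hyp.tri (G * pth ι x y L j k) p (G' * pth ι x y L j' l)
  have t2 := F.hyp.tri p q (G' * pth ι x y L j' l)
  have t3 := F.hyp.symm (G * pth ι x y L j k) p
  have t1' := F.hyp.tri (G * pth ι x y L j k') p' (G' * pth ι x y L j' l')
  have t2' := F.hyp.tri p' q' (G' * pth ι x y L j' l')
  have t3' := F.hyp.symm (G * pth ι x y L j k') p'
  have t4 := F.hyp.tri p (G * pth ι x y L j k) p'
  have t5 := F.hyp.tri (G * pth ι x y L j k) (G * pth ι x y L j k') p'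
  obtain ⟨hj, c, hc⟩ := Spec_close F S (j := j) (j' := j') (G := G) (G' := G') (k := k) (k' := k')
    (l := l) (l' := l') (by omega) (by omega) (by omega)
  subst hj
  apply hne
  have hr1 : g * rel ι x y L j * g⁻¹ = G * rel ι x y L j * G⁻¹ := by
    rw [hG]
    group
  have hr2 : g' * rel ι x y L j * g'⁻¹ = G' * rel ι x y L j * G'⁻¹ := by
    rw [hG']
    group
  have hr3 : G * rel ι x y L j * G⁻¹ = G' * rel ι x y L j * G'⁻¹ := by
    rw [hc]
    group
  rw [hr1, hr2, hr3]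

theorem Spec_root_conj (F : FP ι d) {u : Γ} (hu : Root d 1 u) (g : Γ) :
    Root d 1 (g * u * g⁻¹) := by
  refine ⟨hu.1.conj F.inv g, ?_⟩
  apply le_antisymm
  · intro f hf
    rw [Subgroup.mem_centralizer_singleton_iff] at hf
    have h1 : g⁻¹ * f * g ∈ Subgroup.centralizer {u} := by
      rw [Subgroup.mem_centralizer_singleton_iff]
      have h2 : g⁻¹ * f * g * u = g⁻¹ * (f * (g * u * g⁻¹)) * g := by group
      have h3 : u * (g⁻¹ * f * g) = g⁻¹ * ((g * u * g⁻¹) * f) * g := by group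
      rw [h2, h3, hf]
    rw [hu.2] at h1
    obtain ⟨c, hc⟩ := Subgroup.mem_zpowers_iff.1 h1
    refine Subgroup.mem_zpowers_iff.2 ⟨c, ?_⟩
    rw [conj_zpow, hc]
    group
  · intro f hf
    obtain ⟨c, rfl⟩ := Subgroup.mem_zpowers_iff.1 hf
    rw [Subgroup.mem_centralizer_singleton_iff]
    exact ((Commute.refl (g * u * g⁻¹)).zpow_left c).eq

theorem Spec_mind_two (F : FP ι d) (hm : m.Prime) (hC : ∀ c : C, c ^ m = 1) {g : Γ}
    (hg : Lox d 1 g) : 2 ≤ mind d g := by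
  by_contra hcon
  obtain ⟨z, hz⟩ := exists_mind (X := Γ) d g
  have h1 : d 1 (z⁻¹ * g * z) ≤ 1 := by
    have h := F.inv z⁻¹ z (g • z)
    rw [smul_eq_mul, smul_eq_mul, smul_eq_mul, inv_mul_cancel, ← mul_assoc] at h
    rw [smul_eq_mul] at hz
    rw [h, hz]
    omega
  obtain ⟨b, c, hbc⟩ := F.le_one _ h1
  apply hg.not_pow_eq F.hyp hm.one_le
  have h2 : g = z * ι b c * z⁻¹ := by
    rw [← hbc]
    group
  rw [h2, conj_pow, ← map_pow, hC, map_one, mul_one, mul_inv_cancel]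

theorem spec_fam (F : FP ι d) (S : Syls x y L) (hm : m.Prime) (hC : ∀ c : C, c ^ m = 1)
    {T₀ : ℕ} (hL : 20 ≤ L) (hT : T₀ ≤ 2 * L) :
    Fam d 2 m 1 DelS T₀ 1 (specR (J := J) ι x y L) where
  root := by
    rintro r ⟨j, g, rfl⟩
    exact Spec_root_conj F (rel_root F S j) g
  hq := Or.inl rfl
  big := by
    rintro r ⟨j, g, rfl⟩
    rw [pow_one, mind_conj F.inv, rel_mind F S]
    exact hT
  ov := by
    intro r hr r' hr' hne p hp p' hp' h1 h2
    rw [pow_one] at hp hp' h1 h2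
    exact spec_ov F S hL r hr r' hr' hne p hp p' hp' h1 h2
  unkilled := by
    intro g hg _ z n
    have h1 := Spec_mind_two F hm hC hg
    have h2 := tree_growth F.hyp F.inv h1 z n
    have h3 : n * (mind d g + 1) ≤ n * (2 * mind d g) := Nat.mul_le_mul_left _ (by omega)
    have h4 : n * (2 * mind d g) = 2 * (n * mind d g) := by ring
    omega
  small := by
    intro h
    exact absurd h.symm hm.one_lt.ne'

end Pool.Agent.Lib.MP_0a5b83_al_B
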