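import Pool.Agent.Lib.MP_0a5b83_al_B.Lim
import Pool.Agent.Lib.MP_0a5b83_al_B.Spec
import Pool.Agent.Lib.MP_0a5b83_al_B.FPA

/-! Every group of exponent `m` (a large prime) embeds in a group of exponent `m` such that three
given elements are in a subgroup generated by two elements. -/

set_option autoImplicit false

namespace Pool.Agent.Lib.MP_0a5b83_al_B

/-- The letters of the relators in the first factor. -/
def embX {B : Type} [Group B] (m L : ℕ) (b : Fin 3 → B) (j : Fin 3) (l : ℕ) :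
    B × Multiplicative (ZMod m) :=
  (if l = 0 then (b j)⁻¹ else 1, Multiplicative.ofAdd (((l % L) * 3 + (j : ℕ) + 1 : ℕ) : ZMod m))

/-- The letter of the relators in the second factor. -/
def embY (B : Type) [Group B] (m : ℕ) : B × Multiplicative (ZMod m) :=
  (1, Multiplicative.ofAdd 1)

theorem emb_cast_ne {m n : ℕ} (h0 : 1 ≤ n) (h : n < m) : (n : ZMod m) ≠ 0 := by
  intro h1
  rw [ZMod.natCast_eq_zero_iff] at h1
  have := Nat.le_of_dvd h0 h1
  omega

theorem emb_cast_inj {m n n' : ℕ} (h : n < m) (h' : n' < m) (he : (n : ZMod m) = n') : n = n' := by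
  have := (ZMod.natCast_eq_natCast_iff' n n' m).1 he
  rwa [Nat.mod_eq_of_lt h, Nat.mod_eq_of_lt h'] at this

theorem emb_syls {B : Type} [Group B] {m L : ℕ} (hL : 1 ≤ L) (hm : 3 * L + 2 ≤ m)
    (b : Fin 3 → B) : Syls (embX m L b) (embY B m) L where
  L_pos := hL
  ne_one := by
    intro j l h
    have h1 := congrArg Prod.snd h
    have h2 : (((l % L) * 3 + (j : ℕ) + 1 : ℕ) : ZMod m) = 0 := h1
    refine emb_cast_ne (by omega) ?_ h2
    have := Nat.mod_lt l hL
    have := j.2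
    omega
  inj := by
    intro j l j' l' hl hl' h
    have h1 := congrArg Prod.snd h
    have h2 : (((l % L) * 3 + (j : ℕ) + 1 : ℕ) : ZMod m) =
      (((l' % L) * 3 + (j' : ℕ) + 1 : ℕ) : ZMod m) := h1
    rw [Nat.mod_eq_of_lt hl, Nat.mod_eq_of_lt hl'] at h2
    have hj := j.2
    have hj' := j'.2
    have h3 := emb_cast_inj (by omega) (by omega) h2
    refine ⟨Fin.ext (by omega), by omega⟩
  sq := by
    intro h
    have h1 := congrArg Prod.snd h
    have h2 : ((1 : ZMod m) + 1) = 0 := h1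
    refine emb_cast_ne (m := m) (n := 2) (by omega) (by omega) ?_
    rw [← h2]
    norm_num

theorem emb_pow {B : Type} [Group B] {m : ℕ} (hB : ∀ b : B, b ^ m = 1)
    (c : B × Multiplicative (ZMod m)) : c ^ m = 1 := by
  apply Prod.ext
  · exact hB _
  · show c.2 ^ m = 1
    rw [← ofAdd_toAdd c.2, ← ofAdd_nsmul, nsmul_eq_mul, CharP.cast_eq_zero, zero_mul, ofAdd_zero]

theorem emb_of_pow {B : Type} [Group B] {m : ℕ} (n : ℕ) :
    ((1, Multiplicative.ofAdd (n : ZMod m)) : B × Multiplicative (ZMod m)) =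
      (1, Multiplicative.ofAdd 1) ^ n := by
  apply Prod.ext
  · simp
  · show Multiplicative.ofAdd (n : ZMod m) = Multiplicative.ofAdd 1 ^ n
    rw [← ofAdd_nsmul, nsmul_eq_mul, mul_one]

theorem emb_torsion {Γ C : Type} [Group Γ] [Group C] {ι : Bool → C →* Γ} {d : Γ → Γ → ℕ}
    (F : FP ι d) {m : ℕ} (hC : ∀ c : C, c ^ m = 1) (g x : Γ) (h : d x (g • x) ≤ 1) : g ^ m = 1 := by
  have h1 : d 1 (x⁻¹ * g * x) ≤ 1 := by
    rw [← F.inv x⁻¹ x (g • x)] at h
    rw [smul_eq_mul, smul_eq_mul, smul_eq_mul, inv_mul_cancel, ← mul_assoc] at h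
    exact h
  obtain ⟨b, c, h2⟩ := F.le_one _ h1
  have h3 : g = x * ι b c * x⁻¹ := by rw [← h2]; group
  rw [h3, conj_pow, ← map_pow, hC, map_one, mul_one, mul_inv_cancel]

theorem emb_pth {B Γ Q : Type} [Group B] [Group Γ] [Group Q] {m L : ℕ} {b : Fin 3 → B}
    {ι : Bool → B × Multiplicative (ZMod m) →* Γ} (ψ : Γ →* Q) {Cl : Subgroup Q}
    (h0 : ψ (ι false (1, Multiplicative.ofAdd 1)) ∈ Cl) (h1 : ψ (ι true (embY B m)) ∈ Cl)
    (j : Fin 3) (k : ℕ) (hk : k < 2 * L) :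
    ψ (ι false (b j, 1)) * ψ (pth ι (embX m L b) (embY B m) L j (k + 1)) ∈ Cl := by
  have hpow : ∀ n : ℕ, ψ (ι false (1, Multiplicative.ofAdd (n : ZMod m))) ∈ Cl := by
    intro n
    rw [emb_of_pow, map_pow, map_pow]
    exact Cl.pow_mem h0 n
  induction k with
  | zero =>
    have e1 : pth ι (embX m L b) (embY B m) L j (0 + 1) = ι false (embX m L b j 0) := by
      simp [pth, syl]
    rw [e1, ← map_mul, ← map_mul]
    have e2 : ((b j, 1) : B × Multiplicative (ZMod m)) * embX m L b j 0 =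
        (1, Multiplicative.ofAdd (((0 % L) * 3 + (j : ℕ) + 1 : ℕ) : ZMod m)) := by
      apply Prod.ext
      · simp [embX]
      · simp [embX]
    rw [e2]
    exact hpow _
  | succ k ih =>
    have ih := ih (by omega)
    have e1 : pth ι (embX m L b) (embY B m) L j (k + 1 + 1) =
      pth ι (embX m L b) (embY B m) L j (k + 1) * syl ι (embX m L b) (embY B m) L j (k + 1) := rfl
    rw [e1, map_mul, ← mul_assoc]
    refine Cl.mul_mem ih ?_
    unfold syl
    split_ifs with hpar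
    · have hlt : (k + 1) / 2 < L := by omega
      have hne : (k + 1) / 2 ≠ 0 := by omega
      have e2 : embX m L b j ((k + 1) / 2 % L) =
          (1, Multiplicative.ofAdd ((((k + 1) / 2 % L % L) * 3 + (j : ℕ) + 1 : ℕ) : ZMod m)) := by
        unfold embX
        rw [if_neg]
        rw [Nat.mod_eq_of_lt hlt]
        exact hne
      rw [e2]
      exact hpow _
    · exact h1

theorem embed : ∃ m₀ : ℕ, ∀ m : ℕ, m.Prime → m₀ ≤ m → ∀ (B : Type) [Group B],
    (∀ b : B, b ^ m = 1) → ∀ b : Fin 3 → B,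
      ∃ (Q : Type) (_ : Group Q) (β : B →* Q) (a : Fin 2 → Q), (∀ q : Q, q ^ m = 1) ∧
        Function.Injective β ∧ ∀ j, β (b j) ∈ Subgroup.closure (Set.range a) := by
  obtain ⟨A, hA⟩ : ∃ A, A = max A0 (10 * M0 + 10) := ⟨_, rfl⟩
  obtain ⟨Δ, hΔ⟩ : ∃ Δ, Δ = max DelS (Del1 A) := ⟨_, rfl⟩
  obtain ⟨L, hL⟩ : ∃ L, L = max 20 (T1 Δ) := ⟨_, rfl⟩
  refine ⟨Q1 Δ * T1 Δ + J0 + 3 * L + 3, ?_⟩
  intro m hm hm0 B _ hB b
  have hJ : J0 ≤ m := by omega
  have ho : m ≠ 2 := by omega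
  have hmT : Q1 Δ * T1 Δ ≤ m := by omega
  have hL3 : 3 * L + 2 ≤ m := by omega
  have hA0 : A0 ≤ A := hA ▸ le_max_left _ _
  have hA1 : 10 * M0 + 10 ≤ A := hA ▸ le_max_right _ _
  have hΔ0 : DelS ≤ Δ := hΔ ▸ le_max_left _ _
  have hΔ1 : Del1 A ≤ Δ := hΔ ▸ le_max_right _ _
  have hL0 : 20 ≤ L := hL ▸ le_max_left _ _
  have hL1 : T1 Δ ≤ L := hL ▸ le_max_right _ _
  have hC := emb_pow hB
  have S := emb_syls (m := m) (L := L) (by omega) hL3 b
  obtain ⟨Γ, _, ι, d, F⟩ := exists_fp (B × Multiplicative (ZMod m))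
  have hg : Good d 2 1 m M0 A :=
    (good_tree hm.one_le F.hyp F.inv F.sep (fun g x h => emb_torsion F hC g x h)
      (M₀ := M0) (by unfold M0; omega)).mono hm.one_le (by omega) le_rfl hA1
  have Fm := (spec_fam F S hm hC (T₀ := T1 Δ) hL0 (by omega)).mono hΔ0
  obtain ⟨G', _, φ, d', hφ, hg', hd', hr, hk⟩ := step hm ho hJ hA0 hg Fm le_rfl
  obtain ⟨N, hN, hNm, hNk⟩ := limit hm ho hJ hA0 hΔ1 hmT hg'
  let ψ : Γ →* G' ⧸ N := (QuotientGroup.mk' N).comp φ
  let a : Fin 2 → G' ⧸ N := ![ψ (ι false (1, Multiplicative.ofAdd 1)), ψ (ι true (embY B m))]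
  have ha0 : ψ (ι false (1, Multiplicative.ofAdd 1)) ∈ Subgroup.closure (Set.range a) :=
    Subgroup.subset_closure ⟨0, rfl⟩
  have ha1 : ψ (ι true (embY B m)) ∈ Subgroup.closure (Set.range a) :=
    Subgroup.subset_closure ⟨1, rfl⟩
  refine ⟨G' ⧸ N, inferInstance, ψ.comp ((ι false).comp (MonoidHom.inl B _)), a, ?_, ?_, ?_⟩
  · intro q
    induction q using QuotientGroup.induction_on with
    | H g =>
    rw [← QuotientGroup.mk_pow, QuotientGroup.eq_one_iff]
    exact hNm g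
  · rw [injective_iff_map_eq_one]
    intro x hx
    have h1 : φ (ι false (x, 1)) ∈ N := (QuotientGroup.eq_one_iff _).1 hx
    have h2 : d 1 (ι false (x, 1)) ≤ 1 := F.of_le _ _
    have h3 : d' 1 (φ (ι false (x, 1))) ≤ 1 := by
      have h4 := hd' 1 (ι false (x, 1))
      rw [map_one] at h4
      refine h4.trans ?_
      have hs : 1 ≤ s0 := by unfold s0; omega
      calc (d 1 (ι false (x, 1)) + (s0 - 1)) / s0 ≤ s0 / s0 := Nat.div_le_div_right (by omega)
        _ = 1 := Nat.div_self hs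
    have h4 := hNk _ h1 h3
    have h5 := hk _ h4 h2
    rw [← map_one (ι false)] at h5
    exact congrArg Prod.fst (F.inj false h5)
  · intro j
    have h1 := emb_pth (b := b) (L := L) (ι := ι) ψ ha0 ha1 j (2 * L - 1) (by omega)
    have h2 : 2 * L - 1 + 1 = 2 * L := by omega
    rw [h2] at h1
    have h3 : ψ (rel ι (embX m L b) (embY B m) L j) = 1 := by
      have h4 := hr (rel ι (embX m L b) (embY B m) L j) ⟨j, 1, by group⟩
      rw [pow_one] at h4
      show (QuotientGroup.mk' N) (φ _) = 1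
      rw [h4, map_one]
    change ψ (ι false (b j, 1)) * ψ (rel ι (embX m L b) (embY B m) L j) ∈ _ at h1
    rw [h3, mul_one] at h1
    exact h1

end Pool.Agent.Lib.MP_0a5b83_al_B
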