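import Pool.Agent.Lib.MP_0a5b83_al_B.Good

/-!
The interface of the free product of two copies of a group `C` with its syllable metric.
-/

set_option autoImplicit false

namespace Pool.Agent.Lib.MP_0a5b83_al_B

/-- `Γ` with its metric `d` behaves like the free product of two copies of `C` (embedded by
`ι false` and `ι true`) with the syllable metric `d x y = |x⁻¹ y|`. -/
structure FP {Γ C : Type} [Group Γ] [Group C] (ι : Bool → C →* Γ) (d : Γ → Γ → ℕ) : Prop where
  hyp : Hyp d 0
  inv : Inv Γ d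
  sep : Sep d
  inj : ∀ b, Function.Injective (ι b)
  of_le : ∀ b c, d 1 (ι b c) ≤ 1
  le_one : ∀ g, d 1 g ≤ 1 → ∃ b c, g = ι b c
  two : ∀ b c c', c ≠ 1 → c' ≠ 1 → d 1 (ι b c * ι (!b) c') = 2

end Pool.Agent.Lib.MP_0a5b83_al_B
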