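import Pool.Agent.Lib.MP_0a5b83_al_B.FamDefs

/-! JOB FAMA : a family of roots satisfies the windmill axioms. -/

set_option autoImplicit false

namespace Pool.Agent.Lib.MP_0a5b83_al_B

variable {G X : Type} [Group G] [MulAction G X] {d : X → X → ℕ} {D m Q Δ T₀ q : ℕ} {R : Set G}
  [ConjCl R]

/-- Generators of an infinite cyclic group. -/
theorem zpowers_gen_eq {G : Type} [Group G] {a b : G}
    (h : Subgroup.zpowers a = Subgroup.zpowers b) (hb : ∀ n : ℤ, n ≠ 0 → b ^ n ≠ 1) :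
    b = a ∨ b = a⁻¹ := by
  have h1 : b ∈ Subgroup.zpowers a := by rw [h]; exact Subgroup.mem_zpowers b
  have h2 : a ∈ Subgroup.zpowers b := by rw [← h]; exact Subgroup.mem_zpowers a
  obtain ⟨k, hk⟩ := Subgroup.mem_zpowers_iff.1 h1
  obtain ⟨n, hn⟩ := Subgroup.mem_zpowers_iff.1 h2
  have h3 : b ^ (n * k) = b := by rw [zpow_mul, hn, hk]
  have h4 : n * k = 1 := by
    by_contra hne
    apply hb (n * k - 1) (sub_ne_zero.2 hne)
    rw [zpow_sub, h3, zpow_one, mul_inv_cancel]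
  rcases Int.eq_one_or_neg_one_of_mul_eq_one' h4 with ⟨-, rfl⟩ | ⟨-, rfl⟩
  · left; rw [← hk, zpow_one]
  · right; rw [← hk, zpow_neg_one]

/-- The root of a translated domain is the conjugate of the root or its inverse. -/
theorem rt_smul (E : Ell (G := G) d D Q m) (F : Fam d D m Q Δ T₀ q R) (g : G) (i : FIdx R) :
    rt (g • i) = g * rt i * g⁻¹ ∨ rt (g • i) = (g * rt i * g⁻¹)⁻¹ := by
  have := E.ne
  have h1 : (g • i).1 = Subgroup.zpowers (rt (g • i)) := rt_spec (g • i)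
  have h2 : (g • i).1 = i.1.map (MulAut.conj g).toMonoidHom := rfl
  rw [rt_spec i, MonoidHom.map_zpowers] at h2
  have h3 : Subgroup.zpowers (g * rt i * g⁻¹) = Subgroup.zpowers (rt (g • i)) := by
    rw [← h1, h2]
    rfl
  apply zpowers_gen_eq h3
  intro n hn
  exact (F.root _ (rt_mem (g • i))).1.zpow_ne_one E.hyp E.inv hn

theorem rt_smul_pow (E : Ell (G := G) d D Q m) (F : Fam d D m Q Δ T₀ q R) (g : G) (i : FIdx R) :
    rt (g • i) ^ q = g * rt i ^ q * g⁻¹ ∨ rt (g • i) ^ q = (g * rt i ^ q * g⁻¹)⁻¹ := by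
  rcases rt_smul E F g i with h | h
  · left; rw [h, conj_pow]
  · right; rw [h, inv_pow, conj_pow]

theorem mem_fY_smul (E : Ell (G := G) d D Q m) (F : Fam d D m Q Δ T₀ q R) (g : G) (i : FIdx R)
    (y : X) : g • y ∈ fY d D q (g • i) ↔ y ∈ fY d D q i := by
  unfold fY
  rcases rt_smul_pow E F g i with h | h
  · rw [h, mem_Ax_conj E.inv]
  · rw [h, Ax_inv E.hyp E.inv, mem_Ax_conj E.inv]

theorem mem_fH_smul (E : Ell (G := G) d D Q m) (F : Fam d D m Q Δ T₀ q R) (g : G) (i : FIdx R)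
    (h : G) : g * h * g⁻¹ ∈ fH q (g • i) ↔ h ∈ fH q i := by
  have key : ∀ a : G, g * h * g⁻¹ ∈ Subgroup.zpowers (g * a * g⁻¹) ↔ h ∈ Subgroup.zpowers a := by
    intro a
    rw [Subgroup.mem_zpowers_iff, Subgroup.mem_zpowers_iff]
    constructor
    · rintro ⟨k, hk⟩
      refine ⟨k, ?_⟩
      rw [conj_zpow] at hk
      exact mul_left_cancel (mul_right_cancel hk)
    · rintro ⟨k, hk⟩
      exact ⟨k, by rw [conj_zpow, hk]⟩
  unfold fH
  rcases rt_smul_pow E F g i with h1 | h1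
  · rw [h1, key]
  · rw [h1, Subgroup.zpowers_inv, key]

theorem fT_smul (E : Ell (G := G) d D Q m) (F : Fam d D m Q Δ T₀ q R) (g : G) (i : FIdx R) :
    fT d q (g • i) = fT d q i := by
  unfold fT
  rcases rt_smul_pow E F g i with h1 | h1
  · rw [h1, mind_conj E.inv]
  · rw [h1, mind_inv E.hyp E.inv, mind_conj E.inv]

/-- The stabilizer of a domain. -/
theorem smul_eq_iff (E : Ell (G := G) d D Q m) (F : Fam d D m Q Δ T₀ q R) (g : G) (i : FIdx R) :
    g • i = i ↔ g ∈ Subgroup.zpowers (rt i) := by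
  constructor
  · intro h
    have h1 := rt_smul E F g i
    rw [h] at h1
    apply E.root_norm (F.root _ (rt_mem i))
    · rcases h1 with h1 | h1
      · rw [← h1]; exact Subgroup.mem_zpowers _
      · rw [← inv_inv (g * rt i * g⁻¹), ← h1]
        exact Subgroup.inv_mem _ (Subgroup.mem_zpowers _)
    · rcases h1 with h1 | h1
      · have h2 : g⁻¹ * rt i * g = rt i := by
          nth_rewrite 1 [h1]
          group
        rw [h2]; exact Subgroup.mem_zpowers _
      · have h2 : g⁻¹ * rt i * g = (rt i)⁻¹ := by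
          nth_rewrite 1 [h1]
          group
        rw [h2]; exact Subgroup.inv_mem _ (Subgroup.mem_zpowers _)
  · intro h
    apply FIdx.ext
    have h2 : g * rt i * g⁻¹ = rt i := by
      obtain ⟨k, hk⟩ := Subgroup.mem_zpowers_iff.1 h
      rw [← hk, mul_inv_eq_iff_eq_mul]
      exact ((Commute.refl (rt i)).zpow_left k).eq
    rcases rt_smul E F g i with h1 | h1
    · rw [h1, h2]
    · rw [h1, h2, Subgroup.zpowers_inv]

omit [ConjCl R] in
theorem fT_le (F : Fam d D m Q Δ T₀ q R) (i : FIdx R) : T₀ ≤ fT d q i := F.big _ (rt_mem i)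

omit [ConjCl R] in
theorem fY_qc' (E : Ell (G := G) d D Q m) (F : Fam d D m Q Δ T₀ q R) (hT : 5 * D + 3 ≤ T₀)
    (i : FIdx R) : QC d (4 * D + 1) (fY d D q i) := by
  have := E.ne
  intro p hp p' hp' u hu
  have h1 : T₀ ≤ mind d (rt i ^ q) := F.big _ (rt_mem i)
  obtain ⟨u', h2, h3⟩ := ax_conv E.hyp E.inv (g := rt i ^ q) (by omega) hp hp' hu
  exact ⟨u', h2, by omega⟩

theorem fY_qc (E : Ell (G := G) d D Q m) (F : Fam d D m Q Δ T₀ q R) (hT : 5 * D + 3 ≤ T₀)
    (i : FIdx R) : QC d (4 * D + 1) (fY d D q i) := fY_qc' E F hT i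

omit [ConjCl R] in
theorem fY_nonempty (E : Ell (G := G) d D Q m) (i : FIdx R) : (fY d D q i).Nonempty := by
  have := E.ne
  obtain ⟨z, hz⟩ := exists_mind (X := X) d (rt i ^ q)
  refine ⟨z, ?_⟩
  show d z (rt i ^ q • z) ≤ _
  omega

/-- Elements of the rotation group preserve the domain. -/
theorem fH_mem (E : Ell (G := G) d D Q m) (F : Fam d D m Q Δ T₀ q R) {i : FIdx R} {h : G}
    (hh : h ∈ Subgroup.zpowers (rt i)) (y : X) : h • y ∈ fY d D q i ↔ y ∈ fY d D q i := by
  have h1 := mem_fY_smul E F h i y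
  rwa [(smul_eq_iff E F h i).2 hh] at h1

omit [ConjCl R] in
theorem fH_le (i : FIdx R) : fH q i ≤ Subgroup.zpowers (rt i) := by
  unfold fH
  rw [Subgroup.zpowers_le]
  exact Subgroup.pow_mem _ (Subgroup.mem_zpowers _) q

/-- Nearest points of translated points. -/
theorem near_smul (E : Ell (G := G) d D Q m) (F : Fam d D m Q Δ T₀ q R) {i : FIdx R} {h : G}
    (hh : h ∈ Subgroup.zpowers (rt i)) {z p : X} (hp : p ∈ fY d D q i)
    (h1 : d z p = dS d (fY d D q i) z) :
    h • p ∈ fY d D q i ∧ d (h • z) (h • p) = dS d (fY d D q i) (h • z) := by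
  refine ⟨(fH_mem E F hh p).2 hp, ?_⟩
  rw [E.inv h z p, h1, dS_inv E.inv h (fH_mem E F hh)]

/-- Angle between points of another domain. -/
theorem fam_dom (E : Ell (G := G) d D Q m) (F : Fam d D m Q Δ T₀ q R) (hT : 5 * D + 3 ≤ T₀)
    {i j : FIdx R} (hij : i ≠ j) {y y' : X} (hy : y ∈ fY d D q j) (hy' : y' ∈ fY d D q j) :
    del d D (fY d D q (R := R)) i y y' ≤ Δ + 3 * (21 * D + 6) := by
  have hd := E.hyp
  obtain ⟨p, hp, h1⟩ := exists_dS (d := d) (fY_nonempty (q := q) E i) y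
  obtain ⟨p', hp', h2⟩ := exists_dS (d := d) (fY_nonempty (q := q) E i) y'
  have h3 := tau_le_proj hd h1 h2
  unfold del
  by_cases hc : d p p' ≤ 21 * D + 6
  · omega
  have h4 := proj_far hd (fY_qc E F hT i) hp hp' h1 h2 (by omega)
  have key : ∀ w : X, On d (21 * D + 6) y y' w → dS d (fY d D q j) w ≤ 200 * D + 100 := by
    intro w hw
    obtain ⟨z', k1, k2, -⟩ := near0 hd hw
    obtain ⟨u, k3, k4⟩ := fY_qc E F hT j y hy y' hy' z' k1
    have k5 := dS_le (d := d) k3 w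
    have k6 := hd.tri w z' u
    omega
  have s1 := hd.symm p' y'
  have t1 := hd.tri p p' y'
  have t2 := hd.tri y p p'
  have s2 := hd.symm y' p'
  have h5 := F.ov _ (rt_mem i) _ (rt_mem j) (fun h => hij (FIdx.ext h)) p hp p' hp'
    (key p (by unfold On; omega)) (key p' (by unfold On; omega))
  omega

/-- One step of turning. -/
theorem fam_step (E : Ell (G := G) d D Q m) (F : Fam d D m Q Δ T₀ q R) (hT : 5 * D + 3 ≤ T₀)
    {i : FIdx R} {p r : X} (hp : p ∈ fY d D q i) (hr : r ∈ fY d D q i) :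
    ∃ h ∈ fH q i, (d p (h • r) + fT d q i ≤ d p r + (10 * D + 3) ∨
      d p (h • r) + d p r ≤ fT d q i + (10 * D + 3)) := by
  have h1 := fT_le F i
  unfold fT at h1 ⊢
  obtain ⟨h, h2, h3⟩ := ax_step E.hyp E.inv (g := rt i ^ q) (by omega) hp hr
  refine ⟨h, ?_, h3⟩
  unfold fH
  rcases h2 with rfl | rfl
  · exact Subgroup.mem_zpowers _
  · exact Subgroup.inv_mem _ (Subgroup.mem_zpowers _)

theorem fam_turn (E : Ell (G := G) d D Q m) (F : Fam d D m Q Δ T₀ q R) {θ : ℕ}
    (hθ : Δ + 5 * (21 * D + 6) + 1 ≤ θ) (hT : 1000 * θ ≤ T₀) (i : FIdx R) (x z : X) :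
    ∃ h ∈ fH q i, 100 * del d D (fY d D q (R := R)) i x (h • z) ≤ 51 * fT d q i := by
  have hd := E.hyp
  obtain ⟨p, hp, h1⟩ := exists_dS (d := d) (fY_nonempty (q := q) E i) x
  obtain ⟨r, hr, h2⟩ := exists_dS (d := d) (fY_nonempty (q := q) E i) z
  have hne : {n | ∃ h ∈ fH q i, d p (h • r) = n}.Nonempty := ⟨_, 1, one_mem _, rfl⟩
  obtain ⟨h, hh, h3⟩ := Nat.sInf_mem hne
  obtain ⟨k1, k2⟩ := near_smul E F (fH_le i hh) hr h2
  obtain ⟨h', hh', h4⟩ := fam_step E F (by omega) hp k1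
  have h5 : d p (h • r) ≤ d p (h' • h • r) := by
    rw [h3, smul_smul]
    exact Nat.sInf_le ⟨h' * h, (fH q i).mul_mem hh' hh, rfl⟩
  have h6 := tau_le_proj hd h1 k2
  have h7 := fT_le F i
  refine ⟨h, hh, ?_⟩
  unfold del
  omega

theorem fam_turn_aux (E : Ell (G := G) d D Q m) (F : Fam d D m Q Δ T₀ q R) {θ : ℕ}
    (hθ : Δ + 5 * (21 * D + 6) + 1 ≤ θ) (hT : 1000 * θ ≤ T₀) (i : FIdx R) (x z : X)
    (h : 51 * fT d q i < 100 * del d D (fY d D q (R := R)) i x z + 100 * θ) :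
    ∃ h ∈ fH q i, d x (h • z) < d x z := by
  have hd := E.hyp
  obtain ⟨p, hp, h1⟩ := exists_dS (d := d) (fY_nonempty (q := q) E i) x
  obtain ⟨r, hr, h2⟩ := exists_dS (d := d) (fY_nonempty (q := q) E i) z
  have h3 := proj_two hd (fY_qc E F (by omega) i) hp hr h1 h2
  have h4 := tau_le_proj hd h1 h2
  obtain ⟨g, hg, h5⟩ := fam_step E F (by omega) hp hr
  have h6 := fT_le F i
  refine ⟨g, hg, ?_⟩
  have t1 := hd.tri x p (g • z)
  have t2 := hd.tri p (g • r) (g • z)
  have e1 := E.inv g r z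
  have s1 := hd.symm r z
  unfold del at h
  unfold tau at h h3 h4
  omega

theorem fam_spin (E : Ell (G := G) d D Q m) (F : Fam d D m Q Δ T₀ q R) {θ : ℕ}
    (hθ : Δ + 5 * (21 * D + 6) + 1 ≤ θ) (hT : 1000 * θ ≤ T₀) (i : FIdx R) (h : G)
    (hh : h ∈ fH q i) (h1 : h ≠ 1) (x : X) :
    fT d q i ≤ del d D (fY d D q (R := R)) i x (h • x) := by
  have hd := E.hyp
  have hi := E.inv
  have hT1 := fT_le F i
  have grow : ∀ (p : X) (n : ℕ), fT d q i ≤ d p ((rt i ^ q) ^ (n + 1) • p) := by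
    intro p n
    unfold fT at hT1 ⊢
    induction n with
    | zero =>
      rw [zero_add, pow_one]
      exact mind_le d _ p
    | succ n ih =>
      have := growth_mind hd hi (g := rt i ^ q) (by omega) p (n + 1)
      omega
  have key : ∀ p : X, fT d q i ≤ d p (h • p) := by
    intro p
    obtain ⟨n, hn⟩ := Subgroup.mem_zpowers_iff.1 hh
    rcases n with n | n
    · rw [Int.ofNat_eq_natCast, zpow_natCast] at hn
      rcases n with _ | n
      · exact absurd (by rw [← hn, pow_zero]) h1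
      · rw [← hn]; exact grow p n
    · rw [zpow_negSucc] at hn
      rw [← hn, Inv.disp_inv hd hi]
      exact grow p n
  obtain ⟨p, hp, h2⟩ := exists_dS (d := d) (fY_nonempty (q := q) E i) x
  obtain ⟨k1, k2⟩ := near_smul E F (fH_le i hh) hp h2
  have h3 := proj_two hd (fY_qc E F (by omega) i) hp k1 h2 k2
  have h4 := key p
  unfold del
  omega

theorem fam_wind (E : Ell (G := G) d D Q m) (F : Fam d D m Q Δ T₀ q R) {θ : ℕ}
    (hθ : Δ + 5 * (21 * D + 6) + 1 ≤ θ) (hT : 1000 * θ ≤ T₀) :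
    Wind d (fY d D q (R := R)) (fun x i => dS d (fY d D q i) x) (del d D (fY d D q (R := R)))
      (fH q (R := R)) (fT d q (R := R)) θ where
  Yne := fY_nonempty E
  Yinv g i y hy := (mem_fY_smul E F g i y).2 hy
  nuinv g x i := dS_inv E.inv g (fun y => mem_fY_smul E F g i y) x
  delinv g i x y := by
    unfold del
    rw [tau_inv E.inv g (fun y => mem_fY_smul E F g i y)]
  dsymm i x y := by
    unfold del
    rw [tau_symm E.hyp]
  dtri i x y z := bgi_tri E.hyp (fY_nonempty E) (fun i => fY_qc E F (by omega) i) i x y z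
  dself i x := by
    rw [bgi_self E.hyp]
    omega
  dom i j hij y hy y' hy' := by
    have := fam_dom E F (by omega) hij hy hy'
    omega
  near i j hij x y hy h := by
    obtain ⟨r, hr, h1⟩ := exists_dS (d := d) (fY_nonempty (q := q) E j) x
    have h2 := bgi_tri E.hyp (fY_nonempty E) (fun i => fY_qc E F (by omega) i) i x r y
    have h3 := fam_dom E F (by omega) hij hr hy
    have h4 : 2 * (21 * D + 6) < del d D (fY d D q (R := R)) i x r := by omega
    unfold del tau at h4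
    show dS d (fY d D q i) x < dS d (fY d D q j) x
    omega
  Hinv g i h hh := (mem_fH_smul E F g i h).2 hh
  Hfix i h hh := (smul_eq_iff E F h i).2 (fH_le i hh)
  spin i h hh h1 x := fam_spin E F hθ hT i h hh h1 x
  Tinv g i := fT_smul E F g i
  Tbig i := hT.trans (fT_le F i)
  θpos := by omega
  turn i x z := fam_turn E F hθ hT i x z
  turnY i l hil x y hy h := by
    obtain ⟨r, hr, h1⟩ := exists_dS (d := d) (fY_nonempty (q := q) E l) x
    have h2 := bgi_tri E.hyp (fY_nonempty E) (fun i => fY_qc E F (by omega) i) i x r y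
    have h3 := fam_dom E F (by omega) hil hr hy
    obtain ⟨g, hg, h4⟩ := fam_turn_aux E F hθ hT i x r (by omega)
    refine ⟨g, hg, ?_⟩
    have h5 := dS_le (d := d) ((mem_fY_smul E F g l r).2 hr) x
    show dS d (fY d D q (g • l)) x < dS d (fY d D q l) x
    omega
  turnX i x z h := fam_turn_aux E F hθ hT i x z (by omega)

end Pool.Agent.Lib.MP_0a5b83_al_B
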