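import Pool.Agent.Lib.MP_0a5b83_al_B.FamA

/-! JOB FAMB : a family of roots gives a context. -/

set_option autoImplicit false

namespace Pool.Agent.Lib.MP_0a5b83_al_B

variable {G X : Type} [Group G] [MulAction G X] {d : X → X → ℕ} {D m Q Δ T₀ q : ℕ} {R : Set G}
  [ConjCl R]

omit [ConjCl R] in
/-- A power of the root with displacement about a fifth of the full angle. -/
theorem fam_power (E : Ell (G := G) d D Q m) (F : Fam d D m Q Δ T₀ q R)
    (hT : 1000 * (Δ + 5 * (21 * D + 6) + 1) ≤ T₀) (i : FIdx R) (hqm : q = m) :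
    ∃ b : ℕ, ∀ p ∈ fY d D q i, 20 * fT d q i ≤ 100 * (d p (rt i ^ b • p) + (11 * D + 2)) ∧
      100 * d p (rt i ^ b • p) ≤ 20 * fT d q i + 100 * Δ + 100 * (11 * D + 2) := by
  have hd := E.hyp
  have hi := E.inv
  have hT1 := fT_le F i
  obtain ⟨y0, hy0⟩ := fY_nonempty (q := q) E i
  have hsm : d y0 (rt i • y0) ≤ Δ := F.small hqm _ (rt_mem i) y0 hy0
  have hstep : ∀ b : ℕ, d y0 (rt i ^ (b + 1) • y0) ≤ d y0 (rt i ^ b • y0) + Δ := by
    intro b
    have t1 := hd.tri y0 (rt i ^ b • y0) (rt i ^ (b + 1) • y0)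
    have e1 : d (rt i ^ b • y0) (rt i ^ (b + 1) • y0) = d y0 (rt i • y0) := by
      rw [pow_succ, mul_smul, hi]
    omega
  have hex : ∃ b : ℕ, 20 * fT d q i ≤ 100 * d y0 (rt i ^ b • y0) := by
    refine ⟨q, ?_⟩
    have := mind_le d (rt i ^ q) y0
    unfold fT
    omega
  obtain ⟨b, hb1, hb2⟩ : ∃ b : ℕ, 20 * fT d q i ≤ 100 * d y0 (rt i ^ b • y0) ∧
      100 * d y0 (rt i ^ b • y0) ≤ 20 * fT d q i + 100 * Δ := by
    classical
    refine ⟨Nat.find hex, Nat.find_spec hex, ?_⟩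
    rcases hk : Nat.find hex with _ | k
    · rw [pow_zero, one_smul, hd.self]
      omega
    · have h1 := Nat.find_min hex (m := k) (by omega)
      have h2 := hstep k
      omega
  have hcomm : Commute (rt i ^ b) (rt i ^ q) := (Commute.refl (rt i)).pow_pow b q
  refine ⟨b, ?_⟩
  intro p hp
  have h0 : 5 * D + 3 ≤ mind d (rt i ^ q) := by
    unfold fT at hT1
    omega
  have hp' : d p (rt i ^ q • p) ≤ mind d (rt i ^ q) + (3 * D + 1) := hp
  have hy' : d y0 (rt i ^ q • y0) ≤ mind d (rt i ^ q) + (3 * D + 1) := hy0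
  have h1 := ax_comm_disp hd hi h0 hp' hcomm y0
  have h2 := ax_comm_disp hd hi h0 hy' hcomm p
  omega

theorem fam_rot (E : Ell (G := G) d D Q m) (F : Fam d D m Q Δ T₀ q R)
    (hT : 1000 * (Δ + 5 * (21 * D + 6) + 1) ≤ T₀) (g : G) (i : FIdx R) (h : g • i = i)
    (hg : g ∉ fH q i) : ∃ j : ℤ, ∃ h ∈ fH q i,
    (∀ x, 10 * fT d q i ≤ 100 * del d D (fY d D q (R := R)) i x ((h * g ^ j) • x)) ∧
    ∀ x ∈ fY d D q i, 100 * del d D (fY d D q (R := R)) i x ((h * g ^ j) • x) ≤ 35 * fT d q i := by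
  have hd := E.hyp
  have hT1 := fT_le F i
  have h1 := (smul_eq_iff E F g i).1 h
  rcases F.hq with hq | hq
  · exfalso
    apply hg
    unfold fH
    rw [hq, pow_one]
    exact h1
  obtain ⟨a, ha⟩ := Subgroup.mem_zpowers_iff.1 h1
  have hma : ¬ ((m : ℤ) ∣ a) := by
    rintro ⟨c, rfl⟩
    apply hg
    unfold fH
    rw [Subgroup.mem_zpowers_iff]
    refine ⟨c, ?_⟩
    rw [← ha, hq, zpow_mul, zpow_natCast]
  obtain ⟨b, hb⟩ := fam_power E F hT i hq
  have hcop : IsCoprime a (m : ℤ) := by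
    have := (Nat.prime_iff_prime_int.1 E.prime).coprime_iff_not_dvd.2 hma
    exact this.symm
  obtain ⟨u, v, huv⟩ := hcop
  have hprod : rt i ^ ((m : ℤ) * (v * b)) * g ^ (u * b) = rt i ^ b := by
    rw [← ha, ← zpow_mul, ← zpow_add, ← zpow_natCast (rt i) b]
    congr 1
    linear_combination (b : ℤ) * huv
  refine ⟨u * b, rt i ^ ((m : ℤ) * (v * b)), ?_, ?_, ?_⟩
  · unfold fH
    rw [Subgroup.mem_zpowers_iff]
    exact ⟨v * b, by rw [hq, zpow_mul (rt i) (m : ℤ) (v * b), zpow_natCast]⟩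
  · intro x
    rw [hprod]
    obtain ⟨p, hp, h2⟩ := exists_dS (d := d) (fY_nonempty (q := q) E i) x
    obtain ⟨k1, k2⟩ := near_smul E F (h := rt i ^ b)
      (Subgroup.pow_mem _ (Subgroup.mem_zpowers _) b) hp h2
    have h3 := proj_two hd (fY_qc E F (by omega) i) hp k1 h2 k2
    have h4 := (hb p hp).1
    unfold del
    omega
  · intro x hx
    rw [hprod]
    have h4 := (hb x hx).2
    have h5 := tau_le (d := d) (fY d D q i) x (rt i ^ b • x)
    unfold del
    omega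

theorem fam_ctx (E : Ell (G := G) d D Q m) (hs : Sep d) (F : Fam d D m Q Δ T₀ q R) {θ t : ℕ}
    (hadd : ∀ x y z, On d 0 x y z → On (dh d (fY d D q (R := R))) t x y z)
    (hθ : Δ + 5 * (21 * D + 6) + 1 ≤ θ) (hT : 1000 * θ ≤ T₀) (hT' : 100 * BB D t θ ≤ T₀) :
    Ctx d D Q m Δ θ t (fY d D q (R := R)) (fH q (R := R)) (fT d q (R := R)) where
  E := E
  sep := hs
  qc i := fY_qc E F (by omega) i
  add := hadd
  w := fam_wind E F hθ hT
  θbig := by omega
  Tbig i := hT'.trans (fT_le F i)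
  ov i j hij p hp p' hp' h1 h2 :=
    F.ov _ (rt_mem i) _ (rt_mem j) (fun h => hij (FIdx.ext h)) p hp p' hp' h1 h2
  Δθ := by omega
  sm g i h := by
    obtain ⟨a, ha⟩ := Subgroup.mem_zpowers_iff.1 ((smul_eq_iff E F g i).1 h)
    apply mem_KK (i := i)
    unfold fH
    rw [Subgroup.mem_zpowers_iff]
    rcases F.hq with hq | hq
    · refine ⟨a * m, ?_⟩
      rw [← ha, hq, pow_one, zpow_mul, zpow_natCast]
    · refine ⟨a, ?_⟩
      rw [← ha, hq, ← zpow_natCast, ← zpow_natCast, ← zpow_mul, ← zpow_mul, mul_comm]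
  big g hlox hfix x n := by
    refine F.unkilled g hlox ?_ x n
    intro r hr hmem
    obtain ⟨i, hi⟩ : ∃ i : FIdx R, i.1 = Subgroup.zpowers r :=
      ⟨⟨Subgroup.zpowers r, r, hr, rfl⟩, rfl⟩
    apply hfix i
    rw [smul_eq_iff E F, ← rt_spec i, hi]
    exact hmem
  rot g i h hg := fam_rot E F (by omega) g i h hg
  ei g i j hij h1 h2 := by
    by_contra hg
    apply hij
    apply FIdx.ext
    exact E.root_inter (F.root _ (rt_mem i)) (F.root _ (rt_mem j)) hg
      ((smul_eq_iff E F g i).1 h1) ((smul_eq_iff E F g j).1 h2)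

end Pool.Agent.Lib.MP_0a5b83_al_B
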