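import Pool.Agent.Lib.MP_0a5b83_al_B.EmbA
import Pool.Agent.Lib.MP_0a5b83_al.Main

/-! The relatively free group of rank three embeds in the one of rank two. -/

set_option autoImplicit false

namespace Pool.Agent.Lib.MP_0a5b83_al_B

open Pool.Agent.Lib.MP_0a5b83_al

theorem sat_pow_iff {m : ℕ} {G : Type} [Group G] :
    Sat {FreeGroup.of 0 ^ m} G ↔ ∀ g : G, g ^ m = 1 := by
  constructor
  · intro h g
    have := h _ rfl (fun _ => g)
    rwa [map_pow, FreeGroup.lift_apply_of] at this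
  · rintro h _ rfl f
    rw [map_pow, FreeGroup.lift_apply_of]
    exact h _

theorem nonRegular : ∃ m : ℕ, m.Prime ∧ NonRegularAt {FreeGroup.of 0 ^ m} 2 := by
  obtain ⟨m₀, h0⟩ := embed
  obtain ⟨m, hm0, hm⟩ := Nat.exists_infinite_primes m₀
  refine ⟨m, hm, ?_⟩
  obtain ⟨Q, _, β, a, hQ, hβ, hb⟩ := h0 m hm hm0 (RF {FreeGroup.of 0 ^ m} 3)
    (sat_pow_iff.1 (RF.sat _ _)) (RF.gen _)
  have hS : Sat {FreeGroup.of 0 ^ m} Q := sat_pow_iff.2 hQ
  have hr : Subgroup.closure (Set.range a) ≤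
      (RF.lift (W := {FreeGroup.of 0 ^ m}) hS a).range := by
    rw [Subgroup.closure_le]
    rintro _ ⟨i, rfl⟩
    exact ⟨RF.gen _ i, RF.lift_gen _ _ _⟩
  choose v hv using fun j => hr (hb j)
  refine ⟨RF.lift (RF.sat _ _) v, ?_⟩
  have hc : (RF.lift (W := {FreeGroup.of 0 ^ m}) hS a).comp (RF.lift (RF.sat _ _) v) = β := by
    apply RF.hom_ext
    intro i
    rw [MonoidHom.comp_apply, RF.lift_gen, hv]
  intro x y hxy
  apply hβ
  rw [← hc, MonoidHom.comp_apply, MonoidHom.comp_apply, hxy]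

theorem final : ¬ ∀ (W : Set (FreeGroup ℕ)) (n : ℕ), NonRegularAt W n →
    ∀ (G : Type) [Group G] [Countable G], Sat W G → EmbedsInGenerated W n G := by
  intro h
  have h3 := (main_tfae.out 0 2).1 h
  obtain ⟨m, hm, hn⟩ := nonRegular
  rcases h3 _ _ hn with h1 | h1
  · have h2 := h1 _ rfl
    have h4 : (Multiplicative.ofAdd (1 : ℤ)) ^ m = 1 := by
      have h5 := congrArg (FreeGroup.lift (fun _ : ℕ => Multiplicative.ofAdd (1 : ℤ))) h2
      rw [map_pow, FreeGroup.lift_apply_of] at h5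
      rw [h5]
      exact MonoidHom.map_one _
    rw [← ofAdd_nsmul, ofAdd_eq_one, nsmul_eq_mul, mul_one] at h4
    exact hm.ne_zero (by exact_mod_cast h4)
  · have := Fact.mk hm
    have h2 := h1 (Multiplicative (ZMod m)) (sat_pow_iff.2 (by
      intro g
      have : m • (Multiplicative.toAdd g) = 0 := by
        rw [nsmul_eq_mul, CharP.cast_eq_zero, zero_mul]
      rw [← ofAdd_toAdd g, ← ofAdd_nsmul, this, ofAdd_zero]))
    have h4 : Multiplicative.ofAdd (1 : ZMod m) = Multiplicative.ofAdd 0 := Subsingleton.elim _ _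
    exact one_ne_zero (Multiplicative.ofAdd.injective h4)

end Pool.Agent.Lib.MP_0a5b83_al_B
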