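import Mathlib

/-!
Natural-number valued discrete-geodesic pseudometrics with a four point condition.
-/

set_option autoImplicit false

namespace Pool.Agent.Lib.MP_0a5b83_al_B

/-- A `ℕ`-valued pseudometric with discrete geodesics. -/
structure PMet {X : Type} (d : X → X → ℕ) : Prop where
  self : ∀ x, d x x = 0
  symm : ∀ x y, d x y = d y x
  tri : ∀ x y z, d x z ≤ d x y + d y z
  geo : ∀ x y n, n ≤ d x y → ∃ z, d x z = n ∧ d z y = d x y - n

/-- The four point condition with constant `D`. -/
structure Hyp {X : Type} (d : X → X → ℕ) (D : ℕ) : Prop extends PMet d where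
  four : ∀ x y z w, d x y + d z w ≤ max (d x z + d y w) (d x w + d y z) + D

/-- `z` is on `(x, y)` up to the error `c`. -/
def On {X : Type} (d : X → X → ℕ) (c : ℕ) (x y z : X) : Prop := d x z + d z y ≤ d x y + c

/-- `d` is invariant under the action of `G`. -/
def Inv (G : Type) {X : Type} [Group G] [MulAction G X] (d : X → X → ℕ) : Prop :=
  ∀ (g : G) (x y : X), d (g • x) (g • y) = d x y

/-- `g` is loxodromic with linear growth at rate at least `1 / Q`. -/
def Lox {G X : Type} [Group G] [MulAction G X] (d : X → X → ℕ) (Q : ℕ) (g : G) : Prop :=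
  ∀ (x : X) (n : ℕ), n ≤ Q * d x (g ^ n • x)

variable {X : Type} {d : X → X → ℕ} {D : ℕ}

theorem On.mono {c c' : ℕ} {x y z : X} (h : On d c x y z) (hc : c ≤ c') : On d c' x y z := by
  unfold On at *; omega

theorem On.symm (hd : Hyp d D) {c : ℕ} {x y z : X} (h : On d c x y z) : On d c y x z := by
  unfold On at *
  have h1 := hd.symm x z
  have h2 := hd.symm z y
  have h3 := hd.symm x y
  omega

/-- Closeness of two points which are almost on the same geodesic. -/
theorem close (hd : Hyp d D) {c c' : ℕ} {x y z w : X} (hz : On d c x y z) (hw : On d c' x y w) :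
    d z w + d x w ≤ d x z + c' + D ∨ d z w + d x z ≤ d x w + c + D := by
  unfold On at *
  have h := hd.four x y z w
  have h1 := hd.symm y w
  have h2 := hd.symm y z
  omega

theorem near0 (hd : Hyp d D) {c : ℕ} {x y z : X} (hz : On d c x y z) :
    ∃ z', On d 0 x y z' ∧ d z z' ≤ c + D ∧ d x z' = min (d x z) (d x y) := by
  obtain ⟨z', h1, h2⟩ := hd.geo x y (min (d x z) (d x y)) (min_le_right _ _)
  have ho : On d 0 x y z' := by unfold On; omega
  refine ⟨z', ho, ?_, h1⟩
  have := close hd hz ho
  unfold On at *
  have h3 := hd.tri x z y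
  omega

/-- Thin triangles. -/
theorem thin (hd : Hyp d D) {x y z : X} (hz : On d 0 x y z) (w : X) :
    (∃ z', On d 0 x w z' ∧ d z z' ≤ 2 * D) ∨ (∃ z', On d 0 w y z' ∧ d z z' ≤ 2 * D) := by
  have hz' := hz
  unfold On at hz
  have h := hd.four w z x y
  have t1 := hd.tri x w y
  have s1 := hd.symm w x
  have s2 := hd.symm w y
  have s3 := hd.symm z w
  have s4 := hd.symm x z
  have t2 := hd.tri w x y
  have t3 := hd.tri x y w
  have s5 := hd.symm y w
  by_cases hc : 2 * d x z + d w y ≤ d x y + d x w
  · left
    have hle : d x z ≤ d x w := by omega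
    obtain ⟨z', h1, h2⟩ := hd.geo x w (d x z) hle
    have ho : On d 0 x w z' := by unfold On; omega
    refine ⟨z', ho, ?_⟩
    have hzD : On d D x w z := by unfold On; omega
    have := close hd hzD ho
    omega
  · right
    have hle : d z y ≤ d w y := by
      have t4 := hd.tri w x z
      have t5 := hd.tri w z y
      omega
    have s6 := hd.symm y z
    obtain ⟨z', h1, h2⟩ := hd.geo w y (d w y - d z y) (Nat.sub_le _ _)
    have ho : On d 0 w y z' := by unfold On; omega
    refine ⟨z', ho, ?_⟩
    have hzD : On d D w y z := by unfold On; omega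
    have := close hd (On.symm hd hzD) (On.symm hd ho)
    have s7 := hd.symm z' y
    omega

/-- Quasi-convexity of displacement. -/
theorem conv (hd : Hyp d D) {c : ℕ} {x y z x' y' z' : X} (hz : On d c x y z)
    (h1 : d x' z' = d x z) (h2 : d z' y' = d z y) (h3 : d x' y' = d x y) :
    d z z' ≤ max (d x x') (d y y') + 2 * D + c := by
  unfold On at hz
  have f1 := hd.four z z' x y
  have f2 := hd.four z' y x' y'
  have f3 := hd.four z' x y' x'
  have t1 := hd.tri y x x'
  have t2 := hd.tri x y y'
  have t3 := hd.tri x z y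
  have s1 := hd.symm z' x'
  have s2 := hd.symm y x'
  have s3 := hd.symm x y'
  have s4 := hd.symm y x
  have s5 := hd.symm z x
  have s6 := hd.symm y' x'
  have s7 := hd.symm x z
  have s8 := hd.symm y z
  have t4 := hd.tri z y x
  have t5 := hd.tri z x y
  have s9 := hd.symm z y
  omega

end Pool.Agent.Lib.MP_0a5b83_al_B
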