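import Pool.Agent.Lib.MP_0a5b83_al_B.Ctx

/-! JOB I2A : projections of axes. -/

set_option autoImplicit false

namespace Pool.Agent.Lib.MP_0a5b83_al_B

variable {G X I : Type} [Group G] [MulAction G X] [MulAction G I] {d : X → X → ℕ}
  {D Q m Δ θ t : ℕ} {Y : I → Set X} {H : I → Subgroup G} {T : I → ℕ}

/-- Points near a segment of a quasiconvex set are near the set. -/
theorem i2a_near (hd : Hyp d D) {Z : Set X} (hq : QC d (4 * D + 1) Z) {p p' u : X} (hp : p ∈ Z)
    (hp' : p' ∈ Z) {c : ℕ} (hu : On d c p p' u) : ∃ a ∈ Z, d u a ≤ c + D + (4 * D + 1) := by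
  obtain ⟨v, h1, h2, -⟩ := near0 hd hu
  obtain ⟨a, ha, h3⟩ := hq p hp p' hp' v h1
  have := hd.tri u v a
  exact ⟨a, ha, by omega⟩

/-- All position estimates. -/
theorem Ctx.i2a_pos (C : Ctx d D Q m Δ θ t Y H T) {g : G} {i : I} {z : X}
    (h1 : ∀ n : ℕ, On d (6 * D + 4) z (g ^ (n + 1) • z) (g • z)) (n : ℕ) {p p' : X}
    (hp : p ∈ Y i) (hp' : p' ∈ Y i) (hx : d z p = dS d (Y i) z)
    (hx' : d (g ^ n • z) p' = dS d (Y i) (g ^ n • z)) (hf : 21 * D + 6 < d p p') :
    (d z p' ≤ d z p + d p p' ∧ d z p + d p p' ≤ d z p' + (21 * D + 6)) ∧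
    (d z (g • p) ≤ d z (g • z) + d z p ∧ d z (g • z) + d z p ≤ d z (g • p) + (27 * D + 10)) ∧
    (d z (g • z) + d z p' ≤ d z (g • p') + (27 * D + 10)) ∧
    (d p (g • p) + d z (g • p) ≤ d z p + (28 * D + 10) ∨
      d p (g • p) + d z p ≤ d z (g • p) + (28 * D + 10)) ∧
    (d p' (g • p) + d z (g • p) ≤ d z p' + (28 * D + 10) ∨
      d p' (g • p) + d z p' ≤ d z (g • p) + (28 * D + 10)) ∧
    (d p' (g • p') + d z (g • p') ≤ d z p' + (28 * D + 10) ∨
      d p' (g • p') + d z p' ≤ d z (g • p') + (28 * D + 10)) ∧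
    On d (21 * D + 6) z (g ^ n • z) p := by
  have hd := C.hd
  have hi := C.hi
  have f0 := proj_far hd (C.qc i) (x := z) (z := g ^ n • z) hp hp' hx hx' (by omega)
  have e1 : g ^ (n + 1) • z = g • g ^ n • z := by rw [pow_succ', mul_smul]
  have e2 : g ^ (n + 1) • z = g ^ n • g • z := by rw [pow_succ, mul_smul]
  have f1 := h1 n
  unfold On at f1
  have i1 : d (g • z) (g ^ (n + 1) • z) = d z (g ^ n • z) := by rw [e1, hi]
  have i2 : d (g ^ n • z) (g ^ (n + 1) • z) = d z (g • z) := by rw [e2, hi]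
  have i3 : d (g • p) (g ^ (n + 1) • z) = d p (g ^ n • z) := by rw [e1, hi]
  have i4 : d (g • p') (g ^ (n + 1) • z) = d p' (g ^ n • z) := by rw [e1, hi]
  have i5 : d (g • z) (g • p) = d z p := hi g z p
  have i6 : d (g • z) (g • p') = d z p' := hi g z p'
  generalize g ^ (n + 1) • z = xn1 at *
  generalize g ^ n • z = xn at *
  generalize g • z = x1 at *
  have t1 := hd.tri z p p'
  have t2 := hd.tri z p' xn
  have t3 := hd.tri p p' xn
  have t4 := hd.tri p xn xn1
  have t5 := hd.tri p' xn xn1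
  have t6 := hd.tri z x1 (g • p)
  have t7 := hd.tri z x1 (g • p')
  have t9 := hd.tri z (g • p) xn1
  have t10 := hd.tri z (g • p') xn1
  have o1 : On d (27 * D + 10) z xn1 p := by unfold On; omega
  have o2 : On d (27 * D + 10) z xn1 p' := by unfold On; omega
  have o3 : On d (27 * D + 10) z xn1 (g • p) := by unfold On; omega
  have o4 : On d (27 * D + 10) z xn1 (g • p') := by unfold On; omega
  have c1 := close hd o1 o3
  have c2 := close hd o2 o3
  have c3 := close hd o2 o4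
  have o5 : On d (21 * D + 6) z xn p := by unfold On; omega
  refine ⟨⟨by omega, by omega⟩, ⟨by omega, by omega⟩, by omega, by omega, by omega, by omega, o5⟩

/-- The axis of an element which does not fix the domain `i` has a short projection to `Y i`. -/
theorem Ctx.overlap (C : Ctx d D Q m Δ θ t Y H T) {g : G} {i : I} (hgi : g • i ≠ i) {z : X}
    (h1 : ∀ n : ℕ, On d (6 * D + 4) z (g ^ (n + 1) • z) (g • z))
    (h2 : ∀ n : ℕ, On d (6 * D + 4) z (g ^ (n + 1) • z) (g ^ n • z)) (n : ℕ) :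
    tau d (Y i) z (g ^ n • z) ≤ d z (g • z) + Δ + 200 * D + 100 := by
  have _ := h2
  have hd := C.hd
  have hi := C.hi
  obtain ⟨p, hp, hx⟩ := exists_dS (d := d) (C.w.Yne i) z
  obtain ⟨p', hp', hx'⟩ := exists_dS (d := d) (C.w.Yne i) (g ^ n • z)
  have ht := tau_le_proj hd hx hx'
  by_contra hcon
  push Not at hcon
  obtain ⟨⟨a1, a2⟩, ⟨b1, b2⟩, b3, c1, c2, c3, -⟩ := C.i2a_pos h1 n hp hp' hx hx' (by omega)
  have s1 := hd.symm (g • p) p'
  have u1 := hi g p p'
  have t1 := hd.tri z (g • p) p'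
  have t2 := hd.tri z (g • p) (g • p')
  have t3 := hd.tri z p (g • p)
  have on1 : On d (110 * D + 40) p p' (g • p) := by unfold On; omega
  have on2 : On d (110 * D + 40) (g • p) (g • p') p' := by unfold On; omega
  obtain ⟨a, ha, h3⟩ := i2a_near hd (C.qc i) hp hp' on1
  obtain ⟨b, hb, h4⟩ := i2a_near hd (C.qc (g • i)) (C.w.Yinv g i p hp) (C.w.Yinv g i p' hp') on2
  have h5 := dS_le (d := d) hb p'
  have h6 := dS_le (d := d) (C.w.Yinv g i p hp) a
  have s2 := hd.symm a (g • p)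
  have h7 := C.ov i (g • i) (Ne.symm hgi) a ha p' hp' (by omega) (by omega)
  have t4 := hd.tri (g • p) a p'
  omega

/-- If in addition the displacement of `g` at `z` is minimal in its coset then all angles along the
orbit are small. -/
theorem Ctx.orbit_red (C : Ctx d D Q m Δ θ t Y H T) {g : G} (hg : ∀ i : I, g • i ≠ i) {z : X}
    (h1 : ∀ n : ℕ, On d (6 * D + 4) z (g ^ (n + 1) • z) (g • z))
    (h2 : ∀ n : ℕ, On d (6 * D + 4) z (g ^ (n + 1) • z) (g ^ n • z))
    (hmin : ∀ k ∈ KK H, ∀ w : X, d z (g • z) ≤ d w ((k * g) • w)) (n : ℕ) (i : I) :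
    100 * del d D Y i z (g ^ n • z) ≤ 90 * T i := by
  have hd := C.hd
  have hi := C.hi
  by_contra hcon
  push Not at hcon
  unfold del at hcon
  have hov := C.overlap (hg i) h1 h2 n
  obtain ⟨p, hp, hx⟩ := exists_dS (d := d) (C.w.Yne i) z
  obtain ⟨p', hp', hx'⟩ := exists_dS (d := d) (C.w.Yne i) (g ^ n • z)
  have ht := tau_le_proj hd hx hx'
  have hT := C.w.Tbig i
  have hθ := C.θbig
  have hΔ := C.Δθ
  obtain ⟨⟨a1, a2⟩, ⟨b1, b2⟩, b3, c1, c2, c3, hon⟩ := C.i2a_pos h1 n hp hp' hx hx' (by omega)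
  have s1 := hd.symm (g • p) p'
  have t3 := hd.tri z p (g • p)
  have hp0 : dS d (Y i) p = 0 := dS_eq_zero hd hp
  -- the projection of `p, g p` is large
  have htau : 87 * T i ≤ 100 * tau d (Y i) p (g • p) := by
    unfold tau
    rw [hp0]
    by_cases hc : d z (g • p) ≤ d z p'
    · have on1 : On d (110 * D + 40) p p' (g • p) := by
        have t1 := hd.tri z (g • p) p'
        unfold On; omega
      obtain ⟨a, ha, h3⟩ := i2a_near hd (C.qc i) hp hp' on1
      have h4 := dS_le (d := d) ha (g • p)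
      omega
    · have h4 := dS_le (d := d) hp' (g • p)
      omega
  have hconv : d p (g • p) ≤ d z (g • z) + 2 * D + (21 * D + 6) := by
    have h := conv hd (x' := g • z) (y' := g • (g ^ n • z)) (z' := g • p) hon (hi g z p)
      (hi g p _) (hi g z _)
    have e : d (g ^ n • z) (g • g ^ n • z) = d z (g • z) := by
      have : g • g ^ n • z = g ^ n • g • z := by
        rw [← mul_smul, ← mul_smul, ← pow_succ', pow_succ]
      rw [this, hi]
    rw [e, max_self] at h
    exact h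
  obtain ⟨h, hh, hturn⟩ := C.w.turn i p (g • p)
  unfold del at hturn
  obtain ⟨q, hq, hxq⟩ := exists_dS (d := d) (C.w.Yne i) (g • p)
  have hYh : ∀ y, h • y ∈ Y i ↔ y ∈ Y i := by
    intro y
    constructor
    · intro hy
      have h3 := C.w.Yinv h⁻¹ i _ hy
      rw [inv_smul_smul] at h3
      have h4 := C.w.Hfix i h⁻¹ ((H i).inv_mem hh)
      rwa [h4] at h3
    · intro hy
      have h3 := C.w.Yinv h i _ hy
      rwa [C.w.Hfix i h hh] at h3
  have hq' : h • q ∈ Y i := (hYh q).2 hq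
  have hxq' : d (h • g • p) (h • q) = dS d (Y i) (h • g • p) := by
    rw [dS_inv hi h hYh, hi]
    exact hxq
  have hpp : d p p = dS d (Y i) p := by
    rw [hp0]
    exact hd.self p
  have h3 := proj_two hd (C.qc i) hp hq' hpp hxq'
  have h4 := hd.tri p (h • q) (h • g • p)
  have h5 := hi h q (g • p)
  have h6 := hd.symm q (g • p)
  have h7 := hmin h (mem_KK hh) p
  rw [mul_smul] at h7
  have h8 : tau d (Y i) p (g • p) = d p (g • p) - (dS d (Y i) p + dS d (Y i) (g • p)) := rfl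
  rw [hp0] at h8
  omega

end Pool.Agent.Lib.MP_0a5b83_al_B
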