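import Pool.Agent.Lib.MP_0a5b83_al_B.Step

/-! Iterating the standard step; the direct limit. -/

set_option autoImplicit false

namespace Pool.Agent.Lib.MP_0a5b83_al_B

/-- A stage of the construction over the group `Γ`. -/
structure Stg (Γ : Type) [Group Γ] (Q m A : ℕ) where
  G : Type
  [grp : Group G]
  φ : Γ →* G
  surj : Function.Surjective φ
  d : G → G → ℕ
  good : Good d 2 Q m M0 A

attribute [instance] Stg.grp

variable {Γ : Type} [Group Γ] {m A Δ : ℕ}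

/-- The relation between a stage and the next one. -/
structure Nxt {Q : ℕ} (S S' : Stg Γ Q m A) : Prop where
  dist : ∀ x y, S'.d (S'.φ x) (S'.φ y) ≤ (S.d (S.φ x) (S.φ y) + (s0 - 1)) / s0
  ker : ∀ x, S.φ x = 1 → S'.φ x = 1
  tor : ∀ g, S.d 1 (S.φ g) ≤ 1 → S'.φ (g ^ m) = 1
  inj : ∀ k, S'.φ k = 1 → S.d 1 (S.φ k) ≤ 1 → S.φ k = 1

theorem Stg.exists_next' (hm : m.Prime) (ho : m ≠ 2) (hJ : J0 ≤ m) (hA : A0 ≤ A)
    (hΔ : Del1 A ≤ Δ) (hmT : Q1 Δ * T1 Δ ≤ m) (S : Stg Γ (Q1 Δ) m A) :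
    ∃ S' : Stg Γ (Q1 Δ) m A, Nxt S S' := by
  obtain ⟨G', _, φ, d', hφ, hg, h1, h2, h3⟩ := std_step hm ho hJ hA hΔ hmT S.good
  refine ⟨⟨G', φ.comp S.φ, hφ.comp S.surj, d', hg⟩, ?_, ?_, ?_, ?_⟩
  · intro x y
    exact h1 _ _
  · intro x hx
    show φ (S.φ x) = 1
    rw [hx, map_one]
  · intro g hg'
    show φ (S.φ (g ^ m)) = 1
    rw [map_pow]
    exact h2 _ hg'
  · intro k hk hk'
    exact h3 _ hk hk'

theorem Stg.exists_next (hm : m.Prime) (ho : m ≠ 2) (hJ : J0 ≤ m) (hA : A0 ≤ A)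
    (hΔ : Del1 A ≤ Δ) (hmT : Q1 Δ * T1 Δ ≤ m) (S : Stg Γ (Q1 Δ) m A) :
    ∃ S' : Stg Γ (Q1 Δ) m A,
      (∀ x y, S'.d (S'.φ x) (S'.φ y) ≤ (S.d (S.φ x) (S.φ y) + (s0 - 1)) / s0) ∧
      (∀ x, S.φ x = 1 → S'.φ x = 1) ∧
      (∀ g, S.d 1 (S.φ g) ≤ 1 → S'.φ (g ^ m) = 1) ∧
      (∀ k, S'.φ k = 1 → S.d 1 (S.φ k) ≤ 1 → S.φ k = 1) := by
  obtain ⟨S', h⟩ := S.exists_next' hm ho hJ hA hΔ hmT
  exact ⟨S', h.dist, h.ker, h.tor, h.inj⟩

theorem lim_div {s n : ℕ} (hs : 2 ≤ s) (hn : 2 ≤ n) : (n + (s - 1)) / s < n := by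
  obtain ⟨s', rfl⟩ := Nat.exists_eq_add_of_le hs
  obtain ⟨n', rfl⟩ := Nat.exists_eq_add_of_le hn
  rw [Nat.div_lt_iff_lt_mul (by omega)]
  have h : (2 + n') * (2 + s') = 4 + 2 * n' + 2 * s' + n' * s' := by ring
  rw [h]
  have : 2 + s' - 1 = s' + 1 := by omega
  rw [this]
  have := Nat.zero_le (n' * s')
  omega

theorem lim_div_one {s n : ℕ} (hs : 1 ≤ s) (hn : n ≤ 1) : (n + (s - 1)) / s ≤ 1 := by
  calc (n + (s - 1)) / s ≤ s / s := Nat.div_le_div_right (by omega)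
    _ = 1 := Nat.div_self hs

theorem limit (hm : m.Prime) (ho : m ≠ 2) (hJ : J0 ≤ m) (hA : A0 ≤ A)
    (hΔ : Del1 A ≤ Δ) (hmT : Q1 Δ * T1 Δ ≤ m) {d : Γ → Γ → ℕ} (h : Good d 2 (Q1 Δ) m M0 A) :
    ∃ N : Subgroup Γ, N.Normal ∧ (∀ g, g ^ m ∈ N) ∧ ∀ g ∈ N, d 1 g ≤ 1 → g = 1 := by
  choose nx hnx using fun S : Stg Γ (Q1 Δ) m A => S.exists_next' hm ho hJ hA hΔ hmT
  let S0 : Stg Γ (Q1 Δ) m A := ⟨Γ, MonoidHom.id Γ, Function.surjective_id, d, h⟩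
  obtain ⟨S, hS0, hS⟩ : ∃ S : ℕ → Stg Γ (Q1 Δ) m A, S 0 = S0 ∧ ∀ n, Nxt (S n) (S (n + 1)) :=
    ⟨fun n => nx^[n] S0, rfl, fun n => by
      show Nxt (nx^[n] S0) (nx^[n + 1] S0)
      rw [Function.iterate_succ_apply']
      exact hnx _⟩
  have hs : 4 ≤ s0 := by unfold s0; omega
  have hker : ∀ a b x, a ≤ b → (S a).φ x = 1 → (S b).φ x = 1 := by
    intro a b x hab hx
    induction b, hab using Nat.le_induction with
    | base => exact hx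
    | succ n _ ih => exact (hS n).ker x ih
  have hlen : ∀ n g, (S (n + 1)).d 1 ((S (n + 1)).φ g) ≤ ((S n).d 1 ((S n).φ g) + (s0 - 1)) / s0 := by
    intro n g
    have := (hS n).dist 1 g
    rwa [map_one, map_one] at this
  refine ⟨⟨⟨⟨{g | ∃ n, (S n).φ g = 1}, ?_⟩, ?_⟩, ?_⟩, ?_, ?_, ?_⟩
  · rintro x y ⟨a, ha⟩ ⟨b, hb⟩
    refine ⟨max a b, ?_⟩
    rw [map_mul, hker a _ x (le_max_left _ _) ha, hker b _ y (le_max_right _ _) hb, one_mul]
  · exact ⟨0, map_one _⟩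
  · rintro x ⟨a, ha⟩
    refine ⟨a, ?_⟩
    rw [map_inv, ha, inv_one]
  · constructor
    rintro x ⟨a, ha⟩ g
    refine ⟨a, ?_⟩
    rw [map_mul, map_mul, ha, mul_one, map_inv, mul_inv_cancel]
  · intro g
    have key : ∀ l n, (S n).d 1 ((S n).φ g) ≤ l → ∃ k, (S k).d 1 ((S k).φ g) ≤ 1 := by
      intro l
      induction l with
      | zero => intro n hn; exact ⟨n, by omega⟩
      | succ l ih =>
        intro n hn
        by_cases h1 : (S n).d 1 ((S n).φ g) ≤ 1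
        · exact ⟨n, h1⟩
        · have h2 := hlen n g
          have h3 := lim_div (s := s0) (n := (S n).d 1 ((S n).φ g)) (by omega) (by omega)
          exact ih (n + 1) (by omega)
    obtain ⟨k, hk⟩ := key _ 0 le_rfl
    exact ⟨k + 1, (hS k).tor g hk⟩
  · rintro g ⟨n, hn⟩ hg
    have h0 : (S 0).φ g = 1 := by
      have hsm : ∀ n, (S n).d 1 ((S n).φ g) ≤ 1 := by
        intro n
        induction n with
        | zero => rw [hS0]; exact hg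
        | succ n ih => exact (hlen n g).trans (lim_div_one (by omega) ih)
      induction n with
      | zero => exact hn
      | succ n ih => exact ih ((hS n).inj g hn (hsm n))
    rw [hS0] at h0
    exact h0

end Pool.Agent.Lib.MP_0a5b83_al_B
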