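import Pool.Agent.Lib.MP_0a5b83_al_B.TreeA

/-! JOB LINEA : two geodesic lines which are close at two far apart places share a long part. -/

set_option autoImplicit false

namespace Pool.Agent.Lib.MP_0a5b83_al_B

theorem overlap_line {X : Type} {d : X → X → ℕ} (hd : Hyp d 0) (hs : Sep d) {P P' : ℕ → X}
    (hP : ∀ a b, d (P a) (P (a + b)) = b) (hP' : ∀ a b, d (P' a) (P' (a + b)) = b)
    {a a' b b' E l : ℕ} (h1 : d (P a) (P' b) ≤ E) (h2 : d (P a') (P' b') ≤ E)
    (h3 : a + 2 * E + 3 + l ≤ a') :
    (∃ c c' : ℕ, ∀ i ≤ l, P (c + i) = P' (c' + i)) ∨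
      ∃ c c' : ℕ, ∀ i ≤ l, P (c + i) = P' (c' + l - i) := by
  obtain ⟨e, he⟩ : ∃ e, e = d (P' b) (P (a + E + 1)) := ⟨_, rfl⟩
  have hdP : ∀ u v, u ≤ v → d (P u) (P v) = v - u := by
    intro u v huv
    have := hP u (v - u)
    rwa [Nat.add_sub_cancel' huv] at this
  have hdP' : ∀ u v, u ≤ v → d (P' u) (P' v) = v - u := by
    intro u v huv
    have := hP' u (v - u)
    rwa [Nat.add_sub_cancel' huv] at this
  -- distances from P' b
  have hdist : ∀ i, d (P' b) (P (a + E + 1 + i)) = e + i := by
    intro i
    have o : On d 0 (P a) (P (a + E + 1 + i)) (P (a + E + 1)) := by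
      unfold On
      rw [hdP a (a + E + 1) (by omega), hdP (a + E + 1) (a + E + 1 + i) (by omega),
        hdP a (a + E + 1 + i) (by omega)]
      omega
    have o2 := move_left hd o h1 (by rw [hdP a (a + E + 1) (by omega)]; omega)
    unfold On at o2
    have t := hd.tri (P' b) (P (a + E + 1)) (P (a + E + 1 + i))
    rw [hdP (a + E + 1) (a + E + 1 + i) (by omega)] at o2 t
    omega
  have hon : ∀ i ≤ l, On d 0 (P' b) (P' b') (P (a + E + 1 + i)) := by
    intro i hi
    have o : On d 0 (P a) (P a') (P (a + E + 1 + i)) := by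
      unfold On
      rw [hdP a (a + E + 1 + i) (by omega), hdP (a + E + 1 + i) a' (by omega),
        hdP a a' (by omega)]
      omega
    have o2 := move_left hd o h1 (by rw [hdP a (a + E + 1 + i) (by omega)]; omega)
    have o3 := move_right hd o2 h2 (by rw [hdP (a + E + 1 + i) a' (by omega)]; omega)
    exact o3
  rcases le_total b b' with hbb | hbb
  · left
    refine ⟨a + E + 1, b + e, fun i hi => ?_⟩
    have o := hon i hi
    have hd1 := hdist i
    have hle : b + e + i ≤ b' := by
      have o' := o
      unfold On at o'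
      rw [hd1, hdP' b b' hbb] at o'
      omega
    refine tree_uniq hd hs o ?_ ?_
    · unfold On
      rw [hdP' b (b + e + i) (by omega), hdP' (b + e + i) b' hle, hdP' b b' hbb]
      omega
    · rw [hd1, hdP' b (b + e + i) (by omega)]
      omega
  · right
    refine ⟨a + E + 1, b - e - l, fun i hi => ?_⟩
    have hsy : ∀ u v, u ≤ v → d (P' v) (P' u) = v - u := by
      intro u v huv
      rw [hd.symm]
      exact hdP' u v huv
    have hL : e + l ≤ b - b' := by
      have o' := hon l le_rfl
      unfold On at o'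
      rw [hdist l, hsy b' b hbb] at o'
      omega
    have o := hon i hi
    have hd1 := hdist i
    have hidx : b - e - l + l - i = b - e - i := by omega
    rw [hidx]
    refine tree_uniq hd hs o ?_ ?_
    · unfold On
      rw [hsy (b - e - i) b (by omega), hsy b' (b - e - i) (by omega), hsy b' b hbb]
      omega
    · rw [hd1, hsy (b - e - i) b (by omega)]
      omega

end Pool.Agent.Lib.MP_0a5b83_al_B
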