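import Pool.Agent.Lib.MP_0a5b83_al_B.LineA
import Pool.Agent.Lib.MP_0a5b83_al_B.FPDefs

/-! JOB LINEB : the relators and their lines. -/

set_option autoImplicit false

namespace Pool.Agent.Lib.MP_0a5b83_al_B

variable {Γ C J : Type} [Group Γ] [Group C] {ι : Bool → C →* Γ} {d : Γ → Γ → ℕ}

/-- The syllables: at even places `x j l` in the first factor, at odd places `y` in the second. -/
def syl (ι : Bool → C →* Γ) (x : J → ℕ → C) (y : C) (L : ℕ) (j : J) (k : ℕ) : Γ :=
  if k % 2 = 0 then ι false (x j ((k / 2) % L)) else ι true y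

/-- The vertices of the line. -/
def pth (ι : Bool → C →* Γ) (x : J → ℕ → C) (y : C) (L : ℕ) (j : J) : ℕ → Γ
  | 0 => 1
  | k + 1 => pth ι x y L j k * syl ι x y L j k

/-- The relators. -/
def rel (ι : Bool → C →* Γ) (x : J → ℕ → C) (y : C) (L : ℕ) (j : J) : Γ := pth ι x y L j (2 * L)

/-- The hypotheses on the syllables. -/
structure Syls (x : J → ℕ → C) (y : C) (L : ℕ) : Prop where
  L_pos : 1 ≤ L
  ne_one : ∀ j l, x j l ≠ 1
  inj : ∀ j l j' l', l < L → l' < L → x j l = x j' l' → j = j' ∧ l = l'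
  sq : y * y ≠ 1

variable {x : J → ℕ → C} {y : C} {L : ℕ}

theorem LineB_syl_add (j : J) (k : ℕ) : syl ι x y L j (k + 2 * L) = syl ι x y L j k := by
  unfold syl
  have h1 : (k + 2 * L) % 2 = k % 2 := by omega
  have h2 : (k + 2 * L) / 2 = k / 2 + L := by omega
  rw [h1, h2, Nat.add_mod_right]

theorem pth_add (j : J) (k : ℕ) :
    pth ι x y L j (k + 2 * L) = rel ι x y L j * pth ι x y L j k := by
  induction k with
  | zero =>
    rw [Nat.zero_add]
    show rel ι x y L j = rel ι x y L j * 1
    rw [mul_one]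
  | succ k ih =>
    have e : k + 1 + 2 * L = (k + 2 * L) + 1 := by omega
    rw [e]
    show pth ι x y L j (k + 2 * L) * syl ι x y L j (k + 2 * L) =
      rel ι x y L j * (pth ι x y L j k * syl ι x y L j k)
    rw [ih, LineB_syl_add, mul_assoc]

theorem pth_mul (j : J) (n k : ℕ) :
    pth ι x y L j (k + n * (2 * L)) = rel ι x y L j ^ n * pth ι x y L j k := by
  induction n with
  | zero => simp
  | succ n ih =>
    have e : k + (n + 1) * (2 * L) = (k + n * (2 * L)) + 2 * L := by ring
    rw [e, pth_add, ih, pow_succ', mul_assoc]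

/-- The syllable as an element of one of the factors. -/
theorem LineB_syl_even (j : J) {k : ℕ} (hk : k % 2 = 0) :
    syl ι x y L j k = ι false (x j ((k / 2) % L)) := by
  unfold syl
  rw [if_pos hk]

theorem LineB_syl_odd (j : J) {k : ℕ} (hk : k % 2 = 1) : syl ι x y L j k = ι true y := by
  unfold syl
  rw [if_neg (by omega)]

theorem LineB_y_ne (S : Syls x y L) : y ≠ 1 := by
  rintro rfl
  exact S.sq (mul_one _)

theorem LineB_mix (F : FP ι d) {u v : C} (hu : u ≠ 1) (hv : v ≠ 1) : ι false u ≠ ι true v := by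
  intro h
  have h1 := F.two false u v⁻¹ hu (inv_ne_one.2 hv)
  have h2 : ι false u * ι (!false) v⁻¹ = 1 := by
    rw [h, Bool.not_false, ← map_mul, mul_inv_cancel, map_one]
  rw [h2, F.hyp.self] at h1
  omega

theorem LineB_d (F : FP ι d) (g h : Γ) : d g (g * h) = d 1 h := by
  have h1 := F.inv g 1 h
  rw [smul_eq_mul, smul_eq_mul, mul_one] at h1
  exact h1

theorem LineB_one (F : FP ι d) (b : Bool) {c : C} (hc : c ≠ 1) : d 1 (ι b c) = 1 := by
  have h1 := F.of_le b c
  have h2 : d 1 (ι b c) ≠ 0 := by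
    intro h
    have h3 := F.sep _ _ h
    apply hc
    apply F.inj b
    rw [← h3, map_one]
  omega

theorem pth_geo (F : FP ι d) (S : Syls x y L) (j : J) (a b : ℕ) :
    d (pth ι x y L j a) (pth ι x y L j (a + b)) = b := by
  refine local_geo F.hyp ?_ ?_ a b
  · intro k
    show d (pth ι x y L j k) (pth ι x y L j k * syl ι x y L j k) = 1
    rw [LineB_d F]
    rcases Nat.mod_two_eq_zero_or_one k with h | h
    · rw [LineB_syl_even j h]
      exact LineB_one F _ (S.ne_one _ _)
    · rw [LineB_syl_odd j h]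
      exact LineB_one F _ (LineB_y_ne S)
  · intro k
    show d (pth ι x y L j k) (pth ι x y L j k * syl ι x y L j k * syl ι x y L j (k + 1)) = 2
    rw [mul_assoc, LineB_d F]
    rcases Nat.mod_two_eq_zero_or_one k with h | h
    · rw [LineB_syl_even j h, LineB_syl_odd j (by omega : (k + 1) % 2 = 1)]
      exact F.two false _ _ (S.ne_one _ _) (LineB_y_ne S)
    · rw [LineB_syl_odd j h, LineB_syl_even j (by omega : (k + 1) % 2 = 0)]
      exact F.two true _ _ (LineB_y_ne S) (S.ne_one _ _)

theorem LineB_mod {L a b : ℕ} (ha : a % 2 = 0) (hb : b % 2 = 0)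
    (h : (a / 2) % L = (b / 2) % L) (hab : a ≤ b) : ∃ n : ℕ, b = a + n * (2 * L) := by
  have h1 : (a / 2) ≡ (b / 2) [MOD L] := h
  have h2 : L ∣ b / 2 - a / 2 := (Nat.modEq_iff_dvd' (by omega)).1 h1
  obtain ⟨n, hn⟩ := h2
  refine ⟨n, ?_⟩
  have h3 : b = a + 2 * (b / 2 - a / 2) := by omega
  rw [h3, hn]
  ring

/-- Two translated lines which are close at two far apart places are equal. -/
theorem pth_overlap (F : FP ι d) (S : Syls x y L) {g g' : Γ} {j j' : J} {a a' b b' E : ℕ}
    (h1 : d (g * pth ι x y L j a) (g' * pth ι x y L j' b) ≤ E)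
    (h2 : d (g * pth ι x y L j a') (g' * pth ι x y L j' b') ≤ E)
    (h3 : a + 2 * E + 7 ≤ a') : j = j' ∧ ∃ c : ℤ, g = g' * rel ι x y L j ^ c := by
  have hL := S.L_pos
  have hgeo : ∀ (g : Γ) (j : J) (a b : ℕ),
      d (g * pth ι x y L j a) (g * pth ι x y L j (a + b)) = b := by
    intro g j a b
    have h := F.inv g (pth ι x y L j a) (pth ι x y L j (a + b))
    rw [smul_eq_mul, smul_eq_mul] at h
    rw [h, pth_geo F S]
  have hstep : ∀ (j : J) (k : ℕ), pth ι x y L j (k + 1) = pth ι x y L j k * syl ι x y L j k :=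
    fun j k => rfl
  rcases overlap_line (P := fun i => g * pth ι x y L j i) (P' := fun i => g' * pth ι x y L j' i)
    F.hyp F.sep (hgeo g j) (hgeo g' j') (l := 4) h1 h2 (by omega) with ⟨c, c', h⟩ | ⟨c, c', h⟩
  · -- same direction
    have hs : ∀ i < 4, syl ι x y L j (c + i) = syl ι x y L j' (c' + i) := by
      intro i hi
      have e1 := h i (by omega)
      have e2 := h (i + 1) (by omega)
      rw [← Nat.add_assoc, ← Nat.add_assoc, hstep, hstep, ← mul_assoc, ← mul_assoc, e1] at e2
      exact mul_left_cancel e2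
    have hpar : c % 2 = c' % 2 := by
      by_contra hne
      have e := hs 0 (by omega)
      rw [Nat.add_zero, Nat.add_zero] at e
      rcases Nat.mod_two_eq_zero_or_one c with hc | hc
      · rw [LineB_syl_even j hc, LineB_syl_odd j' (by omega)] at e
        exact LineB_mix F (S.ne_one _ _) (LineB_y_ne S) e
      · rw [LineB_syl_odd j hc, LineB_syl_even j' (by omega)] at e
        exact LineB_mix F (S.ne_one _ _) (LineB_y_ne S) e.symm
    obtain ⟨i, hi, hie⟩ : ∃ i < 2, (c + i) % 2 = 0 := by
      rcases Nat.mod_two_eq_zero_or_one c with hc | hc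
      · exact ⟨0, by omega, by omega⟩
      · exact ⟨1, by omega, by omega⟩
    have e := hs i (by omega)
    have hie' : (c' + i) % 2 = 0 := by omega
    rw [LineB_syl_even j hie, LineB_syl_even j' hie'] at e
    obtain ⟨hj, hm⟩ := S.inj _ _ _ _ (Nat.mod_lt _ hL) (Nat.mod_lt _ hL) (F.inj false e)
    subst hj
    refine ⟨rfl, ?_⟩
    have e0 := h i (by omega)
    rcases le_total (c + i) (c' + i) with hle | hle
    · obtain ⟨n, hn⟩ := LineB_mod hie hie' hm hle
      refine ⟨n, ?_⟩
      rw [hn, pth_mul, ← mul_assoc] at e0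
      rw [zpow_natCast]
      exact mul_right_cancel e0
    · obtain ⟨n, hn⟩ := LineB_mod hie' hie hm.symm hle
      refine ⟨-(n : ℤ), ?_⟩
      rw [hn, pth_mul, ← mul_assoc] at e0
      rw [zpow_neg, zpow_natCast, eq_mul_inv_iff_mul_eq]
      exact mul_right_cancel e0
  · -- opposite direction
    exfalso
    obtain ⟨i, hi, hie⟩ : ∃ i < 2, (c + i) % 2 = 1 := by
      rcases Nat.mod_two_eq_zero_or_one c with hc | hc
      · exact ⟨1, by omega, by omega⟩
      · exact ⟨0, by omega, by omega⟩
    have e1 := h i (by omega)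
    have e2 := h (i + 1) (by omega)
    have a1 : c' + 4 - i = (c' + 3 - i) + 1 := by omega
    have a2 : c' + 4 - (i + 1) = c' + 3 - i := by omega
    rw [a1, hstep] at e1
    rw [a2, ← Nat.add_assoc, hstep, ← mul_assoc, e1] at e2
    have e3 : syl ι x y L j' (c' + 3 - i) * syl ι x y L j (c + i) = 1 := by
      have e4 : g' * pth ι x y L j' (c' + 3 - i) *
          (syl ι x y L j' (c' + 3 - i) * syl ι x y L j (c + i)) =
          g' * pth ι x y L j' (c' + 3 - i) * 1 := by
        rw [mul_one]
        rw [← mul_assoc] at e2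
        rw [← mul_assoc]
        exact e2
      exact mul_left_cancel e4
    rw [LineB_syl_odd j hie] at e3
    rcases Nat.mod_two_eq_zero_or_one (c' + 3 - i) with hc | hc
    · rw [LineB_syl_even j' hc] at e3
      have e5 : ι false (x j' ((c' + 3 - i) / 2 % L)) = ι true y⁻¹ := by
        rw [map_inv]
        exact eq_inv_of_mul_eq_one_left e3
      exact LineB_mix F (S.ne_one _ _) (inv_ne_one.2 (LineB_y_ne S)) e5
    · rw [LineB_syl_odd j' hc, ← map_mul] at e3
      apply S.sq
      apply F.inj true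
      rw [e3, map_one]

end Pool.Agent.Lib.MP_0a5b83_al_B
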