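import Pool.Agent.Lib.MP_0a5b83_al_B.Ctx

/-! JOB T1A : lifting and shifts. -/

set_option autoImplicit false

namespace Pool.Agent.Lib.MP_0a5b83_al_B

variable {G X I : Type} [Group G] [MulAction G X] [MulAction G I] {d : X → X → ℕ}
  {D Q m Δ θ t : ℕ} {Y : I → Set X} {H : I → Subgroup G} {T : I → ℕ}

/-- The hyperbolicity constant of the cone-off. -/
def DD (D t : ℕ) : ℕ := 2 * (t + 2 * (4 * D + 2))

/-- Points on a geodesic at prescribed cone-off distance. -/
theorem exists_on_dh (hd : Hyp d D) (hs : Sep d) (Y : I → Set X) {p q : X} {r : ℕ}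
    (hr : r ≤ dh d Y p q) : ∃ w, On d 0 p q w ∧ dh d Y p w = r := by
  obtain ⟨n, hn⟩ : ∃ n, n = d p q := ⟨_, rfl⟩
  induction n generalizing q with
  | zero =>
    have h1 := dh_le hd hs Y p q
    refine ⟨p, ?_, ?_⟩
    · unfold On
      have := hd.self p
      omega
    · rw [dh_self]
      omega
  | succ n ih =>
    obtain ⟨w1, h1, h2⟩ := hd.geo p q n (by omega)
    by_cases hc : r ≤ dh d Y p w1
    · obtain ⟨w, h3, h4⟩ := ih hc h1.symm
      refine ⟨w, ?_, h4⟩
      unfold On at *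
      have := hd.tri w w1 q
      omega
    · have h3 := dh_tri (Y := Y) hd hs p w1 q
      have h4 := dh_le hd hs Y w1 q
      refine ⟨q, ?_, by omega⟩
      unfold On
      have := hd.self q
      omega

/-- Lifting an element which almost fixes the endpoints of a pair with small angles. -/
theorem Ctx.lift1 (C : Ctx d D Q m Δ θ t Y H T) {p q : X}
    (h : ∀ i, 100 * del d D Y i p q ≤ 20 * T i) {f : G} {R : ℕ}
    (hp : db d Y H p (f • p) ≤ R) (hq : db d Y H q (f • q) ≤ R) :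
    ∃ k ∈ KK H, dh d Y p ((k * f) • p) ≤ R ∧ dh d Y q ((k * f) • q) ≤ R := by
  have h' : ∀ i, 100 * del d D Y i (f • q) (f • p) ≤ 20 * T i := by
    intro i
    have h1 := h (f⁻¹ • i)
    have h2 := C.w.delinv f (f⁻¹ • i) q p
    have h3 := C.w.Tinv f (f⁻¹ • i)
    have h4 := C.w.dsymm (f⁻¹ • i) p q
    rw [smul_inv_smul] at h2 h3
    rw [h2, h3, ← h4]
    exact h1
  obtain ⟨k1, m1, e1⟩ := C.exists_db q (f • q)
  obtain ⟨k2, m2, e2⟩ := C.exists_db (f • p) p
  rw [C.db_symm (f • p) p] at e2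
  have hb := C.bend_comp (C.bend_comp (C.bend_comp (C.bend_rigid h) (C.bend_flex q (f • q) R))
    (C.bend_rigid h')) (C.bend_flex (f • p) p R)
  obtain ⟨c, ⟨b', ⟨b, ⟨g1, n1, a1, rfl⟩, -, -, l1⟩, ⟨g3, n3, rfl, rfl⟩⟩, -, -, l2⟩ :=
    C.bend_close' hb (by omega) (a := p) (k := k1 * k2) ((KK H).mul_mem m1 m2)
      ⟨k1 • f • p, ⟨k1 • f • q, ⟨q, ⟨1, one_mem _, by rw [one_smul], by rw [one_smul]⟩,
        ⟨⟨1, one_mem _, by rw [one_smul]⟩, ⟨k1, m1, rfl⟩, by omega⟩⟩,
        ⟨k1, m1, rfl, rfl⟩⟩,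
        ⟨⟨k1, m1, rfl⟩, ⟨k1 * k2, (KK H).mul_mem m1 m2, rfl⟩, by
          rw [mul_smul, C.hinv]; omega⟩⟩
  refine ⟨g1⁻¹ * g3, (KK H).mul_mem ((KK H).inv_mem n1) n3, ?_, ?_⟩
  · have h5 := C.hinv g1 p ((g1⁻¹ * g3 * f) • p)
    rw [← a1, smul_smul, show g1 * (g1⁻¹ * g3 * f) = g3 * f by group, mul_smul] at h5
    rw [← h5, C.hsymm]
    exact l2
  · have h5 := C.hinv g1 q ((g1⁻¹ * g3 * f) • q)
    rw [smul_smul, show g1 * (g1⁻¹ * g3 * f) = g3 * f by group, mul_smul] at h5
    rw [← h5]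
    exact l1

/-- An element moving `p, q` a little in the cone-off metric acts on the middle of `[p, q]` as a
shift. -/
theorem Ctx.shift1 (C : Ctx d D Q m Δ θ t Y H T) {p q w : X} {f : G} {R : ℕ}
    (hp : dh d Y p (f • p) ≤ R) (hq : dh d Y q (f • q) ≤ R) (hw : On d 0 p q w)
    (h1 : R + t + 4 * D < dh d Y p w) (h2 : R + t + 4 * D < dh d Y w q) :
    On d (8 * D) p q (f • w) ∧
      (d (f⁻¹ • p) q : ℤ) - d p q ≤ (d p (f • w) : ℤ) - d p w ∧
      (d p (f • w) : ℤ) - d p w ≤ (d (f⁻¹ • p) q : ℤ) - d p q + 4 * D := by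
  have hd := C.hd
  have hs := C.sep
  have e1 := C.hi f p w
  have e2 := C.hi f w q
  have e3 := C.hi f p q
  have hfw : On d 0 (f • p) (f • q) (f • w) := by unfold On at *; omega
  have e4 := C.hinv f p w
  have e5 := C.hinv f w q
  have e6 := C.hi.right f p w
  have t0 := hd.tri p w q
  have hpart : On d (8 * D) p q (f • w) := by
    rcases thin hd hfw p with ⟨z', hz', hzz⟩ | ⟨z', hz', hzz⟩
    · exfalso
      have k1 := C.add _ _ _ hz'
      unfold On at k1
      have k2 := C.htri (f • p) z' (f • w)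
      have k3 := dh_le hd hs Y z' (f • w)
      have k4 := hd.symm z' (f • w)
      have k5 := C.hsymm (f • p) p
      omega
    · rcases thin hd hz' q with ⟨z'', hz'', hzz'⟩ | ⟨z'', hz'', hzz'⟩
      · unfold On at hz'' ⊢
        have k1 := hd.tri p z'' (f • w)
        have k2 := hd.tri (f • w) z'' q
        have k3 := hd.tri (f • w) z' z''
        have k4 := hd.symm z'' (f • w)
        omega
      · exfalso
        have k1 := C.add _ _ _ hz''
        unfold On at k1
        have k2 := C.htri (f • w) z'' (f • q)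
        have k3 := dh_le hd hs Y (f • w) z''
        have k4 := hd.tri (f • w) z' z''
        omega
  refine ⟨hpart, ?_, ?_⟩
  · have k1 := hd.tri (f⁻¹ • p) w q
    unfold On at hw
    omega
  · rcases thin hd hw (f⁻¹ • p) with ⟨z', hz', hzz⟩ | ⟨z', hz', hzz⟩
    · exfalso
      have k1 := C.add _ _ _ hz'
      unfold On at k1
      have k2 := C.htri p z' w
      have k3 := dh_le hd hs Y z' w
      have k4 := hd.symm z' w
      have k5 := C.hinv.right f⁻¹ p p
      rw [inv_inv] at k5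
      have k6 := C.hsymm (f • p) p
      omega
    · unfold On at hz'
      have k1 := hd.tri (f⁻¹ • p) z' w
      have k2 := hd.tri w z' q
      have k3 := hd.symm z' w
      omega

end Pool.Agent.Lib.MP_0a5b83_al_B
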