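import Pool.Agent.Lib.MP_0a5b83_al_B.T2
import Pool.Agent.Lib.MP_0a5b83_al_B.EE
import Pool.Agent.Lib.MP_0a5b83_al_B.T1A

/-! JOB PIGA : pigeonhole. -/

set_option autoImplicit false

namespace Pool.Agent.Lib.MP_0a5b83_al_B

variable {G X I : Type} [Group G] [MulAction G X] [MulAction G I] {d : X → X → ℕ}
  {D Q m Δ θ t : ℕ} {Y : I → Set X} {H : I → Subgroup G} {T : I → ℕ}

/-- Geodesics of the cone-off between reduced pairs are geodesics of the quotient. -/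
theorem Ctx.gpath_db (C : Ctx d D Q m Δ θ t Y H T) {x y : X}
    (red : ∀ v, 100 * del d D Y v x y ≤ 51 * T v) {N : ℕ} {P : ℕ → X} (hP : GPath d Y x y N P)
    {a b : ℕ} (hab : a ≤ b) (hb : b ≤ N) : db d Y H (P a) (P b) = b - a := by
  have h1 : db d Y H x y = dh d Y x y := C.db_eq fun i => by
    have := red i
    omega
  have h2 := hP.len
  have h3 := hP.dist C.hd C.sep (Nat.zero_le a) (hab.trans hb)
  have h4 := hP.dist C.hd C.sep hab hb
  have h5 := hP.dist C.hd C.sep hb le_rfl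
  rw [hP.zero] at h3
  rw [hP.last] at h5
  have e1 := C.db_le_dh x (P a)
  have e2 := C.db_le_dh (P a) (P b)
  have e3 := C.db_le_dh (P b) y
  have t1 := C.db_tri x (P a) y
  have t2 := C.db_tri (P a) (P b) y
  omega

/-- A big domain determines a jump of a geodesic path. -/
theorem Ctx.exists_jump (C : Ctx d D Q m Δ θ t Y H T) {x y : X} {N : ℕ} {P : ℕ → X}
    (hP : GPath d Y x y N P) {i : I} (h : 14 * T i ≤ 100 * del d D Y i x y) :
    ∃ s < N, P s ∈ Y i ∧ P (s + 1) ∈ Y i ∧ θ < del d D Y i (P s) (P (s + 1)) := by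
  have h1 := C.Tbig i
  have h2 := C.w.θpos
  have h3 : 5 * θ ≤ BB D t θ := by
    unfold BB
    exact Nat.mul_le_mul_right _ (by omega)
  obtain ⟨s, hs, h4, h5, h6⟩ := bgi (i := i) C.hd C.sep C.w.Yne C.qc C.add C.θbig C.w.dom hP (by
    show BB D t θ < _
    omega)
  refine ⟨s, hs, h4, h5, ?_⟩
  change _ ≤ _ + BB D t θ at h6
  omega

private theorem Ctx.pig_dom (C : Ctx d D Q m Δ θ t Y H T) {x y : X} {i : I} {r : ℕ}
    (red : ∀ v, 100 * del d D Y v x y ≤ 51 * T v) (bi : 20 * T i < 100 * del d D Y i x y)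
    (rix : ∀ w ∈ Y i, r ≤ db d Y H x w) (riy : ∀ w ∈ Y i, r ≤ db d Y H y w) {R W J : ℕ}
    (hR : R < r) (g : ℕ → G)
    (gx : ∀ a < J, db d Y H x (g a • x) ≤ R) (gy : ∀ a < J, db d Y H y (g a • y) ≤ R)
    (gw : ∀ a < J, ∀ w, On (db d Y H) 0 x y w → r ≤ db d Y H x w → r ≤ db d Y H w y →
      db d Y H w (g a • w) ≤ W) {N : ℕ} {P : ℕ → X} (hP : GPath d Y x y N P) :
    ∃ s0 : ℕ, ∀ a < J, ∃ s : ℕ, s < N ∧ s ≤ s0 + (W + 1) ∧ s0 ≤ s + (W + 1) ∧ ∃ k ∈ KK H,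
      P s ∈ Y ((k * g a) • i) ∧ P (s + 1) ∈ Y ((k * g a) • i) ∧
        θ < del d D Y ((k * g a) • i) (P s) (P (s + 1)) := by
  obtain ⟨s0, hs0, h1, h2, h3⟩ := C.exists_jump hP (i := i) (by omega)
  refine ⟨s0, fun a ha => ?_⟩
  have e1 := C.gpath_db red hP (Nat.zero_le s0) hs0.le
  have e2 := C.gpath_db red hP hs0.le le_rfl
  have e3 := C.gpath_db red hP (Nat.zero_le N) le_rfl
  rw [hP.zero] at e1 e3
  rw [hP.last] at e2 e3
  have hw := gw a ha (P s0) (by unfold On; omega) (rix _ h1) (by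
    rw [C.db_symm]; exact riy _ h1)
  obtain ⟨k, hk, h4⟩ := C.persist red bi (R := R) (fun w hw => hR.trans_le (rix w hw))
    (fun w hw => hR.trans_le (riy w hw)) (gx a ha) (gy a ha)
  obtain ⟨s, hs, h5, h6, h7⟩ := C.exists_jump hP (i := (k * g a) • i) (by
    rw [C.w.Tinv]; exact h4)
  have h8 : (k * g a) • P s0 ∈ Y ((k * g a) • i) := C.w.Yinv _ _ _ h1
  have h9 := dh_le_one (d := d) h8 h5
  have h10 := C.db_le_dh ((k * g a) • P s0) (P s)
  have h11 : db d Y H (P s0) ((k * g a) • P s0) ≤ W := by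
    rw [mul_smul, C.db_K hk]; exact hw
  have h12 := C.db_tri (P s0) ((k * g a) • P s0) (P s)
  refine ⟨s, hs, ?_, ?_, k, hk, h5, h6, h7⟩
  · rcases le_total s0 s with h | h
    · have := C.gpath_db red hP h hs.le
      omega
    · omega
  · rcases le_total s0 s with h | h
    · omega
    · have h13 := C.gpath_db red hP h hs0.le
      rw [C.db_symm] at h13
      omega

private theorem Ctx.pig_eq (C : Ctx d D Q m Δ θ t Y H T) {i : I} {p q : X} {k k' g g' : G}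
    (hk : k ∈ KK H) (hk' : k' ∈ KK H) (h1 : p ∈ Y ((k * g) • i)) (h2 : q ∈ Y ((k * g) • i))
    (h3 : θ < del d D Y ((k * g) • i) p q) (h1' : p ∈ Y ((k' * g') • i))
    (h2' : q ∈ Y ((k' * g') • i)) : ∃ l ∈ KK H, (l * (g⁻¹ * g')) • i = i := by
  have heq : (k * g) • i = (k' * g') • i := by
    by_contra hne
    have := C.w.dom _ _ hne p h1' q h2'
    omega
  refine ⟨g⁻¹ * (k⁻¹ * k') * g, ?_, ?_⟩
  · have := C.conj_mem ((KK H).mul_mem ((KK H).inv_mem hk) hk') g⁻¹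
    rwa [inv_inv] at this
  · have e : g⁻¹ * (k⁻¹ * k') * g * (g⁻¹ * g') = (k * g)⁻¹ * (k' * g') := by group
    rw [e, mul_smul, ← heq, inv_smul_smul]

theorem Ctx.pig (C : Ctx d D Q m Δ θ t Y H T) {x y : X} {i j : I} {r : ℕ}
    (h2 : Type2 d D Y H T x y i j r) {R W J : ℕ} (hR : R < r)
    (hJ : (2 * W + 3) * (2 * W + 3) < J) (g : ℕ → G)
    (gx : ∀ a < J, db d Y H x (g a • x) ≤ R) (gy : ∀ a < J, db d Y H y (g a • y) ≤ R)
    (gw : ∀ a < J, ∀ w, On (db d Y H) 0 x y w → r ≤ db d Y H x w → r ≤ db d Y H w y →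
      db d Y H w (g a • w) ≤ W) :
    ∃ a b, a < b ∧ b < J ∧ (g a)⁻¹ * g b ∈ KK H := by
  classical
  obtain ⟨P, hP⟩ := exists_gpath C.hd C.sep Y x y
  obtain ⟨s0, hi⟩ := C.pig_dom h2.red h2.bi h2.rix h2.riy hR g gx gy gw hP
  obtain ⟨u0, hj⟩ := C.pig_dom h2.red h2.bj h2.rjx h2.rjy hR g gx gy gw hP
  have hi' : ∀ a : ℕ, ∃ s : ℕ, a < J → (s < dh d Y x y ∧ s ≤ s0 + (W + 1) ∧ s0 ≤ s + (W + 1) ∧
      ∃ k ∈ KK H, P s ∈ Y ((k * g a) • i) ∧ P (s + 1) ∈ Y ((k * g a) • i) ∧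
        θ < del d D Y ((k * g a) • i) (P s) (P (s + 1))) := by
    intro a
    by_cases ha : a < J
    · obtain ⟨s, hs⟩ := hi a ha
      exact ⟨s, fun _ => hs⟩
    · exact ⟨0, fun h => absurd h ha⟩
  have hj' : ∀ a : ℕ, ∃ s : ℕ, a < J → (s < dh d Y x y ∧ s ≤ u0 + (W + 1) ∧ u0 ≤ s + (W + 1) ∧
      ∃ k ∈ KK H, P s ∈ Y ((k * g a) • j) ∧ P (s + 1) ∈ Y ((k * g a) • j) ∧
        θ < del d D Y ((k * g a) • j) (P s) (P (s + 1))) := by
    intro a
    by_cases ha : a < J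
    · obtain ⟨s, hs⟩ := hj a ha
      exact ⟨s, fun _ => hs⟩
    · exact ⟨0, fun h => absurd h ha⟩
  choose s hs using hi'
  choose u hu using hj'
  have hmaps : ∀ a ∈ Finset.range J, (s a + (W + 1) - s0, u a + (W + 1) - u0) ∈
      Finset.range (2 * W + 3) ×ˢ Finset.range (2 * W + 3) := by
    intro a ha
    rw [Finset.mem_range] at ha
    obtain ⟨-, a1, a2, -⟩ := hs a ha
    obtain ⟨-, b1, b2, -⟩ := hu a ha
    rw [Finset.mem_product, Finset.mem_range, Finset.mem_range]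
    constructor
    · show s a + (W + 1) - s0 < 2 * W + 3
      omega
    · show u a + (W + 1) - u0 < 2 * W + 3
      omega
  obtain ⟨a, ha, b, hb, hab, he⟩ := Finset.exists_ne_map_eq_of_card_lt_of_maps_to
    (by rw [Finset.card_product, Finset.card_range, Finset.card_range]; exact hJ) hmaps
  have key : ∀ a b, a < J → b < J → (s a + (W + 1) - s0, u a + (W + 1) - u0) =
      (s b + (W + 1) - s0, u b + (W + 1) - u0) → (g a)⁻¹ * g b ∈ KK H := by
    intro a b ha hb he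
    obtain ⟨-, a1, a2, k1, m1, a3, a4, a5⟩ := hs a ha
    obtain ⟨-, b1, b2, k2, m2, b3, b4, b5⟩ := hs b hb
    obtain ⟨-, c1, c2, k3, m3, c3, c4, c5⟩ := hu a ha
    obtain ⟨-, d1, d2, k4, m4, d3, d4, d5⟩ := hu b hb
    rw [Prod.mk.injEq] at he
    have e1 : s b = s a := by omega
    have e2 : u b = u a := by omega
    rw [e1] at b3 b4
    rw [e2] at d3 d4
    exact C.ee h2 (C.pig_eq m1 m2 a3 a4 a5 b3 b4) (C.pig_eq m3 m4 c3 c4 c5 d3 d4)
  rw [Finset.mem_range] at ha hb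
  rcases lt_or_gt_of_ne hab with h | h
  · exact ⟨a, b, h, hb, key a b ha hb he⟩
  · exact ⟨b, a, h, ha, key b a hb ha he.symm⟩

end Pool.Agent.Lib.MP_0a5b83_al_B
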