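import Pool.Agent.Lib.MP_0a5b83_al_B.Shift

/-!
Distance to a quasiconvex set and the size of projections.
-/

set_option autoImplicit false

namespace Pool.Agent.Lib.MP_0a5b83_al_B

variable {X : Type} {d : X → X → ℕ} {D κ : ℕ}

/-- `κ`-quasiconvexity. -/
def QC (d : X → X → ℕ) (κ : ℕ) (Y : Set X) : Prop :=
  ∀ p ∈ Y, ∀ q ∈ Y, ∀ u, On d 0 p q u → ∃ y ∈ Y, d u y ≤ κ

/-- Distance to a set. -/
noncomputable def dS (d : X → X → ℕ) (Y : Set X) (x : X) : ℕ := sInf ((fun y => d x y) '' Y)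

/-- Size of the projection of `x, z` to `Y`. -/
noncomputable def tau (d : X → X → ℕ) (Y : Set X) (x z : X) : ℕ := d x z - (dS d Y x + dS d Y z)

theorem dS_le {Y : Set X} {y : X} (hy : y ∈ Y) (x : X) : dS d Y x ≤ d x y :=
  Nat.sInf_le ⟨y, hy, rfl⟩

theorem exists_dS {Y : Set X} (hY : Y.Nonempty) (x : X) : ∃ p ∈ Y, d x p = dS d Y x := by
  obtain ⟨p, hp, h⟩ := Nat.sInf_mem (hY.image (fun y => d x y))
  exact ⟨p, hp, h⟩

theorem dS_eq_zero (hd : Hyp d D) {Y : Set X} {y : X} (hy : y ∈ Y) : dS d Y y = 0 := by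
  have h1 := dS_le (d := d) hy y
  have h2 := hd.self y
  omega

theorem dS_tri (hd : Hyp d D) {Y : Set X} (hY : Y.Nonempty) (x z : X) :
    dS d Y x ≤ d x z + dS d Y z := by
  obtain ⟨p, hp, h⟩ := exists_dS (d := d) hY z
  have h1 := dS_le (d := d) hp x
  have h2 := hd.tri x z p
  omega

theorem tau_symm (hd : Hyp d D) (Y : Set X) (x z : X) : tau d Y x z = tau d Y z x := by
  unfold tau
  have := hd.symm x z
  omega

theorem tau_le (Y : Set X) (x z : X) : tau d Y x z ≤ d x z := Nat.sub_le _ _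

/-- Nearest point projection. -/
theorem proj_one (hd : Hyp d D) {Y : Set X} (hq : QC d κ Y) {x p q : X} (hp : p ∈ Y) (hqY : q ∈ Y)
    (hx : d x p = dS d Y x) : d x p + d p q ≤ d x q + (2 * κ + 2 * D + 1) := by
  by_cases hc : d p q ≤ κ + D
  · have := dS_le (d := d) hqY x
    omega
  obtain ⟨u, h1, h2⟩ := hd.geo p q (κ + D + 1) (by omega)
  obtain ⟨y, hy, h3⟩ := hq p hp q hqY u (by unfold On; omega)
  have h4 := dS_le (d := d) hy x
  have h5 := hd.tri x u y
  have f := hd.four x u p q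
  have s := hd.symm u p
  omega

theorem proj_two (hd : Hyp d D) {Y : Set X} (hq : QC d κ Y) {x z p q : X} (hp : p ∈ Y)
    (hqY : q ∈ Y) (hx : d x p = dS d Y x) (hz : d z q = dS d Y z) :
    d p q ≤ tau d Y x z + (4 * κ + 5 * D + 2) := by
  have h1 := proj_one hd hq hp hqY hx
  have h2 := proj_one hd hq hqY hp hz
  have f := hd.four x q z p
  have s1 := hd.symm q p
  have s2 := hd.symm q z
  unfold tau
  omega

theorem tau_le_proj (hd : Hyp d D) {Y : Set X} {x z p q : X} (hx : d x p = dS d Y x)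
    (hz : d z q = dS d Y z) : tau d Y x z ≤ d p q := by
  have t1 := hd.tri x p z
  have t2 := hd.tri p q z
  have s := hd.symm q z
  unfold tau
  omega

/-- If the projections are far apart, the geodesic passes through them. -/
theorem proj_far (hd : Hyp d D) {Y : Set X} (hq : QC d κ Y) {x z p q : X} (hp : p ∈ Y)
    (hqY : q ∈ Y) (hx : d x p = dS d Y x) (hz : d z q = dS d Y z)
    (hf : 4 * κ + 5 * D + 2 < d p q) :
    d x p + d p q + d q z ≤ d x z + (4 * κ + 5 * D + 2) := by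
  have h1 := proj_two hd hq hp hqY hx hz
  have s := hd.symm q z
  unfold tau at h1
  omega

theorem tau_tri (hd : Hyp d D) {Y : Set X} (hY : Y.Nonempty) (hq : QC d κ Y) (x y z : X) :
    tau d Y x z ≤ tau d Y x y + tau d Y y z + 2 * (4 * κ + 5 * D + 2) := by
  obtain ⟨p, hp, h1⟩ := exists_dS (d := d) hY x
  obtain ⟨q, hq', h2⟩ := exists_dS (d := d) hY y
  obtain ⟨r, hr, h3⟩ := exists_dS (d := d) hY z
  have a1 := proj_two hd hq hp hq' h1 h2
  have a2 := proj_two hd hq hq' hr h2 h3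
  have a3 := tau_le_proj hd h1 h3
  have t := hd.tri p q r
  omega

/-- The projection of a subsegment is not larger than the projection of the segment. -/
theorem tau_mono (hd : Hyp d D) {Y : Set X} (hY : Y.Nonempty) {c : ℕ} {x y z w : X}
    (h : d x z + d z w + d w y ≤ d x y + c) : tau d Y z w ≤ tau d Y x y + c := by
  have h1 := dS_tri hd hY x z
  have h2 := dS_tri hd hY y w
  have s := hd.symm y w
  unfold tau
  omega

/-- The projection of a point moved by a small amount. -/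
theorem tau_near (hd : Hyp d D) {Y : Set X} (hY : Y.Nonempty) (x x' y : X) :
    tau d Y x y ≤ tau d Y x' y + 2 * d x x' := by
  have h1 := dS_tri hd hY x' x
  have t := hd.tri x x' y
  have s := hd.symm x' x
  unfold tau
  omega

theorem dS_inv {G : Type} [Group G] [MulAction G X] (hi : Inv G d) {Y Y' : Set X} (g : G)
    (h : ∀ y, g • y ∈ Y' ↔ y ∈ Y) (x : X) : dS d Y' (g • x) = dS d Y x := by
  unfold dS
  congr 1
  ext n
  constructor
  · rintro ⟨y, hy, rfl⟩
    refine ⟨g⁻¹ • y, ?_, ?_⟩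
    · rw [← h, smul_inv_smul]; exact hy
    · show d x (g⁻¹ • y) = d (g • x) y
      rw [hi.left]
  · rintro ⟨y, hy, rfl⟩
    refine ⟨g • y, (h y).2 hy, ?_⟩
    exact hi g x y

theorem tau_inv {G : Type} [Group G] [MulAction G X] (hi : Inv G d) {Y Y' : Set X} (g : G)
    (h : ∀ y, g • y ∈ Y' ↔ y ∈ Y) (x z : X) : tau d Y' (g • x) (g • z) = tau d Y x z := by
  unfold tau
  rw [dS_inv hi g h, dS_inv hi g h, hi g x z]

end Pool.Agent.Lib.MP_0a5b83_al_B
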