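import Pool.Agent.Lib.MP_0a5b83_al_B.Good
import Pool.Agent.Lib.MP_0a5b83_al_B.I2B
import Pool.Agent.Lib.MP_0a5b83_al_B.T1A

/-! The quotient group with the quotient metric. -/

set_option autoImplicit false

namespace Pool.Agent.Lib.MP_0a5b83_al_B

variable {G I : Type} [Group G] [MulAction G I] {d : G → G → ℕ} {D Q m Δ θ t : ℕ}
  {Y : I → Set G} {H : I → Subgroup G} {T : I → ℕ}

/-- The metric of the quotient group. -/
noncomputable def dq (d : G → G → ℕ) (Y : I → Set G) (H : I → Subgroup G) (a b : G ⧸ KK H) : ℕ :=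
  db d Y H a.out b.out

theorem Ctx.mk_eq (C : Ctx d D Q m Δ θ t Y H T) {x y : G}
    (h : (QuotientGroup.mk x : G ⧸ KK H) = QuotientGroup.mk y) : ∃ k ∈ KK H, k • x = y := by
  rw [QuotientGroup.eq] at h
  refine ⟨x * (x⁻¹ * y) * x⁻¹, C.conj_mem h x, ?_⟩
  rw [smul_eq_mul]
  group

theorem Ctx.dq_mk (C : Ctx d D Q m Δ θ t Y H T) (x y : G) :
    dq d Y H (QuotientGroup.mk x) (QuotientGroup.mk y) = db d Y H x y := by
  obtain ⟨k, hk, h1⟩ := C.mk_eq (QuotientGroup.out_eq' (QuotientGroup.mk x : G ⧸ KK H)).symm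
  obtain ⟨k', hk', h2⟩ := C.mk_eq (QuotientGroup.out_eq' (QuotientGroup.mk y : G ⧸ KK H)).symm
  unfold dq
  rw [← h1, ← h2, C.db_K hk', C.db_K' hk]

theorem Ctx.dq_hyp (C : Ctx d D Q m Δ θ t Y H T) : Hyp (dq d Y H) (DD D t) where
  self a := C.db_hyp.self _
  symm a b := C.db_hyp.symm _ _
  tri a b c := C.db_hyp.tri _ _ _
  geo a b n hn := by
    obtain ⟨z, h1, h2⟩ := C.db_hyp.geo a.out b.out n hn
    refine ⟨QuotientGroup.mk z, ?_, ?_⟩
    · have := C.dq_mk a.out z
      rw [QuotientGroup.out_eq'] at this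
      rw [this]
      exact h1
    · have := C.dq_mk z b.out
      rw [QuotientGroup.out_eq'] at this
      rw [this]
      exact h2
  four a b c e := C.db_hyp.four _ _ _ _

theorem Ctx.dq_inv (C : Ctx d D Q m Δ θ t Y H T) [(KK H).Normal] :
    Inv (G ⧸ KK H) (dq d Y H) := by
  intro g x y
  induction g using QuotientGroup.induction_on with
  | H g =>
  induction x using QuotientGroup.induction_on with
  | H x =>
  induction y using QuotientGroup.induction_on with
  | H y =>
  rw [smul_eq_mul, smul_eq_mul, ← QuotientGroup.mk_mul, ← QuotientGroup.mk_mul, C.dq_mk, C.dq_mk]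
  exact C.db_inv g x y

theorem Ctx.dq_sep (C : Ctx d D Q m Δ θ t Y H T) : Sep (dq d Y H) := by
  intro x y h
  induction x using QuotientGroup.induction_on with
  | H x =>
  induction y using QuotientGroup.induction_on with
  | H y =>
  rw [C.dq_mk] at h
  obtain ⟨k, hk, h1⟩ := C.exists_db x y
  rw [h] at h1
  have h2 := dh_sep C.hd C.sep _ _ h1
  rw [h2, QuotientGroup.eq, smul_eq_mul, mul_inv_rev]
  have := C.conj_mem ((KK H).inv_mem hk) y⁻¹
  rwa [inv_inv] at this

theorem Ctx.dq_dich (C : Ctx d D Q m Δ θ t Y H T) [(KK H).Normal] (g : G ⧸ KK H) :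
    g ^ m = 1 ∨ Lox (dq d Y H) (2 * (Δ + 211 * D + 103)) g := by
  induction g using QuotientGroup.induction_on with
  | H g =>
  rcases C.i2 g with h | h
  · left
    rw [← QuotientGroup.mk_pow, QuotientGroup.eq_one_iff]
    exact h
  · right
    intro x n
    induction x using QuotientGroup.induction_on with
    | H x =>
    have := h x n
    rw [← QuotientGroup.mk_pow, smul_eq_mul, ← QuotientGroup.mk_mul, C.dq_mk]
    exact this

end Pool.Agent.Lib.MP_0a5b83_al_B
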