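import Pool.Agent.Lib.MP_0a5b83_al_B.QuoA
import Pool.Agent.Lib.MP_0a5b83_al_B.Dicho

/-! JOB QUOB : torsion elements do not commute with loxodromic elements in the quotient. -/

set_option autoImplicit false

namespace Pool.Agent.Lib.MP_0a5b83_al_B

variable {G I : Type} [Group G] [MulAction G I] {d : G → G → ℕ} {D Q m Δ θ t : ℕ}
  {Y : I → Set G} {H : I → Subgroup G} {T : I → ℕ}

/-- The dichotomy, stated in the quotient. -/
theorem Ctx.quoB_dicho (C : Ctx d D Q m Δ θ t Y H T) [(KK H).Normal] {M₀ A : ℕ}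
    (hM : 45 * D ≤ M₀)
    (acyl : ∀ x y : G, A ≤ d x y → ∃ h : G, ∀ f : G, d x (f • x) ≤ M₀ → d y (f • y) ≤ M₀ →
      f ∈ Subgroup.zpowers h) (x y : G) {R r : ℕ}
    (hlen : 2 * (r + t + 44 * D + 13) + 3 * LL D t A R ≤
      dq d Y H (QuotientGroup.mk x) (QuotientGroup.mk y)) :
    (∃ h : G ⧸ KK H, ∀ f : G ⧸ KK H,
      dq d Y H (QuotientGroup.mk x) (f • (QuotientGroup.mk x : G ⧸ KK H)) ≤ R →
      dq d Y H (QuotientGroup.mk y) (f • (QuotientGroup.mk y : G ⧸ KK H)) ≤ R →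
      f ∈ Subgroup.zpowers h) ∨
    ∃ (y' : G) (i j : I), Type2 d D Y H T x y' i j r ∧ ∀ f : G,
      dq d Y H (QuotientGroup.mk x)
        ((QuotientGroup.mk f : G ⧸ KK H) • (QuotientGroup.mk x : G ⧸ KK H)) ≤ R →
      dq d Y H (QuotientGroup.mk y)
        ((QuotientGroup.mk f : G ⧸ KK H) • (QuotientGroup.mk y : G ⧸ KK H)) ≤ R →
      db d Y H x (f • x) ≤ R ∧ db d Y H y' (f • y') ≤ R := by
  have key : ∀ f z : G, dq d Y H (QuotientGroup.mk z)
        ((QuotientGroup.mk f : G ⧸ KK H) • (QuotientGroup.mk z : G ⧸ KK H)) =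
      db d Y H z (f • z) := by
    intro f z
    rw [smul_eq_mul, ← QuotientGroup.mk_mul, C.dq_mk, smul_eq_mul]
  rw [C.dq_mk] at hlen
  obtain ⟨k₀, hk₀, h1⟩ := C.dicho hM acyl hlen
  rcases h1 with ⟨h, hh⟩ | ⟨i, j, h2⟩
  · left
    refine ⟨QuotientGroup.mk h, ?_⟩
    intro f
    induction f using QuotientGroup.induction_on with
    | H f =>
    intro fx fy
    rw [key] at fx fy
    obtain ⟨k, hk, h3⟩ := hh f fx fy
    obtain ⟨a, ha⟩ := Subgroup.mem_zpowers_iff.1 h3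
    rw [Subgroup.mem_zpowers_iff]
    refine ⟨a, ?_⟩
    rw [← QuotientGroup.mk_zpow, ha, QuotientGroup.mk_mul, (QuotientGroup.eq_one_iff k).2 hk,
      one_mul]
  · right
    refine ⟨k₀ • y, i, j, h2, ?_⟩
    intro f fx fy
    rw [key] at fx fy
    exact ⟨fx, by rw [C.db_disp_K hk₀]; exact fy⟩

theorem Ctx.dq_nc (C : Ctx d D Q m Δ θ t Y H T) [(KK H).Normal] {M₀ A J : ℕ}
    (hM : 45 * D ≤ M₀)
    (acyl : ∀ x y : G, A ≤ d x y → ∃ h : G, ∀ f : G, d x (f • x) ≤ M₀ → d y (f • y) ≤ M₀ →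
      f ∈ Subgroup.zpowers h)
    (hJ : (54 * DD D t + 3) * (54 * DD D t + 3) < J) (hm : J ≤ m) (f u : G ⧸ KK H)
    (hf : f ^ m = 1) (hu : Lox (dq d Y H) (2 * (Δ + 211 * D + 103)) u) (hc : Commute f u) :
    f = 1 := by
  obtain ⟨R, hR⟩ : ∃ R, R = max (dq d Y H 1 (f • 1)) (dq d Y H 1 (u • 1)) := ⟨_, rfl⟩
  obtain ⟨r, hr⟩ : ∃ r, r = (4 * J + 8) * R + 8 * DD D t + 10 := ⟨_, rfl⟩
  obtain ⟨Len, hLen⟩ : ∃ Len, Len = 2 * (r + t + 44 * D + 13) + 3 * LL D t A R := ⟨_, rfl⟩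
  obtain ⟨Q', hQ'⟩ : ∃ Q', Q' = 2 * (Δ + 211 * D + 103) := ⟨_, rfl⟩
  rw [← hQ'] at hu
  have hQ1 : 1 ≤ Q' := by omega
  -- the displacements at the powers of `u`
  have disp : ∀ (n : ℕ) (g : G ⧸ KK H), Commute g u →
      dq d Y H (u ^ n) (g • u ^ n) = dq d Y H 1 (g • 1) := by
    intro n g hg
    have h1 : g • u ^ n = u ^ n • (g • (1 : G ⧸ KK H)) := by
      simp only [smul_eq_mul, mul_one]
      exact (hg.pow_right n).eq
    have h2 : u ^ n = u ^ n • (1 : G ⧸ KK H) := by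
      rw [smul_eq_mul, mul_one]
    rw [h1]
    nth_rewrite 1 [h2]
    exact C.dq_inv (u ^ n) _ _
  have fy : dq d Y H (u ^ (Q' * Len)) (f • u ^ (Q' * Len)) ≤ R := by
    rw [disp _ f hc, hR]; exact le_max_left _ _
  have uy : dq d Y H (u ^ (Q' * Len)) (u • u ^ (Q' * Len)) ≤ R := by
    rw [disp _ u (Commute.refl u), hR]; exact le_max_right _ _
  have fx : dq d Y H 1 (f • 1) ≤ R := by rw [hR]; exact le_max_left _ _
  have ux : dq d Y H 1 (u • 1) ≤ R := by rw [hR]; exact le_max_right _ _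
  have hfar : Len ≤ dq d Y H 1 (u ^ (Q' * Len)) := by
    have h1 := hu 1 (Q' * Len)
    rw [smul_eq_mul, mul_one] at h1
    exact Nat.le_of_mul_le_mul_left h1 hQ1
  obtain ⟨y, hy⟩ := QuotientGroup.mk_surjective (u ^ (Q' * Len))
  rw [← hy] at fy uy hfar
  rw [hLen] at hfar
  have hone : (1 : G ⧸ KK H) = QuotientGroup.mk (1 : G) := rfl
  rw [hone] at fx ux hfar
  rcases C.quoB_dicho hM acyl 1 y hfar with ⟨h, hh⟩ | ⟨y', i, j, h2, hh⟩
  · obtain ⟨a, ha⟩ := Subgroup.mem_zpowers_iff.1 (hh f fx fy)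
    obtain ⟨b, hb⟩ := Subgroup.mem_zpowers_iff.1 (hh u ux uy)
    by_cases ha0 : a = 0
    · rw [← ha, ha0, zpow_zero]
    · exfalso
      have hm0 : (m : ℤ) ≠ 0 := by
        have := C.E.prime.pos
        omega
      refine hu.zpow_ne_one C.dq_hyp C.dq_inv (mul_ne_zero ha0 hm0) ?_
      have h1 : u ^ (a * (m : ℤ)) = (f ^ m) ^ b := by
        rw [← hb, ← ha, ← zpow_natCast, ← zpow_mul, ← zpow_mul, ← zpow_mul]
        congr 1
        ring
      rw [h1, hf, one_zpow]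
  · induction f using QuotientGroup.induction_on with
    | H f =>
    obtain ⟨h3, h4⟩ := hh f fx fy
    rw [QuotientGroup.eq_one_iff]
    refine C.tor2 hJ hm h2 (by rw [hr]) ?_ h3 h4
    rw [← QuotientGroup.eq_one_iff, QuotientGroup.mk_pow]
    exact hf

end Pool.Agent.Lib.MP_0a5b83_al_B
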