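import Pool.Agent.Lib.MP_0a5b83_al_B.QuoB

/-! JOB QUOC : the invariants of the quotient. -/

set_option autoImplicit false

namespace Pool.Agent.Lib.MP_0a5b83_al_B

variable {G I : Type} [Group G] [MulAction G I] {d : G → G → ℕ} {D Q m Δ θ t : ℕ}
  {Y : I → Set G} {H : I → Subgroup G} {T : I → ℕ}

theorem Ctx.dq_ell (C : Ctx d D Q m Δ θ t Y H T) [(KK H).Normal] {M₀ A J : ℕ}
    (hM : 45 * D ≤ M₀)
    (acyl : ∀ x y : G, A ≤ d x y → ∃ h : G, ∀ f : G, d x (f • x) ≤ M₀ → d y (f • y) ≤ M₀ →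
      f ∈ Subgroup.zpowers h)
    (hJ : (54 * DD D t + 3) * (54 * DD D t + 3) < J) (hm : J ≤ m) :
    Ell (G := G ⧸ KK H) (dq d Y H) (DD D t) (2 * (Δ + 211 * D + 103)) m where
  hyp := C.dq_hyp
  inv := C.dq_inv
  ne := ⟨1⟩
  prime := C.E.prime
  odd := C.E.odd
  dich := C.dq_dich
  nc := C.dq_nc hM acyl hJ hm
  cen := by
    intro u hu
    refine cen C.dq_hyp C.dq_inv (M₀ := 7 * DD D t + 1) C.E.prime.one_le le_rfl C.dq_dich
      (C.dq_nc hM acyl hJ hm) ?_ hu
    refine ⟨2 * ((7 * DD D t + 1 + 1) + t + 44 * D + 13) + 3 * LL D t A (7 * DD D t + 1), ?_⟩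
    intro x y
    induction x using QuotientGroup.induction_on with
    | H x =>
    induction y using QuotientGroup.induction_on with
    | H y =>
    intro hxy
    rcases C.quoB_dicho hM acyl x y hxy with h | ⟨y', i, j, h2, hh⟩
    · exact Or.inr h
    · left
      obtain ⟨S, hS⟩ := C.fin2 h2 (R := 7 * DD D t + 1) (Nat.lt_succ_self _)
      refine (S.finite_toSet.image (fun s : G => (QuotientGroup.mk s : G ⧸ KK H))).subset ?_
      rintro f ⟨fx, fy⟩
      induction f using QuotientGroup.induction_on with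
      | H f =>
      obtain ⟨h3, h4⟩ := hh f fx fy
      obtain ⟨s, hs, hsf⟩ := hS f h3 h4
      refine ⟨s, hs, ?_⟩
      show (QuotientGroup.mk s : G ⧸ KK H) = QuotientGroup.mk f
      rw [QuotientGroup.eq]
      exact hsf

/-- The length from which on the elements of the quotient almost fixing both ends are in a cyclic
group. -/
def TH (D t J A R : ℕ) : ℕ :=
  2 * (((4 * J + 8) * R + 8 * DD D t + 10) + t + 44 * D + 13) + 3 * LL D t A R

theorem Ctx.dq_acyl (C : Ctx d D Q m Δ θ t Y H T) [(KK H).Normal] {M₀ A J R : ℕ}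
    (hM : 45 * D ≤ M₀)
    (acyl : ∀ x y : G, A ≤ d x y → ∃ h : G, ∀ f : G, d x (f • x) ≤ M₀ → d y (f • y) ≤ M₀ →
      f ∈ Subgroup.zpowers h)
    (hJ : (54 * DD D t + 3) * (54 * DD D t + 3) < J) (hm : J ≤ m) (x y : G ⧸ KK H)
    (hxy : TH D t J A R ≤ dq d Y H x y) :
    ∃ h : G ⧸ KK H, ∀ f : G ⧸ KK H, dq d Y H x (f • x) ≤ R → dq d Y H y (f • y) ≤ R →
      f ∈ Subgroup.zpowers h := by
  induction x using QuotientGroup.induction_on with
  | H x =>
  induction y using QuotientGroup.induction_on with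
  | H y =>
  rcases C.quoB_dicho hM acyl x y hxy with h | ⟨y', i, j, h2, hh⟩
  · exact h
  · by_cases hall : ∀ f : G ⧸ KK H,
        dq d Y H (QuotientGroup.mk x) (f • (QuotientGroup.mk x : G ⧸ KK H)) ≤ R →
        dq d Y H (QuotientGroup.mk y) (f • (QuotientGroup.mk y : G ⧸ KK H)) ≤ R → f = 1
    · refine ⟨1, ?_⟩
      intro f fx fy
      rw [hall f fx fy]
      exact Subgroup.one_mem _
    · push Not at hall
      obtain ⟨f, fx, fy, hf1⟩ := hall
      have E := C.dq_ell hM acyl hJ hm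
      obtain ⟨f₁, rfl⟩ := QuotientGroup.mk_surjective f
      obtain ⟨h3, h4⟩ := hh f₁ fx fy
      have hL : Lox (dq d Y H) (2 * (Δ + 211 * D + 103)) (QuotientGroup.mk f₁ : G ⧸ KK H) := by
        rcases C.dq_dich (QuotientGroup.mk f₁) with h5 | h5
        · exfalso
          apply hf1
          rw [QuotientGroup.eq_one_iff]
          refine C.tor2 hJ hm h2 le_rfl ?_ h3 h4
          rw [← QuotientGroup.eq_one_iff, QuotientGroup.mk_pow]
          exact h5
        · exact h5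
      obtain ⟨h, -, hcen⟩ := E.cen _ hL
      refine ⟨h, ?_⟩
      intro g gx gy
      obtain ⟨f₂, rfl⟩ := QuotientGroup.mk_surjective g
      obtain ⟨h5, h6⟩ := hh f₂ gx gy
      obtain ⟨a, ha1, -, hmem⟩ := C.comm2 hJ h2 le_rfl h3 h4 h5 h6
      have ha0 : ((a : ℕ) : ℤ) ≠ 0 := by omega
      rw [← hcen, ← E.cen_zpow hL ha0, Subgroup.mem_centralizer_singleton_iff]
      rw [← QuotientGroup.eq_one_iff] at hmem
      simp only [QuotientGroup.mk_mul, QuotientGroup.mk_inv, QuotientGroup.mk_pow] at hmem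
      rw [zpow_natCast]
      rw [mul_inv_eq_one, mul_inv_eq_iff_eq_mul] at hmem
      exact hmem.symm

theorem Ctx.quo (C : Ctx d D Q m Δ θ t Y H T) [(KK H).Normal] {M₀ A J : ℕ} (R : ℕ)
    (hM : 45 * D ≤ M₀)
    (acyl : ∀ x y : G, A ≤ d x y → ∃ h : G, ∀ f : G, d x (f • x) ≤ M₀ → d y (f • y) ≤ M₀ →
      f ∈ Subgroup.zpowers h)
    (hJ : (54 * DD D t + 3) * (54 * DD D t + 3) < J) (hm : J ≤ m) :
    Good (dq d Y H) (DD D t) (2 * (Δ + 211 * D + 103)) m R (TH D t J A R) where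
  hyp := C.dq_hyp
  inv := C.dq_inv
  sep := C.dq_sep
  dich := C.dq_dich
  nc := C.dq_nc hM acyl hJ hm
  acyl := C.dq_acyl hM acyl hJ hm

end Pool.Agent.Lib.MP_0a5b83_al_B
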