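import Pool.Agent.Lib.MP_0a5b83_al_B.Good

/-! JOB RESC : rescaling the metric. -/

set_option autoImplicit false

namespace Pool.Agent.Lib.MP_0a5b83_al_B

/-- The rescaled metric, rounded up. -/
def dres {X : Type} (s : ℕ) (d : X → X → ℕ) (x y : X) : ℕ := (d x y + (s - 1)) / s

theorem resc_up {X : Type} {d : X → X → ℕ} {s : ℕ} (x y : X) :
    s * dres s d x y ≤ d x y + (s - 1) := Nat.mul_div_le _ _

theorem resc_lo {X : Type} {d : X → X → ℕ} {s : ℕ} (hs : 1 ≤ s) (x y : X) :
    d x y ≤ s * dres s d x y := by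
  have h := Nat.lt_mul_div_succ (d x y + (s - 1)) (show 0 < s by omega)
  have h2 : s * ((d x y + (s - 1)) / s + 1) = s * dres s d x y + s := by
    unfold dres; ring
  rw [h2] at h
  omega

theorem resc_le {s a b : ℕ} (h : s * a < s * b + s) : a ≤ b := by
  have h2 : s * a < s * (b + 1) := by rw [Nat.mul_add, Nat.mul_one]; exact h
  exact Nat.lt_succ_iff.1 (Nat.lt_of_mul_lt_mul_left h2)

theorem hyp_dres {X : Type} {d : X → X → ℕ} {D s : ℕ} (hd : Hyp d D) (hs : 1 ≤ s) (hD : D ≤ s) :
    Hyp (dres s d) 2 where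
  self := by
    intro x
    unfold dres
    rw [hd.self]
    exact Nat.div_eq_of_lt (by omega)
  symm := by
    intro x y
    unfold dres
    rw [hd.symm]
  tri := by
    intro x y z
    have h := hd.tri x y z
    have h1 := resc_up (d := d) (s := s) x z
    have h2 := resc_lo (d := d) hs x y
    have h3 := resc_lo (d := d) hs y z
    apply resc_le (s := s)
    rw [Nat.mul_add]
    omega
  geo := by
    intro x y n hn
    by_cases hsn : s * n ≤ d x y
    · obtain ⟨z, hz1, hz2⟩ := hd.geo x y (s * n) hsn
      refine ⟨z, ?_, ?_⟩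
      · unfold dres
        rw [hz1, Nat.mul_add_div (by omega), Nat.div_eq_of_lt (by omega), Nat.add_zero]
      · unfold dres
        rw [hz2, ← Nat.sub_mul_div, show d x y - s * n + (s - 1) = d x y + (s - 1) - s * n by omega]
    · have h1 := resc_up (d := d) (s := s) x y
      have h2 : dres s d x y ≤ n := resc_le (s := s) (by omega)
      have h3 : n = dres s d x y := le_antisymm hn h2
      refine ⟨y, h3.symm, ?_⟩
      rw [h3, Nat.sub_self]
      unfold dres
      rw [hd.self]
      exact Nat.div_eq_of_lt (by omega)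
  four := by
    intro x y z w
    have h := hd.four x y z w
    have a1 := resc_up (d := d) (s := s) x y
    have a2 := resc_up (d := d) (s := s) z w
    have b1 := resc_lo (d := d) hs x z
    have b2 := resc_lo (d := d) hs y w
    have b3 := resc_lo (d := d) hs x w
    have b4 := resc_lo (d := d) hs y z
    rcases le_total (d x z + d y w) (d x w + d y z) with hle | hle
    · rw [max_eq_right hle] at h
      have h5 : dres s d x y + dres s d z w ≤ dres s d x w + dres s d y z + 2 := by
        apply resc_le (s := s)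
        rw [Nat.mul_add, Nat.mul_add, Nat.mul_add]
        omega
      exact h5.trans (Nat.add_le_add_right (le_max_right _ _) 2)
    · rw [max_eq_left hle] at h
      have h5 : dres s d x y + dres s d z w ≤ dres s d x z + dres s d y w + 2 := by
        apply resc_le (s := s)
        rw [Nat.mul_add, Nat.mul_add, Nat.mul_add]
        omega
      exact h5.trans (Nat.add_le_add_right (le_max_left _ _) 2)

theorem resc_lox {G : Type} [Group G] {d : G → G → ℕ} {Q s : ℕ} (hs : 1 ≤ s) {g : G}
    (hg : Lox d Q g) : Lox (dres s d) (s * Q) g := by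
  intro x n
  refine (hg x n).trans ?_
  calc Q * d x (g ^ n • x) ≤ Q * (s * dres s d x (g ^ n • x)) :=
        Nat.mul_le_mul_left _ (resc_lo hs _ _)
    _ = s * Q * dres s d x (g ^ n • x) := by ring

theorem good_dres {G : Type} [Group G] {d : G → G → ℕ} {D Q m M₀ A A' s : ℕ} (hm : 1 ≤ m)
    (h : Good d D Q m (s * M₀) A') (hs : 1 ≤ s) (hD : D ≤ s) (hA : 1 ≤ A)
    (hA' : A' ≤ s * (A - 1) + 1) : Good (dres s d) 2 (s * Q) m M₀ A where
  hyp := hyp_dres h.hyp hs hD
  inv := by
    intro g x y
    unfold dres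
    rw [h.inv g x y]
  sep := by
    intro x y hxy
    have h1 := resc_lo (d := d) hs x y
    rw [hxy, Nat.mul_zero] at h1
    exact h.sep x y (by omega)
  dich := fun g => (h.dich g).imp id fun hg => resc_lox hs hg
  nc := by
    intro f u hf hu hc
    rcases h.dich u with h1 | h1
    · exact absurd h1 (hu.not_pow_eq (hyp_dres h.hyp hs hD) hm)
    · exact h.nc f u hf h1 hc
  acyl := by
    intro x y hxy
    have h1 := resc_up (d := d) (s := s) x y
    have h2 : s * A ≤ s * dres s d x y := Nat.mul_le_mul_left _ hxy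
    have h3 : s * A = s * (A - 1) + s := by
      obtain ⟨B, rfl⟩ : ∃ B, A = B + 1 := ⟨A - 1, by omega⟩
      rw [Nat.add_sub_cancel, Nat.mul_add, Nat.mul_one]
    obtain ⟨g, hg⟩ := h.acyl x y (by omega)
    refine ⟨g, fun f hf1 hf2 => hg f ?_ ?_⟩
    · exact (resc_lo hs _ _).trans (Nat.mul_le_mul_left _ hf1)
    · exact (resc_lo hs _ _).trans (Nat.mul_le_mul_left _ hf2)

end Pool.Agent.Lib.MP_0a5b83_al_B
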