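import Pool.Agent.Lib.MP_0a5b83_al_B.Hyp

/-!
Isometries which move the endpoints of a long segment by a bounded amount act on the middle of the
segment as shifts.
-/

set_option autoImplicit false

namespace Pool.Agent.Lib.MP_0a5b83_al_B

variable {G X : Type} [Group G] [MulAction G X] {d : X → X → ℕ} {D : ℕ}

theorem Inv.left (hi : Inv G d) (g : G) (x y : X) : d (g • x) y = d x (g⁻¹ • y) := by
  have := hi g⁻¹ (g • x) y
  rw [inv_smul_smul] at this
  exact this.symm

theorem Inv.right (hi : Inv G d) (g : G) (x y : X) : d x (g • y) = d (g⁻¹ • x) y := by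
  have := hi g⁻¹ x (g • y)
  rw [inv_smul_smul] at this
  exact this.symm

theorem Inv.disp_inv (hd : Hyp d D) (hi : Inv G d) (g : G) (x : X) : d x (g⁻¹ • x) = d x (g • x) := by
  rw [hi.right g⁻¹ x x, inv_inv, hd.symm]

theorem move_left (hd : Hyp d D) {c M : ℕ} {x x' y z : X} (hz : On d c x y z) (hx : d x x' ≤ M)
    (hm : 2 * M + D + c < 2 * d x z) : On d (c + D) x' y z := by
  unfold On at *
  have f := hd.four x' z x y
  have t1 := hd.tri x x' z
  have s1 := hd.symm x' x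
  have s2 := hd.symm z y
  have s3 := hd.symm z x
  omega

theorem move_right (hd : Hyp d D) {c M : ℕ} {x y y' z : X} (hz : On d c x y z) (hy : d y y' ≤ M)
    (hm : 2 * M + D + c < 2 * d z y) : On d (c + D) x y' z := by
  apply On.symm hd
  refine move_left hd (On.symm hd hz) hy ?_
  have := hd.symm z y
  omega

/-- The shift of `g` along `(x, y)`. -/
def sh (d : X → X → ℕ) (x y : X) (g : G) : ℤ := (d (g⁻¹ • x) y : ℤ) - d x y

theorem sh_pos (hd : Hyp d D) (hi : Inv G d) {c M : ℕ} {x y z : X} {g : G} (hz : On d c x y z)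
    (hx : d x (g • x) ≤ M) (hm : 2 * M + D + c < 2 * d x z) :
    -(c : ℤ) ≤ (d x (g • z) : ℤ) - d x z - sh d x y g ∧
      (d x (g • z) : ℤ) - d x z - sh d x y g ≤ c + D := by
  have h1 : On d (c + D) (g⁻¹ • x) y z := by
    refine move_left hd hz ?_ hm
    rwa [Inv.disp_inv hd hi]
  have h2 : d x (g • z) = d (g⁻¹ • x) z := hi.right g x z
  unfold On at *
  unfold sh
  rw [h2]
  have t1 := hd.tri (g⁻¹ • x) z y
  have t2 := hd.tri x z y
  omega

theorem sh_step (hd : Hyp d D) (hi : Inv G d) {c M m : ℕ} {x y z : X} {g : G} (hz : On d c x y z)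
    (hx : d x (g • x) ≤ M) (hy : d y (g • y) ≤ M) (h1 : m ≤ d x z) (h2 : m ≤ d z y)
    (hm : M + D + c < m) :
    On d (c + 2 * D) x y (g • z) ∧ m - M ≤ d x (g • z) ∧ m - M ≤ d (g • z) y ∧
    -(c : ℤ) ≤ (d x (g • z) : ℤ) - d x z - sh d x y g ∧
      (d x (g • z) : ℤ) - d x z - sh d x y g ≤ c + D := by
  have e1 : d (g • x) (g • z) = d x z := hi g x z
  have e2 : d (g • z) (g • y) = d z y := hi g z y
  have e3 : d (g • x) (g • y) = d x y := hi g x y
  have hz' : On d c (g • x) (g • y) (g • z) := by unfold On at *; omega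
  have s1 := hd.symm (g • x) x
  have s2 := hd.symm (g • y) y
  have k1 : On d (c + D) x (g • y) (g • z) := move_left hd hz' (by omega) (by omega) (M := M)
  have k2 : On d (c + D + D) x y (g • z) := move_right hd k1 (by omega) (by omega) (M := M)
  refine ⟨k2.mono (by omega), ?_, ?_, sh_pos hd hi hz hx (by omega)⟩
  · have := hd.tri (g • x) x (g • z)
    omega
  · have := hd.tri (g • z) y (g • y)
    omega

/-- Commutators have small displacement in the middle. -/
theorem comm_small (hd : Hyp d D) (hi : Inv G d) {c M m : ℕ} {x y z : X} {f g : G}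
    (hz : On d c x y z) (hfx : d x (f • x) ≤ M) (hfy : d y (f • y) ≤ M) (hgx : d x (g • x) ≤ M)
    (hgy : d y (g • y) ≤ M) (h1 : m ≤ d x z) (h2 : m ≤ d z y) (hm : 4 * M + 7 * D + c < m) :
    d z ((f * g * f⁻¹ * g⁻¹) • z) ≤ 27 * D + 9 * c := by
  have hfx' : d x (f⁻¹ • x) ≤ M := by rwa [Inv.disp_inv hd hi]
  have hfy' : d y (f⁻¹ • y) ≤ M := by rwa [Inv.disp_inv hd hi]
  have hgx' : d x (g⁻¹ • x) ≤ M := by rwa [Inv.disp_inv hd hi]
  have hgy' : d y (g⁻¹ • y) ≤ M := by rwa [Inv.disp_inv hd hi]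
  obtain ⟨a1, b1, c1, -, -⟩ := sh_step hd hi hz hgx' hgy' h1 h2 (by omega)
  obtain ⟨a2, b2, c2, -, -⟩ := sh_step hd hi a1 hfx' hfy' b1 c1 (by omega)
  obtain ⟨a3, b3, c3, d3, e3⟩ := sh_step hd hi a2 hgx hgy b2 c2 (by omega)
  obtain ⟨a4, b4, c4, d4, e4⟩ := sh_step hd hi a3 hfx hfy b3 c3 (by omega)
  obtain ⟨-, -, -, d1, e1⟩ := sh_step hd hi a1 hgx hgy b1 c1 (by omega)
  obtain ⟨-, -, -, d2, e2⟩ := sh_step hd hi a2 hfx hfy b2 c2 (by omega)
  rw [smul_inv_smul] at d1 e1 d2 e2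
  have hw : (f * g * f⁻¹ * g⁻¹) • z = f • g • f⁻¹ • g⁻¹ • z := by simp only [mul_smul]
  rw [hw]
  have k := close hd hz a4
  omega

/-- An isometry which does not move the middle of a long segment by a small amount has growing
displacement. -/
theorem tor_small (hd : Hyp d D) (hi : Inv G d) {c M m : ℕ} {x y z : X} {g : G}
    (hz : On d c x y z) (hx : d x (g • x) ≤ M) (hy : d y (g • y) ≤ M) (h1 : m ≤ d x z)
    (h2 : m ≤ d z y) (hm : 2 * M + 4 * D + c < m) :
    d z (g • z) ≤ 12 * D + 6 * c ∨ d z (g • z) + D + 1 ≤ d z (g ^ 2 • z) := by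
  obtain ⟨a1, b1, c1, d1, e1⟩ := sh_step hd hi hz hx hy h1 h2 (by omega)
  obtain ⟨a2, b2, c2, d2, e2⟩ := sh_step hd hi a1 hx hy b1 c1 (by omega)
  have hw : g ^ 2 • z = g • g • z := by rw [pow_two, mul_smul]
  rw [hw]
  have k := close hd hz a1
  have t1 := hd.tri x z (g • g • z)
  have t2 := hd.tri x (g • g • z) z
  have s1 := hd.symm (g • g • z) z
  omega

/-- Growth criterion. -/
theorem growth (hd : Hyp d D) (hi : Inv G d) {e : ℕ} {z : X} {g : G} (he : 1 ≤ e)
    (h : d z (g • z) + D + e ≤ d z (g ^ 2 • z)) (n : ℕ) :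
    d z (g ^ n • z) + e ≤ d z (g ^ (n + 1) • z) := by
  induction n with
  | zero =>
    have t := hd.tri z (g • z) (g ^ 2 • z)
    have e1 : d (g • z) (g ^ 2 • z) = d z (g • z) := by
      rw [pow_two, mul_smul]; exact hi g _ _
    have s := hd.self z
    simp only [pow_zero, one_smul, zero_add, pow_one]
    omega
  | succ n ih =>
    have f := hd.four z (g ^ (n + 1) • z) (g ^ n • z) (g ^ (n + 2) • z)
    have e1 : d (g ^ n • z) (g ^ (n + 2) • z) = d z (g ^ 2 • z) := by
      rw [pow_add g n 2, mul_smul]; exact hi _ _ _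
    have e2 : d (g ^ (n + 1) • z) (g ^ (n + 2) • z) = d z (g • z) := by
      rw [show n + 2 = (n + 1) + 1 from rfl, pow_succ g (n + 1), mul_smul]; exact hi _ _ _
    have e3 : d (g ^ n • z) (g ^ (n + 1) • z) = d z (g • z) := by
      rw [pow_succ g n, mul_smul]; exact hi _ _ _
    have e4 : d (g ^ (n + 1) • z) (g ^ n • z) = d z (g • z) := by rw [hd.symm, e3]
    show d z (g ^ (n + 1) • z) + e ≤ d z (g ^ (n + 2) • z)
    omega

theorem growth_linear (hd : Hyp d D) (hi : Inv G d) {e : ℕ} {z : X} {g : G} (he : 1 ≤ e)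
    (h : d z (g • z) + D + e ≤ d z (g ^ 2 • z)) (n : ℕ) : e * n ≤ d z (g ^ n • z) := by
  induction n with
  | zero => simp
  | succ n ih =>
    have := growth hd hi he h n
    rw [Nat.mul_succ]
    omega

end Pool.Agent.Lib.MP_0a5b83_al_B
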