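import Pool.Agent.Lib.MP_0a5b83_al_B.T2Defs
import Pool.Agent.Lib.MP_0a5b83_al_B.T1A

/-! JOB SPLIT : a long pair contains a long part without big domains or two big domains. -/

set_option autoImplicit false

namespace Pool.Agent.Lib.MP_0a5b83_al_B

variable {G X I : Type} [Group G] [MulAction G X] [MulAction G I] {d : X → X → ℕ}
  {D Q m Δ θ t : ℕ} {Y : I → Set X} {H : I → Subgroup G} {T : I → ℕ}

private theorem split_far (C : Ctx d D Q m Δ θ t Y H T) {i : I} {a b : X}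
    (h : 20 * T i < 100 * del d D Y i a b) :
    ∃ u ∈ Y i, ∃ v ∈ Y i, d a u + d u v + d v b ≤ d a b + (21 * D + 6) ∧
      21 * D + 6 < d u v := by
  obtain ⟨u, hu, hu1⟩ := exists_dS (d := d) (C.w.Yne i) a
  obtain ⟨v, hv, hv1⟩ := exists_dS (d := d) (C.w.Yne i) b
  have h1 := C.θbig
  have h2 := C.w.Tbig i
  have h3 := tau_le_proj C.hd hu1 hv1
  unfold del at h
  have h4 : 21 * D + 6 < d u v := by omega
  have h5 := proj_far C.hd (C.qc i) hu hv hu1 hv1 (by omega)
  exact ⟨u, hu, v, hv, by omega, h4⟩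

private theorem split_near (C : Ctx d D Q m Δ θ t Y H T) {i : I} {u v p : X} {c : ℕ}
    (hu : u ∈ Y i) (hv : v ∈ Y i) (hp : On d c u v p) :
    ∃ y ∈ Y i, d p y ≤ c + D + (4 * D + 1) := by
  obtain ⟨z, h1, h2, -⟩ := near0 C.hd hp
  obtain ⟨y, hy, h3⟩ := C.qc i u hu v hv z h1
  have h4 := C.hd.tri p z y
  exact ⟨y, hy, by omega⟩

private theorem split_dh (C : Ctx d D Q m Δ θ t Y H T) {i : I} {p q a b : X}
    (ha : a ∈ Y i) (hb : b ∈ Y i) : dh d Y p q ≤ d p a + 1 + d q b := by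
  have h1 := C.htri p a q
  have h2 := C.htri a b q
  have h3 := dh_le C.hd C.sep Y p a
  have h4 := dh_le C.hd C.sep Y q b
  have h5 := dh_le_one (d := d) ha hb
  have h6 := C.hsymm b q
  omega

/-- Order of the two domains, seen from `y`. -/
private theorem split_o (C : Ctx d D Q m Δ θ t Y H T) {i j : I} {p₁ p₂ p₃ p₄ y : X}
    (hadd : d p₁ p₂ + d p₂ p₃ + d p₃ p₄ + d p₄ y ≤ d p₁ y)
    (hi : 20 * T i < 100 * del d D Y i p₁ p₂) (hj : 20 * T j < 100 * del d D Y j p₃ p₄)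
    (hL : 100 * D + 50 ≤ dh d Y p₂ p₃) : i ≠ j ∧ dS d (Y j) y < dS d (Y i) y := by
  have hd := C.hd
  obtain ⟨q₁, hq₁, q₂, hq₂, f1, f2⟩ := split_far C hi
  obtain ⟨q₃, hq₃, q₄, hq₄, f3, f4⟩ := split_far C hj
  have t12 := hd.tri p₁ p₂ y
  have t13 := hd.tri p₁ p₃ y
  have t23 := hd.tri p₂ p₃ y
  have t34 := hd.tri p₃ p₄ y
  have t123 := hd.tri p₁ p₂ p₃
  have t24 := hd.tri p₂ p₃ p₄
  have t14 := hd.tri p₁ p₂ p₄
  have t14' := hd.tri p₁ p₄ y
  constructor
  · rintro rfl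
    -- both parts meet the same domain
    have a1 := hd.tri p₁ q₁ p₄
    have a2 := hd.tri q₁ q₂ p₄
    have a3 := hd.tri q₂ q₃ p₄
    have a4 := hd.tri q₃ q₄ p₄
    have a5 := hd.tri p₂ p₃ q₃
    have a6 := hd.tri q₂ p₂ p₃
    have o2 : On d (2 * (21 * D + 6)) q₂ q₃ p₂ := by unfold On; omega
    have o3 : On d (2 * (21 * D + 6)) q₂ q₃ p₃ := by unfold On; omega
    obtain ⟨b₂, hb₂, e2⟩ := split_near C hq₂ hq₃ o2
    obtain ⟨b₃, hb₃, e3⟩ := split_near C hq₂ hq₃ o3
    have := split_dh C (p := p₂) (q := p₃) hb₂ hb₃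
    omega
  · by_contra hcon
    push Not at hcon
    have s1 := hd.symm y q₄
    have s2 := hd.symm p₄ y
    have s3 := hd.symm q₄ p₄
    have s4 := hd.symm p₃ y
    have s5 := hd.symm p₂ y
    have s6 := hd.symm q₂ y
    have b1 := dS_le (d := d) hq₄ y
    have b2 := hd.tri q₄ p₄ y
    obtain ⟨b, hb, hb1⟩ := exists_dS (d := d) (C.w.Yne i) y
    have hby : d y b < d y p₃ := by omega
    have hpr := proj_one hd (C.qc i) hb hq₂ hb1
    have hob : On d (10 * D + 3) y q₂ b := by unfold On; omega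
    have c1 := hd.tri p₁ q₁ y
    have c2 := hd.tri q₁ q₂ y
    have c3 := hd.tri p₃ p₂ q₂
    have s7 := hd.symm p₃ p₂
    have s8 := hd.symm p₂ q₂
    have ho2 : On d (21 * D + 6) y q₂ p₂ := by unfold On; omega
    have ho3 : On d (21 * D + 6) y q₂ p₃ := by unfold On; omega
    have hnear : ∀ p : X, d y b < d y p → On d (21 * D + 6) y q₂ p →
        ∃ z ∈ Y i, d p z ≤ 37 * D + 10 := by
      intro p hp hop
      rcases close hd hop hob with h | h
      · have s9 := hd.symm q₂ p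
        have s10 := hd.symm b y
        have s11 := hd.tri q₂ b y
        have : On d (32 * D + 9) q₂ b p := by unfold On at *; omega
        obtain ⟨z, hz, e⟩ := split_near C hq₂ hb this
        exact ⟨z, hz, by omega⟩
      · exact ⟨b, hb, by omega⟩
    obtain ⟨z₂, hz₂, e2⟩ := hnear p₂ (by omega) ho2
    obtain ⟨z₃, hz₃, e3⟩ := hnear p₃ hby ho3
    have := split_dh C (p := p₂) (q := p₃) hz₂ hz₃
    omega

/-- Margins. -/
private theorem split_m (C : Ctx d D Q m Δ θ t Y H T) {i : I} {x y p q w : X} {r : ℕ}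
    (red : ∀ v, 100 * del d D Y v x y ≤ 51 * T v) (hp : On d (21 * D + 6) x q p)
    (hq : On d (21 * D + 6) x y q) (hr : r + t + 44 * D + 13 ≤ dh d Y x p) (hqi : q ∈ Y i)
    (hw : w ∈ Y i) : r ≤ db d Y H x w := by
  have h1 := cone_add' C.hd C.sep C.add hp
  unfold On at h1
  have h2 : db d Y H x q = dh d Y x q := by
    refine C.db_eq fun v => ?_
    have h3 := tau_mono (Y := Y v) C.hd (C.w.Yne v) (c := 21 * D + 6) (x := x) (y := y) (z := x)
      (w := q) (by
        have := C.hd.self x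
        unfold On at hq
        omega)
    have h4 := red v
    have h5 := C.θbig
    have h6 := C.w.Tbig v
    unfold del at h4 ⊢
    omega
  have h3 := C.db_tri x w q
  have h4 := C.db_le_dh w q
  have h5 := dh_le_one (d := d) hw hqi
  omega

theorem Ctx.split (C : Ctx d D Q m Δ θ t Y H T) {x y : X}
    (red : ∀ i, 100 * del d D Y i x y ≤ 51 * T i) {r L : ℕ} (hL : 100 * D + 50 ≤ L)
    (hlen : 2 * (r + t + 44 * D + 13) + 3 * L ≤ dh d Y x y) :
    (∃ p q, (∀ i, 100 * del d D Y i p q ≤ 20 * T i) ∧ L ≤ dh d Y p q ∧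
      On (db d Y H) t x y p ∧ On (db d Y H) t x y q) ∨
    ∃ i j, Type2 d D Y H T x y i j r := by
  have hd := C.hd
  obtain ⟨p₁, o1, l1⟩ := exists_on_dh hd C.sep Y (p := x) (q := y) (r := r + t + 44 * D + 13)
    (by omega)
  have a1 := C.htri x p₁ y
  obtain ⟨p₂, o2, l2⟩ := exists_on_dh hd C.sep Y (p := p₁) (q := y) (r := L) (by omega)
  have a2 := C.htri p₁ p₂ y
  obtain ⟨p₃, o3, l3⟩ := exists_on_dh hd C.sep Y (p := p₂) (q := y) (r := L) (by omega)
  have a3 := C.htri p₂ p₃ y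
  obtain ⟨p₄, o4, l4⟩ := exists_on_dh hd C.sep Y (p := p₃) (q := y) (r := L) (by omega)
  have a4 := C.htri p₃ p₄ y
  -- additivity
  have e1 : d x p₁ + d p₁ y ≤ d x y := by unfold On at o1; omega
  have e2 : d p₁ p₂ + d p₂ y ≤ d p₁ y := by unfold On at o2; omega
  have e3 : d p₂ p₃ + d p₃ y ≤ d p₂ y := by unfold On at o3; omega
  have e4 : d p₃ p₄ + d p₄ y ≤ d p₃ y := by unfold On at o4; omega
  have t1 := hd.tri x p₁ p₂
  have t2 := hd.tri x p₁ p₃
  have t3 := hd.tri x p₁ p₄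
  have t4 := hd.tri p₁ p₂ p₃
  have t5 := hd.tri p₁ p₂ p₄
  have t6 := hd.tri p₂ p₃ p₄
  have t7 := hd.tri x p₄ y
  have hxy : db d Y H x y = dh d Y x y := C.db_eq fun i => by
    have := red i
    omega
  have hon : ∀ p, d x p + d p y ≤ d x y → On (db d Y H) t x y p := by
    intro p hp
    have h1 := C.add x y p (by unfold On; omega)
    have h2 := C.db_le_dh x p
    have h3 := C.db_le_dh p y
    unfold On at h1 ⊢
    omega
  by_cases hA : ∀ v, 100 * del d D Y v p₁ p₂ ≤ 20 * T v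
  · exact Or.inl ⟨p₁, p₂, hA, l2.ge, hon _ (by omega), hon _ (by omega)⟩
  by_cases hB : ∀ v, 100 * del d D Y v p₃ p₄ ≤ 20 * T v
  · exact Or.inl ⟨p₃, p₄, hB, l4.ge, hon _ (by omega), hon _ (by omega)⟩
  push Not at hA hB
  obtain ⟨i, hi⟩ := hA
  obtain ⟨j, hj⟩ := hB
  right
  refine ⟨i, j, ?_⟩
  -- symmetry
  have s1 := hd.symm p₄ p₃
  have s2 := hd.symm p₃ p₂
  have s3 := hd.symm p₂ p₁
  have s4 := hd.symm p₁ x
  have s5 := hd.symm p₄ x
  have s6 := hd.symm y p₄
  have s7 := hd.symm y x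
  have hsym : ∀ v a b, del d D Y v a b = del d D Y v b a := fun v a b => by
    unfold del
    rw [tau_symm hd]
  obtain ⟨hij, hoy⟩ := split_o C (y := y) (by omega) hi hj (by omega)
  obtain ⟨-, hox⟩ := split_o C (p₁ := p₄) (p₂ := p₃) (p₃ := p₂) (p₄ := p₁) (y := x) (i := j)
    (j := i) (by omega) (by rw [hsym]; exact hj) (by rw [hsym]; exact hi)
    (by rw [C.hsymm]; omega)
  obtain ⟨q₁, hq₁, q₂, hq₂, f1, f2⟩ := split_far C hi
  obtain ⟨q₃, hq₃, q₄, hq₄, f3, f4⟩ := split_far C hj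
  have hxr : r + t + 44 * D + 13 ≤ dh d Y x p₁ := l1.ge
  have hyr : r + t + 44 * D + 13 ≤ dh d Y y p₄ := by
    rw [C.hsymm]; omega
  have red' : ∀ v, 100 * del d D Y v y x ≤ 51 * T v := fun v => by rw [hsym]; exact red v
  -- positions of the projections
  have g1 := hd.tri x q₁ p₂
  have g2 := hd.tri q₁ q₂ p₂
  have g3 := hd.tri x p₁ q₁
  have g4 := hd.tri q₁ q₂ y
  have g5 := hd.tri q₂ p₂ y
  have g6 := hd.tri p₁ q₁ y
  have g7 := hd.tri x q₃ p₄
  have g8 := hd.tri q₃ q₄ p₄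
  have g9 := hd.tri x p₃ q₃
  have g10 := hd.tri q₃ q₄ y
  have g11 := hd.tri q₄ p₄ y
  have g12 := hd.tri p₃ q₃ y
  have g13 := hd.tri p₁ p₃ q₃
  have g14 := hd.tri x p₂ q₂
  have g15 := hd.tri x p₁ q₂
  have g16 := hd.tri p₁ q₁ q₂
  have g17 := hd.tri x p₄ q₄
  have g18 := hd.tri p₃ q₃ q₄
  have g19 := hd.tri x p₃ q₄
  have g20 := hd.tri x p₃ p₄
  have g21 := hd.tri x p₂ y
  have g22 := hd.tri x p₃ y
  have g24 := hd.tri p₂ p₄ y
  have g25 := hd.tri q₂ p₂ p₄
  have g26 := hd.tri p₁ p₄ y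
  have u1 := hd.symm y q₁
  have u2 := hd.symm y q₂
  have u3 := hd.symm y q₃
  have u4 := hd.symm y q₄
  have u5 := hd.symm q₂ x
  have u6 := hd.symm q₄ x
  have u7 := hd.symm p₄ q₄
  have u8 := hd.symm p₄ q₂
  have u9 := hd.symm q₁ x
  have u10 := hd.symm q₃ x
  exact
    { red := red
      ne := hij
      bi := by
        have := tau_mono (Y := Y i) hd (C.w.Yne i) (c := 0) (x := x) (y := y) (z := p₁) (w := p₂)
          (by omega)
        unfold del at hi ⊢
        omega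
      bj := by
        have := tau_mono (Y := Y j) hd (C.w.Yne j) (c := 0) (x := x) (y := y) (z := p₃) (w := p₄)
          (by omega)
        unfold del at hj ⊢
        omega
      rix := fun w hw => split_m C red (p := p₁) (q := q₁) (by unfold On; omega)
        (by unfold On; omega) hxr hq₁ hw
      riy := fun w hw => split_m C red' (p := p₄) (q := q₂) (by unfold On; omega)
        (by unfold On; omega) hyr hq₂ hw
      rjx := fun w hw => split_m C red (p := p₁) (q := q₃) (by unfold On; omega)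
        (by unfold On; omega) hxr hq₃ hw
      rjy := fun w hw => split_m C red' (p := p₄) (q := q₄) (by unfold On; omega)
        (by unfold On; omega) hyr hq₄ hw
      ox := hox
      oy := hoy }

end Pool.Agent.Lib.MP_0a5b83_al_B
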