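import Pool.Agent.Lib.MP_0a5b83_al_B.FamDefs
import Pool.Agent.Lib.MP_0a5b83_al_B.GM

/-! JOB STD : the standard family of roots. -/

set_option autoImplicit false

namespace Pool.Agent.Lib.MP_0a5b83_al_B

variable {G X : Type} [Group G] [MulAction G X] {d : X → X → ℕ} {D Q m : ℕ}

/-- The roots with minimal displacement at most `6 * D + 2`. -/
def stdR (G : Type) {X : Type} [Group G] [MulAction G X] (d : X → X → ℕ) (D Q : ℕ) : Set G :=
  {r | Root d Q r ∧ mind d r ≤ 6 * D + 2}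

theorem std_mem_zpowers_conj (g r f : G) :
    f ∈ Subgroup.zpowers (g * r * g⁻¹) ↔ g⁻¹ * f * g ∈ Subgroup.zpowers r := by
  rw [Subgroup.mem_zpowers_iff, Subgroup.mem_zpowers_iff]
  constructor
  · rintro ⟨k, rfl⟩
    refine ⟨k, ?_⟩
    rw [conj_zpow]
    group
  · rintro ⟨k, hk⟩
    refine ⟨k, ?_⟩
    rw [conj_zpow, hk]
    group

theorem stdR_conj (hi : Inv G d) : ConjCl (stdR G d D Q) := by
  refine ⟨fun r hr g => ?_⟩
  obtain ⟨⟨hl, hc⟩, hm⟩ := hr
  refine ⟨⟨hl.conj hi g, ?_⟩, ?_⟩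
  · ext f
    rw [Subgroup.mem_centralizer_singleton_iff, std_mem_zpowers_conj, ← hc,
      Subgroup.mem_centralizer_singleton_iff]
    constructor
    · intro h
      have h' := congrArg (fun z => g⁻¹ * z * g) h
      calc g⁻¹ * f * g * r = g⁻¹ * (f * (g * r * g⁻¹)) * g := by group
        _ = g⁻¹ * (g * r * g⁻¹ * f) * g := h'
        _ = r * (g⁻¹ * f * g) := by group
    · intro h
      have h' := congrArg (fun z => g * z * g⁻¹) h
      calc f * (g * r * g⁻¹) = g * (g⁻¹ * f * g * r) * g⁻¹ := by group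
        _ = g * (r * (g⁻¹ * f * g)) * g⁻¹ := h'
        _ = g * r * g⁻¹ * f := by group
  · rw [mind_conj hi]
    exact hm

/-- The displacement of an integer power. -/
theorem std_disp_zpow (hd : Hyp d D) (hi : Inv G d) (r : G) (a : ℤ) (x : X) :
    d x (r ^ a • x) = d x (r ^ a.natAbs • x) := by
  rcases Int.natAbs_eq a with h | h
  · rw [← zpow_natCast, ← h]
  · have e : r ^ a = (r ^ a.natAbs)⁻¹ := by
      rw [← zpow_natCast, ← zpow_neg, ← h]
    rw [e, Inv.disp_inv hd hi]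

theorem std_growth (hd : Hyp d D) (hi : Inv G d) {r : G} (hr : 6 * D + 3 ≤ mind d r) (n : ℕ)
    (x : X) : n * (3 * D + 2) ≤ d x (r ^ n • x) := by
  have h := growth_linear_mind hd hi (g := r) (by omega) x n
  have h2 : n * (6 * D + 3) ≤ n * mind d r := Nat.mul_le_mul_left _ hr
  have e : n * (6 * D + 3) = n * (3 * D + 2) + n * (3 * D + 1) := by ring
  omega

/-- A loxodromic element with small displacement at some point is a power of a standard root. -/
theorem mem_stdR (E : Ell (G := G) d D Q m) {g : G} (hg : Lox d Q g) {x : X}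
    (h : d x (g • x) ≤ 3 * D + 1) : ∃ r ∈ stdR G d D Q, g ∈ Subgroup.zpowers r := by
  obtain ⟨r, hr, hgr, -⟩ := E.exists_root hg
  refine ⟨r, ⟨hr, ?_⟩, hgr⟩
  by_contra hcon
  push Not at hcon
  obtain ⟨a, rfl⟩ := Subgroup.mem_zpowers_iff.1 hgr
  have ha : a ≠ 0 := by
    rintro rfl
    have := E.ne
    exact hg.zpow_ne_one E.hyp E.inv one_ne_zero (by simp)
  rw [std_disp_zpow E.hyp E.inv] at h
  have hgr' := std_growth E.hyp E.inv (r := r) (by omega) a.natAbs x
  have h1 : 1 ≤ a.natAbs := Int.natAbs_pos.2 ha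
  have h2 : 1 * (3 * D + 2) ≤ a.natAbs * (3 * D + 2) := Nat.mul_le_mul_right _ h1
  omega

theorem std_unkilled (E : Ell (G := G) d D Q m) (g : G) (hg : Lox d Q g)
    (h : ∀ r ∈ stdR G d D Q, g ∉ Subgroup.zpowers r) (x : X) (n : ℕ) :
    n * (mind d g + 1) ≤ 2 * d x (g ^ n • x) := by
  have hne := E.ne
  obtain ⟨r, hr, hgr, -⟩ := E.exists_root hg
  have hmr : 6 * D + 3 ≤ mind d r := by
    by_contra hcon
    exact h r ⟨hr, by omega⟩ hgr
  obtain ⟨a, ha⟩ := Subgroup.mem_zpowers_iff.1 hgr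
  have ha0 : a ≠ 0 := by
    rintro rfl
    exact hg.zpow_ne_one E.hyp E.inv one_ne_zero (by simp [← ha])
  have h1 : 1 ≤ a.natAbs := Int.natAbs_pos.2 ha0
  have hmg : 6 * D + 3 ≤ mind d g := by
    obtain ⟨z, hz⟩ := exists_mind (X := X) d g
    rw [← hz, ← ha, std_disp_zpow E.hyp E.inv]
    rcases Nat.lt_or_ge 1 a.natAbs with h2 | h2
    · have h3 := std_growth E.hyp E.inv (r := r) hmr a.natAbs z
      have h4 : 2 * (3 * D + 2) ≤ a.natAbs * (3 * D + 2) := Nat.mul_le_mul_right _ h2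
      omega
    · have e : a.natAbs = 1 := by omega
      rw [e, pow_one]
      exact hmr.trans (mind_le d r z)
  have hgl := growth_linear_mind E.hyp E.inv (g := g) (by omega) x n
  have h5 : n * (6 * D + 3) ≤ n * mind d g := Nat.mul_le_mul_left _ hmg
  have e1 : n * (6 * D + 3) = n * 1 + 2 * (n * (3 * D + 1)) := by ring
  have e2 : n * (mind d g + 1) = n * mind d g + n * 1 := by ring
  omega

theorem std_disp_root (E : Ell (G := G) d D Q m) {r : G} (hr : r ∈ stdR G d D Q)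
    (hT : 5 * D + 3 ≤ mind d (r ^ m)) {y : X} (hy : y ∈ Ax d D (r ^ m)) :
    d y (r • y) ≤ 17 * D + 4 := by
  have hne := E.ne
  obtain ⟨z, hz⟩ := exists_mind (X := X) d r
  have h := ax_comm_disp E.hyp E.inv hT (c := 3 * D + 1) hy
    (f := r) ((Commute.refl r).pow_right m) z
  have := hr.2
  omega

theorem std_big (E : Ell (G := G) d D Q m) {T₀ : ℕ} (hm : Q * T₀ ≤ m) {r : G}
    (hr : r ∈ stdR G d D Q) : T₀ ≤ mind d (r ^ m) := by
  have hne := E.ne
  obtain ⟨z, hz⟩ := exists_mind (X := X) d (r ^ m)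
  rw [← hz]
  have h1 := hr.1.1 z m
  have hQ : 0 < Q := by
    rcases Nat.eq_zero_or_pos Q with h0 | h0
    · exfalso
      have h2 := hr.1.1 z 1
      rw [h0, zero_mul] at h2
      omega
    · exact h0
  exact Nat.le_of_mul_le_mul_left (hm.trans h1) hQ

theorem std_fam (E : Ell (G := G) d D Q m) {M₀ A T₀ : ℕ} (hM : 45 * D ≤ M₀)
    (acyl : ∀ x y : X, A ≤ d x y → ∃ h : G, ∀ f : G, d x (f • x) ≤ M₀ → d y (f • y) ≤ M₀ →
      f ∈ Subgroup.zpowers h)
    (hT : 5 * D + 3 ≤ T₀) (hm : Q * T₀ ≤ m) :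
    Fam d D m Q (A + 10 * (417 * D + 204) + 20 * D + 2) T₀ m (stdR G d D Q) := by
  have hne := E.ne
  have hbig : ∀ r ∈ stdR G d D Q, T₀ ≤ mind d (r ^ m) := fun r hr => std_big E hm hr
  refine ⟨fun r hr => hr.1, Or.inr rfl, hbig, ?_, ?_, ?_⟩
  · intro r hr r' hr' hne' p hp p' hp' h1 h2
    by_contra hcon
    push Not at hcon
    have hA' : (Ax d D (r' ^ m)).Nonempty := by
      obtain ⟨z, hz⟩ := exists_mind (X := X) d (r' ^ m)
      exact ⟨z, by show d z _ ≤ _; omega⟩
    have hm1 : ∀ q ∈ Ax d D (r ^ m), d q (r • q) ≤ 417 * D + 204 := by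
      intro q hq
      have := std_disp_root E hr (hT.trans (hbig r hr)) hq
      omega
    have hm2 : ∀ q : X, dS d (Ax d D (r' ^ m)) q ≤ 200 * D + 100 →
        d q (r' • q) ≤ 417 * D + 204 := by
      intro q hq
      obtain ⟨y, hy, hy2⟩ := exists_dS (d := d) hA' q
      have hy3 := std_disp_root E hr' (hT.trans (hbig r' hr')) hy
      have t1 := E.hyp.tri q y (r' • q)
      have t2 := E.hyp.tri y (r' • y) (r' • q)
      have e1 : d (r' • y) (r' • q) = d y q := E.inv r' y q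
      have s1 := E.hyp.symm y q
      omega
    obtain ⟨h, hh⟩ := gm E hM acyl (M := 417 * D + 204) (x := p) (y := p') (by omega)
    have k1 := hh r (hm1 p hp) (hm1 p' hp')
    have k2 := hh r' (hm2 p h1) (hm2 p' h2)
    have hcomm : r * r' = r' * r := by
      obtain ⟨i, hi⟩ := Subgroup.mem_zpowers_iff.1 k1
      obtain ⟨j, hj⟩ := Subgroup.mem_zpowers_iff.1 k2
      rw [← hi, ← hj]
      exact ((Commute.refl h).zpow_zpow i j).eq
    apply hne'
    apply le_antisymm
    · rw [Subgroup.zpowers_le, ← hr'.1.2, Subgroup.mem_centralizer_singleton_iff]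
      exact hcomm
    · rw [Subgroup.zpowers_le, ← hr.1.2, Subgroup.mem_centralizer_singleton_iff]
      exact hcomm.symm
  · intro g hg h x n
    exact std_unkilled E g hg h x n
  · intro _ r hr y hy
    have := std_disp_root E hr (hT.trans (hbig r hr)) hy
    omega

end Pool.Agent.Lib.MP_0a5b83_al_B
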