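import Pool.Agent.Lib.MP_0a5b83_al_B.Ctx

/-! JOB UNK : elements of the kernel have large displacement. -/

set_option autoImplicit false

namespace Pool.Agent.Lib.MP_0a5b83_al_B

variable {G X I : Type} [Group G] [MulAction G X] [MulAction G I] {d : X → X → ℕ}
  {D Q m Δ θ t : ℕ} {Y : I → Set X} {H : I → Subgroup G} {T : I → ℕ}

theorem Ctx.small_inj (C : Ctx d D Q m Δ θ t Y H T) {k : G} (hk : k ∈ KK H) {x : X}
    (h : d x (k • x) ≤ 1) : k = 1 := by
  by_contra hne
  obtain ⟨i, hi⟩ := greendlinger C.w hk hne x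
  have h1 := C.Tbig i
  have h2 : del d D Y i x (k • x) ≤ d x (k • x) + 2 * (21 * D + 6) := by
    unfold del
    have := tau_le (d := d) (Y i) x (k • x)
    omega
  have h3 := C.θbig
  have h4 : 5 * θ ≤ BB D t θ := by unfold BB; exact Nat.mul_le_mul_right _ (by omega)
  omega

end Pool.Agent.Lib.MP_0a5b83_al_B
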