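import Pool.Agent.Lib.MP_0a5b83_al_B.QuoC
import Pool.Agent.Lib.MP_0a5b83_al_B.FamB
import Pool.Agent.Lib.MP_0a5b83_al_B.Resc
import Pool.Agent.Lib.MP_0a5b83_al_B.Unk
import Pool.Agent.Lib.MP_0a5b83_al_B.Std

/-! JOB STEP : one step of the construction, with all the constants. -/

set_option autoImplicit false

namespace Pool.Agent.Lib.MP_0a5b83_al_B

/-- The cone-off constant. -/
noncomputable def t0 : ℕ := (cone_add 2 (4 * 2 + 1)).choose

/-- The hyperbolicity constant of the cone-off. -/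
noncomputable def D1 : ℕ := DD 2 t0

/-- The rescaling factor. -/
noncomputable def s0 : ℕ := D1 + 4

/-- The displacement used in the acylindricity invariant. -/
def M0 : ℕ := 90

theorem exists_J0 (x : ℕ) : ∃ J : ℕ, (54 * x + 3) * (54 * x + 3) < J := ⟨_, Nat.lt_add_one _⟩

/-- The pigeonhole constant; the exponent is at least this. (Given by a choice so that the kernel
never evaluates this closed natural number.) -/
noncomputable def J0 : ℕ := (exists_J0 D1).choose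

theorem J0_spec : (54 * DD 2 t0 + 3) * (54 * DD 2 t0 + 3) < J0 := (exists_J0 D1).choose_spec

/-- The growth constant after a step with overlap constant `Δ`. -/
noncomputable def Q1 (Δ : ℕ) : ℕ := s0 * (2 * (Δ + 211 * 2 + 103))

/-- The fellow travelling constant of the angles. -/
def th1 (Δ : ℕ) : ℕ := Δ + 5 * (21 * 2 + 6) + 1

/-- The full angles have to be at least this. -/
noncomputable def T1 (Δ : ℕ) : ℕ := 1000 * th1 Δ + 100 * BB 2 t0 (th1 Δ)

theorem step_TH (t J R A : ℕ) : TH 2 t J A R = 3 * A + TH 2 t J 0 R := by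
  unfold TH LL
  ring

theorem step_A0 {s c A : ℕ} (hs : 4 ≤ s) (hA : c + 5 ≤ A) : 3 * A + c ≤ s * (A - 1) + 1 := by
  have h5 : 4 * (A - 1) ≤ s * (A - 1) := Nat.mul_le_mul_right _ hs
  omega

theorem exists_A0 : ∃ A0 : ℕ, 1 ≤ A0 ∧ ∀ A, A0 ≤ A → TH 2 t0 J0 A (s0 * M0) ≤ s0 * (A - 1) + 1 :=
  ⟨TH 2 t0 J0 0 (s0 * M0) + 5, Nat.le_add_left _ _ |>.trans' (by norm_num), fun A hA => by
    rw [step_TH]
    exact step_A0 (Nat.le_add_left _ _) hA⟩

/-- The acylindricity constant is at least this. -/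
noncomputable def A0 : ℕ := exists_A0.choose

/-- A family stays a family if the overlap constant is increased. -/
theorem Fam.mono {G X : Type} [Group G] [MulAction G X] {d : X → X → ℕ}
    {D m Q Δ Δ' T₀ q : ℕ} {R : Set G} (F : Fam d D m Q Δ T₀ q R) (h : Δ ≤ Δ') :
    Fam d D m Q Δ' T₀ q R where
  root := F.root
  hq := F.hq
  big := F.big
  ov := fun r hr r' hr' hne p hp p' hp' h1 h2 =>
    (F.ov r hr r' hr' hne p hp p' hp' h1 h2).trans h
  unkilled := F.unkilled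
  small := fun hq r hr y hy => (F.small hq r hr y hy).trans h

theorem step_T1 (Δ : ℕ) : 5 * 2 + 3 ≤ T1 Δ := by
  unfold T1 th1
  omega

theorem step {G : Type} [Group G] {d : G → G → ℕ} {Q m A Δ T₀ q : ℕ} {R : Set G} [ConjCl R]
    (hm : m.Prime) (ho : m ≠ 2) (hJ : J0 ≤ m) (hA : A0 ≤ A) (h : Good d 2 Q m M0 A)
    (F : Fam d 2 m Q Δ T₀ q R) (hT : T1 Δ ≤ T₀) :
    ∃ (G' : Type) (_ : Group G') (φ : G →* G') (d' : G' → G' → ℕ), Function.Surjective φ ∧
      Good d' 2 (Q1 Δ) m M0 A ∧ (∀ x y, d' (φ x) (φ y) ≤ (d x y + (s0 - 1)) / s0) ∧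
      (∀ r ∈ R, φ (r ^ q) = 1) ∧ (∀ k, φ k = 1 → d 1 k ≤ 1 → k = 1) := by
  have hM : 7 * 2 + 1 ≤ M0 := by unfold M0; omega
  have hM' : 45 * 2 ≤ M0 := by unfold M0; omega
  have E := h.ell hm ho hM
  have hT13 : 5 * 2 + 3 ≤ T₀ := (step_T1 Δ).trans hT
  have hadd : ∀ x y z, On d 0 x y z → On (dh d (fY d 2 q (R := R))) t0 x y z :=
    (cone_add 2 (4 * 2 + 1)).choose_spec G (FIdx R) d (fY d 2 q) h.hyp h.sep
      (fun i => fY_qc E F hT13 i)
  have C := fam_ctx E h.sep F (θ := th1 Δ) (t := t0) hadd (by unfold th1; omega)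
    (le_trans (by unfold T1; omega) hT) (le_trans (by unfold T1; omega) hT)
  have hJJ : (54 * DD 2 t0 + 3) * (54 * DD 2 t0 + 3) < J0 := J0_spec
  have hs : 1 ≤ s0 := by unfold s0; omega
  have hD : DD 2 t0 ≤ s0 := by unfold s0 D1; omega
  have hA1 : 1 ≤ A := exists_A0.choose_spec.1.trans hA
  have hA2 : TH 2 t0 J0 A (s0 * M0) ≤ s0 * (A - 1) + 1 := exists_A0.choose_spec.2 A hA
  have hN : (KK (fH q (R := R))).Normal := C.normal
  refine ⟨G ⧸ KK (fH q (R := R)), inferInstance, QuotientGroup.mk' _,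
    dres s0 (dq d (fY d 2 q (R := R)) (fH q (R := R))), QuotientGroup.mk'_surjective _,
    good_dres hm.one_le (C.quo (s0 * M0) hM' h.acyl hJJ hJ) hs hD hA1 hA2, ?_, ?_, ?_⟩
  · intro x y
    unfold dres
    apply Nat.div_le_div_right
    apply Nat.add_le_add_right
    rw [QuotientGroup.mk'_apply, QuotientGroup.mk'_apply, C.dq_mk]
    exact (C.db_le_dh x y).trans (dh_le h.hyp h.sep _ x y)
  · intro r hr
    rw [QuotientGroup.mk'_apply, QuotientGroup.eq_one_iff]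
    obtain ⟨i, hi⟩ : ∃ i : FIdx R, i.1 = Subgroup.zpowers r :=
      ⟨⟨Subgroup.zpowers r, r, hr, rfl⟩, rfl⟩
    apply mem_KK (i := i)
    have h1 : r ∈ Subgroup.zpowers (rt i) := by
      rw [← rt_spec i, hi]
      exact Subgroup.mem_zpowers r
    obtain ⟨a, ha⟩ := Subgroup.mem_zpowers_iff.1 h1
    unfold fH
    rw [Subgroup.mem_zpowers_iff]
    refine ⟨a, ?_⟩
    rw [← ha, ← zpow_natCast, ← zpow_natCast, ← zpow_mul, ← zpow_mul, mul_comm]
  · intro k hk hk1
    rw [QuotientGroup.mk'_apply, QuotientGroup.eq_one_iff] at hk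
    refine C.small_inj hk (x := 1) ?_
    rw [smul_eq_mul, mul_one]
    exact hk1

/-- The overlap constant of the standard family. -/
def Del1 (A : ℕ) : ℕ := A + 10 * (417 * 2 + 204) + 20 * 2 + 2

/-- The standard step: all elements of displacement at most one get finite order. -/
theorem std_step {G : Type} [Group G] {d : G → G → ℕ} {m A Δ : ℕ}
    (hm : m.Prime) (ho : m ≠ 2) (hJ : J0 ≤ m) (hA : A0 ≤ A) (hΔ : Del1 A ≤ Δ)
    (hmT : Q1 Δ * T1 Δ ≤ m) (h : Good d 2 (Q1 Δ) m M0 A) :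
    ∃ (G' : Type) (_ : Group G') (φ : G →* G') (d' : G' → G' → ℕ), Function.Surjective φ ∧
      Good d' 2 (Q1 Δ) m M0 A ∧ (∀ x y, d' (φ x) (φ y) ≤ (d x y + (s0 - 1)) / s0) ∧
      (∀ g, d 1 g ≤ 1 → φ (g ^ m) = 1) ∧ (∀ k, φ k = 1 → d 1 k ≤ 1 → k = 1) := by
  have hM : 7 * 2 + 1 ≤ M0 := by unfold M0; omega
  have hM' : 45 * 2 ≤ M0 := by unfold M0; omega
  have E := h.ell hm ho hM
  have : ConjCl (stdR G d 2 (Q1 Δ)) := stdR_conj h.inv
  have F := (std_fam E (A := A) (T₀ := T1 Δ) hM' h.acyl (step_T1 Δ) hmT).mono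
    (Δ' := Δ) (le_trans (by unfold Del1; omega) hΔ)
  obtain ⟨G', hG', φ, d', h1, h2, h3, h4, h5⟩ := step hm ho hJ hA h F le_rfl
  refine ⟨G', hG', φ, d', h1, h2, h3, ?_, h5⟩
  intro g hg
  rcases h.dich g with hd | hd
  · rw [hd, map_one]
  · obtain ⟨r, hr, hgr⟩ := mem_stdR E hd (x := 1) (by rw [smul_eq_mul, mul_one]; omega)
    obtain ⟨a, rfl⟩ := Subgroup.mem_zpowers_iff.1 hgr
    have h6 := h4 r hr
    rw [← zpow_natCast, ← zpow_mul, mul_comm, zpow_mul, zpow_natCast, map_zpow, h6, one_zpow]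

end Pool.Agent.Lib.MP_0a5b83_al_B
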