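import Pool.Agent.Lib.MP_0a5b83_al_B.T2Defs

/-! JOB PERS : persistence of big domains. -/

set_option autoImplicit false

namespace Pool.Agent.Lib.MP_0a5b83_al_B

variable {G X I : Type} [Group G] [MulAction G X] [MulAction G I] {d : X → X → ℕ}
  {D Q m Δ θ t : ℕ} {Y : I → Set X} {H : I → Subgroup G} {T : I → ℕ}

/-- A cone-off geodesic between points with a large angle at `i` jumps in `Y i`. -/
theorem Ctx.pers_jump (C : Ctx d D Q m Δ θ t Y H T) {i : I} {a b : X}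
    (h : BB D t θ < del d D Y i a b) :
    ∃ p ∈ Y i, ∃ q ∈ Y i, dh d Y a p + 1 + dh d Y q b = dh d Y a b := by
  obtain ⟨P, hP⟩ := exists_gpath C.hd C.sep Y a b
  obtain ⟨s, hs, h2, h3, -⟩ := bgi C.hd C.sep C.w.Yne C.qc C.add C.θbig C.w.dom hP h
  have h4 := hP.dist C.hd C.sep (Nat.zero_le s) hs.le
  have h5 := hP.dist C.hd C.sep (a := s + 1) (b := dh d Y a b) (by omega) le_rfl
  rw [hP.zero] at h4
  rw [hP.last] at h5
  exact ⟨P s, h2, P (s + 1), h3, by omega⟩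

/-- The nearest point of a big domain. -/
theorem Ctx.pers_near (C : Ctx d D Q m Δ θ t Y H T) {x y : X}
    (red : ∀ v, 100 * del d D Y v x y ≤ 51 * T v) {i : I}
    (bi : 20 * T i < 100 * del d D Y i x y) :
    ∃ e ∈ Y i, (∀ w ∈ Y i, db d Y H x e ≤ db d Y H x w) ∧ dh d Y x e = db d Y H x e ∧
      del d D Y i x e ≤ BB D t θ := by
  obtain ⟨w0, hw0, hmin⟩ : ∃ w0 ∈ Y i, ∀ w ∈ Y i, db d Y H x w0 ≤ db d Y H x w := by
    obtain ⟨w0, h1, h2⟩ := Nat.sInf_mem ((C.w.Yne i).image (fun w => db d Y H x w))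
    refine ⟨w0, h1, ?_⟩
    intro w hw
    have h3 : db d Y H x w0 = sInf ((fun w => db d Y H x w) '' Y i) := h2
    rw [h3]
    exact Nat.sInf_le ⟨w, hw, rfl⟩
  obtain ⟨h, hh, hturn⟩ := C.w.turn i x w0
  have he : h • w0 ∈ Y i := by
    have := C.w.Yinv h i _ hw0
    rwa [C.w.Hfix i h hh] at this
  have hdb : db d Y H x (h • w0) = db d Y H x w0 := C.db_K (mem_KK hh)
  have hTi := C.w.Tbig i
  have hθ := C.θbig
  -- the projections
  obtain ⟨p, hp, hp2⟩ := exists_dS (d := d) (C.w.Yne i) x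
  obtain ⟨q, hq, hq2⟩ := exists_dS (d := d) (C.w.Yne i) y
  have htau := tau_le_proj C.hd hp2 hq2
  have hdel : del d D Y i x y = tau d (Y i) x y + 2 * (21 * D + 6) := rfl
  have hfar := proj_far C.hd (C.qc i) hp hq hp2 hq2 (by omega)
  have ht := C.hd.tri p q y
  have hself := C.hd.self x
  have hdh : db d Y H x (h • w0) = dh d Y x (h • w0) := by
    apply C.db_eq
    intro v
    by_cases hv : v = i
    · subst hv
      have := C.w.Tbig v
      omega
    · have h1 : tau d (Y v) x p ≤ tau d (Y v) x y + (21 * D + 6) :=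
        tau_mono C.hd (C.w.Yne v) (by omega)
      have h2 : del d D Y v x p ≤ del d D Y v x y + (21 * D + 6) := by
        unfold del; omega
      have h3 := C.w.dom v i hv p hp (h • w0) he
      have h4 := C.w.dtri v x p (h • w0)
      have h5 := red v
      have h6 := C.w.Tbig v
      omega
  refine ⟨h • w0, he, ?_, hdh.symm, ?_⟩
  · intro w hw
    rw [hdb]
    exact hmin w hw
  · by_contra hcon
    push Not at hcon
    obtain ⟨p', hp', q', hq', h7⟩ := C.pers_jump hcon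
    have h8 := hmin p' hp'
    have h9 := C.db_le_dh x p'
    omega

theorem Ctx.pers_low (C : Ctx d D Q m Δ θ t Y H T) {i : I} {p : X} {c : ℕ}
    (h : ∀ w ∈ Y i, c ≤ db d Y H p w) {g g' k : G} (hg' : g' ∈ KK H) (hk : k ∈ KK H) {q : X}
    (hq : q ∈ Y (g' • g • i)) : c ≤ dh d Y (k • g • p) q := by
  have h1 := C.w.Yinv g⁻¹ _ _ (C.w.Yinv g'⁻¹ _ _ hq)
  rw [inv_smul_smul, inv_smul_smul] at h1
  have h2 := h _ h1
  have h3 := C.db_inv g p (g⁻¹ • g'⁻¹ • q)
  rw [smul_inv_smul, C.db_K ((KK H).inv_mem hg')] at h3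
  have h4 := C.db_K' (x := g • p) (y := q) hk
  have h5 := C.db_le_dh (k • g • p) q
  omega

theorem Ctx.persist (C : Ctx d D Q m Δ θ t Y H T) {x y : X}
    (red : ∀ v, 100 * del d D Y v x y ≤ 51 * T v) {i : I} (bi : 20 * T i < 100 * del d D Y i x y)
    {R : ℕ} (hx : ∀ w ∈ Y i, R < db d Y H x w) (hy : ∀ w ∈ Y i, R < db d Y H y w) {g : G}
    (gx : db d Y H x (g • x) ≤ R) (gy : db d Y H y (g • y) ≤ R) :
    ∃ k ∈ KK H, 14 * T i ≤ 100 * del d D Y ((k * g) • i) x y := by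
  have red' : ∀ v, 100 * del d D Y v y x ≤ 51 * T v := by
    intro v
    rw [C.w.dsymm v y x]
    exact red v
  have bi' : 20 * T i < 100 * del d D Y i y x := by
    rw [C.w.dsymm i y x]
    exact bi
  obtain ⟨ex, hex, exm, exd, exB⟩ := C.pers_near red bi
  obtain ⟨ey, hey, eym, eyd, eyB⟩ := C.pers_near red' bi'
  have hB := C.Tbig i
  -- the angle between the two nearest points
  have A : ∀ h ∈ H i, 20 * T i ≤ 100 * del d D Y i ey (h • ex) + 200 * BB D t θ := by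
    intro h hh
    have a1 := C.w.dtri i x ex y
    have a2 := C.w.dtri i ex ey y
    have a3 := C.w.dsymm i ey y
    have a4 := C.w.dsymm i ey ex
    have a5 := C.w.dtri i ex x ey
    have a6 := C.w.dtri i x y ey
    have a7 := C.w.dsymm i ex x
    have a8 := red i
    by_cases h1 : h = 1
    · rw [h1, one_smul]
      omega
    · have b1 := C.w.spin i h hh h1 ex
      have b2 := C.w.dtri i ex ey (h • ex)
      omega
  -- the polygon
  have f := C.bend_comp (C.bend_comp (C.bend_comp (C.bend_comp (C.bend_comp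
    (C.bend_rigid red) (C.bend_flex y (g • y) R))
    (C.bend_flex (g • y) (g • ey) (dh d Y y ey)))
    (C.bend_dom (C.w.Yinv g i ey hey) (C.w.Yinv g i ex hex)))
    (C.bend_flex (g • ex) (g • x) (dh d Y x ex)))
    (C.bend_flex (g • x) x R)
  obtain ⟨k1, m1, e1⟩ := C.exists_db y (g • y)
  obtain ⟨k2, m2, e2⟩ := C.exists_db (g • x) x
  have e2' := C.db_symm (g • x) x
  have hk : k1 * k2 ∈ KK H := (KK H).mul_mem m1 m2
  obtain ⟨b5, ⟨b4, ⟨b3, ⟨b2, ⟨b1, ⟨g1, n1, hx1, hb1⟩, -, ⟨c2, n2, hb2⟩, l2⟩, -, -, l3⟩,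
    ⟨g3, n3, h3, nh3, hb3, hb4⟩⟩, -, ⟨c5, n5, hb5⟩, l5⟩, -, -, l6⟩ :=
    C.bend_close' f (by omega) (a := x) hk
    ⟨k1 • g • x, ⟨k1 • g • ex, ⟨k1 • g • ey, ⟨k1 • g • y, ⟨y,
      ⟨1, one_mem _, by rw [one_smul], by rw [one_smul]⟩,
      ⟨1, one_mem _, by rw [one_smul]⟩, ⟨k1, m1, rfl⟩, by omega⟩,
      ⟨k1, m1, rfl⟩, ⟨k1, m1, rfl⟩, by rw [C.hinv, C.hinv]⟩,
      ⟨k1, m1, 1, one_mem _, rfl, by rw [one_smul]⟩⟩,
      ⟨k1, m1, rfl⟩, ⟨k1, m1, rfl⟩, by rw [C.hinv, C.hinv, C.hsymm]⟩,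
      ⟨k1, m1, rfl⟩, ⟨k1 * k2, hk, rfl⟩, by
        rw [mul_smul, C.hinv]; omega⟩
  refine ⟨g1⁻¹ * g3, (KK H).mul_mem ((KK H).inv_mem n1) n3, ?_⟩
  set Z : I := g3 • g • i with hZ
  -- the domain side
  have s34 : 20 * T i ≤ 100 * del d D Y Z b3 b4 + 200 * BB D t θ := by
    have c1 := C.w.delinv g3 (g • i) (g • ey) (h3 • g • ex)
    have c3 := C.w.delinv g i ey ((g⁻¹ * h3 * g) • ex)
    have c4 : g • ((g⁻¹ * h3 * g) • ex) = h3 • g • ex := by
      simp only [mul_smul, smul_inv_smul]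
    rw [c4] at c3
    have c5 : g⁻¹ * h3 * g ∈ H i := by
      have := C.w.Hinv g⁻¹ (g • i) h3 nh3
      rwa [inv_smul_smul, inv_inv] at this
    have c6 := A _ c5
    rw [hb3, hb4, hZ, c1, c3]
    exact c6
  -- the flexible sides
  have s12 : del d D Y Z b1 b2 ≤ BB D t θ := by
    by_contra hcon
    push Not at hcon
    obtain ⟨p, hp, q, hq, hj⟩ := C.pers_jump hcon
    have := C.pers_low (c := R + 1) (p := y) (i := i) (g := g) (fun w hw => hy w hw) n3 n2 hq
    rw [← hb2] at this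
    have hs := C.hsymm q b2
    omega
  have s23 : del d D Y Z b2 b3 ≤ BB D t θ := by
    by_contra hcon
    push Not at hcon
    obtain ⟨p, hp, q, hq, hj⟩ := C.pers_jump hcon
    have := C.pers_low (c := db d Y H y ey) (p := y) (i := i) (g := g) eym n3 n2 hp
    rw [← hb2] at this
    omega
  have s45 : del d D Y Z b4 b5 ≤ BB D t θ := by
    by_contra hcon
    push Not at hcon
    obtain ⟨p, hp, q, hq, hj⟩ := C.pers_jump hcon
    have := C.pers_low (c := db d Y H x ex) (p := x) (i := i) (g := g) exm n3 n5 hq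
    rw [← hb5] at this
    have hs := C.hsymm q b5
    omega
  have s56 : del d D Y Z b5 x ≤ BB D t θ := by
    by_contra hcon
    push Not at hcon
    obtain ⟨p, hp, q, hq, hj⟩ := C.pers_jump hcon
    have := C.pers_low (c := R + 1) (p := x) (i := i) (g := g) (fun w hw => hx w hw) n3 n5 hp
    rw [← hb5] at this
    omega
  have t1 := C.w.dtri Z b3 b2 b4
  have t2 := C.w.dtri Z b2 b1 b4
  have t3 := C.w.dtri Z b1 x b4
  have t4 := C.w.dtri Z x b5 b4
  have u1 := C.w.dsymm Z b3 b2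
  have u2 := C.w.dsymm Z b2 b1
  have u3 := C.w.dsymm Z b1 x
  have u4 := C.w.dsymm Z x b5
  have u5 := C.w.dsymm Z b5 b4
  have fin : del d D Y ((g1⁻¹ * g3 * g) • i) x y = del d D Y Z x b1 := by
    have c1 := C.w.delinv g1 (g1⁻¹ • Z) x y
    rw [smul_inv_smul, ← hx1, ← hb1] at c1
    rw [c1, hZ, mul_smul, mul_smul]
  rw [fin]
  omega

end Pool.Agent.Lib.MP_0a5b83_al_B
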