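import Pool.Agent.Lib.MP_0a5b83_al_B.Ctx

/-! Pairs with two big domains. -/

set_option autoImplicit false

namespace Pool.Agent.Lib.MP_0a5b83_al_B

/-- `x, y` is a pair with small angles which has two different big domains `i, j` (in this order
from `x` to `y`), at distance at least `r` from `x` and `y`. -/
structure Type2 {X I : Type} {G : Type} [Group G] [MulAction G X] (d : X → X → ℕ) (D : ℕ)
    (Y : I → Set X) (H : I → Subgroup G) (T : I → ℕ) (x y : X) (i j : I) (r : ℕ) : Prop where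
  red : ∀ v, 100 * del d D Y v x y ≤ 51 * T v
  ne : i ≠ j
  bi : 20 * T i < 100 * del d D Y i x y
  bj : 20 * T j < 100 * del d D Y j x y
  rix : ∀ w ∈ Y i, r ≤ db d Y H x w
  riy : ∀ w ∈ Y i, r ≤ db d Y H y w
  rjx : ∀ w ∈ Y j, r ≤ db d Y H x w
  rjy : ∀ w ∈ Y j, r ≤ db d Y H y w
  ox : dS d (Y i) x < dS d (Y j) x
  oy : dS d (Y j) y < dS d (Y i) y

end Pool.Agent.Lib.MP_0a5b83_al_B
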