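import Pool.Agent.Lib.MP_0a5b83_al_B.Axis
import Pool.Agent.Lib.MP_0a5b83_al_B.Cone

/-! JOB TREEA : geometry with the constant `0`. -/

set_option autoImplicit false

namespace Pool.Agent.Lib.MP_0a5b83_al_B

variable {G X : Type} [Group G] [MulAction G X] {d : X → X → ℕ}

/-- Geodesics are unique. -/
theorem tree_uniq (hd : Hyp d 0) (hs : Sep d) {x y z w : X} (hz : On d 0 x y z)
    (hw : On d 0 x y w) (h : d x z = d x w) : z = w := by
  have := close hd hz hw
  exact hs z w (by omega)

/-- Locally geodesic paths are geodesic. -/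
theorem local_geo (hd : Hyp d 0) {P : ℕ → X} (h1 : ∀ k, d (P k) (P (k + 1)) = 1)
    (h2 : ∀ k, d (P k) (P (k + 2)) = 2) (a b : ℕ) : d (P a) (P (a + b)) = b := by
  have key : ∀ b : ℕ, d (P a) (P (a + b)) = b ∧ d (P a) (P (a + (b + 1))) = b + 1 := by
    intro b
    induction b with
    | zero => exact ⟨by simpa using hd.self (P a), by simpa using h1 a⟩
    | succ b ih =>
      obtain ⟨i1, i2⟩ := ih
      refine ⟨i2, ?_⟩
      have f := hd.four (P a) (P (a + (b + 1))) (P (a + b)) (P (a + (b + 1 + 1)))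
      have e1 := h2 (a + b)
      have e2 := h1 (a + b)
      have e3 := h1 (a + b + 1)
      have s1 := hd.symm (P (a + (b + 1))) (P (a + b))
      have t1 := hd.tri (P a) (P (a + (b + 1))) (P (a + (b + 1 + 1)))
      rw [show a + b + 2 = a + (b + 1 + 1) by ring] at e1
      rw [show a + b + 1 + 1 = a + (b + 1 + 1) by ring] at e3
      rw [show a + b + 1 = a + (b + 1) by ring] at e2 e3
      omega
  exact (key b).1

/-- Linear growth at one point gives linear growth at all points, without loss. -/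
theorem growth_transfer {D : ℕ} (hd : Hyp d D) (hi : Inv G d) {g : G} {z : X} {c c' : ℕ}
    (h : ∀ n : ℕ, n * c ≤ d z (g ^ n • z) + c') (x : X) (n : ℕ) : n * c ≤ d x (g ^ n • x) := by
  by_contra hcon
  push Not at hcon
  obtain ⟨N, hN⟩ : ∃ N, N = 2 * d x z + c' + 1 := ⟨_, rfl⟩
  have h1 := h (n * N)
  have h2 := disp_pow_le hd hi (g ^ n) x N
  rw [← pow_mul] at h2
  have t1 := hd.tri z x (g ^ (n * N) • z)
  have t2 := hd.tri x (g ^ (n * N) • x) (g ^ (n * N) • z)
  have e1 : d (g ^ (n * N) • x) (g ^ (n * N) • z) = d x z := hi _ _ _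
  have s1 := hd.symm z x
  have h3 : N * (d x (g ^ n • x) + 1) ≤ N * (n * c) := Nat.mul_le_mul_left _ hcon
  have h4 : n * N * c = N * (n * c) := by ring
  have h5 : N * (d x (g ^ n • x) + 1) = N * d x (g ^ n • x) + N := by ring
  omega

/-- In a tree (`D = 0`) an isometry with minimal displacement at least `2` grows exactly. -/
theorem tree_growth (hd : Hyp d 0) (hi : Inv G d) [Nonempty X] {g : G} (h : 2 ≤ mind d g)
    (x : X) (n : ℕ) : n * mind d g ≤ d x (g ^ n • x) := by
  obtain ⟨z, hz⟩ := exists_mind (X := X) d g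
  obtain ⟨w, hw1, hw2⟩ := hd.geo z (g • z) 1 (by omega)
  have m1 := mind_le d g w
  have e1 : d (g • z) (g • w) = d z w := hi g z w
  have e2 : d (g • z) (g ^ 2 • z) = d z (g • z) := by rw [pow_two, mul_smul]; exact hi g _ _
  have e3 : d (g • w) (g ^ 2 • z) = d w (g • z) := by rw [pow_two, mul_smul]; exact hi g _ _
  have f1 := hd.four z (g • z) w (g • w)
  have f2 := hd.four z (g • w) (g • z) (g ^ 2 • z)
  have s1 := hd.symm (g • z) w
  have s2 := hd.symm (g • w) (g • z)
  have key : d z (g • z) + 0 + mind d g ≤ d z (g ^ 2 • z) := by omega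
  refine growth_transfer hd hi (z := z) (c' := 0) (fun n => ?_) x n
  have := growth_linear hd hi (e := mind d g) (by omega) key n
  rw [Nat.mul_comm]
  omega

end Pool.Agent.Lib.MP_0a5b83_al_B
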