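import Mathlib

/-!
Axioms of a rotation family with large angles (windmill setting).
`del i x y` is the angle at the domain `i` between `x` and `y`, `nu x i` the distance from `x` to
the domain `Y i`, `H i` the rotation group at `i`, `T i` the full angle.
-/

set_option autoImplicit false

namespace Pool.Agent.Lib.MP_0a5b83_al_B

structure Wind {G X I : Type} [Group G] [MulAction G X] [MulAction G I] (d : X → X → ℕ)
    (Y : I → Set X) (nu : X → I → ℕ) (del : I → X → X → ℕ) (H : I → Subgroup G) (T : I → ℕ)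
    (θ : ℕ) : Prop where
  Yne : ∀ i, (Y i).Nonempty
  Yinv : ∀ (g : G) i y, y ∈ Y i → g • y ∈ Y (g • i)
  nuinv : ∀ (g : G) x i, nu (g • x) (g • i) = nu x i
  delinv : ∀ (g : G) i x y, del (g • i) (g • x) (g • y) = del i x y
  dsymm : ∀ i x y, del i x y = del i y x
  dtri : ∀ i x y z, del i x z ≤ del i x y + del i y z
  dself : ∀ i x, del i x x ≤ θ
  dom : ∀ i j, i ≠ j → ∀ y ∈ Y j, ∀ y' ∈ Y j, del i y y' ≤ θ
  near : ∀ i j, i ≠ j → ∀ x, ∀ y ∈ Y j, θ < del i x y → nu x i < nu x j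
  Hinv : ∀ (g : G) i h, h ∈ H i → g * h * g⁻¹ ∈ H (g • i)
  Hfix : ∀ i, ∀ h ∈ H i, h • i = i
  spin : ∀ i, ∀ h ∈ H i, h ≠ 1 → ∀ x, T i ≤ del i x (h • x)
  Tinv : ∀ (g : G) i, T (g • i) = T i
  Tbig : ∀ i, 1000 * θ ≤ T i
  θpos : 1 ≤ θ
  turn : ∀ i x z, ∃ h ∈ H i, 100 * del i x (h • z) ≤ 51 * T i
  turnY : ∀ i l, i ≠ l → ∀ x, ∀ y ∈ Y l, 51 * T i < 100 * del i x y →
    ∃ h ∈ H i, nu x (h • l) < nu x l
  turnX : ∀ i x z, 51 * T i < 100 * del i x z → ∃ h ∈ H i, d x (h • z) < d x z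

variable {G X I : Type} [Group G] [MulAction G X] [MulAction G I]

/-- The group generated by the rotations around the domains in `W`. -/
def KW (H : I → Subgroup G) (W : Set I) : Subgroup G := ⨆ i ∈ W, H i

/-- A windmill with base point `x₀`. -/
structure Mill (Y : I → Set X) (del : I → X → X → ℕ) (H : I → Subgroup G) (T : I → ℕ) (θ : ℕ)
    (x₀ : X) (W : Set I) : Prop where
  inv : ∀ k ∈ KW H W, ∀ i ∈ W, k • i ∈ W
  big : ∀ k ∈ KW H W, k ≠ 1 → ∃ i ∈ W, T i ≤ del i x₀ (k • x₀) + 14 * θ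
  adj : ∀ l ∈ W, ∃ k ∈ KW H W, (∀ i, i ∉ W → ∀ y ∈ Y l, del i (k • x₀) y ≤ θ) ∧
    ∀ i, i ≠ l → ∀ y ∈ Y l, 100 * del i (k • x₀) y ≤ 51 * T i

end Pool.Agent.Lib.MP_0a5b83_al_B
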